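import Mathlib
import Pool.Agent.TH278.DX.Defs3
set_option autoImplicit false

namespace Pool.Agent.TH753.J5177

theorem mk_lp {G W : Type} [NormedAddCommGroup W] (a : G → W) (C : ℝ) (hC : 0 ≤ C)
    (h : ∀ S : Finset G, ∑ s ∈ S, ‖a s‖ ^ 2 ≤ C ^ 2) :
    ∃ A : lp (fun _ : G => W) 2, (∀ s, A s = a s) ∧ ‖A‖ ≤ C := by
  have h2 : (2 : ENNReal).toReal = (2 : ℝ) := by norm_num
  have hm : Memℓp a 2 := by
    apply memℓp_gen' (C := C ^ 2)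
    intro S
    rw [h2]
    simpa using h S
  refine ⟨⟨a, hm⟩, fun s => rfl, ?_⟩
  apply lp.norm_le_of_forall_sum_le (by norm_num) hC
  intro S
  rw [h2]
  simpa using h S

theorem lp_sum_le {G W : Type} [NormedAddCommGroup W] (φ : lp (fun _ : G => W) 2)
    (S : Finset G) : ∑ s ∈ S, ‖φ s‖ ^ 2 ≤ ‖φ‖ ^ 2 := by
  have := lp.sum_rpow_le_norm_rpow (p := 2) (by norm_num) φ S
  simpa using this

theorem shift_le {G : Type} [Group G] (F : G → ℝ) (hF : ∀ x, 0 ≤ F x) (S S' : Finset G) (k : G)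
    (h : ∀ s ∈ S, s * k ∈ S') : ∑ s ∈ S, F (s * k) ≤ ∑ x ∈ S', F x := by
  classical
  have h1 : ∑ x ∈ S.image (fun s => s * k), F x = ∑ s ∈ S, F (s * k) :=
    Finset.sum_image (fun a _ b _ hab => mul_right_cancel hab)
  rw [← h1]
  apply Finset.sum_le_sum_of_subset_of_nonneg
  · intro x hx
    obtain ⟨s, hs, rfl⟩ := Finset.mem_image.1 hx
    exact h s hs
  · intro x _ _
    exact hF x

theorem cs_norm {ι W : Type} [NormedAddCommGroup W] [InnerProductSpace ℂ W] (K : Finset ι)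
    (c : ι → ℝ) (z : ι → W) (h : ∑ k ∈ K, c k ^ 2 = 1) :
    ‖∑ k ∈ K, ((c k : ℝ) : ℂ) • z k‖ ^ 2 ≤ ∑ k ∈ K, ‖z k‖ ^ 2 := by
  have h1 : ‖∑ k ∈ K, ((c k : ℝ) : ℂ) • z k‖ ≤ ∑ k ∈ K, |c k| * ‖z k‖ := by
    refine (norm_sum_le _ _).trans (Finset.sum_le_sum fun k _ => ?_)
    rw [norm_smul, Complex.norm_real, Real.norm_eq_abs]
  have h2 := Finset.sum_mul_sq_le_sq_mul_sq K (fun k => |c k|) (fun k => ‖z k‖)
  simp only [sq_abs, h, one_mul] at h2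
  exact (pow_le_pow_left₀ (norm_nonneg _) h1 2).trans h2

theorem kappa_le {G : Type} [Group G] (K : Finset G) (ξ : G → G → ℝ)
    (hξ0 : ∀ v x, ξ v x ≠ 0 → v⁻¹ * x ∈ K)
    (hξ1 : ∀ v, ∑ k ∈ K, ξ v (v * k) ^ 2 = 1) (s g : G) :
    ∑ k ∈ K, ξ s (s * k) * ξ (s * g) (s * k) ≤ 1 := by
  classical
  have h1 : ∑ k ∈ K, ξ (s * g) (s * k) ^ 2 ≤ 1 := by
    rw [← hξ1 (s * g)]
    have e1 : ∑ k ∈ K, ξ (s * g) (s * k) ^ 2 =
        ∑ k ∈ K.filter (fun k => ξ (s * g) (s * k) ≠ 0), ξ (s * g) (s * k) ^ 2 := by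
      rw [Finset.sum_filter]
      refine Finset.sum_congr rfl fun k _ => ?_
      split_ifs with h
      · rfl
      · rw [not_not.1 h]
        norm_num
    have e2 : ∑ x ∈ (K.filter (fun k => ξ (s * g) (s * k) ≠ 0)).image (fun k => g⁻¹ * k),
        ξ (s * g) (s * g * x) ^ 2 =
        ∑ k ∈ K.filter (fun k => ξ (s * g) (s * k) ≠ 0), ξ (s * g) (s * k) ^ 2 := by
      rw [Finset.sum_image (fun a _ b _ hab => mul_left_cancel hab)]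
      refine Finset.sum_congr rfl fun k _ => ?_
      have : s * g * (g⁻¹ * k) = s * k := by group
      rw [this]
    rw [e1, ← e2]
    apply Finset.sum_le_sum_of_subset_of_nonneg
    · intro x hx
      obtain ⟨k, hk, rfl⟩ := Finset.mem_image.1 hx
      have h5 := hξ0 _ _ (Finset.mem_filter.1 hk).2
      have : (s * g)⁻¹ * (s * k) = g⁻¹ * k := by group
      rwa [this] at h5
    · intro x _ _
      positivity
  have h2 : ∑ k ∈ K, ξ s (s * k) * ξ (s * g) (s * k) ≤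
      ∑ k ∈ K, (ξ s (s * k) ^ 2 + ξ (s * g) (s * k) ^ 2) / 2 := by
    refine Finset.sum_le_sum fun k _ => ?_
    nlinarith [sq_nonneg (ξ s (s * k) - ξ (s * g) (s * k))]
  rw [← Finset.sum_div, Finset.sum_add_distrib, hξ1 s] at h2
  linarith

theorem localize {G W : Type} [Group G] [NormedAddCommGroup W] [InnerProductSpace ℂ W]
    [CompleteSpace W] (E : Finset G) (Y : G → (W →L[ℂ] W)) (f : G → ℝ) (hf : ∀ g, 0 ≤ f g)
    (hY : ∀ g, ‖Y g‖ ≤ 1) (w : G → G → ℝ) (hw : ∀ s v, |w s v| ≤ 1)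
    (T : lp (fun _ : G => W) 2 →L[ℂ] lp (fun _ : G => W) 2)
    (hT : ∀ (φ : lp (fun _ : G => W) 2) (s : G),
        T φ s = ∑ g ∈ E, ((f g * w s (s * g) : ℝ) : ℂ) • Y g (φ (s * g)))
    (K : Finset G) (ξ : G → G → ℝ) (hξ0 : ∀ v x, ξ v x ≠ 0 → v⁻¹ * x ∈ K)
    (hξ1 : ∀ v, ∑ k ∈ K, ξ v (v * k) ^ 2 = 1) (ε : ℝ) (hε : 0 ≤ ε)
    (hξ2 : ∀ v, ∀ g ∈ E, 1 - ε ≤ ∑ k ∈ K, ξ v (v * k) * ξ (v * g) (v * k)) (R : ℝ) (hR : 0 ≤ R)
    (hloc : ∀ (x : G) (φ : G → W), (∀ v, v⁻¹ * x ∉ K → φ v = 0) →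
      ∑ k ∈ K, ‖∑ g ∈ E, ((f g * w (x * k⁻¹) (x * k⁻¹ * g) : ℝ) : ℂ) •
        Y g (φ (x * k⁻¹ * g))‖ ^ 2 ≤ R ^ 2 * ∑ k ∈ K, ‖φ (x * k⁻¹)‖ ^ 2) :
    ‖T‖ ≤ R + ε * ∑ g ∈ E, f g := by
  classical
  have hF : 0 ≤ ∑ g ∈ E, f g := Finset.sum_nonneg fun g _ => hf g
  refine ContinuousLinearMap.opNorm_le_bound _ (by positivity) fun φ => ?_
  -- the cut vector
  let φx : G → G → W := fun x v => ((ξ v x : ℝ) : ℂ) • φ v
  let Z : G → G → W := fun x s => ∑ g ∈ E, ((f g * w s (s * g) : ℝ) : ℂ) • Y g (φx x (s * g))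
  let κ : G → G → ℝ := fun s g => ∑ k ∈ K, ξ s (s * k) * ξ (s * g) (s * k)
  let a : G → W := fun s => ∑ k ∈ K, ((ξ s (s * k) : ℝ) : ℂ) • Z (s * k) s
  let b : G → G → W := fun g s => ((f g * w s (s * g) * (1 - κ s g) : ℝ) : ℂ) • Y g (φ (s * g))
  -- the part given by cutting
  have hA : ∀ S : Finset G, ∑ s ∈ S, ‖a s‖ ^ 2 ≤ (R * ‖φ‖) ^ 2 := by
    intro S
    let S₁ : Finset G := (S ×ˢ K).image (fun p => p.1 * p.2)
    let S₂ : Finset G := (S₁ ×ˢ K).image (fun p => p.1 * p.2⁻¹)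
    have h1 : ∑ s ∈ S, ‖a s‖ ^ 2 ≤ ∑ k ∈ K, ∑ s ∈ S, ‖Z (s * k) s‖ ^ 2 := by
      rw [Finset.sum_comm]
      exact Finset.sum_le_sum fun s _ => cs_norm K _ _ (hξ1 s)
    have h2 : ∀ k ∈ K, ∑ s ∈ S, ‖Z (s * k) s‖ ^ 2 ≤ ∑ x ∈ S₁, ‖Z x (x * k⁻¹)‖ ^ 2 := by
      intro k hk
      have := shift_le (fun x => ‖Z x (x * k⁻¹)‖ ^ 2) (fun x => by positivity) S S₁ k
        (fun s hs => Finset.mem_image.2 ⟨(s, k), Finset.mem_product.2 ⟨hs, hk⟩, rfl⟩)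
      simpa only [mul_inv_cancel_right] using this
    have h3 : ∀ x, ∑ k ∈ K, ‖Z x (x * k⁻¹)‖ ^ 2 ≤ R ^ 2 * ∑ k ∈ K, ‖φx x (x * k⁻¹)‖ ^ 2 := by
      intro x
      refine hloc x (φx x) fun v hv => ?_
      have : ξ v x = 0 := by
        by_contra h
        exact hv (hξ0 v x h)
      simp only [φx, this, Complex.ofReal_zero, zero_smul]
    have h4 : ∀ k ∈ K, ∑ x ∈ S₁, ‖φx x (x * k⁻¹)‖ ^ 2 ≤
        ∑ v ∈ S₂, ξ v (v * k) ^ 2 * ‖φ v‖ ^ 2 := by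
      intro k hk
      have := shift_le (fun v => ξ v (v * k) ^ 2 * ‖φ v‖ ^ 2) (fun x => by positivity) S₁ S₂ k⁻¹
        (fun s hs => Finset.mem_image.2 ⟨(s, k), Finset.mem_product.2 ⟨hs, hk⟩, rfl⟩)
      refine le_trans (le_of_eq ?_) this
      refine Finset.sum_congr rfl fun x _ => ?_
      simp only [φx, inv_mul_cancel_right]
      rw [norm_smul, Complex.norm_real, Real.norm_eq_abs, mul_pow, sq_abs]
    calc ∑ s ∈ S, ‖a s‖ ^ 2 ≤ ∑ k ∈ K, ∑ s ∈ S, ‖Z (s * k) s‖ ^ 2 := h1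
      _ ≤ ∑ k ∈ K, ∑ x ∈ S₁, ‖Z x (x * k⁻¹)‖ ^ 2 := Finset.sum_le_sum h2
      _ = ∑ x ∈ S₁, ∑ k ∈ K, ‖Z x (x * k⁻¹)‖ ^ 2 := Finset.sum_comm
      _ ≤ ∑ x ∈ S₁, R ^ 2 * ∑ k ∈ K, ‖φx x (x * k⁻¹)‖ ^ 2 := Finset.sum_le_sum fun x _ => h3 x
      _ = R ^ 2 * ∑ k ∈ K, ∑ x ∈ S₁, ‖φx x (x * k⁻¹)‖ ^ 2 := by
          rw [← Finset.mul_sum, Finset.sum_comm]
      _ ≤ R ^ 2 * ∑ k ∈ K, ∑ v ∈ S₂, ξ v (v * k) ^ 2 * ‖φ v‖ ^ 2 :=
          mul_le_mul_of_nonneg_left (Finset.sum_le_sum h4) (by positivity)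
      _ = R ^ 2 * ∑ v ∈ S₂, ‖φ v‖ ^ 2 := by
          rw [Finset.sum_comm]
          congr 1
          refine Finset.sum_congr rfl fun v _ => ?_
          rw [← Finset.sum_mul, hξ1 v, one_mul]
      _ ≤ R ^ 2 * ‖φ‖ ^ 2 := mul_le_mul_of_nonneg_left (lp_sum_le φ S₂) (by positivity)
      _ = (R * ‖φ‖) ^ 2 := by ring
  -- the error
  have hB : ∀ g ∈ E, ∀ S : Finset G, ∑ s ∈ S, ‖b g s‖ ^ 2 ≤ (ε * f g * ‖φ‖) ^ 2 := by
    intro g hg S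
    have h1 : ∀ s, ‖b g s‖ ^ 2 ≤ (ε * f g) ^ 2 * ‖φ (s * g)‖ ^ 2 := by
      intro s
      have hk1 : |1 - κ s g| ≤ ε := by
        have h5 := hξ2 s g hg
        have h6 := kappa_le K ξ hξ0 hξ1 s g
        rw [abs_of_nonneg (by simp only [κ]; linarith)]
        simp only [κ]
        linarith
      have h7 : ‖b g s‖ ≤ (ε * f g) * ‖φ (s * g)‖ := by
        simp only [b]
        rw [norm_smul, Complex.norm_real, Real.norm_eq_abs, abs_mul, abs_mul, abs_of_nonneg (hf g)]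
        have h8 : f g * |w s (s * g)| * |1 - κ s g| ≤ ε * f g := by
          have h9 : f g * |w s (s * g)| ≤ f g := by
            have := mul_le_mul_of_nonneg_left (hw s (s * g)) (hf g)
            rwa [mul_one] at this
          have := mul_le_mul h9 hk1 (abs_nonneg _) (hf g)
          linarith
        have h10 : ‖Y g (φ (s * g))‖ ≤ ‖φ (s * g)‖ := by
          have := (Y g).le_of_opNorm_le (hY g) (φ (s * g))
          rwa [one_mul] at this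
        exact mul_le_mul h8 h10 (norm_nonneg _) (mul_nonneg hε (hf g))
      calc ‖b g s‖ ^ 2 ≤ ((ε * f g) * ‖φ (s * g)‖) ^ 2 := pow_le_pow_left₀ (norm_nonneg _) h7 2
        _ = _ := by ring
    calc ∑ s ∈ S, ‖b g s‖ ^ 2 ≤ ∑ s ∈ S, (ε * f g) ^ 2 * ‖φ (s * g)‖ ^ 2 :=
          Finset.sum_le_sum fun s _ => h1 s
      _ = (ε * f g) ^ 2 * ∑ s ∈ S, ‖φ (s * g)‖ ^ 2 := by rw [Finset.mul_sum]
      _ ≤ (ε * f g) ^ 2 * ∑ x ∈ S.image (fun s => s * g), ‖φ x‖ ^ 2 :=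
          mul_le_mul_of_nonneg_left (shift_le (fun x => ‖φ x‖ ^ 2) (fun x => by positivity) S _ g
            (fun s hs => Finset.mem_image.2 ⟨s, hs, rfl⟩)) (by positivity)
      _ ≤ (ε * f g) ^ 2 * ‖φ‖ ^ 2 := mul_le_mul_of_nonneg_left (lp_sum_le φ _) (by positivity)
      _ = _ := by ring
  obtain ⟨A, hA1, hA2⟩ := mk_lp a (R * ‖φ‖) (by positivity) hA
  have hB' : ∀ g : G, ∃ B : lp (fun _ : G => W) 2, g ∈ E → (∀ s, B s = b g s) ∧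
      ‖B‖ ≤ ε * f g * ‖φ‖ := by
    intro g
    by_cases hg : g ∈ E
    · obtain ⟨B, h⟩ := mk_lp (b g) (ε * f g * ‖φ‖)
        (mul_nonneg (mul_nonneg hε (hf g)) (norm_nonneg _)) (hB g hg)
      exact ⟨B, fun _ => h⟩
    · exact ⟨0, fun h => absurd h hg⟩
  choose B hB1 using hB'
  have hsum : T φ = A + ∑ g ∈ E, B g := by
    ext s
    rw [lp.coeFn_add, Pi.add_apply, lp.coeFn_sum, Finset.sum_apply, hT, hA1,
      Finset.sum_congr rfl (fun g hg => (hB1 g hg).1 s)]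
    have h1 : a s = ∑ g ∈ E, ((f g * w s (s * g) * κ s g : ℝ) : ℂ) • Y g (φ (s * g)) := by
      simp only [a, Z, φx, κ]
      simp only [Finset.smul_sum]
      rw [Finset.sum_comm]
      refine Finset.sum_congr rfl fun g _ => ?_
      rw [Finset.mul_sum, Complex.ofReal_sum, Finset.sum_smul]
      refine Finset.sum_congr rfl fun k _ => ?_
      rw [map_smul, smul_smul, smul_smul]
      congr 1
      push_cast
      ring
    rw [h1, ← Finset.sum_add_distrib]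
    refine Finset.sum_congr rfl fun g _ => ?_
    simp only [b]
    rw [← add_smul]
    congr 1
    push_cast
    ring
  rw [hsum]
  calc ‖A + ∑ g ∈ E, B g‖ ≤ ‖A‖ + ∑ g ∈ E, ‖B g‖ :=
        (norm_add_le _ _).trans (add_le_add le_rfl (norm_sum_le _ _))
    _ ≤ R * ‖φ‖ + ∑ g ∈ E, ε * f g * ‖φ‖ :=
        add_le_add hA2 (Finset.sum_le_sum fun g hg => (hB1 g hg).2)
    _ = (R + ε * ∑ g ∈ E, f g) * ‖φ‖ := by
        rw [← Finset.sum_mul, ← Finset.mul_sum]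
        ring

end Pool.Agent.TH753.J5177
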