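import Pool.Agent.TH753.MB1

/-!
# The site of a pair of positive semidefinite matrices
-/

open Finset Matrix

namespace Pool.Agent.TH753.MB

open Pool.Agent.H390R2.LP Pool.Agent.H235R2.QLP

variable {ι : Type} [Fintype ι] [DecidableEq ι]

/-- the sign of a letter -/
def sg (x : Fin 2) : ℝ := if x = 0 then 1 else -1

lemma sg_mul_self (x : Fin 2) : sg x * sg x = 1 := by unfold sg; split_ifs <;> norm_num

/-- spectral data of a pair -/
structure Pair (ι : Type) [Fintype ι] [DecidableEq ι] where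
  u : ι → ι → ℝ
  v : ι → ι → ℝ
  w : ι → ι → ℝ
  p : ι → ℝ
  q : ι → ℝ
  g : ι → ℝ
  hu : ON u
  hv : ON v
  hw : ON w
  hp : ∀ a, 0 ≤ p a
  hq : ∀ a, 0 ≤ q a
  hsum : ∑ a, p a ^ 2 + ∑ a, q a ^ 2 = 1
  hg : mat u (fun a => p a ^ 2) + mat v (fun a => q a ^ 2) = mat w g

lemma half : ((√2)⁻¹ : ℝ) * (√2)⁻¹ = 1 / 2 := by
  rw [← mul_inv, Real.mul_self_sqrt (by norm_num)]; norm_num

/-- the eigenvectors of the site -/
noncomputable def Pair.U (d : Pair ι) (a ω : Fin 2 × ι) : ℝ :=
  if a.1 = 0 then (√2)⁻¹ * d.u a.2 ω.2 else (√2)⁻¹ * (sg ω.1 * d.v a.2 ω.2)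

/-- the eigenvalues of the site -/
noncomputable def Pair.L (d : Pair ι) (a : Fin 2 × ι) : ℝ :=
  if a.1 = 0 then d.p a.2 ^ 2 else d.q a.2 ^ 2

/-- quadratic form of `mat` -/
lemma mat_form (u : ι → ι → ℝ) (l : ι → ℝ) (x y : ι → ℝ) :
    ∑ i, ∑ j, x i * mat u l i j * y j = ∑ a, l a * (∑ i, u a i * x i) * (∑ j, u a j * y j) := by
  simp only [mat, Matrix.of_apply]
  calc ∑ i, ∑ j, x i * (∑ a, l a * u a i * u a j) * y j
      = ∑ i, ∑ j, ∑ a, l a * (u a i * x i) * (u a j * y j) := by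
        refine Finset.sum_congr rfl fun i _ => Finset.sum_congr rfl fun j _ => ?_
        rw [Finset.mul_sum, Finset.sum_mul]
        refine Finset.sum_congr rfl fun a _ => ?_
        ring
    _ = ∑ a, ∑ i, ∑ j, l a * (u a i * x i) * (u a j * y j) := by
        have e1 : ∀ i, ∑ j, ∑ a, l a * (u a i * x i) * (u a j * y j)
            = ∑ a, ∑ j, l a * (u a i * x i) * (u a j * y j) := fun i => Finset.sum_comm
        simp_rw [e1]
        rw [Finset.sum_comm]
    _ = _ := by
        refine Finset.sum_congr rfl fun a _ => ?_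
        rw [mul_assoc, Finset.sum_mul_sum, Finset.mul_sum]
        refine Finset.sum_congr rfl fun i _ => ?_
        rw [Finset.mul_sum]
        exact Finset.sum_congr rfl fun j _ => by ring

lemma Pair.form (d : Pair ι) (c c' : ι) :
    ∑ a, d.p a ^ 2 * (∑ i, d.u a i * d.w c i) * (∑ j, d.u a j * d.w c' j)
      + ∑ a, d.q a ^ 2 * (∑ i, d.v a i * d.w c i) * (∑ j, d.v a j * d.w c' j)
      = if c = c' then d.g c else 0 := by
  rw [← mat_form d.u (fun a => d.p a ^ 2) (d.w c) (d.w c'),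
    ← mat_form d.v (fun a => d.q a ^ 2) (d.w c) (d.w c')]
  have h1 : ∑ i, ∑ j, d.w c i * mat d.u (fun a => d.p a ^ 2) i j * d.w c' j
      + ∑ i, ∑ j, d.w c i * mat d.v (fun a => d.q a ^ 2) i j * d.w c' j
      = ∑ i, ∑ j, d.w c i * mat d.w d.g i j * d.w c' j := by
    rw [← Finset.sum_add_distrib]
    refine Finset.sum_congr rfl fun i _ => ?_
    rw [← Finset.sum_add_distrib]
    refine Finset.sum_congr rfl fun j _ => ?_
    rw [← d.hg]
    simp only [Matrix.add_apply]
    ring
  rw [h1, mat_form]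
  have h2 : ∀ a, d.g a * (∑ i, d.w a i * d.w c i) * (∑ j, d.w a j * d.w c' j)
      = if a = c then (if c = c' then d.g c else 0) else 0 := by
    intro a
    rw [d.hw a c, d.hw a c']
    by_cases h : a = c
    · subst h; simp
    · simp [h]
  simp_rw [h2]
  simp

lemma fin2_cases (x : Fin 2) : x = 0 ∨ x = 1 := by
  fin_cases x <;> simp

/-- the site of a pair -/
noncomputable def Pair.site (d : Pair ι) : Site (Fin 2 × ι) (Fin 2) where
  pos ω := ω.1
  u := d.U
  w c ω := if ω.1 = c.1 then d.w c.2 ω.2 else 0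
  lam := d.L
  g c := d.g c.2 / 2
  lab c := c.1
  u_orth := by
    rintro ⟨a, i⟩ ⟨b, j⟩
    rw [Fintype.sum_prod_type, Fin.sum_univ_two]
    have e1 : ∀ s t : ℝ, ∀ x y : ι → ℝ, ∑ k, (s * x k) * (t * y k) = s * t * ∑ k, x k * y k := by
      intro s t x y
      rw [Finset.mul_sum]; exact Finset.sum_congr rfl fun k _ => by ring
    have hs := half
    rcases fin2_cases a with rfl | rfl <;> rcases fin2_cases b with rfl | rfl
    · simp only [Pair.U, if_true]
      rw [e1, d.hu i j, hs]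
      by_cases h : i = j
      · simp [h]; norm_num
      · simp [h]
    · simp only [Pair.U, if_true, sg, one_ne_zero, if_false, Prod.mk.injEq, zero_ne_one, false_and]
      rw [← Finset.sum_add_distrib]
      exact Finset.sum_eq_zero fun k _ => by ring
    · simp only [Pair.U, if_true, sg, one_ne_zero, if_false, Prod.mk.injEq, false_and]
      rw [← Finset.sum_add_distrib]
      exact Finset.sum_eq_zero fun k _ => by ring
    · simp only [Pair.U, sg, one_ne_zero, if_false, if_true, Prod.mk.injEq, true_and]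
      have e2 : ∀ k, (√2)⁻¹ * (1 * d.v i k) * ((√2)⁻¹ * (1 * d.v j k)) = 1 / 2 * (d.v i k * d.v j k) := by
        intro k; linear_combination (d.v i k * d.v j k) * hs
      have e3 : ∀ k, (√2)⁻¹ * (-1 * d.v i k) * ((√2)⁻¹ * (-1 * d.v j k)) = 1 / 2 * (d.v i k * d.v j k) := by
        intro k; linear_combination (d.v i k * d.v j k) * hs
      simp_rw [e2, e3]
      rw [← Finset.mul_sum, d.hv i j]
      by_cases h : i = j
      · simp [h]; norm_num
      · simp [h]
  w_orth := by
    rintro ⟨a, i⟩ ⟨b, j⟩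
    rw [Fintype.sum_prod_type, Fin.sum_univ_two]
    have h := d.hw i j
    rcases fin2_cases a with rfl | rfl <;> rcases fin2_cases b with rfl | rfl <;>
      simp [h]
  lam_nonneg := by
    intro a
    unfold Pair.L
    split_ifs <;> positivity
  lam_sum := by
    rw [Fintype.sum_prod_type, Fin.sum_univ_two]
    simpa [Pair.L] using d.hsum
  w_supp := by
    intro c ω h
    rw [if_neg h]
  w_diag := by
    rintro ⟨c, i⟩ ⟨c', j⟩ h
    simp only at h
    subst h
    have hs := half
    have e : ∀ a : Fin 2 × ι, ∀ l : ι, ∑ ω : Fin 2 × ι, d.U a ω * (if ω.1 = c then d.w l ω.2 else 0)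
        = if a.1 = 0 then (√2)⁻¹ * ∑ k, d.u a.2 k * d.w l k
          else (√2)⁻¹ * (sg c * ∑ k, d.v a.2 k * d.w l k) := by
      rintro ⟨a, m⟩ l
      rw [Fintype.sum_prod_type]
      rw [Finset.sum_eq_single c]
      · unfold Pair.U
        by_cases ha : a = 0
        · simp only [ha, if_true]
          rw [Finset.mul_sum]
          exact Finset.sum_congr rfl fun k _ => by ring
        · simp only [ha, if_false, if_true]
          rw [Finset.mul_sum, Finset.mul_sum]
          exact Finset.sum_congr rfl fun k _ => by ring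
      · intro b _ hb
        exact Finset.sum_eq_zero fun k _ => by simp [hb]
      · simp
    simp only [e]
    rw [Fintype.sum_prod_type, Fin.sum_univ_two]
    simp only [Pair.L, if_true, one_ne_zero, if_false, Prod.mk.injEq, true_and]
    have hf := d.form i j
    have e1 : ∑ x, d.p x ^ 2 * ((√2)⁻¹ * ∑ k, d.u x k * d.w i k) * ((√2)⁻¹ * ∑ k, d.u x k * d.w j k)
        = 1 / 2 * ∑ x, d.p x ^ 2 * (∑ k, d.u x k * d.w i k) * (∑ k, d.u x k * d.w j k) := by
      rw [Finset.mul_sum]
      refine Finset.sum_congr rfl fun x _ => ?_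
      linear_combination (d.p x ^ 2 * (∑ k, d.u x k * d.w i k) * (∑ k, d.u x k * d.w j k)) * hs
    have e2 : ∑ x, d.q x ^ 2 * ((√2)⁻¹ * (sg c * ∑ k, d.v x k * d.w i k))
          * ((√2)⁻¹ * (sg c * ∑ k, d.v x k * d.w j k))
        = 1 / 2 * ∑ x, d.q x ^ 2 * (∑ k, d.v x k * d.w i k) * (∑ k, d.v x k * d.w j k) := by
      rw [Finset.mul_sum]
      refine Finset.sum_congr rfl fun x _ => ?_
      have h3 := sg_mul_self c
      linear_combination (d.q x ^ 2 * (∑ k, d.v x k * d.w i k) * (∑ k, d.v x k * d.w j k)) * hs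
        * (sg c * sg c) + (1 / 2 * d.q x ^ 2 * (∑ k, d.v x k * d.w i k)
          * (∑ k, d.v x k * d.w j k)) * h3
    rw [e1, e2, ← mul_add, hf]
    split_ifs <;> ring

lemma Pair.g_sum (d : Pair ι) : ∑ a, d.g a = 1 := by
  have h1 := congrArg Matrix.trace d.hg
  rw [Matrix.trace_add, mat_trace d.hu, mat_trace d.hv, mat_trace d.hw] at h1
  rw [← h1, d.hsum]

lemma Pair.S_site (d : Pair ι) : d.site.S = ∑ a, Real.negMulLog (d.p a ^ 2)
    + ∑ a, Real.negMulLog (d.q a ^ 2) := by
  unfold Site.S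
  rw [Fintype.sum_prod_type, Fin.sum_univ_two]
  simp [Pair.site, Pair.L]

lemma Pair.h_site (d : Pair ι) : d.site.h = Real.log 2 + ∑ a, Real.negMulLog (d.g a) := by
  unfold Site.h
  rw [Fintype.sum_prod_type, Fin.sum_univ_two]
  simp only [Pair.site]
  have h1 : ∑ x, Real.negMulLog (d.g x / 2) = Real.negMulLog (1 / 2)
      + (1 / 2) * ∑ x, Real.negMulLog (d.g x) := by
    rw [← negMulLog_sum (1 / 2) d.g d.g_sum]
    exact Finset.sum_congr rfl fun x _ => by congr 1; ring
  rw [h1]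
  have h2 : Real.negMulLog (1 / 2) = 1 / 2 * Real.log 2 := by
    unfold Real.negMulLog
    rw [one_div, Real.log_inv]; ring
  rw [h2]; ring

lemma Pair.cc_site (d : Pair ι) : cc d.site = Real.log 2 - (∑ a, Real.negMulLog (d.p a ^ 2)
    + ∑ a, Real.negMulLog (d.q a ^ 2) - ∑ a, Real.negMulLog (d.g a)) := by
  unfold cc
  rw [d.S_site, d.h_site]; ring

lemma Pair.EH_site (d : Pair ι) :
    EH d.site = 1 / 2 - (mat d.u d.p * mat d.v d.q).trace := by
  have hs := half
  have hG : ∀ x, G d.site x = 1 / 4 + 1 / 2 * (mat d.u d.p * mat d.v d.q).trace := by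
    intro x
    unfold G
    have e : ∀ a b : Fin 2 × ι, (∑ ω : Fin 2 × ι, if d.site.pos ω = x then
        d.site.u a ω * d.site.u b ω else 0) = ∑ k, d.U a (x, k) * d.U b (x, k) := by
      intro a b
      rw [Fintype.sum_prod_type]
      rw [Finset.sum_eq_single x]
      · simp [Pair.site]
      · intro y _ hy
        exact Finset.sum_eq_zero fun k _ => by simp [Pair.site, hy]
      · simp
    simp_rw [e]
    have hlam : d.site.lam = d.L := rfl
    rw [hlam]
    simp only [Fintype.sum_prod_type, Fin.sum_univ_two]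
    simp only [Pair.L, Pair.U, if_true, one_ne_zero, if_false]
    have a1 : ∀ i j, ∑ k, (√2)⁻¹ * d.u i k * ((√2)⁻¹ * d.u j k) = 1 / 2 * (if i = j then 1 else 0) := by
      intro i j
      rw [← d.hu i j, Finset.mul_sum]
      exact Finset.sum_congr rfl fun k _ => by linear_combination (d.u i k * d.u j k) * hs
    have a2 : ∀ i j, ∑ k, (√2)⁻¹ * d.u i k * ((√2)⁻¹ * (sg x * d.v j k))
        = 1 / 2 * sg x * ∑ k, d.u i k * d.v j k := by
      intro i j
      rw [Finset.mul_sum]
      exact Finset.sum_congr rfl fun k _ => by linear_combination (sg x * d.u i k * d.v j k) * hs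
    have a3 : ∀ i j, ∑ k, (√2)⁻¹ * (sg x * d.v i k) * ((√2)⁻¹ * d.u j k)
        = 1 / 2 * sg x * ∑ k, d.u j k * d.v i k := by
      intro i j
      rw [Finset.mul_sum]
      exact Finset.sum_congr rfl fun k _ => by linear_combination (sg x * d.u j k * d.v i k) * hs
    have a4 : ∀ i j, ∑ k, (√2)⁻¹ * (sg x * d.v i k) * ((√2)⁻¹ * (sg x * d.v j k))
        = 1 / 2 * (if i = j then 1 else 0) := by
      intro i j
      rw [← d.hv i j, Finset.mul_sum]
      have h3 := sg_mul_self x
      refine Finset.sum_congr rfl fun k _ => ?_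
      linear_combination (d.v i k * d.v j k) * (sg x * sg x) * hs + (1 / 2 * d.v i k * d.v j k) * h3
    simp_rw [a1, a2, a3, a4]
    have r1 : ∀ a b : ℝ, 0 ≤ a → 0 ≤ b → √(a ^ 2 * b ^ 2) = a * b := by
      intro a b ha hb
      rw [← mul_pow, Real.sqrt_sq (mul_nonneg ha hb)]
    have r2 : ∀ i j, √(d.p i ^ 2 * d.p j ^ 2) = d.p i * d.p j := fun i j => r1 _ _ (d.hp i) (d.hp j)
    have r3 : ∀ i j, √(d.p i ^ 2 * d.q j ^ 2) = d.p i * d.q j := fun i j => r1 _ _ (d.hp i) (d.hq j)
    have r4 : ∀ i j, √(d.q i ^ 2 * d.p j ^ 2) = d.q i * d.p j := fun i j => r1 _ _ (d.hq i) (d.hp j)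
    have r5 : ∀ i j, √(d.q i ^ 2 * d.q j ^ 2) = d.q i * d.q j := fun i j => r1 _ _ (d.hq i) (d.hq j)
    simp_rw [r2, r3, r4, r5]
    have h3 := sg_mul_self x
    have b1 : ∑ i, ∑ j, d.p i * d.p j * (1 / 2 * (if i = j then (1 : ℝ) else 0)) ^ 2
        = 1 / 4 * ∑ i, d.p i ^ 2 := by
      rw [Finset.mul_sum]
      refine Finset.sum_congr rfl fun i _ => ?_
      rw [Finset.sum_eq_single i]
      · simp; ring
      · intro j _ hj; simp [Ne.symm hj]
      · simp
    have b4 : ∑ i, ∑ j, d.q i * d.q j * (1 / 2 * (if i = j then (1 : ℝ) else 0)) ^ 2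
        = 1 / 4 * ∑ i, d.q i ^ 2 := by
      rw [Finset.mul_sum]
      refine Finset.sum_congr rfl fun i _ => ?_
      rw [Finset.sum_eq_single i]
      · simp; ring
      · intro j _ hj; simp [Ne.symm hj]
      · simp
    have b2 : ∑ i, ∑ j, d.p i * d.q j * (1 / 2 * sg x * ∑ k, d.u i k * d.v j k) ^ 2
        = 1 / 4 * (mat d.u d.p * mat d.v d.q).trace := by
      rw [mat_mul_trace, Finset.mul_sum]
      refine Finset.sum_congr rfl fun i _ => ?_
      rw [Finset.mul_sum]
      refine Finset.sum_congr rfl fun j _ => ?_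
      linear_combination (1 / 4 * (d.p i * d.q j * (∑ k, d.u i k * d.v j k) ^ 2)) * h3
    have b3 : ∑ i, ∑ j, d.q i * d.p j * (1 / 2 * sg x * ∑ k, d.u j k * d.v i k) ^ 2
        = 1 / 4 * (mat d.u d.p * mat d.v d.q).trace := by
      rw [mat_mul_trace, Finset.mul_sum, Finset.sum_comm]
      refine Finset.sum_congr rfl fun i _ => ?_
      rw [Finset.mul_sum]
      refine Finset.sum_congr rfl fun j _ => ?_
      linear_combination (1 / 4 * (d.p i * d.q j * (∑ k, d.u i k * d.v j k) ^ 2)) * h3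
    simp only [Finset.sum_add_distrib]
    rw [b1, b2, b3, b4]
    have := d.hsum
    linarith
  unfold EH
  rw [Fin.sum_univ_two, hG, hG]
  ring

end Pool.Agent.TH753.MB
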