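import Pool.Agent.TH753.FF2
import Pool.Agent.TH753.MB2

/-!
# Two-bit letters: the site of a state on a qubit and an ancilla
-/

open Finset Matrix
open scoped Kronecker

namespace Pool.Agent.TH753.FF

open Pool.Agent.H390R2.LP Pool.Agent.TH753.MB

abbrev G2 : Type := Fin 2 × Fin 2

/-- flip -/
def Xm : Matrix (Fin 2) (Fin 2) ℝ := Matrix.of fun i j => if i = j then 0 else 1
/-- real antisymmetric Pauli matrix -/
def Ym : Matrix (Fin 2) (Fin 2) ℝ :=
  Matrix.of fun i j => if i = j then 0 else (if i = 0 then -1 else 1)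

/-- Pauli matrices -/
def sgm (χ : G2) : Matrix (Fin 2) (Fin 2) ℝ :=
  Matrix.of fun i j =>
    if χ = (0, 0) then (if i = j then 1 else 0)
    else if χ = (1, 0) then (if i = j then 0 else 1)
    else if χ = (0, 1) then (if i = j then 0 else (if i = 0 then -1 else 1))
    else (if i = j then (if i = 0 then 1 else -1) else 0)

lemma sum_G2 (f : G2 → ℝ) : ∑ χ, f χ = f (0, 0) + f (0, 1) + (f (1, 0) + f (1, 1)) := by
  rw [Fintype.sum_prod_type, Fin.sum_univ_two, Fin.sum_univ_two, Fin.sum_univ_two]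

lemma twirl (r s r' s' : Fin 2) :
    ∑ χ, sgm χ r s * sgm χ r' s' = if r = r' ∧ s = s' then 2 else 0 := by
  rw [sum_G2]
  fin_cases r <;> fin_cases s <;> fin_cases r' <;> fin_cases s' <;> simp [sgm] <;> norm_num

lemma sgm_orth (χ : G2) (s s' : Fin 2) :
    ∑ r, sgm χ r s * sgm χ r s' = if s = s' then 1 else 0 := by
  rw [Fin.sum_univ_two]
  obtain ⟨a, b⟩ := χ
  fin_cases a <;> fin_cases b <;> fin_cases s <;> fin_cases s' <;> simp [sgm]

/-- basis of the group -/
def ei (i : Fin 2) : G2 := if i = 0 then (1, 0) else (0, 1)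

lemma sgm_rel (χ : G2) (i : Fin 2) : ∃ ε : ℝ, ε ^ 2 = 1 ∧
    ∀ s s', ∑ r, sgm χ r s * sgm (χ + ei i) r s' = ε * sgm (ei i) s s' := by
  obtain ⟨a, b⟩ := χ
  fin_cases a <;> fin_cases b <;> fin_cases i
  all_goals first
    | refine ⟨1, by norm_num, ?_⟩
      intro s s'
      rw [Fin.sum_univ_two]
      fin_cases s <;> fin_cases s' <;> simp [sgm, ei] <;> done
    | refine ⟨-1, by norm_num, ?_⟩
      intro s s'
      rw [Fin.sum_univ_two]
      fin_cases s <;> fin_cases s' <;> simp [sgm, ei] <;> done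

/-- characters -/
def chr (χ x : G2) : ℝ :=
  (if χ.1 = 1 ∧ x.1 = 1 then -1 else 1) * (if χ.2 = 1 ∧ x.2 = 1 then -1 else 1)

lemma chr_orth (χ χ' : G2) : ∑ x, chr χ x * chr χ' x = if χ = χ' then 4 else 0 := by
  rw [sum_G2]
  obtain ⟨a, b⟩ := χ
  obtain ⟨a', b'⟩ := χ'
  fin_cases a <;> fin_cases b <;> fin_cases a' <;> fin_cases b' <;> simp [chr] <;> norm_num

lemma chr_sq (χ x : G2) : chr χ x * chr χ x = 1 := by
  unfold chr
  split_ifs <;> norm_num

/-- coordinate functions -/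
noncomputable def ff (i : Fin 2) (x : G2) : ℝ := if (if i = 0 then x.1 else x.2) = 0 then 1 / 2 else -1 / 2

lemma ff_sq (i : Fin 2) (x : G2) : ff i x ^ 2 = 1 / 4 := by
  unfold ff; split_ifs <;> norm_num

lemma chr_ff (χ χ' : G2) (i : Fin 2) :
    ∑ x, chr χ x * ff i x * chr χ' x = if χ' = χ + ei i then 2 else 0 := by
  rw [sum_G2]
  obtain ⟨a, b⟩ := χ
  obtain ⟨a', b'⟩ := χ'
  fin_cases a <;> fin_cases b <;> fin_cases a' <;> fin_cases b' <;> fin_cases i <;>
    simp [chr, ff, ei] <;> norm_num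

lemma twirl_form (x : G2) (r r' : Fin 2) (b b' : Fin 2 → ℝ) (t : ℝ) :
    ∑ χ : G2, t * (1 / 2 * (chr χ x * ∑ s, sgm χ r s * b s))
        * (1 / 2 * (chr χ x * ∑ s, sgm χ r' s * b' s))
      = (if r = r' then 1 / 2 else 0) * (t * ∑ s, b s * b' s) := by
  have e3 : ∀ χ : G2, t * (1 / 2 * (chr χ x * ∑ s, sgm χ r s * b s))
      * (1 / 2 * (chr χ x * ∑ s, sgm χ r' s * b' s))
      = t / 4 * ∑ s, ∑ s', (sgm χ r s * sgm χ r' s') * (b s * b' s') := by
    intro χ
    have hc := chr_sq χ x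
    simp only [Fin.sum_univ_two]
    linear_combination (t / 4 * (sgm χ r 0 * b 0 + sgm χ r 1 * b 1)
      * (sgm χ r' 0 * b' 0 + sgm χ r' 1 * b' 1)) * hc
  have e5 : ∑ χ : G2, t * (1 / 2 * (chr χ x * ∑ s, sgm χ r s * b s))
      * (1 / 2 * (chr χ x * ∑ s, sgm χ r' s * b' s))
      = ∑ χ : G2, t / 4 * ∑ s, ∑ s', (sgm χ r s * sgm χ r' s') * (b s * b' s') :=
    Finset.sum_congr rfl fun χ _ => e3 χ
  rw [e5, ← Finset.mul_sum, Finset.sum_comm]
  have e4 : ∀ s, ∑ χ : G2, ∑ s', (sgm χ r s * sgm χ r' s') * (b s * b' s')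
      = ∑ s', (if r = r' ∧ s = s' then 2 else 0) * (b s * b' s') := by
    intro s
    rw [Finset.sum_comm]
    refine Finset.sum_congr rfl fun s' _ => ?_
    rw [← Finset.sum_mul, twirl]
  rw [Finset.sum_congr rfl fun s _ => e4 s]
  simp only [Fin.sum_univ_two]
  by_cases hr : r = r'
  · simp [hr]; ring
  · simp [hr]

variable {κ : Type} [Fintype κ] [DecidableEq κ]

lemma sum_big (f : G2 × (Fin 2 × κ) → ℝ) : ∑ x, f x = ∑ χ : G2, ∑ a : Fin 2 × κ, f (χ, a) :=
  Fintype.sum_prod_type f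

/-- Pauli matrices acting on the first factor -/
def act (χ : G2) (v : Fin 2 × κ → ℝ) (ω : Fin 2 × κ) : ℝ := ∑ s, sgm χ ω.1 s * v (s, ω.2)

lemma act_inner (χ : G2) (v v' : Fin 2 × κ → ℝ) :
    ∑ ω, act χ v ω * act χ v' ω = ∑ ω, v ω * v' ω := by
  have h := sgm_orth χ
  rw [Fintype.sum_prod_type_right, Fintype.sum_prod_type_right]
  refine Finset.sum_congr rfl fun y _ => ?_
  have h00 := h 0 0
  have h01 := h 0 1
  have h10 := h 1 0
  have h11 := h 1 1
  simp only [act, Fin.sum_univ_two] at *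
  simp only [if_true, zero_ne_one, one_ne_zero, if_false] at h00 h01 h10 h11
  linear_combination (v (0, y) * v' (0, y)) * h00 + (v (0, y) * v' (1, y)) * h01
    + (v (1, y) * v' (0, y)) * h10 + (v (1, y) * v' (1, y)) * h11

lemma act_rel (χ : G2) (i : Fin 2) (v v' : Fin 2 × κ → ℝ) :
    (∑ ω, act χ v ω * act (χ + ei i) v' ω) ^ 2 = (∑ ω, v ω * act (ei i) v' ω) ^ 2 := by
  obtain ⟨ε, hε, h⟩ := sgm_rel χ i
  have e : ∑ ω, act χ v ω * act (χ + ei i) v' ω = ε * ∑ ω, v ω * act (ei i) v' ω := by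
    rw [Fintype.sum_prod_type_right, Fintype.sum_prod_type_right, Finset.mul_sum]
    refine Finset.sum_congr rfl fun y _ => ?_
    have h00 := h 0 0
    have h01 := h 0 1
    have h10 := h 1 0
    have h11 := h 1 1
    simp only [act, Fin.sum_univ_two] at *
    linear_combination (v (0, y) * v' (0, y)) * h00 + (v (0, y) * v' (1, y)) * h01
      + (v (1, y) * v' (0, y)) * h10 + (v (1, y) * v' (1, y)) * h11
  rw [e, mul_pow, hε, one_mul]

/-- spectral data of a state on a qubit and an ancilla and of its partial trace -/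
structure Tw (κ : Type) [Fintype κ] [DecidableEq κ] where
  u : Fin 2 × κ → Fin 2 × κ → ℝ
  l : Fin 2 × κ → ℝ
  w : κ → κ → ℝ
  g : κ → ℝ
  hu : ON u
  hw : ON w
  hl : ∀ a, 0 ≤ l a
  hsum : ∑ a, l a ^ 2 = 1
  hg : pt (mat u (fun a => l a ^ 2)) = mat w g

namespace Tw

variable (d : Tw κ)

lemma g_sum : ∑ k, d.g k = 1 := by
  have h := congrArg Matrix.trace d.hg
  rw [pt_trace, mat_trace d.hu, mat_trace d.hw, d.hsum] at h
  exact h.symm

lemma form (k k' : κ) :
    ∑ a, d.l a ^ 2 * (∑ s, (∑ y, d.u a (s, y) * d.w k y) * (∑ y, d.u a (s, y) * d.w k' y))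
      = if k = k' then d.g k else 0 := by
  have h2 : ∑ i, ∑ j, d.w k i * mat d.w d.g i j * d.w k' j = if k = k' then d.g k else 0 := by
    rw [mat_form]
    have h3 : ∀ a, d.g a * (∑ i, d.w a i * d.w k i) * (∑ j, d.w a j * d.w k' j)
        = if a = k then (if k = k' then d.g k else 0) else 0 := by
      intro a
      rw [d.hw a k, d.hw a k']
      by_cases h : a = k
      · subst h; simp
      · simp [h]
    simp_rw [h3]
    simp
  rw [← h2, ← d.hg]
  have h4 : ∀ i j, pt (mat d.u (fun a => d.l a ^ 2)) i j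
      = ∑ a, d.l a ^ 2 * (d.u a (0, i) * d.u a (0, j) + d.u a (1, i) * d.u a (1, j)) := by
    intro i j
    simp only [pt, blk, mat, Matrix.add_apply, Matrix.of_apply]
    rw [← Finset.sum_add_distrib]
    exact Finset.sum_congr rfl fun a _ => by ring
  simp_rw [h4]
  have h5 : ∀ i j, d.w k i * (∑ a, d.l a ^ 2 * (d.u a (0, i) * d.u a (0, j)
      + d.u a (1, i) * d.u a (1, j))) * d.w k' j
      = ∑ a, (d.l a ^ 2 * ((d.u a (0, i) * d.w k i) * (d.u a (0, j) * d.w k' j))
        + d.l a ^ 2 * ((d.u a (1, i) * d.w k i) * (d.u a (1, j) * d.w k' j))) := by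
    intro i j
    rw [Finset.mul_sum, Finset.sum_mul]
    exact Finset.sum_congr rfl fun a _ => by ring
  simp_rw [h5]
  have h6 : ∀ (F : κ → κ → (Fin 2 × κ) → ℝ), ∑ i, ∑ j, ∑ a, F i j a = ∑ a, ∑ i, ∑ j, F i j a := by
    intro F
    have e1 : ∀ i, ∑ j, ∑ a, F i j a = ∑ a, ∑ j, F i j a := fun i => Finset.sum_comm
    simp_rw [e1]
    rw [Finset.sum_comm]
  rw [h6]
  refine Finset.sum_congr rfl fun a _ => ?_
  simp only [Finset.sum_add_distrib, ← Finset.mul_sum, Fin.sum_univ_two, ← Finset.sum_mul]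
  ring

/-- eigenvectors of the site -/
noncomputable def us (a ω : G2 × (Fin 2 × κ)) : ℝ := 1 / 2 * (chr a.1 ω.1 * act a.1 (d.u a.2) ω.2)

/-- the site -/
noncomputable def site : Site (G2 × (Fin 2 × κ)) G2 where
  pos ω := ω.1
  u := d.us
  w c ω := if ω.1 = c.1 then (if ω.2.1 = c.2.1 then d.w c.2.2 ω.2.2 else 0) else 0
  lam a := d.l a.2 ^ 2 / 4
  g c := d.g c.2.2 / 8
  lab c := c.1
  u_orth := by
    rintro ⟨χ, a⟩ ⟨χ', b⟩
    rw [Fintype.sum_prod_type]
    have e : ∀ x : G2, ∑ ω, d.us (χ, a) (x, ω) * d.us (χ', b) (x, ω)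
        = (chr χ x * chr χ' x) * (1 / 4 * ∑ ω, act χ (d.u a) ω * act χ' (d.u b) ω) := by
      intro x
      rw [Finset.mul_sum, Finset.mul_sum]
      refine Finset.sum_congr rfl fun ω _ => ?_
      unfold us
      ring
    simp_rw [e]
    rw [← Finset.sum_mul, chr_orth]
    by_cases h : χ = χ'
    · subst h
      rw [if_pos rfl, act_inner, d.hu a b]
      simp only [Prod.mk.injEq, true_and]
      split_ifs <;> norm_num
    · rw [if_neg h, if_neg (by simp [h])]
      ring
  w_orth := by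
    rintro ⟨x, r, k⟩ ⟨x', r', k'⟩
    have hw := d.hw k k'
    rw [Fintype.sum_prod_type, Finset.sum_eq_single x]
    · rw [Fintype.sum_prod_type, Finset.sum_eq_single r]
      · simp only [if_true]
        by_cases h : x = x'
        · by_cases h' : r = r'
          · subst h; subst h'
            simp only [if_true, Prod.mk.injEq, true_and]
            exact hw
          · simp [h, h']
        · simp [h]
      · intro r'' _ hr
        exact Finset.sum_eq_zero fun y _ => by simp [hr]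
      · simp
    · intro x'' _ hx
      exact Finset.sum_eq_zero fun y _ => by simp [hx]
    · simp
  lam_nonneg := by
    intro a
    positivity
  lam_sum := by
    rw [Fintype.sum_prod_type]
    simp only [← Finset.sum_div, d.hsum]
    rw [sum_G2]; norm_num
  w_supp := by
    intro c ω h
    rw [if_neg h]
  w_diag := by
    rintro ⟨x, r, k⟩ ⟨x', r', k'⟩ h
    simp only at h
    subst h
    have e : ∀ (χ : G2) (a : Fin 2 × κ) (r : Fin 2) (k : κ),
        (∑ ω : G2 × (Fin 2 × κ), d.us (χ, a) ω * (if ω.1 = x then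
          (if ω.2.1 = r then d.w k ω.2.2 else 0) else 0))
        = 1 / 2 * (chr χ x * ∑ s, sgm χ r s * ∑ y, d.u a (s, y) * d.w k y) := by
      intro χ a r k
      rw [Fintype.sum_prod_type, Finset.sum_eq_single x]
      · rw [Fintype.sum_prod_type, Finset.sum_eq_single r]
        · simp only [if_true, us, act, Fin.sum_univ_two, Finset.mul_sum]
          rw [← Finset.sum_add_distrib, Finset.mul_sum, Finset.mul_sum]
          refine Finset.sum_congr rfl fun y _ => ?_
          ring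
        · intro r'' _ hr
          exact Finset.sum_eq_zero fun y _ => by simp [hr]
        · simp
      · intro x'' _ hx
        exact Finset.sum_eq_zero fun y _ => by simp [hx]
      · simp
    simp only [e]
    rw [Fintype.sum_prod_type, Finset.sum_comm]
    have e2 : ∀ a : Fin 2 × κ, ∑ χ : G2, d.l a ^ 2 / 4
          * (1 / 2 * (chr χ x * ∑ s, sgm χ r s * ∑ y, d.u a (s, y) * d.w k y))
          * (1 / 2 * (chr χ x * ∑ s, sgm χ r' s * ∑ y, d.u a (s, y) * d.w k' y))
        = (if r = r' then 1 / 8 else 0) * (d.l a ^ 2 *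
          (∑ s, (∑ y, d.u a (s, y) * d.w k y) * (∑ y, d.u a (s, y) * d.w k' y))) := by
      intro a
      rw [twirl_form]
      split_ifs <;> ring
    rw [Finset.sum_congr rfl fun a _ => e2 a]
    rw [← Finset.mul_sum, d.form k k']
    by_cases hr : r = r' <;> by_cases hk : k = k' <;> simp [hr, hk]
    ring

lemma cc_site : d.site.h - d.site.S = Real.log 2 + ∑ k, Real.negMulLog (d.g k)
    - ∑ a, Real.negMulLog (d.l a ^ 2) := by
  have hlog : ∀ m : ℝ, Real.negMulLog m⁻¹ = m⁻¹ * Real.log m := by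
    intro m
    unfold Real.negMulLog
    rw [Real.log_inv]; ring
  have h1 : d.site.h = 3 * Real.log 2 + ∑ k, Real.negMulLog (d.g k) := by
    unfold Site.h
    rw [Fintype.sum_prod_type, sum_G2]
    simp only [site, Fintype.sum_prod_type, Fin.sum_univ_two]
    have e : ∑ k, Real.negMulLog (d.g k / 8) = Real.negMulLog 8⁻¹
        + 8⁻¹ * ∑ k, Real.negMulLog (d.g k) := by
      rw [← Pool.Agent.H235R2.QLP.negMulLog_sum 8⁻¹ d.g d.g_sum]
      exact Finset.sum_congr rfl fun x _ => by congr 1; ring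
    rw [e, hlog, show (8 : ℝ) = 2 ^ 3 by norm_num, Real.log_pow]
    push_cast
    ring
  have h2 : d.site.S = 2 * Real.log 2 + ∑ a, Real.negMulLog (d.l a ^ 2) := by
    unfold Site.S
    rw [Fintype.sum_prod_type, sum_G2]
    simp only [site]
    have e : ∑ a, Real.negMulLog (d.l a ^ 2 / 4) = Real.negMulLog 4⁻¹
        + 4⁻¹ * ∑ a, Real.negMulLog (d.l a ^ 2) := by
      rw [← Pool.Agent.H235R2.QLP.negMulLog_sum 4⁻¹ (fun a => d.l a ^ 2) d.hsum]
      exact Finset.sum_congr rfl fun x _ => by congr 1; ring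
    rw [e, hlog, show (4 : ℝ) = 2 ^ 2 by norm_num, Real.log_pow]
    push_cast
    ring
  rw [h1, h2]; ring

/-- affinity of one flip -/
noncomputable def J (i : Fin 2) : ℝ :=
  ∑ a, ∑ b, d.l a * d.l b * (∑ ω, d.u a ω * act (ei i) (d.u b) ω) ^ 2

lemma E_site : d.site.E ff = 1 - 1 / 2 * (d.J 0 + d.J 1) := by
  have key : ∀ i, (∑ a, d.site.lam a * ∑ ω, d.site.u a ω ^ 2 * ff i (d.site.pos ω) ^ 2
    - ∑ a, ∑ b, √(d.site.lam a * d.site.lam b) * (∑ ω, d.site.u a ω * ff i (d.site.pos ω)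
      * d.site.u b ω) ^ 2) = 1 / 4 - 1 / 4 * d.J i := by
    intro i
    congr 1
    · simp only [ff_sq]
      have e : ∀ a, ∑ ω, d.site.u a ω ^ 2 * (1 / 4) = 1 / 4 := by
        intro a
        rw [← Finset.sum_mul]
        have := d.site.u_orth a a
        rw [if_pos rfl] at this
        rw [show ∑ ω, d.site.u a ω ^ 2 = 1 by
          rw [← this]; exact Finset.sum_congr rfl fun ω _ => by ring]
        ring
      simp only [e]
      rw [← Finset.sum_mul, d.site.lam_sum]; norm_num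
    · have hlam : d.site.lam = fun a => d.l a.2 ^ 2 / 4 := rfl
      have hu : d.site.u = d.us := rfl
      have hpos : d.site.pos = fun ω => ω.1 := rfl
      rw [hlam, hu, hpos]
      have e1 : ∀ (χ χ' : G2) (a b : Fin 2 × κ),
          (∑ ω : G2 × (Fin 2 × κ), d.us (χ, a) ω * ff i ω.1 * d.us (χ', b) ω)
          = if χ' = χ + ei i then 1 / 2 * ∑ ω, act χ (d.u a) ω * act (χ + ei i) (d.u b) ω else 0 := by
        intro χ χ' a b
        rw [Fintype.sum_prod_type]
        have e : ∀ x : G2, ∑ ω, d.us (χ, a) (x, ω) * ff i x * d.us (χ', b) (x, ω)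
            = (chr χ x * ff i x * chr χ' x) * (1 / 4 * ∑ ω, act χ (d.u a) ω * act χ' (d.u b) ω) := by
          intro x
          rw [Finset.mul_sum, Finset.mul_sum]
          refine Finset.sum_congr rfl fun ω _ => ?_
          unfold us
          ring
        simp_rw [e]
        rw [← Finset.sum_mul, chr_ff]
        by_cases h : χ' = χ + ei i
        · rw [if_pos h, if_pos h, h]; ring
        · rw [if_neg h, if_neg h, zero_mul]
      have e2 : ∀ a b : Fin 2 × κ, √(d.l a ^ 2 / 4 * (d.l b ^ 2 / 4)) = d.l a * d.l b / 4 := by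
        intro a b
        rw [show d.l a ^ 2 / 4 * (d.l b ^ 2 / 4) = (d.l a * d.l b / 4) ^ 2 by ring]
        exact Real.sqrt_sq (by have := mul_nonneg (d.hl a) (d.hl b); positivity)
      simp only [sum_big (κ := κ)] at e1 ⊢
      simp only [e1, e2]
      have e3 : ∀ (χ : G2) (a : Fin 2 × κ), ∑ χ' : G2, ∑ b : Fin 2 × κ, d.l a * d.l b / 4
            * (if χ' = χ + ei i then 1 / 2 * ∑ ω, act χ (d.u a) ω * act (χ + ei i) (d.u b) ω
              else 0) ^ 2
          = 1 / 16 * ∑ b, d.l a * d.l b * (∑ ω, d.u a ω * act (ei i) (d.u b) ω) ^ 2 := by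
        intro χ a
        rw [Finset.sum_eq_single (χ + ei i)]
        · rw [Finset.mul_sum]
          refine Finset.sum_congr rfl fun b _ => ?_
          rw [if_pos rfl, mul_pow, act_rel]
          ring
        · intro χ' _ hχ
          refine Finset.sum_eq_zero fun b _ => ?_
          rw [if_neg hχ]; ring
        · simp
      simp only [e3]
      rw [sum_G2]
      simp only [← Finset.mul_sum]
      unfold J
      ring
  unfold Site.E
  rw [Fin.sum_univ_two, key, key]
  ring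

lemma act_eq (i : Fin 2) (v : Fin 2 × κ → ℝ) :
    act (ei i) v = ((if i = 0 then Xm else Ym) ⊗ₖ (1 : Matrix κ κ ℝ)) *ᵥ v := by
  funext ⟨r, y⟩
  simp only [act, Matrix.mulVec, dotProduct, Fintype.sum_prod_type, Matrix.kroneckerMap_apply,
    Matrix.one_apply]
  refine Finset.sum_congr rfl fun s _ => ?_
  rw [Finset.sum_eq_single y]
  · rw [if_pos rfl, mul_one]
    congr 1
    fin_cases i <;> fin_cases r <;> fin_cases s <;> simp [sgm, ei, Xm, Ym]
  · intro y' _ hy
    rw [if_neg (Ne.symm hy)]; ring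
  · simp

lemma mat_conj (u : Fin 2 × κ → Fin 2 × κ → ℝ) (l : Fin 2 × κ → ℝ)
    (A : Matrix (Fin 2 × κ) (Fin 2 × κ) ℝ) :
    A * mat u l * Aᵀ = mat (fun a => A *ᵥ u a) l := by
  have hU : Matrix.of (fun a => A *ᵥ u a) = Matrix.of u * Aᵀ := by
    ext a i
    rw [Matrix.mul_apply]
    simp only [Matrix.of_apply, Matrix.mulVec, dotProduct, Matrix.transpose_apply]
    exact Finset.sum_congr rfl fun x _ => by ring
  rw [mat_eq, mat_eq, hU, Matrix.transpose_mul, Matrix.transpose_transpose]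
  simp only [Matrix.mul_assoc]

lemma J_eq (i : Fin 2) : d.J i = (mat d.u d.l * (((if i = 0 then Xm else Ym) ⊗ₖ (1 : Matrix κ κ ℝ))
    * mat d.u d.l * ((if i = 0 then Xm else Ym) ⊗ₖ (1 : Matrix κ κ ℝ))ᵀ)).trace := by
  rw [mat_conj, mat_mul_trace]
  unfold J
  refine Finset.sum_congr rfl fun a _ => Finset.sum_congr rfl fun b _ => ?_
  rw [act_eq]

lemma Xm_eq : Xm = Fm + Fmᵀ := by
  ext i j
  rw [Matrix.add_apply, Matrix.transpose_apply]
  fin_cases i <;> fin_cases j <;> simp [Xm, Fm]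

lemma Ym_eq : Ym = Fmᵀ - Fm := by
  ext i j
  rw [Matrix.sub_apply, Matrix.transpose_apply]
  fin_cases i <;> fin_cases j <;> simp [Ym, Fm]

/-- the total affinity -/
theorem J_sum : d.J 0 + d.J 1 = 4 * (mat d.u d.l * (Fm ⊗ₖ (1 : Matrix κ κ ℝ))
    * (mat d.u d.l * (Fm ⊗ₖ (1 : Matrix κ κ ℝ))ᵀ)).trace := by
  set T := mat d.u d.l with hT
  set F := Fm ⊗ₖ (1 : Matrix κ κ ℝ) with hF
  have hX : (Xm ⊗ₖ (1 : Matrix κ κ ℝ)) = F + Fᵀ := by
    rw [hF, kron_tr, Matrix.transpose_one, Xm_eq, Matrix.add_kronecker]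
  have hY : (Ym ⊗ₖ (1 : Matrix κ κ ℝ)) = Fᵀ - F := by
    rw [hF, kron_tr, Matrix.transpose_one, Ym_eq]
    ext x y
    simp only [Matrix.kroneckerMap_apply, Matrix.sub_apply, sub_mul]
  rw [J_eq, J_eq]
  simp only [if_true, one_ne_zero, if_false]
  rw [hX, hY]
  simp only [Matrix.transpose_add, Matrix.transpose_sub, Matrix.transpose_transpose]
  have e1 : (T * ((F + Fᵀ) * T * (Fᵀ + F))).trace + (T * ((Fᵀ - F) * T * (F - Fᵀ))).trace
      = 2 * (T * (F * T * Fᵀ)).trace + 2 * (T * (Fᵀ * T * F)).trace := by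
    simp only [Matrix.add_mul, Matrix.mul_add, Matrix.sub_mul, Matrix.mul_sub, Matrix.trace_add,
      Matrix.trace_sub]
    ring
  rw [e1]
  have e2 : (T * (Fᵀ * T * F)).trace = (T * (F * T * Fᵀ)).trace := by
    rw [Matrix.trace_mul_comm, Matrix.mul_assoc, Matrix.mul_assoc, Matrix.trace_mul_comm]
    simp only [Matrix.mul_assoc]
  rw [e2]
  have e3 : T * (F * T * Fᵀ) = T * F * (T * Fᵀ) := by simp only [Matrix.mul_assoc]
  rw [e3]
  ring

end Tw

end Pool.Agent.TH753.FF
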