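import Pool.Agent.TH753.FF3
import Pool.Agent.H235R2.QLP.Final

/-!
# Binary codes from sites over two-bit letters
-/

open Finset

namespace Pool.Agent.TH753.FF

open Pool.Agent.H390R2.LP Pool.Agent.H235R2.QLP

variable {Ω Ω₁ Ω₂ X I : Type} [Fintype Ω] [DecidableEq Ω] [Fintype Ω₁] [DecidableEq Ω₁]
  [Fintype Ω₂] [DecidableEq Ω₂] [Fintype I]

/-- energy of a mixture -/
lemma E_mix (s₁ : Site Ω₁ X) (s₂ : Site Ω₂ X) (r : ℝ) (h0 : 0 ≤ r) (h1 : r ≤ 1) (f : I → X → ℝ) :
    (mix s₁ s₂ r h0 h1).E f = r * s₁.E f + (1 - r) * s₂.E f := by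
  unfold Site.E
  have e1 : ∀ a b, √(r * s₁.lam a * (r * s₁.lam b)) = r * √(s₁.lam a * s₁.lam b) := by
    intro a b
    rw [show r * s₁.lam a * (r * s₁.lam b) = r ^ 2 * (s₁.lam a * s₁.lam b) by ring,
      Real.sqrt_mul (sq_nonneg r), Real.sqrt_sq h0]
  have e2 : ∀ a b, √((1 - r) * s₂.lam a * ((1 - r) * s₂.lam b))
      = (1 - r) * √(s₂.lam a * s₂.lam b) := by
    intro a b
    rw [show (1 - r) * s₂.lam a * ((1 - r) * s₂.lam b)
        = (1 - r) ^ 2 * (s₂.lam a * s₂.lam b) by ring,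
      Real.sqrt_mul (sq_nonneg _), Real.sqrt_sq (by linarith)]
  have key : ∀ i, (∑ a, (mix s₁ s₂ r h0 h1).lam a * ∑ ω, (mix s₁ s₂ r h0 h1).u a ω ^ 2
        * f i ((mix s₁ s₂ r h0 h1).pos ω) ^ 2
      - ∑ a, ∑ b, √((mix s₁ s₂ r h0 h1).lam a * (mix s₁ s₂ r h0 h1).lam b)
        * (∑ ω, (mix s₁ s₂ r h0 h1).u a ω * f i ((mix s₁ s₂ r h0 h1).pos ω)
          * (mix s₁ s₂ r h0 h1).u b ω) ^ 2)
      = r * (∑ a, s₁.lam a * ∑ ω, s₁.u a ω ^ 2 * f i (s₁.pos ω) ^ 2
        - ∑ a, ∑ b, √(s₁.lam a * s₁.lam b) * (∑ ω, s₁.u a ω * f i (s₁.pos ω) * s₁.u b ω) ^ 2)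
      + (1 - r) * (∑ a, s₂.lam a * ∑ ω, s₂.u a ω ^ 2 * f i (s₂.pos ω) ^ 2
        - ∑ a, ∑ b, √(s₂.lam a * s₂.lam b) * (∑ ω, s₂.u a ω * f i (s₂.pos ω) * s₂.u b ω) ^ 2) := by
    intro i
    simp only [mix, Fintype.sum_sum_type, Sum.elim_inl, Sum.elim_inr, dsum, mul_zero, zero_mul,
      Finset.sum_const_zero, add_zero, zero_add, ne_eq, OfNat.ofNat_ne_zero,
      not_false_eq_true, zero_pow, e1, e2]
    simp only [mul_assoc r, mul_assoc (1 - r), ← Finset.mul_sum]
    ring
  simp_rw [key]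
  rw [Finset.sum_add_distrib, ← Finset.mul_sum, ← Finset.mul_sum]
  ring

lemma E_triv (x : X) (f : I → X → ℝ) : (triv x).E f = 0 := by
  simp [Site.E, triv]

/-- squared distance of letters -/
noncomputable def dG (a b : G2) : ℝ := ∑ i, (ff i a - ff i b) ^ 2

lemma dG_eq (a b : G2) :
    dG a b = (if a.1 ≠ b.1 then 1 else 0) + (if a.2 ≠ b.2 then 1 else 0) := by
  unfold dG
  rw [Fin.sum_univ_two]
  obtain ⟨a1, a2⟩ := a
  obtain ⟨b1, b2⟩ := b
  fin_cases a1 <;> fin_cases a2 <;> fin_cases b1 <;> fin_cases b2 <;> simp [ff] <;> norm_num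

lemma dG_add (a b v : G2) : dG (a + v) (b + v) = dG a b := by
  rw [dG_eq, dG_eq]
  simp

/-- reading the bits of a word, with zeros appended -/
def rb {n : ℕ} (x : Fin n → Bool) (j : ℕ) : Fin 2 := if h : j < n then (if x ⟨j, h⟩ then 1 else 0) else 0

/-- words of bits as words of two-bit letters -/
def emb {n : ℕ} (m : ℕ) (x : Fin n → Bool) (k : Fin m) : G2 := (rb x (2 * k), rb x (2 * k + 1))

lemma sum_pairs (f : ℕ → ℝ) : ∀ m : ℕ, ∑ j ∈ range (2 * m), f j
    = ∑ k ∈ range m, (f (2 * k) + f (2 * k + 1))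
  | 0 => by simp
  | m + 1 => by
    rw [show 2 * (m + 1) = 2 * m + 1 + 1 by ring, Finset.sum_range_succ, Finset.sum_range_succ,
      sum_pairs f m, Finset.sum_range_succ]
    ring

lemma dist_emb {n m : ℕ} (hm : n ≤ 2 * m) (x y : Fin n → Bool) :
    ∑ k, dG (emb m x k) (emb m y k) = hammingDist x y := by
  have h1 : ∑ k, dG (emb m x k) (emb m y k)
      = ∑ j ∈ range (2 * m), if rb x j ≠ rb y j then (1 : ℝ) else 0 := by
    rw [sum_pairs, Finset.sum_range]
    refine Finset.sum_congr rfl fun k _ => ?_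
    rw [dG_eq]
    rfl
  rw [h1, hammingDist, Finset.card_filter]
  push_cast
  have h2 : ∑ j ∈ range (2 * m), (if rb x j ≠ rb y j then (1 : ℝ) else 0)
      = ∑ j ∈ range n, if rb x j ≠ rb y j then (1 : ℝ) else 0 := by
    refine (Finset.sum_subset (Finset.range_mono hm) fun j _ hj => ?_).symm
    rw [Finset.mem_range, not_lt] at hj
    have hx : rb x j = 0 := by unfold rb; rw [dif_neg (by omega)]
    have hy : rb y j = 0 := by unfold rb; rw [dif_neg (by omega)]
    simp [hx, hy]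
  rw [h2, Finset.sum_range]
  refine Finset.sum_congr rfl fun j _ => ?_
  have hx : rb x j = if x j then 1 else 0 := by unfold rb; rw [dif_pos j.2]
  have hy : rb y j = if y j then 1 else 0 := by unfold rb; rw [dif_pos j.2]
  rw [hx, hy]
  cases x j <;> cases y j <;> simp

lemma emb_inj {n m : ℕ} (hm : n ≤ 2 * m) : Function.Injective (emb (n := n) m) := by
  intro x y h
  have h1 := dist_emb hm x y
  rw [h] at h1
  have h2 : ∑ k, dG (emb m y k) (emb m y k) = 0 := by simp [dG]
  rw [h2] at h1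
  exact hammingDist_eq_zero.mp (by exact_mod_cast h1.symm)

/-- The bound on binary codes given by a site over two-bit letters. -/
theorem code_bound2 (s : Site Ω G2) {δ ε : ℝ} (hδ : 0 < δ) (hE : s.E ff < 2 * δ) (hε : 0 < ε) :
    ∃ n0 : ℕ, ∀ n ≥ n0, ∀ C : Finset (Fin n → Bool),
      (∀ x ∈ C, ∀ y ∈ C, x ≠ y → δ * n ≤ hammingDist x y) →
      (C.card : ℝ) ≤ (2 : ℝ) ^ ((1 - cc s / (2 * Real.log 2) + ε) * n) := by
  have hlog : 0 < Real.log 2 := Real.log_pos (by norm_num)
  set ε' : ℝ := min (ε * Real.log 2) ((2 * δ - s.E ff) / 2) with hε'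
  have hε'0 : 0 < ε' := lt_min (by positivity) (by linarith)
  have hε'1 : ε' ≤ ε * Real.log 2 := min_le_left _ _
  have hε'2 : ε' ≤ (2 * δ - s.E ff) / 2 := min_le_right _ _
  obtain ⟨m0, h0⟩ := iid Ω G2 (Fin 2) s ff ε' hε'0
  set K : ℝ := max (s.E ff + ε') 0 with hK
  have hK2 : K < 2 * δ := max_lt (by linarith) (by linarith)
  have hK0 : 0 ≤ K := le_max_right _ _
  set c : ℝ := 2 * Real.log 2 - cc s + ε' with hc
  obtain ⟨n1, hn1⟩ := exists_nat_gt (K / (2 * δ - K))
  obtain ⟨n2, hn2⟩ := exists_nat_gt (|c| / (ε * Real.log 2))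
  refine ⟨max (2 * m0) (max n1 (max n2 1)), fun n hn C hC => ?_⟩
  have hnm : 2 * m0 ≤ n := le_trans (le_max_left _ _) hn
  have hnn1 : n1 ≤ n := le_trans (le_trans (le_max_left _ _) (le_max_right _ _)) hn
  have hnn2 : n2 ≤ n := le_trans (le_trans (le_trans (le_max_left _ _) (le_max_right _ _))
    (le_max_right _ _)) hn
  have hn1' : 1 ≤ n := le_trans (le_trans (le_trans (le_max_right _ _) (le_max_right _ _))
    (le_max_right _ _)) hn
  have hnR : (1 : ℝ) ≤ n := by exact_mod_cast hn1'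
  set m : ℕ := (n + 1) / 2 with hm
  have hm1 : n ≤ 2 * m := by omega
  have hm2 : 2 * m ≤ n + 1 := by omega
  have hm3 : m0 ≤ m := by omega
  have hm1R : (n : ℝ) ≤ 2 * m := by exact_mod_cast hm1
  have hm2R : 2 * (m : ℝ) ≤ n + 1 := by exact_mod_cast hm2
  by_contra hlt
  push Not at hlt
  have hCpos : 0 < C.card := by
    have : (0 : ℝ) < C.card := lt_of_le_of_lt (by positivity) hlt
    exact_mod_cast this
  set C' : Finset (Fin m → G2) := C.map ⟨emb m, emb_inj hm1⟩ with hC'
  have hC'card : C'.card = C.card := Finset.card_map _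
  have key := h0 m hm3 (Fin m → G2) (fun v => C'.image (fun c => c + v)) C.card (δ * n) hCpos
    (by
      intro x
      rw [← hC'card, ← Finset.card_image_of_injective (s := C') (f := fun c => x - c)
        (fun a b h => by simpa using h)]
      congr 1
      ext v
      simp only [Finset.mem_filter, Finset.mem_univ, true_and, Finset.mem_image]
      constructor
      · rintro ⟨c, hc, hcv⟩
        exact ⟨c, hc, by rw [← hcv]; abel⟩
      · rintro ⟨c, hc, hcv⟩
        exact ⟨c, hc, by rw [← hcv]; abel⟩)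
    (by
      intro v x hx y hy hxy
      simp only [Finset.mem_image] at hx hy
      obtain ⟨a, ha, rfl⟩ := hx
      obtain ⟨b, hb, rfl⟩ := hy
      rw [hC'] at ha hb
      simp only [Finset.mem_map, Function.Embedding.coeFn_mk] at ha hb
      obtain ⟨a', ha', rfl⟩ := ha
      obtain ⟨b', hb', rfl⟩ := hb
      have hab : a' ≠ b' := fun e => hxy (by rw [e])
      have e1 : ∑ k, ∑ i, (ff i ((emb m a' + v) k) - ff i ((emb m b' + v) k)) ^ 2
          = ∑ k, dG (emb m a' k) (emb m b' k) := by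
        refine Finset.sum_congr rfl fun k _ => ?_
        exact dG_add _ _ _
      rw [e1, dist_emb hm1]
      exact hC a' ha' b' hb' hab)
    (by
      have e1 : ((Fintype.card (Fin m → G2) : ℕ) : ℝ) = Real.exp (m * (2 * Real.log 2)) := by
        have e0 : Fintype.card (Fin m → G2) = 4 ^ m := by
          simp [Fintype.card_prod]
        rw [e0]
        push_cast
        rw [show (m : ℝ) * (2 * Real.log 2) = m * Real.log 4 by
          rw [show (4 : ℝ) = 2 ^ 2 by norm_num, Real.log_pow]; push_cast; ring,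
          mul_comm, Real.exp_mul, Real.exp_log (by norm_num), Real.rpow_natCast]
      rw [e1]
      have e2 : Real.exp (m * (2 * Real.log 2)) = Real.exp (m * c)
          * Real.exp (m * (s.h - s.S - ε')) := by
        rw [← Real.exp_add]
        congr 1
        rw [hc]
        unfold cc
        ring
      rw [e2]
      refine mul_le_mul_of_nonneg_right (le_trans ?_ hlt.le) (Real.exp_pos _).le
      rw [Real.rpow_def_of_pos (by norm_num : (0 : ℝ) < 2)]
      apply Real.exp_le_exp.mpr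
      have h5 : Real.log 2 * ((1 - cc s / (2 * Real.log 2) + ε) * n)
          = (Real.log 2 - cc s / 2 + ε * Real.log 2) * n := by
        field_simp
      rw [h5]
      -- m c ≤ (n / 2) c + |c| / 2
      have h6 : (m : ℝ) * c ≤ n / 2 * c + |c| / 2 := by
        have h7 : ((m : ℝ) - n / 2) * c ≤ 1 / 2 * |c| := by
          have h8 : ((m : ℝ) - n / 2) * c ≤ ((m : ℝ) - n / 2) * |c| :=
            mul_le_mul_of_nonneg_left (le_abs_self c) (by linarith)
          have h9 : ((m : ℝ) - n / 2) * |c| ≤ 1 / 2 * |c| :=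
            mul_le_mul_of_nonneg_right (by linarith) (abs_nonneg c)
          linarith
        linarith
      have h10 : |c| ≤ n * (ε * Real.log 2) := by
        have : |c| / (ε * Real.log 2) < n :=
          lt_of_lt_of_le hn2 (by exact_mod_cast hnn2)
        rw [div_lt_iff₀ (by positivity)] at this
        exact this.le
      have h11 : (n : ℝ) / 2 * ε' ≤ n / 2 * (ε * Real.log 2) :=
        mul_le_mul_of_nonneg_left hε'1 (by positivity)
      rw [hc] at h6 ⊢
      rw [← hc] at h6 ⊢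
      have h12 : (n : ℝ) / 2 * c = n * Real.log 2 - n / 2 * cc s + n / 2 * ε' := by
        rw [hc]; ring
      nlinarith)
  -- contradiction
  have h13 : δ * n ≤ (n + 1) / 2 * K := by
    refine le_trans key ?_
    have h14 : (m : ℝ) * (s.E ff + ε') ≤ m * K :=
      mul_le_mul_of_nonneg_left (le_max_left _ _) (Nat.cast_nonneg m)
    have h15 : (m : ℝ) * K ≤ (n + 1) / 2 * K := mul_le_mul_of_nonneg_right (by linarith) hK0
    linarith
  have h16 : K / (2 * δ - K) < n := lt_of_lt_of_le hn1 (by exact_mod_cast hnn1)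
  rw [div_lt_iff₀ (by linarith)] at h16
  nlinarith

/-- The same with a non-strict inequality. -/
theorem code_bound2' (s : Site Ω G2) {δ ε : ℝ} (hδ : 0 < δ) (hE : s.E ff ≤ 2 * δ) (hε : 0 < ε) :
    ∃ n0 : ℕ, ∀ n ≥ n0, ∀ C : Finset (Fin n → Bool),
      (∀ x ∈ C, ∀ y ∈ C, x ≠ y → δ * n ≤ hammingDist x y) →
      (C.card : ℝ) ≤ (2 : ℝ) ^ ((1 - cc s / (2 * Real.log 2) + ε) * n) := by
  have hlog : 0 < Real.log 2 := Real.log_pos (by norm_num)
  set t : ℝ := min (1 / 2) (ε * Real.log 2 / (|cc s| + 1)) with ht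
  have hden : 0 < |cc s| + 1 := by positivity
  have ht0 : 0 < t := lt_min (by norm_num) (by positivity)
  have ht1 : t ≤ 1 / 2 := min_le_left _ _
  have ht2 : t * (|cc s| + 1) ≤ ε * Real.log 2 := by
    have h1 : t ≤ ε * Real.log 2 / (|cc s| + 1) := min_le_right _ _
    rwa [le_div_iff₀ hden] at h1
  set s' := mix s (triv ((0, 0) : G2)) (1 - t) (by linarith) (by linarith) with hs'
  have hE' : s'.E ff < 2 * δ := by
    rw [hs', E_mix, E_triv, mul_zero, add_zero]
    have : (1 - t) * s.E ff ≤ (1 - t) * (2 * δ) := mul_le_mul_of_nonneg_left hE (by linarith)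
    nlinarith
  have hcc : cc s' = (1 - t) * cc s := by
    rw [hs', cc_mix, cc_triv, mul_zero, add_zero]
  obtain ⟨n0, hn0⟩ := code_bound2 s' hδ hE' (ε := ε / 2) (by linarith)
  refine ⟨n0, fun n hn C hC => le_trans (hn0 n hn C hC) ?_⟩
  apply Real.rpow_le_rpow_of_exponent_le (by norm_num)
  refine mul_le_mul_of_nonneg_right ?_ (Nat.cast_nonneg n)
  rw [hcc]
  have h6 : t * cc s ≤ ε * Real.log 2 := by
    have : cc s ≤ |cc s| + 1 := by linarith [le_abs_self (cc s)]
    exact le_trans (mul_le_mul_of_nonneg_left this ht0.le) ht2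
  have h7 : (1 - t) * cc s / (2 * Real.log 2)
      = cc s / (2 * Real.log 2) - t * cc s / (2 * Real.log 2) := by ring
  have h8 : t * cc s / (2 * Real.log 2) ≤ ε / 2 := by
    rw [div_le_iff₀ (by positivity)]
    linarith
  rw [h7]
  linarith

end Pool.Agent.TH753.FF
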