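import Pool.Agent.TH753.FF14

/-!
# The limit of vanishing spacing
-/

open Filter Topology Set MeasureTheory

namespace Pool.Agent.TH753.FF

open Pool.Agent.H390R2.LP Pool.Agent.H235R2.QLP

/-! ### The integral of `sech` -/

lemma integral_sech_half : ∫ v in Ioi 0, 1 / Real.cosh v = Real.pi / 2 := by
  have h := integral_Ioi_of_hasDerivAt_of_nonneg' (a := 0) (fun x _ => gd_deriv x)
    (fun x _ => (inv_cosh_pos x).le) gd_atTop
  rw [h]
  simp [gd]

lemma integral_sech (x : ℝ) : ∫ v, 1 / Real.cosh (v - x) = Real.pi := by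
  rw [integral_sub_right_eq_self (fun v => 1 / Real.cosh v) x, integral_even _ (fun v => by
    rw [Real.cosh_neg]), integral_sech_half]
  ring

lemma bu_facts {u : ℝ} (h0 : 0 ≤ u) (h1 : u ≤ 1) : IntegrableOn (bu u) (Ioi 0) ∧
    ∫ v in Ioi 0, bu u v = u * (Real.pi / 2) := by
  rcases eq_or_lt_of_le h0 with h | h
  · subst h
    have e1 : bu 0 = fun _ => 0 := by funext v; simp [bu]
    rw [e1]
    simp
  · obtain ⟨x, hx⟩ := exists_cosh h h1
    subst hx
    have i1 := integrable_sech x
    have i2 : Integrable fun v => 1 / Real.cosh (v + x) := by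
      have := integrable_sech (-x)
      simpa using this
    have e1 : bu (1 / Real.cosh x) = fun v => 1 / Real.cosh x / 2
        * (1 / Real.cosh (v - x) + 1 / Real.cosh (v + x)) := funext fun v => bu_eq x v
    have i3 : Integrable (bu (1 / Real.cosh x)) := by
      rw [e1]
      exact (i1.add i2).const_mul _
    refine ⟨i3.integrableOn, ?_⟩
    have h2 : ∫ v, bu (1 / Real.cosh x) v = 1 / Real.cosh x * Real.pi := by
      have h3 : ∫ v, 1 / Real.cosh (v + x) = Real.pi := by
        have := integral_sech (-x)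
        simpa using this
      rw [e1]
      simp only
      rw [integral_const_mul, integral_add i1 i2, integral_sech, h3]
      ring
    rw [integral_even _ (fun v => by
      unfold bu
      rw [Real.cosh_neg, Real.sinh_neg, neg_sq])] at h2
    linarith

lemma one_add_cosh (v : ℝ) : 1 + Real.cosh v = 2 * Real.cosh (v / 2) ^ 2 := by
  have h := Real.cosh_two_mul (v / 2)
  rw [show 2 * (v / 2) = v by ring] at h
  have h2 := Real.cosh_sq (v / 2)
  rw [h]
  linarith

lemma half_tanh_deriv (x : ℝ) : HasDerivAt (fun v => Real.tanh (v / 2)) (1 / (1 + Real.cosh x)) x := by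
  have h := (tanh_deriv (x / 2)).comp x ((hasDerivAt_id x).div_const 2)
  refine h.congr_deriv ?_
  rw [one_add_cosh]
  have := (Real.cosh_pos (x / 2)).ne'
  field_simp

lemma half_facts : IntegrableOn (fun v => 1 / (1 + Real.cosh v)) (Ioi 0) ∧
    ∫ v in Ioi 0, 1 / (1 + Real.cosh v) = 1 := by
  have hn : ∀ x ∈ Ioi (0 : ℝ), 0 ≤ 1 / (1 + Real.cosh x) := fun x _ => by
    have := Real.cosh_pos x
    positivity
  have ht : Tendsto (fun v => Real.tanh (v / 2)) atTop (𝓝 1) :=
    tanh_atTop.comp (tendsto_id.atTop_div_const (by norm_num))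
  refine ⟨integrableOn_Ioi_deriv_of_nonneg' (fun x _ => half_tanh_deriv x) hn ht, ?_⟩
  rw [integral_Ioi_of_hasDerivAt_of_nonneg' (fun x _ => half_tanh_deriv x) hn ht]
  simp

/-- **Comparison at `1/2 - 1/π`.** -/
theorem arcsine_lt {δ u : ℝ} (hδ : 0 < δ) (hα : 1 - 2 * δ = 2 / Real.pi) (h0 : 0 ≤ u)
    (h1 : u ≤ 1 - 2 * δ) : 1 / 2 < 1 + hh (u ^ 2) - hh (u ^ 2 + 2 * δ * u + 2 * δ) := by
  have hlog : 0 < Real.log 2 := Real.log_pos (by norm_num)
  obtain ⟨hT0, hT1, w, hw0, hw1, hwT, haff⟩ := weight hδ h0 h1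
  set T := u ^ 2 + 2 * δ * u + 2 * δ with hT
  have hu1 : u ≤ 1 := by linarith
  obtain ⟨c1, c2⟩ := gc_log h0 hu1 hT0 hT1
  obtain ⟨b1, b2⟩ := bu_facts zero_le_one (le_refl (1 : ℝ))
  obtain ⟨b3, b4⟩ := bu_facts h0 hu1
  obtain ⟨d1, d2⟩ := half_facts
  have hc := cert (fun _ => 1) (fun v => 1 / (1 + Real.cosh v)) (gc u T)
    (fun v => w * bu 1 v + (1 - w) * bu u v)
    (fun v _ => one_pos) (fun v _ => gc_pos u hT0 v) (fun v _ => by
      have h2 := Real.cosh_pos v
      have h3 := Real.cosh_sq v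
      have h4 : Real.sinh v ^ 2 = (Real.cosh v - 1) * (1 + Real.cosh v) := by linarith
      rw [h4]
      have h5 : 1 + Real.cosh v ≠ 0 := by positivity
      field_simp
      ring)
    (fun v _ => by
      rw [gc_mix w hwT, gam_eq, gam_eq]
      ring)
    continuousOn_const (gc_cont u).continuousOn (by simpa using d1)
    (by
      have h6 : IntegrableOn (fun v => w * bu 1 v + (1 - w) * bu u v) (Ioi 0) :=
        (b1.const_mul w).add (b3.const_mul (1 - w))
      simp only [div_one, one_mul]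
      exact h6)
    (by simp) c1 (by
      simp only [div_one, one_mul]
      have a1 : Integrable (fun v => w * bu 1 v) (volume.restrict (Ioi 0)) := b1.const_mul w
      have a2 : Integrable (fun v => (1 - w) * bu u v) (volume.restrict (Ioi 0)) :=
        b3.const_mul (1 - w)
      rw [d2, integral_add a1 a2, integral_const_mul, integral_const_mul, b2, b4]
      have hpi := Real.pi_pos
      have h5 : w * (1 * (Real.pi / 2)) + (1 - w) * (u * (Real.pi / 2))
          = (w + (1 - w) * u) * (Real.pi / 2) := by ring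
      rw [h5, haff, hα]
      have : 2 / Real.pi * (Real.pi / 2) = 1 := by field_simp
      rw [this])
    (by
      by_contra hall
      push Not at hall
      have e1 := hall 1 (by norm_num)
      have e2 := hall 2 (by norm_num)
      have e3 := hall 3 (by norm_num)
      exact gc_ne hT1 (by norm_num) (by norm_num) (by norm_num) e1.symm e2.symm e3.symm)
  rw [c2] at hc
  simp only [Real.log_one, zero_div, integral_zero] at hc
  have h3 : hh T - hh (u ^ 2) - 1 / 2 < 0 := by
    by_contra h
    push Not at h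
    have : 0 ≤ 2 * Real.log 2 * (hh T - hh (u ^ 2) - 1 / 2) := by positivity
    linarith
  linarith

/-! ### Sites of a lattice -/

/-- approximating sites -/
theorem theta_sites (a : ℝ) {e : ℝ} (he : 0 < e) {η : ℝ} (hη : 0 < η) :
    ∃ (Ω : Type) (_ : Fintype Ω) (_ : DecidableEq Ω) (s : Site Ω G2),
      s.E ff ≤ 1 - (∑' j, g2 a e j) / (∑' j, g1 a e j) + η ∧
      Real.log 2 * (1 - ∑' j : ℤ, (se (a + 2 * (j : ℝ) * e) - se (a + (2 * (j : ℝ) + 1) * e))) - η
        ≤ cc s := by
  have hlog : 0 < Real.log 2 := Real.log_pos (by norm_num)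
  set S : ℝ := ∑' j : ℤ, (se (a + 2 * (j : ℝ) * e) - se (a + (2 * (j : ℝ) + 1) * e)) with hS
  have hS2 : S = (∑' j : ℤ, se (a + 2 * (j : ℝ) * e)) - ∑' j : ℤ, se (a + (2 * (j : ℝ) + 1) * e) :=
    (summable_se a he).tsum_sub (summable_se' a he)
  have t1 := tendsto_aff a he
  have t2 := (((tendsto_x a he).sub (tendsto_y a he)).const_sub 1).const_mul (Real.log 2)
  rw [← hS2] at t2
  have u1 : ∀ᶠ M : ℕ in atTop, (∑' j, g2 a e j) / (∑' j, g1 a e j) - η
      < Zs a e M (g2 a e) / Zs a e M (g1 a e) := t1.eventually (lt_mem_nhds (by linarith))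
  have u2 := t2.eventually (lt_mem_nhds (show Real.log 2 * (1 - S) - η < Real.log 2 * (1 - S) by
    linarith))
  obtain ⟨M, h1, h2⟩ := (u1.and u2).exists
  obtain ⟨Ω, i1, i2, s, h3, h4⟩ := (thetaData a he M (2 * M)).exists_site
  refine ⟨Ω, i1, i2, s, ?_, ?_⟩
  · rw [h4]
    have h5 : 2 * ∑ i, (thetaData a he M (2 * M)).w i
        * √((thetaData a he M (2 * M)).c i * (1 - (thetaData a he M (2 * M)).c i))
        = Zs a e M (g2 a e) / Zs a e M (g1 a e) := by
      rw [← aff_eq a he M, Finset.mul_sum]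
      exact Finset.sum_congr rfl fun i _ => by ring
    rw [h5]
    linarith
  · rw [h3]
    have hlc : ∀ i, (thetaData a he M (2 * M)).c i = sg (px a e M i) := fun i => rfl
    have hll : ∀ k, (thetaData a he M (2 * M)).lam k = sg (py a e M k) := fun i => rfl
    have h5 : ∀ x : ℝ, Real.negMulLog (sg x) + Real.negMulLog (1 - sg x)
        = Real.log 2 * se x := by
      intro x
      unfold se
      field_simp
    simp_rw [hlc, hll, h5]
    rw [← Finset.mul_sum, ← Finset.mul_sum]
    refine le_trans h2.le (le_of_eq ?_)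
    ring

lemma gX_small {e : ℝ} (he : 0 < e) (v : ℝ) :
    Real.exp (-(2 * e)) ≤ gX 0 e v ∧ gX 0 e v ≤ Real.exp (2 * e) := by
  have hS : ∀ v, SX 0 e v = ∑' j : ℤ, 1 / Real.cosh (-v + 2 * (j : ℝ) * e) := by
    intro v
    unfold SX
    refine tsum_congr fun j => ?_
    rw [← Real.cosh_neg]
    congr 2
    ring
  have key : ∀ v v', SX 0 e v ≤ Real.exp (2 * e) * SX 0 e v' := by
    intro v v'
    obtain ⟨a1, -⟩ := sech_sum_bounds he (-v)
    obtain ⟨-, a2⟩ := sech_sum_bounds he (-v')
    rw [← hS] at a1 a2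
    have h1 : 2 * e * (Real.exp (-e) * SX 0 e v) ≤ 2 * e * (Real.exp e * SX 0 e v') := a1.trans a2
    have h2 : Real.exp (-e) * SX 0 e v ≤ Real.exp e * SX 0 e v' :=
      le_of_mul_le_mul_left h1 (by positivity)
    have h3 := mul_le_mul_of_nonneg_left h2 (Real.exp_pos e).le
    rw [← mul_assoc, ← mul_assoc, ← Real.exp_add, ← Real.exp_add] at h3
    rw [show e + -e = 0 by ring, Real.exp_zero, one_mul, show e + e = 2 * e by ring] at h3
    exact h3
  have hp := SX_pos 0 he
  unfold gX
  constructor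
  · rw [le_div_iff₀ (hp 0)]
    have h4 := key 0 v
    have h5 := mul_le_mul_of_nonneg_left h4 (Real.exp_pos (-(2 * e))).le
    rw [← mul_assoc, ← Real.exp_add, show -(2 * e) + 2 * e = 0 by ring, Real.exp_zero,
      one_mul] at h5
    exact h5
  · rw [div_le_iff₀ (hp 0)]
    exact key v 0

/-- the alternating entropy sum vanishes in the limit -/
lemma tendsto_S : Tendsto (fun e : ℝ => ∑' j : ℤ, (se (0 + 2 * (j : ℝ) * e)
    - se (0 + (2 * (j : ℝ) + 1) * e))) (𝓝[>] 0) (𝓝 0) := by
  have hlog : 0 < Real.log 2 := Real.log_pos (by norm_num)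
  have t : Tendsto (fun e : ℝ => ∫ v in Ioi 0, Real.log (gX 0 e v * gX 0 e (-v)) / Real.sinh v ^ 2)
      (𝓝[>] 0) (𝓝 (∫ v in Ioi (0 : ℝ), (0 : ℝ))) := by
    refine tendsto_integral_filter_of_dominated_convergence (Lk 1) ?_ ?_ Lk_one_int ?_
    · filter_upwards [self_mem_nhdsWithin] with e he
      have he' : (0 : ℝ) < e := he
      refine ContinuousOn.aestronglyMeasurable ?_ measurableSet_Ioi
      refine ContinuousOn.div (ContinuousOn.log ?_ fun v _ =>
        (mul_pos (gX_pos 0 he' v) (gX_pos 0 he' (-v))).ne') (by fun_prop) fun v hv =>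
          pow_ne_zero 2 (Real.sinh_pos_iff.mpr hv).ne'
      exact ((gX_cont he' 0).mul ((gX_cont he' 0).comp continuous_neg)).continuousOn
    · filter_upwards [self_mem_nhdsWithin] with e he
      refine Eventually.of_forall fun v => ?_
      obtain ⟨b1, b2⟩ := gX_bounds 0 (show (0 : ℝ) < e from he) v
      rw [Real.norm_eq_abs]
      exact abs_log_le b1 b2
    · refine Eventually.of_forall fun v => ?_
      have hb : ∀ e : ℝ, 0 < e → |Real.log (gX 0 e v * gX 0 e (-v)) / Real.sinh v ^ 2|
          ≤ 4 * e / Real.sinh v ^ 2 := by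
        intro e he
        obtain ⟨p1, p2⟩ := gX_small he v
        obtain ⟨p3, p4⟩ := gX_small he (-v)
        rw [abs_div, abs_of_nonneg (sq_nonneg (Real.sinh v))]
        refine div_le_div_of_nonneg_right ?_ (sq_nonneg _)
        rw [Real.log_mul (gX_pos 0 he v).ne' (gX_pos 0 he (-v)).ne']
        have l1 := (Real.le_log_iff_exp_le (gX_pos 0 he v)).mpr p1
        have l2 := (Real.log_le_iff_le_exp (gX_pos 0 he v)).mpr p2
        have l3 := (Real.le_log_iff_exp_le (gX_pos 0 he (-v))).mpr p3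
        have l4 := (Real.log_le_iff_le_exp (gX_pos 0 he (-v))).mpr p4
        rw [abs_le]
        constructor <;> linarith
      refine squeeze_zero_norm' (a := fun e : ℝ => 4 * e / Real.sinh v ^ 2) ?_ ?_
      · filter_upwards [self_mem_nhdsWithin] with e he
        rw [Real.norm_eq_abs]
        exact hb e he
      · have c : Continuous fun e : ℝ => 4 * e / Real.sinh v ^ 2 := by fun_prop
        have := c.tendsto 0
        simp only [mul_zero, zero_div] at this
        exact this.mono_left nhdsWithin_le_nhds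
  simp only [integral_zero] at t
  have t2 := (t.neg).div_const (2 * Real.log 2)
  rw [neg_zero, zero_div] at t2
  refine t2.congr' ?_
  filter_upwards [self_mem_nhdsWithin] with e he
  exact (theta_integral 0 he).symm

lemma tendsto_al : Tendsto (al 0) (𝓝[>] 0) (𝓝 (2 / Real.pi)) := by
  have hl : Tendsto (fun e : ℝ => 2 / Real.pi * Real.exp (-(3 * e))) (𝓝[>] 0)
      (𝓝 (2 / Real.pi)) := by
    have c : Continuous fun e : ℝ => 2 / Real.pi * Real.exp (-(3 * e)) := by fun_prop
    have := c.tendsto 0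
    simp only [mul_zero, neg_zero, Real.exp_zero, mul_one] at this
    exact this.mono_left nhdsWithin_le_nhds
  have hr : Tendsto (fun e : ℝ => 2 / Real.pi * Real.exp (3 * e)) (𝓝[>] 0)
      (𝓝 (2 / Real.pi)) := by
    have c : Continuous fun e : ℝ => 2 / Real.pi * Real.exp (3 * e) := by fun_prop
    have := c.tendsto 0
    simp only [mul_zero, Real.exp_zero, mul_one] at this
    exact this.mono_left nhdsWithin_le_nhds
  refine tendsto_of_tendsto_of_tendsto_of_le_of_le' hl hr ?_ ?_
  · filter_upwards [self_mem_nhdsWithin] with e he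
    exact (al_bounds he 0).1
  · filter_upwards [self_mem_nhdsWithin] with e he
    exact (al_bounds he 0).2

/-- **Codes at `1/2 - 1/π`.** -/
theorem arcsine_codes {δ ε : ℝ} (hδ : 0 < δ) (hα : 1 - 2 * δ = 2 / Real.pi) (hε : 0 < ε) :
    ∃ n0 : ℕ, ∀ n ≥ n0, ∀ C : Finset (Fin n → Bool),
      (∀ x ∈ C, ∀ y ∈ C, x ≠ y → δ * n ≤ hammingDist x y) →
      (C.card : ℝ) ≤ (2 : ℝ) ^ ((1 / 2 + ε) * n) := by
  have hlog : 0 < Real.log 2 := Real.log_pos (by norm_num)
  have key := code_closure (δ := δ) (K := Real.log 2) hδ (fun η hη => by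
    have hη2 : 0 < η / (2 * Real.log 2) := by positivity
    have u1 := tendsto_al.eventually (lt_mem_nhds (show 2 / Real.pi - η / 2 < 2 / Real.pi by
      linarith))
    have u2 := tendsto_S.eventually (gt_mem_nhds hη2)
    obtain ⟨e, ⟨h1, h2⟩, h3⟩ := ((u1.and u2).and self_mem_nhdsWithin).exists
    have he : (0 : ℝ) < e := h3
    obtain ⟨Ω, i1, i2, s, h4, h5⟩ := theta_sites 0 he (half_pos hη)
    refine ⟨Ω, i1, i2, s, ?_, ?_⟩
    · have e1 : (∑' j, g2 0 e j) / (∑' j, g1 0 e j) = al 0 e := by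
        unfold al Wl Zl g1 g2 xl
        simp
      rw [e1] at h4
      linarith
    · refine le_trans ?_ h5
      have h6 : Real.log 2 * (∑' j : ℤ, (se (0 + 2 * (j : ℝ) * e)
          - se (0 + (2 * (j : ℝ) + 1) * e))) ≤ η / 2 := by
        have := mul_le_mul_of_nonneg_left h2.le hlog.le
        refine this.trans (le_of_eq ?_)
        field_simp
      linarith) hε
  obtain ⟨n0, h0⟩ := key
  refine ⟨n0, fun n hn C hC => ?_⟩
  have h7 := h0 n hn C hC
  have e : 1 - Real.log 2 / (2 * Real.log 2) + ε = 1 / 2 + ε := by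
    field_simp
    ring
  rw [e] at h7
  exact h7

end Pool.Agent.TH753.FF
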