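import Pool.Agent.TH753.MB1

/-!
# Fermionic modes: representations of the canonical anticommutation relations by real matrices
-/

open Finset Matrix
open scoped Kronecker

namespace Pool.Agent.TH753.FF

open Pool.Agent.TH753.MB

/-- `n` fermionic modes on `ℝ^κ` with a normalised vacuum -/
structure Car (n : ℕ) (κ : Type) [Fintype κ] [DecidableEq κ] where
  a : Fin n → Matrix κ κ ℝ
  vac : κ → ℝ
  aa : ∀ i j, a i * a j + a j * a i = 0
  aat : ∀ i j, a i * (a j)ᵀ + (a j)ᵀ * a i = if i = j then 1 else 0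
  vac_norm : vac ⬝ᵥ vac = 1
  ann : ∀ i, (a i) *ᵥ vac = 0
  card : Fintype.card κ = 2 ^ n

/-- the one dimensional representation of no modes -/
def car0 : Car 0 Unit where
  a := fun i => i.elim0
  vac := fun _ => 1
  aa := fun i => i.elim0
  aat := fun i => i.elim0
  vac_norm := by simp [dotProduct]
  ann := fun i => i.elim0
  card := by simp

/-- annihilation matrix of one mode -/
def Fm : Matrix (Fin 2) (Fin 2) ℝ := Matrix.of fun i j => if i = 0 ∧ j = 1 then 1 else 0
/-- parity matrix of one mode -/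
def Zm : Matrix (Fin 2) (Fin 2) ℝ :=
  Matrix.of fun i j => if i = j then (if i = 0 then 1 else -1) else 0

lemma Zm_mul_Zm : Zm * Zm = 1 := by
  ext i j
  rw [Matrix.mul_apply, Fin.sum_univ_two]
  fin_cases i <;> fin_cases j <;> simp [Zm]
lemma Zm_tr : Zmᵀ = Zm := by
  ext i j
  rw [Matrix.transpose_apply]
  fin_cases i <;> fin_cases j <;> simp [Zm]
lemma Fm_mul_Fm : Fm * Fm = 0 := by
  ext i j
  rw [Matrix.mul_apply, Fin.sum_univ_two]
  fin_cases i <;> fin_cases j <;> simp [Fm]
lemma FZ : Fm * Zm + Zm * Fm = 0 := by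
  ext i j
  rw [Matrix.add_apply, Matrix.mul_apply, Matrix.mul_apply, Fin.sum_univ_two, Fin.sum_univ_two]
  fin_cases i <;> fin_cases j <;> simp [Fm, Zm]
lemma FtZ : Zm * Fmᵀ + Fmᵀ * Zm = 0 := by
  ext i j
  rw [Matrix.add_apply, Matrix.mul_apply, Matrix.mul_apply, Fin.sum_univ_two, Fin.sum_univ_two]
  simp only [Matrix.transpose_apply]
  fin_cases i <;> fin_cases j <;> simp [Fm, Zm]
lemma FFt : Fm * Fmᵀ + Fmᵀ * Fm = 1 := by
  ext i j
  rw [Matrix.add_apply, Matrix.mul_apply, Matrix.mul_apply, Fin.sum_univ_two, Fin.sum_univ_two]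
  simp only [Matrix.transpose_apply]
  fin_cases i <;> fin_cases j <;> simp [Fm]

lemma kron_tr {l m : Type} (A : Matrix l l ℝ) (B : Matrix m m ℝ) : (A ⊗ₖ B)ᵀ = Aᵀ ⊗ₖ Bᵀ := rfl

variable {κ : Type} [Fintype κ] [DecidableEq κ] {n : ℕ}

/-- adding one mode in front -/
noncomputable def Car.succ (C : Car n κ) : Car (n + 1) (Fin 2 × κ) where
  a := Fin.cons (Fm ⊗ₖ (1 : Matrix κ κ ℝ)) (fun k => Zm ⊗ₖ C.a k)
  vac := fun x => if x.1 = 0 then C.vac x.2 else 0
  aa := by
    intro i j
    refine Fin.cases ?_ (fun i => ?_) i <;> refine Fin.cases ?_ (fun j => ?_) j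
    · simp only [Fin.cons_zero]
      rw [← Matrix.mul_kronecker_mul, Fm_mul_Fm]
      simp
    · simp only [Fin.cons_zero, Fin.cons_succ]
      rw [← Matrix.mul_kronecker_mul, ← Matrix.mul_kronecker_mul, Matrix.one_mul, Matrix.mul_one,
        ← Matrix.add_kronecker, FZ, Matrix.zero_kronecker]
    · simp only [Fin.cons_zero, Fin.cons_succ]
      rw [← Matrix.mul_kronecker_mul, ← Matrix.mul_kronecker_mul, Matrix.one_mul, Matrix.mul_one,
        ← Matrix.add_kronecker, add_comm, FZ, Matrix.zero_kronecker]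
    · simp only [Fin.cons_succ]
      rw [← Matrix.mul_kronecker_mul, ← Matrix.mul_kronecker_mul, Zm_mul_Zm,
        ← Matrix.kronecker_add, C.aa, Matrix.kronecker_zero]
  aat := by
    intro i j
    refine Fin.cases ?_ (fun i => ?_) i <;> refine Fin.cases ?_ (fun j => ?_) j
    · simp only [Fin.cons_zero, kron_tr, Matrix.transpose_one, if_true]
      rw [← Matrix.mul_kronecker_mul, ← Matrix.mul_kronecker_mul, Matrix.one_mul,
        ← Matrix.add_kronecker, FFt, Matrix.one_kronecker_one]
    · simp only [Fin.cons_zero, Fin.cons_succ, kron_tr]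
      rw [← Matrix.mul_kronecker_mul, ← Matrix.mul_kronecker_mul, Matrix.one_mul, Matrix.mul_one,
        ← Matrix.add_kronecker, Zm_tr, FZ, Matrix.zero_kronecker, if_neg (Fin.succ_ne_zero j).symm]
    · simp only [Fin.cons_zero, Fin.cons_succ, kron_tr, Matrix.transpose_one]
      rw [← Matrix.mul_kronecker_mul, ← Matrix.mul_kronecker_mul, Matrix.one_mul, Matrix.mul_one,
        ← Matrix.add_kronecker, FtZ, Matrix.zero_kronecker, if_neg (Fin.succ_ne_zero i)]
    · simp only [Fin.cons_succ, kron_tr]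
      rw [← Matrix.mul_kronecker_mul, ← Matrix.mul_kronecker_mul, Zm_tr, Zm_mul_Zm,
        ← Matrix.kronecker_add, C.aat]
      simp only [Fin.succ_inj]
      split_ifs <;> simp
  vac_norm := by
    rw [dotProduct, Fintype.sum_prod_type, Fin.sum_univ_two]
    simpa [dotProduct] using C.vac_norm
  ann := by
    intro i
    refine Fin.cases ?_ (fun i => ?_) i
    · ext ⟨r, x⟩
      simp only [Fin.cons_zero, Matrix.mulVec, dotProduct, Fintype.sum_prod_type, Fin.sum_univ_two,
        Matrix.kroneckerMap_apply]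
      fin_cases r <;> simp [Fm]
    · ext ⟨r, x⟩
      have h := congrFun (C.ann i) x
      simp only [Matrix.mulVec, dotProduct, Pi.zero_apply] at h
      simp only [Fin.cons_succ, Matrix.mulVec, dotProduct, Fintype.sum_prod_type, Fin.sum_univ_two,
        Matrix.kroneckerMap_apply]
      fin_cases r
      · simp [Zm, h]
      · simp [Zm]
  card := by
    rw [Fintype.card_prod, C.card, Fintype.card_fin, pow_succ, mul_comm]

/-- representations exist -/
theorem exists_car : ∀ n : ℕ, ∃ (κ : Type) (_ : Fintype κ) (_ : DecidableEq κ),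
    Nonempty (Car n κ)
  | 0 => ⟨Unit, inferInstance, inferInstance, ⟨car0⟩⟩
  | n + 1 => by
    obtain ⟨κ, i1, i2, ⟨C⟩⟩ := exists_car n
    exact ⟨Fin 2 × κ, inferInstance, inferInstance, ⟨C.succ⟩⟩

/-- rotated modes -/
noncomputable def Car.rot (C : Car n κ) (O : Matrix (Fin n) (Fin n) ℝ) (hO : O * Oᵀ = 1) :
    Car n κ where
  a i := ∑ j, O i j • C.a j
  vac := C.vac
  aa := by
    intro i j
    have e : (∑ k, O i k • C.a k) * (∑ l, O j l • C.a l) + (∑ l, O j l • C.a l) * (∑ k, O i k • C.a k)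
        = ∑ k, ∑ l, (O i k * O j l) • (C.a k * C.a l + C.a l * C.a k) := by
      rw [Finset.sum_mul_sum, Finset.sum_mul_sum, Finset.sum_comm (s := univ) (t := univ)
        (f := fun i_1 j_1 => (O j i_1 • C.a i_1) * (O i j_1 • C.a j_1)), ← Finset.sum_add_distrib]
      refine Finset.sum_congr rfl fun k _ => ?_
      rw [← Finset.sum_add_distrib]
      refine Finset.sum_congr rfl fun l _ => ?_
      simp only [smul_mul_assoc, mul_smul_comm, smul_smul, smul_add]
      rw [mul_comm (O j l) (O i k)]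
    rw [e]
    simp [C.aa]
  aat := by
    intro i j
    have e : (∑ k, O i k • C.a k) * (∑ l, O j l • C.a l)ᵀ + (∑ l, O j l • C.a l)ᵀ * (∑ k, O i k • C.a k)
        = ∑ k, ∑ l, (O i k * O j l) • (C.a k * (C.a l)ᵀ + (C.a l)ᵀ * C.a k) := by
      rw [Matrix.transpose_sum, Finset.sum_mul_sum, Finset.sum_mul_sum,
        Finset.sum_comm (s := univ) (t := univ)
        (f := fun i_1 j_1 => ((O j i_1 • C.a i_1)ᵀ) * (O i j_1 • C.a j_1)), ← Finset.sum_add_distrib]
      refine Finset.sum_congr rfl fun k _ => ?_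
      rw [← Finset.sum_add_distrib]
      refine Finset.sum_congr rfl fun l _ => ?_
      simp only [Matrix.transpose_smul, smul_mul_assoc, mul_smul_comm, smul_smul, smul_add]
      rw [mul_comm (O j l) (O i k)]
    rw [e]
    simp only [C.aat]
    have h := congrFun (congrFun hO i) j
    rw [Matrix.mul_apply, Matrix.one_apply] at h
    simp only [Matrix.transpose_apply] at h
    have e2 : ∑ k, ∑ l, (O i k * O j l) • (if k = l then (1 : Matrix κ κ ℝ) else 0)
        = (∑ k, O i k * O j k) • (1 : Matrix κ κ ℝ) := by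
      rw [Finset.sum_smul]
      refine Finset.sum_congr rfl fun k _ => ?_
      rw [Finset.sum_eq_single k]
      · simp
      · intro l _ hl; simp [Ne.symm hl]
      · simp
    rw [e2, h]
    split_ifs <;> simp
  vac_norm := C.vac_norm
  ann := by
    intro i
    rw [Matrix.sum_mulVec]
    refine Finset.sum_eq_zero fun j _ => ?_
    rw [Matrix.smul_mulVec, C.ann, smul_zero]
  card := C.card

namespace Car

variable (C : Car n κ)

/-- number operator -/
noncomputable def num (i : Fin n) : Matrix κ κ ℝ := (C.a i)ᵀ * C.a i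

lemma a_tr_tr (i j : Fin n) : (C.a i)ᵀ * (C.a j)ᵀ + (C.a j)ᵀ * (C.a i)ᵀ = 0 := by
  have h := congrArg Matrix.transpose (C.aa i j)
  rw [Matrix.transpose_add, Matrix.transpose_mul, Matrix.transpose_mul, Matrix.transpose_zero] at h
  rw [add_comm]
  exact h

lemma num_tr (i : Fin n) : (C.num i)ᵀ = C.num i := by
  unfold num
  rw [Matrix.transpose_mul, Matrix.transpose_transpose]

lemma num_adj (i j : Fin n) :
    C.num i * (C.a j)ᵀ = (if i = j then (1 : ℝ) else 0) • (C.a j)ᵀ + (C.a j)ᵀ * C.num i := by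
  unfold num
  have h1 : C.a i * (C.a j)ᵀ = (if i = j then 1 else 0) - (C.a j)ᵀ * C.a i :=
    eq_sub_of_add_eq (C.aat i j)
  have h2 : (C.a i)ᵀ * (C.a j)ᵀ = -((C.a j)ᵀ * (C.a i)ᵀ) := eq_neg_of_add_eq_zero_left (C.a_tr_tr i j)
  rw [Matrix.mul_assoc, h1, Matrix.mul_sub, ← Matrix.mul_assoc, h2, Matrix.neg_mul, sub_neg_eq_add,
    Matrix.mul_assoc]
  congr 1
  by_cases h : i = j
  · subst h; simp
  · simp [h]

/-- Slater vectors -/
noncomputable def vecL (s : Fin n → Bool) : List (Fin n) → κ → ℝ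
  | [] => C.vac
  | i :: L => if s i then (C.a i)ᵀ *ᵥ (vecL s L) else vecL s L

lemma num_vecL (s : Fin n → Bool) (i : Fin n) : ∀ L : List (Fin n), L.Nodup →
    C.num i *ᵥ C.vecL s L = (if i ∈ L ∧ s i = true then (1 : ℝ) else 0) • C.vecL s L
  | [], _ => by
    simp only [vecL, List.not_mem_nil, false_and, if_false, zero_smul]
    unfold num
    rw [← Matrix.mulVec_mulVec, C.ann, Matrix.mulVec_zero]
  | j :: L, hL => by
    have hj : j ∉ L := (List.nodup_cons.mp hL).1
    have ih := num_vecL s i L (List.nodup_cons.mp hL).2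
    unfold vecL
    by_cases hs : s j = true
    · rw [if_pos hs, Matrix.mulVec_mulVec, num_adj, Matrix.add_mulVec, Matrix.smul_mulVec,
        ← Matrix.mulVec_mulVec, ih, Matrix.mulVec_smul, ← add_smul]
      congr 1
      by_cases hij : i = j
      · subst hij
        simp [hj, hs]
      · simp [hij]
    · rw [if_neg hs, ih]
      congr 1
      by_cases hij : i = j
      · subst hij
        simp [hs]
      · simp [hij]

lemma norm_vecL (s : Fin n → Bool) : ∀ L : List (Fin n), L.Nodup →
    C.vecL s L ⬝ᵥ C.vecL s L = 1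
  | [], _ => C.vac_norm
  | j :: L, hL => by
    have hj : j ∉ L := (List.nodup_cons.mp hL).1
    have ih := norm_vecL s L (List.nodup_cons.mp hL).2
    have hn := C.num_vecL s j L (List.nodup_cons.mp hL).2
    unfold vecL
    split_ifs with hs
    · rw [Matrix.dotProduct_mulVec, Matrix.vecMul_mulVec, ← Matrix.dotProduct_mulVec]
      have h1 : (C.a j) * (C.a j)ᵀ = 1 - C.num j := by
        have := C.aat j j
        rw [if_pos rfl] at this
        exact eq_sub_of_add_eq this
      rw [Matrix.transpose_transpose, h1, Matrix.sub_mulVec, Matrix.one_mulVec, hn]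
      simp [hj, ih]
    · exact ih

/-- Slater vectors of occupation patterns -/
noncomputable def U (s : Fin n → Bool) : κ → ℝ := C.vecL s (List.finRange n)

lemma num_U (s : Fin n → Bool) (i : Fin n) :
    C.num i *ᵥ C.U s = (if s i = true then (1 : ℝ) else 0) • C.U s := by
  have := C.num_vecL s i (List.finRange n) (List.nodup_finRange n)
  simpa [U] using this

lemma U_orth (s s' : Fin n → Bool) : C.U s ⬝ᵥ C.U s' = if s = s' then 1 else 0 := by
  by_cases h : s = s'
  · subst h
    rw [if_pos rfl]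
    exact C.norm_vecL s _ (List.nodup_finRange n)
  · rw [if_neg h]
    obtain ⟨i, hi⟩ := Function.ne_iff.mp h
    have e1 : C.U s ⬝ᵥ (C.num i *ᵥ C.U s') = (C.num i *ᵥ C.U s) ⬝ᵥ C.U s' := by
      rw [Matrix.dotProduct_mulVec, ← Matrix.mulVec_transpose, C.num_tr]
    rw [C.num_U, C.num_U, dotProduct_smul, smul_dotProduct] at e1
    cases h1 : s i <;> cases h2 : s' i <;> simp_all

/-- numbering of the patterns -/
noncomputable def eqv : κ ≃ (Fin n → Bool) :=
  Fintype.equivOfCardEq (by rw [C.card]; simp)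

/-- the Slater basis -/
noncomputable def u (x : κ) : κ → ℝ := C.U (C.eqv x)

lemma u_on : ON C.u := by
  intro x y
  have := C.U_orth (C.eqv x) (C.eqv y)
  unfold dotProduct at this
  unfold u
  rw [this]
  simp

lemma mat_of_eigen {u : κ → κ → ℝ} (hu : ON u) (M : Matrix κ κ ℝ) (l : κ → ℝ)
    (h : ∀ x, M *ᵥ u x = l x • u x) : M = mat u l := by
  have h1 : (Matrix.of u)ᵀ * Matrix.of u = 1 := mul_eq_one_comm.mp (on_mul hu)
  have h2 : M * (Matrix.of u)ᵀ = (Matrix.of u)ᵀ * Matrix.diagonal l := by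
    ext i j
    have := congrFun (h j) i
    rw [Matrix.mul_diagonal]
    simp only [Matrix.mulVec, dotProduct, Pi.smul_apply, smul_eq_mul] at this
    rw [Matrix.mul_apply]
    simp only [Matrix.transpose_apply, Matrix.of_apply]
    rw [this]; ring
  calc M = M * ((Matrix.of u)ᵀ * Matrix.of u) := by rw [h1, Matrix.mul_one]
    _ = (M * (Matrix.of u)ᵀ) * Matrix.of u := by rw [Matrix.mul_assoc]
    _ = _ := by rw [h2, Matrix.mul_assoc, ← mat_eq]

lemma kms_vecL (M : Matrix κ κ ℝ) (α : Fin n → ℝ) (z : ℝ) (hv : M *ᵥ C.vac = z • C.vac)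
    (h : ∀ i, M * (C.a i)ᵀ = α i • ((C.a i)ᵀ * M)) (s : Fin n → Bool) : ∀ L : List (Fin n),
    M *ᵥ C.vecL s L = (z * (L.map fun i => if s i then α i else 1).prod) • C.vecL s L
  | [] => by simp [vecL, hv]
  | i :: L => by
    have ih := kms_vecL M α z hv h s L
    unfold vecL
    rw [List.map_cons, List.prod_cons]
    split_ifs with hs
    · rw [Matrix.mulVec_mulVec, h, Matrix.smul_mulVec, ← Matrix.mulVec_mulVec, ih,
        Matrix.mulVec_smul, smul_smul]
      congr 1
      ring
    · rw [ih, one_mul]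

/-- a matrix satisfying the KMS relations is diagonal in the Slater basis -/
theorem kms_diag (M : Matrix κ κ ℝ) (α : Fin n → ℝ) (z : ℝ) (hv : M *ᵥ C.vac = z • C.vac)
    (h : ∀ i, M * (C.a i)ᵀ = α i • ((C.a i)ᵀ * M)) :
    M = mat C.u (fun x => z * ∏ i, if C.eqv x i then α i else 1) := by
  refine mat_of_eigen C.u_on M _ fun x => ?_
  have := C.kms_vecL M α z hv h (C.eqv x) (List.finRange n)
  unfold u U
  rw [this]
  congr 1

lemma vecL_dot (y : κ → ℝ) (hy : ∀ i, C.a i *ᵥ y = 0) (s : Fin n → Bool) : ∀ L : List (Fin n),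
    (∃ i ∈ L, s i = true) → C.vecL s L ⬝ᵥ y = 0
  | [], h => by simp at h
  | j :: L, h => by
    unfold vecL
    split_ifs with hs
    · rw [dotProduct_comm, Matrix.dotProduct_mulVec, ← Matrix.mulVec_transpose,
        Matrix.transpose_transpose, hy, zero_dotProduct]
    · refine vecL_dot y hy s L ?_
      obtain ⟨i, hi, hsi⟩ := h
      rcases List.mem_cons.mp hi with rfl | hi
      · exact absurd hsi hs
      · exact ⟨i, hi, hsi⟩

lemma vecL_false : ∀ L : List (Fin n), C.vecL (fun _ => false) L = C.vac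
  | [] => rfl
  | _ :: L => by
    unfold vecL
    simp [vecL_false L]

/-- uniqueness of the vacuum -/
theorem vac_unique (y : κ → ℝ) (hy : ∀ i, C.a i *ᵥ y = 0) : y = (C.vac ⬝ᵥ y) • C.vac := by
  have h1 : (Matrix.of C.u)ᵀ * Matrix.of C.u = 1 := mul_eq_one_comm.mp (on_mul C.u_on)
  have h2 : y = (Matrix.of C.u)ᵀ *ᵥ (Matrix.of C.u *ᵥ y) := by
    rw [Matrix.mulVec_mulVec, h1, Matrix.one_mulVec]
  set x0 : κ := C.eqv.symm (fun _ => false) with hx0
  have hu0 : C.u x0 = C.vac := by
    unfold u U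
    rw [hx0, Equiv.apply_symm_apply]
    exact C.vecL_false _
  have h3 : Matrix.of C.u *ᵥ y = fun x => if x = x0 then C.vac ⬝ᵥ y else 0 := by
    ext x
    have e : (Matrix.of C.u *ᵥ y) x = C.u x ⬝ᵥ y := rfl
    rw [e]
    by_cases hx : x = x0
    · rw [if_pos hx, hx, hu0]
    · rw [if_neg hx]
      refine C.vecL_dot y hy _ _ ?_
      by_contra hne
      push Not at hne
      apply hx
      rw [hx0, Equiv.eq_symm_apply]
      funext i
      have := hne i (List.mem_finRange i)
      simpa using this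
  calc y = (Matrix.of C.u)ᵀ *ᵥ (Matrix.of C.u *ᵥ y) := h2
    _ = _ := by
      rw [h3]
      ext k
      simp only [Matrix.mulVec, dotProduct, Matrix.transpose_apply, Matrix.of_apply, Pi.smul_apply,
        smul_eq_mul, mul_ite, mul_zero, Finset.sum_ite_eq', Finset.mem_univ, if_true]
      rw [hu0]; ring

/-- a symmetric matrix satisfying the KMS relations -/
theorem kms_symm (M : Matrix κ κ ℝ) (hM : Mᵀ = M) (α : Fin n → ℝ)
    (h : ∀ i, M * (C.a i)ᵀ = α i • ((C.a i)ᵀ * M)) :
    M = mat C.u (fun x => (C.vac ⬝ᵥ (M *ᵥ C.vac)) * ∏ i, if C.eqv x i then α i else 1) := by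
  refine C.kms_diag M α _ ?_ h
  refine C.vac_unique _ fun i => ?_
  have h1 := congrArg Matrix.transpose (h i)
  rw [Matrix.transpose_mul, Matrix.transpose_transpose, Matrix.transpose_smul,
    Matrix.transpose_mul, Matrix.transpose_transpose, hM] at h1
  rw [Matrix.mulVec_mulVec, h1, Matrix.smul_mulVec, ← Matrix.mulVec_mulVec, C.ann,
    Matrix.mulVec_zero, smul_zero]

end Car

end Pool.Agent.TH753.FF
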