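import Pool.Agent.TH753.FF9

/-!
# The lattice bound as an integral
-/

open Filter Topology Set MeasureTheory

namespace Pool.Agent.TH753.FF

/-- partial fractions -/
lemma iw_frac {n : ℕ} (c : Fin (n + 1) → ℝ) (lam : Fin n → ℝ) (hc : Function.Injective c) (z : ℝ)
    (hz : ∀ i, z ≠ c i) : ∑ i, iw c lam i / (z - c i) = (∏ k, (z - lam k)) / ∏ i, (z - c i) := by
  have hd : (Lagrange.nodal (Finset.univ : Finset (Fin n)) lam).degree
      < ((Finset.univ : Finset (Fin (n + 1))).card : WithBot ℕ) := by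
    rw [Lagrange.degree_nodal, Finset.card_univ, Finset.card_univ, Fintype.card_fin,
      Fintype.card_fin]
    exact_mod_cast Nat.lt_succ_self n
  have h := congrArg (Polynomial.eval z) (Lagrange.eq_interpolate
    (s := (Finset.univ : Finset (Fin (n + 1)))) (v := c) hc.injOn
    (f := Lagrange.nodal (Finset.univ : Finset (Fin n)) lam) hd)
  rw [Lagrange.eval_interpolate_not_at_node _ (fun i _ => hz i), Lagrange.eval_nodal,
    Lagrange.eval_nodal] at h
  have hP : (∏ i, (z - c i)) ≠ 0 := Finset.prod_ne_zero_iff.mpr fun i _ => sub_ne_zero.mpr (hz i)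
  rw [eq_div_iff hP, h, mul_comm]
  congr 1
  refine Finset.sum_congr rfl fun i _ => ?_
  unfold iw Lagrange.nodalWeight
  rw [Lagrange.eval_nodal, Finset.prod_inv_distrib]
  field_simp

section

variable (a : ℝ) {e : ℝ} (he : 0 < e)

/-- the transform of the finite data -/
noncomputable def gM (a : ℝ) {e : ℝ} (he : 0 < e) (M : ℕ) (v : ℝ) : ℝ :=
  ∑ i : Fin (2 * M + 1), (thetaData a he M (2 * M)).w i
    * (Real.cosh (px a e M i) / Real.cosh (v - px a e M i))

lemma coth_sub {v : ℝ} (hv : Real.sinh v ≠ 0) (x : ℝ) :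
    (1 + Real.cosh v / Real.sinh v) / 2 - sg x
      = Real.cosh (v - x) / (2 * Real.sinh v * Real.cosh x) := by
  rw [sg_eq, Real.cosh_sub]
  have := (Real.cosh_pos x).ne'
  field_simp
  ring

lemma gM_prod (M : ℕ) {v : ℝ} (hv : v ≠ 0) : gM a he M v
    = (∏ k : Fin (2 * M), (Real.cosh (v - py a e M k) / Real.cosh (py a e M k)))
      / ∏ i : Fin (2 * M + 1), (Real.cosh (v - px a e M i) / Real.cosh (px a e M i)) := by
  have hs : Real.sinh v ≠ 0 := by rwa [Ne, Real.sinh_eq_zero]
  have h := iw_frac (tc a e M (2 * M)) (tl a e M (2 * M))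
    (fun i j h => by
      by_contra hij
      exact sg_ne (px_ne a he M (fun h' => hij (Fin.ext h'))) h)
    ((1 + Real.cosh v / Real.sinh v) / 2) (by
      intro i h
      have h1 : (1 + Real.cosh v / Real.sinh v) / 2 - sg (px a e M i) = 0 := sub_eq_zero.mpr h
      rw [coth_sub hs, div_eq_zero_iff] at h1
      rcases h1 with h1 | h1
      · exact (Real.cosh_pos _).ne' h1
      · exact mul_ne_zero (mul_ne_zero two_ne_zero hs) (Real.cosh_pos _).ne' h1)
  have e1 : ∀ i, (1 + Real.cosh v / Real.sinh v) / 2 - tc a e M (2 * M) i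
      = (Real.cosh (v - px a e M i) / Real.cosh (px a e M i)) * (2 * Real.sinh v)⁻¹ := by
    intro i
    unfold tc
    rw [coth_sub hs]
    have := (Real.cosh_pos (px a e M i)).ne'
    field_simp
  have e2 : ∀ k, (1 + Real.cosh v / Real.sinh v) / 2 - tl a e M (2 * M) k
      = (Real.cosh (v - py a e M k) / Real.cosh (py a e M k)) * (2 * Real.sinh v)⁻¹ := by
    intro k
    unfold tl
    rw [coth_sub hs]
    have := (Real.cosh_pos (py a e M k)).ne'
    field_simp
  simp_rw [e1, e2] at h
  rw [Finset.prod_mul_distrib, Finset.prod_mul_distrib, Finset.prod_const, Finset.prod_const,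
    Finset.card_univ, Finset.card_univ, Fintype.card_fin, Fintype.card_fin] at h
  have h2 : gM a he M v = (2 * Real.sinh v)⁻¹ * ∑ i, iw (tc a e M (2 * M)) (tl a e M (2 * M)) i
      / ((Real.cosh (v - px a e M i) / Real.cosh (px a e M i)) * (2 * Real.sinh v)⁻¹) := by
    unfold gM
    rw [Finset.mul_sum]
    refine Finset.sum_congr rfl fun i _ => ?_
    have hw : (thetaData a he M (2 * M)).w i = iw (tc a e M (2 * M)) (tl a e M (2 * M)) i := rfl
    rw [hw]
    have h3 := (Real.cosh_pos (px a e M i)).ne'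
    have h4 := (Real.cosh_pos (v - px a e M i)).ne'
    field_simp
  rw [h2, h]
  have h5 : (∏ i : Fin (2 * M + 1), (Real.cosh (v - px a e M i) / Real.cosh (px a e M i))) ≠ 0 :=
    (Finset.prod_pos fun i _ => div_pos (Real.cosh_pos _) (Real.cosh_pos _)).ne'
  rw [pow_succ]
  field_simp

lemma gM_pos (M : ℕ) (v : ℝ) : 0 < gM a he M v :=
  Finset.sum_pos (fun i _ => mul_pos ((thetaData a he M (2 * M)).hw i)
    (div_pos (Real.cosh_pos _) (Real.cosh_pos _))) ⟨0, Finset.mem_univ _⟩

lemma cosh_mul_cosh (v x : ℝ) : Real.cosh (v - x) * Real.cosh (v + x)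
    = Real.cosh x ^ 2 + Real.sinh v ^ 2 := by
  rw [Real.cosh_add, Real.cosh_sub]
  have h1 := Real.cosh_sq x
  have h2 := Real.cosh_sq v
  nlinarith

/-- upper bound -/
lemma gM_mul_le (M : ℕ) (v : ℝ) : gM a he M v * gM a he M (-v) ≤ Real.cosh v ^ 2 := by
  have h1 : (gM a he M v + gM a he M (-v)) / 2 ≤ Real.cosh v := by
    have e1 : (gM a he M v + gM a he M (-v)) / 2
        = ∑ i : Fin (2 * M + 1), (thetaData a he M (2 * M)).w i
          * ((Real.cosh (px a e M i) / Real.cosh (v - px a e M i)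
            + Real.cosh (px a e M i) / Real.cosh (-v - px a e M i)) / 2) := by
      unfold gM
      rw [← Finset.sum_add_distrib, Finset.sum_div]
      exact Finset.sum_congr rfl fun i _ => by ring
    rw [e1]
    have e2 : ∀ i : Fin (2 * M + 1), (thetaData a he M (2 * M)).w i
          * ((Real.cosh (px a e M i) / Real.cosh (v - px a e M i)
            + Real.cosh (px a e M i) / Real.cosh (-v - px a e M i)) / 2)
        ≤ (thetaData a he M (2 * M)).w i * Real.cosh v := by
      intro i
      refine mul_le_mul_of_nonneg_left ?_ ((thetaData a he M (2 * M)).hw i).le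
      set x := px a e M i
      rw [show -v - x = -(v + x) by ring, Real.cosh_neg]
      have h2 := Real.cosh_pos (v - x)
      have h3 := Real.cosh_pos (v + x)
      have h4 := Real.cosh_pos x
      have h5 := Real.cosh_pos v
      rw [div_add_div _ _ h2.ne' h3.ne', div_div, div_le_iff₀ (by positivity), cosh_mul_cosh]
      have h6 : Real.cosh x * Real.cosh (v + x) + Real.cosh (v - x) * Real.cosh x
          = 2 * Real.cosh x ^ 2 * Real.cosh v := by
        rw [Real.cosh_add, Real.cosh_sub]; ring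
      rw [h6]
      nlinarith [mul_nonneg h5.le (sq_nonneg (Real.sinh v))]
    refine le_trans (Finset.sum_le_sum fun i _ => e2 i) ?_
    rw [← Finset.sum_mul, (thetaData a he M (2 * M)).hsum, one_mul]
  have h2 := (gM_pos a he M v).le
  have h3 := (gM_pos a he M (-v)).le
  have h4 : gM a he M v * gM a he M (-v) ≤ ((gM a he M v + gM a he M (-v)) / 2) ^ 2 := by
    nlinarith [sq_nonneg (gM a he M v - gM a he M (-v))]
  refine le_trans h4 ?_
  exact pow_le_pow_left₀ (by positivity) h1 2

/-- lower bound -/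
lemma le_gM_mul (M : ℕ) (v : ℝ) : 1 / Real.cosh v ^ 2 ≤ gM a he M v * gM a he M (-v) := by
  set r : Fin (2 * M + 1) → ℝ := fun i => (thetaData a he M (2 * M)).w i
    * √((Real.cosh (px a e M i) / Real.cosh (v - px a e M i))
      * (Real.cosh (px a e M i) / Real.cosh (-v - px a e M i))) with hr
  have h1 : (∑ i, r i) ^ 2 ≤ gM a he M v * gM a he M (-v) := by
    unfold gM
    refine Finset.sum_sq_le_sum_mul_sum_of_sq_eq_mul _ (fun i _ => ?_) (fun i _ => ?_)
      (fun i _ => ?_)
    · exact mul_nonneg ((thetaData a he M (2 * M)).hw i).le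
        (div_pos (Real.cosh_pos _) (Real.cosh_pos _)).le
    · exact mul_nonneg ((thetaData a he M (2 * M)).hw i).le
        (div_pos (Real.cosh_pos _) (Real.cosh_pos _)).le
    · rw [hr, mul_pow, Real.sq_sqrt (mul_pos (div_pos (Real.cosh_pos _) (Real.cosh_pos _))
        (div_pos (Real.cosh_pos _) (Real.cosh_pos _))).le]
      ring
  refine le_trans ?_ h1
  have h2 : 1 / Real.cosh v ≤ ∑ i, r i := by
    have e1 : 1 / Real.cosh v = ∑ i, (thetaData a he M (2 * M)).w i * (1 / Real.cosh v) := by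
      rw [← Finset.sum_mul, (thetaData a he M (2 * M)).hsum, one_mul]
    rw [e1]
    refine Finset.sum_le_sum fun i _ => ?_
    refine mul_le_mul_of_nonneg_left ?_ ((thetaData a he M (2 * M)).hw i).le
    set x := px a e M i
    rw [show -v - x = -(v + x) by ring, Real.cosh_neg]
    refine Real.le_sqrt_of_sq_le ?_
    have h2 := Real.cosh_pos (v - x)
    have h3 := Real.cosh_pos (v + x)
    have h4 := Real.cosh_pos x
    have h5 := Real.cosh_pos v
    rw [div_mul_div_comm, cosh_mul_cosh, div_pow, one_pow, div_le_div_iff₀ (by positivity)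
      (by positivity)]
    have h6 := Real.cosh_sq v
    have h7 := Real.one_le_cosh x
    nlinarith [mul_nonneg (sq_nonneg (Real.sinh v)) (show (0 : ℝ) ≤ Real.cosh x ^ 2 - 1 by
      nlinarith)]
  calc 1 / Real.cosh v ^ 2 = (1 / Real.cosh v) ^ 2 := by rw [div_pow, one_pow]
    _ ≤ _ := pow_le_pow_left₀ (by have := Real.cosh_pos v; positivity) h2 2

lemma log_div_prod {ι : Type} (s : Finset ι) (f : ι → ℝ) (hf : ∀ i ∈ s, 0 < f i) :
    Real.log (∏ i ∈ s, f i) = ∑ i ∈ s, Real.log (f i) :=
  Real.log_prod fun i hi => (hf i hi).ne'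

lemma log_gM (M : ℕ) {v : ℝ} (hv : v ≠ 0) : Real.log (gM a he M v * gM a he M (-v))
    = ∑ k : Fin (2 * M), Real.log (1 + (1 / Real.cosh (py a e M k)) ^ 2 * Real.sinh v ^ 2)
      - ∑ i : Fin (2 * M + 1),
        Real.log (1 + (1 / Real.cosh (px a e M i)) ^ 2 * Real.sinh v ^ 2) := by
  have hp : ∀ (n : ℕ) (z : Fin n → ℝ) (v : ℝ),
      0 < ∏ k : Fin n, (Real.cosh (v - z k) / Real.cosh (z k)) := fun n z v =>
    Finset.prod_pos fun k _ => div_pos (Real.cosh_pos _) (Real.cosh_pos _)
  have key : ∀ (n : ℕ) (z : Fin n → ℝ),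
      Real.log (∏ k : Fin n, (Real.cosh (v - z k) / Real.cosh (z k)))
      + Real.log (∏ k : Fin n, (Real.cosh (-v - z k) / Real.cosh (z k)))
      = ∑ k : Fin n, Real.log (1 + (1 / Real.cosh (z k)) ^ 2 * Real.sinh v ^ 2) := by
    intro n z
    rw [log_div_prod _ _ (fun k _ => div_pos (Real.cosh_pos _) (Real.cosh_pos _)),
      log_div_prod _ _ (fun k _ => div_pos (Real.cosh_pos _) (Real.cosh_pos _)),
      ← Finset.sum_add_distrib]
    refine Finset.sum_congr rfl fun k _ => ?_
    rw [log_arg, Real.log_div (Real.cosh_pos _).ne' (Real.cosh_pos _).ne',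
      Real.log_div (Real.cosh_pos _).ne' (Real.cosh_pos _).ne',
      show -v - z k = -(v + z k) by ring, Real.cosh_neg]
    ring
  rw [Real.log_mul (gM_pos a he M v).ne' (gM_pos a he M (-v)).ne', gM_prod a he M hv,
    gM_prod a he M (neg_ne_zero.mpr hv), Real.log_div (hp _ _ _).ne' (hp _ _ _).ne',
    Real.log_div (hp _ _ _).ne' (hp _ _ _).ne']
  have k1 := key (2 * M) (fun k => py a e M k)
  have k2 := key (2 * M + 1) (fun i => px a e M i)
  rw [← k1, ← k2]
  ring

/-- the integral of the finite data -/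
lemma integral_gM (M : ℕ) : ∫ v in Ioi 0, Real.log (gM a he M v * gM a he M (-v)) / Real.sinh v ^ 2
    = 2 * (∑ k : Fin (2 * M), En (py a e M k)) - 2 * ∑ i : Fin (2 * M + 1), En (px a e M i) := by
  have h1 : ∫ v in Ioi 0, Real.log (gM a he M v * gM a he M (-v)) / Real.sinh v ^ 2
      = ∫ v in Ioi 0, (∑ k : Fin (2 * M), Lk (1 / Real.cosh (py a e M k)) v
        - ∑ i : Fin (2 * M + 1), Lk (1 / Real.cosh (px a e M i)) v) := by
    refine setIntegral_congr_fun measurableSet_Ioi fun v hv => ?_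
    rw [log_gM a he M (ne_of_gt hv), sub_div, Finset.sum_div, Finset.sum_div]
    rfl
  rw [h1, integral_sub (integrable_finsetSum _ fun k _ => Lk_int _)
    (integrable_finsetSum _ fun k _ => Lk_int _), integral_finsetSum _ fun k _ => Lk_int _,
    integral_finsetSum _ fun k _ => Lk_int _]
  simp_rw [integral_Lk]
  rw [Finset.mul_sum, Finset.mul_sum]

/-- the lattice sum -/
noncomputable def SX (a e v : ℝ) : ℝ := ∑' j : ℤ, 1 / Real.cosh (v - (a + 2 * (j : ℝ) * e))

include he in
lemma summable_SX (v : ℝ) : Summable fun j : ℤ => 1 / Real.cosh (v - (a + 2 * (j : ℝ) * e)) := by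
  have h := summable_cosh (a - v) he
  refine h.congr fun j => ?_
  rw [← Real.cosh_neg]
  congr 2
  ring

include he in
lemma SX_pos (v : ℝ) : 0 < SX a e v :=
  (summable_SX a he v).tsum_pos (fun j => (inv_cosh_pos _).le) 0 (inv_cosh_pos _)

/-- the transform of the lattice -/
noncomputable def gX (a e v : ℝ) : ℝ := SX a e v / SX a e 0

include he in
lemma gX_pos (v : ℝ) : 0 < gX a e v := div_pos (SX_pos a he v) (SX_pos a he 0)

lemma gM_eq (M : ℕ) (v : ℝ) : gM a he M v
    = Zs a e M (fun j => 1 / Real.cosh (v - (a + 2 * (j : ℝ) * e))) / Zs a e M (g1 a e) := by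
  have h3 := const_eq a he M
  have h4 : Zs a e M (g1 a e) ≠ 0 := by
    intro h0
    rw [h0, mul_zero] at h3
    exact zero_ne_one h3
  rw [eq_div_iff h4]
  unfold gM
  have h1 : ∀ i : Fin (2 * M + 1), (thetaData a he M (2 * M)).w i
      * (Real.cosh (px a e M i) / Real.cosh (v - px a e M i))
      = (tK a e M (2 * M) * Real.exp (-(2 * M * e)))
        * (1 / Real.cosh (v - (a + 2 * (((i : ℕ) : ℤ) - M : ℤ) * e))
          * (qB e i * qB e (2 * M - i))) := by
    intro i
    rw [w_eq a he]
    unfold g1 px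
    push_cast
    have h5 := (Real.cosh_pos (a + 2 * ((i : ℕ) - (M : ℝ)) * e)).ne'
    field_simp
  simp_rw [h1]
  rw [← Finset.mul_sum]
  change (tK a e M (2 * M) * Real.exp (-(2 * M * e)))
    * Zs a e M (fun j => 1 / Real.cosh (v - (a + 2 * (j : ℝ) * e))) * Zs a e M (g1 a e) = _
  linear_combination (Zs a e M (fun j => 1 / Real.cosh (v - (a + 2 * (j : ℝ) * e)))) * h3

lemma gM_tendsto (v : ℝ) : Tendsto (fun M => gM a he M v) atTop (𝓝 (gX a e v)) := by
  obtain ⟨L, hL0, hL⟩ := exists_lim he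
  have h1 := tendsto_weighted he hL (g1 a e) (fun j => (inv_cosh_pos _).le) (summable_cosh a he)
  have h2 := tendsto_weighted he hL (fun j => 1 / Real.cosh (v - (a + 2 * (j : ℝ) * e)))
    (fun j => (inv_cosh_pos _).le) (summable_SX a he v)
  have h3 : 0 < ∑' j, g1 a e j :=
    (summable_cosh a he).tsum_pos (fun j => (inv_cosh_pos _).le) 0 (inv_cosh_pos _)
  have h4 := h2.div h1 (by positivity)
  have h5 : (∑' j : ℤ, 1 / Real.cosh (v - (a + 2 * (j : ℝ) * e))) * (L * L)
      / ((∑' j, g1 a e j) * (L * L)) = gX a e v := by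
    have : L ≠ 0 := hL0.ne'
    have h6 : ∑' j, g1 a e j = SX a e 0 := by
      unfold SX g1
      refine tsum_congr fun j => ?_
      rw [zero_sub, Real.cosh_neg]
    rw [h6]
    unfold gX
    have h7 := (SX_pos a he 0).ne'
    change SX a e v * (L * L) / _ = _
    field_simp
  rw [h5] at h4
  refine h4.congr fun M => ?_
  rw [gM_eq]
  rfl

include he in
lemma gX_bounds (v : ℝ) : 1 / Real.cosh v ^ 2 ≤ gX a e v * gX a e (-v) ∧
    gX a e v * gX a e (-v) ≤ Real.cosh v ^ 2 := by
  have h := (gM_tendsto a he v).mul (gM_tendsto a he (-v))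
  exact ⟨ge_of_tendsto' h fun M => le_gM_mul a he M v, le_of_tendsto' h fun M => gM_mul_le a he M v⟩

lemma abs_log_le {x v : ℝ} (h1 : 1 / Real.cosh v ^ 2 ≤ x) (h2 : x ≤ Real.cosh v ^ 2) :
    |Real.log x / Real.sinh v ^ 2| ≤ Lk 1 v := by
  have hc := Real.cosh_pos v
  have hx : 0 < x := lt_of_lt_of_le (by positivity) h1
  unfold Lk
  rw [abs_div, abs_of_nonneg (sq_nonneg (Real.sinh v))]
  refine div_le_div_of_nonneg_right ?_ (sq_nonneg _)
  have e1 : 1 + 1 ^ 2 * Real.sinh v ^ 2 = Real.cosh v ^ 2 := by rw [Real.cosh_sq]; ring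
  rw [e1, abs_le]
  constructor
  · rw [← Real.log_inv, ← one_div]
    exact Real.log_le_log (by positivity) h1
  · exact Real.log_le_log hx h2

lemma Lk_one_int : IntegrableOn (Lk 1) (Ioi 0) := by
  have := Lk_int 0
  simpa using this

lemma integral_Lk_one : ∫ v in Ioi 0, Lk 1 v = 2 * Real.log 2 := by
  have := integral_Lk 0
  rw [Real.cosh_zero, div_one] at this
  rw [this, En_eq]
  simp

lemma gM_cont (M : ℕ) : Continuous (gM a he M) := by
  unfold gM
  refine continuous_finsetSum _ fun i _ => ?_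
  refine continuous_const.mul (Continuous.div continuous_const (by fun_prop) fun v =>
    (Real.cosh_pos _).ne')

include he in
/-- **The lattice bound as an integral.** -/
theorem theta_integral :
    (∑' j : ℤ, (se (a + 2 * (j : ℝ) * e) - se (a + (2 * (j : ℝ) + 1) * e)))
      = -(∫ v in Ioi 0, Real.log (gX a e v * gX a e (-v)) / Real.sinh v ^ 2)
        / (2 * Real.log 2) := by
  have hlog : 0 < Real.log 2 := Real.log_pos (by norm_num)
  have t1 : Tendsto (fun M : ℕ => ∫ v in Ioi 0,
      Real.log (gM a he M v * gM a he M (-v)) / Real.sinh v ^ 2) atTop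
      (𝓝 (∫ v in Ioi 0, Real.log (gX a e v * gX a e (-v)) / Real.sinh v ^ 2)) := by
    refine tendsto_integral_of_dominated_convergence (Lk 1) (fun M => ?_) Lk_one_int
      (fun M => ?_) ?_
    · refine ContinuousOn.aestronglyMeasurable ?_ measurableSet_Ioi
      refine ContinuousOn.div (ContinuousOn.log ?_ fun v _ =>
        (mul_pos (gM_pos a he M v) (gM_pos a he M (-v))).ne') (by fun_prop) fun v hv =>
          pow_ne_zero 2 (Real.sinh_pos_iff.mpr hv).ne'
      exact ((gM_cont a he M).mul ((gM_cont a he M).comp continuous_neg)).continuousOn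
    · refine Eventually.of_forall fun v => ?_
      rw [Real.norm_eq_abs]
      exact abs_log_le (le_gM_mul a he M v) (gM_mul_le a he M v)
    · refine Eventually.of_forall fun v => ?_
      refine Tendsto.div_const ?_ _
      exact ((gM_tendsto a he v).mul (gM_tendsto a he (-v))).log
        (mul_pos (gX_pos a he v) (gX_pos a he (-v))).ne'
  have t2 := ((tendsto_x a he).sub (tendsto_y a he)).const_mul (-(2 * Real.log 2))
  have h1 : ∀ M : ℕ, -(2 * Real.log 2) * (∑ i : Fin (2 * M + 1), se (px a e M i)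
      - ∑ k : Fin (2 * M), se (py a e M k))
      = ∫ v in Ioi 0, Real.log (gM a he M v * gM a he M (-v)) / Real.sinh v ^ 2 := by
    intro M
    rw [integral_gM]
    simp_rw [se_eq]
    rw [← Finset.sum_div, ← Finset.sum_div]
    field_simp
    ring
  simp_rw [h1] at t2
  have h2 := tendsto_nhds_unique t1 t2
  rw [h2, (summable_se a he).tsum_sub (summable_se' a he)]
  have h3 : ∀ Y : ℝ, Y = -(-(2 * Real.log 2) * Y) / (2 * Real.log 2) := fun Y => by field_simp
  exact h3 _

end

end Pool.Agent.TH753.FF
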