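import Pool.Agent.TH753.FF10

/-!
# A periodic inequality
-/

open Filter Topology Set MeasureTheory

namespace Pool.Agent.TH753.FF

lemma cosh_ge (v : ℝ) : (1 + v ^ 2) / 2 ≤ Real.cosh v := by
  have h1 : Real.cosh v = 1 + 2 * Real.sinh (v / 2) ^ 2 := by
    have h2 := Real.cosh_two_mul (v / 2)
    have h3 := Real.cosh_sq (v / 2)
    rw [show 2 * (v / 2) = v by ring] at h2
    rw [h2, h3]; ring
  have h4 : (v / 2) ^ 2 ≤ Real.sinh (v / 2) ^ 2 := by
    rw [← sq_abs (v / 2), ← sq_abs (Real.sinh (v / 2))]
    refine pow_le_pow_left₀ (abs_nonneg _) ?_ 2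
    rw [Real.abs_sinh]
    exact Real.self_le_sinh_iff.mpr (abs_nonneg _)
  rw [h1]
  nlinarith

lemma sech_le (v : ℝ) : 1 / Real.cosh v ≤ 2 * (1 + v ^ 2)⁻¹ := by
  rw [div_le_iff₀ (Real.cosh_pos v), mul_assoc, inv_mul_eq_div, mul_div_assoc',
    le_div_iff₀ (by positivity)]
  have := cosh_ge v
  linarith

lemma integrable_sech (x : ℝ) : Integrable fun v => 1 / Real.cosh (v - x) := by
  have h0 : Integrable fun v : ℝ => 1 / Real.cosh v := by
    refine Integrable.mono' (integrable_inv_one_add_sq.const_mul 2) ?_ ?_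
    · exact (Continuous.div continuous_const Real.continuous_cosh
        fun v => (Real.cosh_pos _).ne').aestronglyMeasurable
    · refine Eventually.of_forall fun v => ?_
      rw [Real.norm_eq_abs, abs_of_pos (inv_cosh_pos v)]
      exact sech_le v
  exact h0.comp_sub_right x

/-- the lattice sum at the origin -/
noncomputable def S0 (e v : ℝ) : ℝ := ∑' j : ℤ, 1 / Real.cosh (v - 2 * (j : ℝ) * e)

lemma SX_eq (a e v : ℝ) : SX a e v = S0 e (v - a) := by
  unfold SX S0
  refine tsum_congr fun j => ?_
  congr 2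
  ring

variable {e : ℝ} (he : 0 < e)

include he in
lemma summable_S0 (v : ℝ) : Summable fun j : ℤ => 1 / Real.cosh (v - 2 * (j : ℝ) * e) := by
  have h := summable_SX 0 he v
  simpa using h

include he in
lemma S0_pos (v : ℝ) : 0 < S0 e v :=
  (summable_S0 he v).tsum_pos (fun j => (inv_cosh_pos _).le) 0 (inv_cosh_pos _)

lemma S0_add (e v : ℝ) (k : ℤ) : S0 e (v + 2 * k * e) = S0 e v := by
  unfold S0
  rw [← (Equiv.addRight k).tsum_eq]
  refine tsum_congr fun j => ?_
  simp only [Equiv.coe_addRight]
  push_cast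
  congr 2
  ring

lemma S0_neg (e v : ℝ) : S0 e (-v) = S0 e v := by
  unfold S0
  rw [← (Equiv.neg ℤ).tsum_eq]
  refine tsum_congr fun j => ?_
  rw [← Real.cosh_neg]
  simp only [Equiv.neg_apply]
  push_cast
  congr 2
  ring

include he in
lemma S0_ge (v : ℝ) : 1 / Real.cosh e ≤ S0 e v := by
  set j : ℤ := round (v / (2 * e)) with hj
  have h1 : |v - 2 * (j : ℝ) * e| ≤ e := by
    have h2 := abs_sub_round (v / (2 * e))
    have h3 : v - 2 * (j : ℝ) * e = 2 * e * (v / (2 * e) - j) := by field_simp
    rw [h3, abs_mul, abs_of_pos (by positivity : 0 < 2 * e)]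
    calc 2 * e * |v / (2 * e) - j| ≤ 2 * e * (1 / 2) :=
          mul_le_mul_of_nonneg_left h2 (by positivity)
      _ = e := by ring
  have h4 : Real.cosh (v - 2 * (j : ℝ) * e) ≤ Real.cosh e := by
    rw [Real.cosh_le_cosh, abs_of_pos he]
    exact h1
  refine le_trans (one_div_le_one_div_of_le (Real.cosh_pos _) h4) ?_
  exact (summable_S0 he v).le_tsum j fun i _ => (inv_cosh_pos _).le

include he in
lemma S0_cont : Continuous (S0 e) := by
  rw [continuous_iff_continuousAt]
  intro v0
  set r : ℝ := |v0| + 1 with hr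
  have h1 : ContinuousOn (S0 e) (Ioo (-r) r) := by
    refine continuousOn_tsum (u := fun j : ℤ => 2 * (Real.exp r
      * Real.exp (-|0 + 2 * (j : ℝ) * e|))) (fun j => ?_)
      (((exp_neg_abs_summable 0 he).mul_left _).mul_left _) fun j v hv => ?_
    · exact (Continuous.div continuous_const (by fun_prop)
        fun v => (Real.cosh_pos _).ne').continuousOn
    · rw [Real.norm_eq_abs, abs_of_pos (inv_cosh_pos _)]
      refine le_trans (inv_cosh_le _) ?_
      refine mul_le_mul_of_nonneg_left ?_ (by norm_num)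
      rw [← Real.exp_add]
      apply Real.exp_le_exp.mpr
      have h2 : |0 + 2 * (j : ℝ) * e| ≤ |v - 2 * (j : ℝ) * e| + |v| := by
        have := abs_sub (2 * (j : ℝ) * e - v) (-v)
        rw [abs_neg] at this
        rw [zero_add, abs_sub_comm v]
        calc |2 * (j : ℝ) * e| = |2 * (j : ℝ) * e - v - -v| := by congr 1; ring
          _ ≤ _ := this
      have h3 : |v| ≤ r := abs_le.mpr ⟨hv.1.le, hv.2.le⟩
      linarith
  refine h1.continuousAt (Ioo_mem_nhds ?_ ?_)
  · have := neg_abs_le v0; linarith
  · have := le_abs_self v0; linarith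

/-- the folded integral -/
noncomputable def Kf (e x : ℝ) : ℝ := ∫ v, (1 / Real.cosh (v - x)) / S0 e v

include he in
lemma Kf_integrable (x : ℝ) : Integrable fun v => (1 / Real.cosh (v - x)) / S0 e v := by
  refine Integrable.mono' ((integrable_sech x).mul_const (Real.cosh e)) ?_ ?_
  · exact ((Continuous.div continuous_const (by fun_prop)
      fun v => (Real.cosh_pos _).ne').div (S0_cont he)
        fun v => (S0_pos he v).ne').aestronglyMeasurable
  · refine Eventually.of_forall fun v => ?_
    have h1 := inv_cosh_pos (v - x)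
    have h2 := S0_pos he v
    rw [Real.norm_eq_abs, abs_of_pos (div_pos h1 h2), div_eq_mul_inv]
    refine mul_le_mul_of_nonneg_left ?_ h1.le
    have h3 := S0_ge he v
    rw [inv_le_comm₀ h2 (Real.cosh_pos e), ← one_div]
    exact h3

include he in
lemma Kf_eq (x : ℝ) : Kf e x = 2 * e * ∫ t in (0 : ℝ)..1, S0 e (2 * e * t - x) / S0 e (2 * e * t) := by
  have h2e : (2 * e) ≠ 0 := by positivity
  have h1 := Measure.integral_comp_mul_left (fun v => (1 / Real.cosh (v - x)) / S0 e v) (2 * e)
  have h2 : Kf e x = 2 * e * ∫ t, (1 / Real.cosh (2 * e * t - x)) / S0 e (2 * e * t) := by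
    rw [h1, abs_of_pos (by positivity), smul_eq_mul, ← mul_assoc, mul_inv_cancel₀ h2e, one_mul]
    rfl
  rw [h2]
  congr 1
  have hint : Integrable fun t => (1 / Real.cosh (2 * e * t - x)) / S0 e (2 * e * t) :=
    (Kf_integrable he x).comp_mul_left' h2e
  have h3 := hint.hasSum_intervalIntegral_comp_add_int
  have h4 : ∀ (n : ℤ) (t : ℝ), (1 / Real.cosh (2 * e * (t + n) - x)) / S0 e (2 * e * (t + n))
      = (1 / Real.cosh (2 * e * t - x + 2 * (n : ℝ) * e)) / S0 e (2 * e * t) := by
    intro n t
    rw [show 2 * e * (t + n) = 2 * e * t + 2 * (n : ℝ) * e by ring, S0_add]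
    congr 3
    ring
  simp_rw [h4] at h3
  have hcont : ∀ n : ℤ, Continuous fun t : ℝ =>
      (1 / Real.cosh (2 * e * t - x + 2 * (n : ℝ) * e)) / S0 e (2 * e * t) := fun n =>
    (Continuous.div continuous_const (by fun_prop) fun v => (Real.cosh_pos _).ne').div
      ((S0_cont he).comp (by fun_prop)) fun v => (S0_pos he _).ne'
  have hpos : ∀ (n : ℤ) (t : ℝ),
      0 ≤ (1 / Real.cosh (2 * e * t - x + 2 * (n : ℝ) * e)) / S0 e (2 * e * t) := fun n t =>
    (div_pos (inv_cosh_pos _) (S0_pos he _)).le
  have h5 : HasSum (fun n : ℤ => ∫ t in (0 : ℝ)..1,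
      (1 / Real.cosh (2 * e * t - x + 2 * (n : ℝ) * e)) / S0 e (2 * e * t))
      (∫ t in (0 : ℝ)..1, ∑' n : ℤ,
        (1 / Real.cosh (2 * e * t - x + 2 * (n : ℝ) * e)) / S0 e (2 * e * t)) := by
    simp only [intervalIntegral.integral_of_le (zero_le_one' ℝ)]
    refine hasSum_integral_of_summable_integral_norm (fun n => ?_) ?_
    · exact ((hcont n).integrableOn_Icc (a := 0) (b := 1)).mono_set Ioc_subset_Icc_self
    · have h6 := h3.summable
      simp only [intervalIntegral.integral_of_le (zero_le_one' ℝ)] at h6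
      refine h6.congr fun n => ?_
      refine integral_congr_ae (Eventually.of_forall fun t => ?_)
      simp only [Real.norm_eq_abs]
      rw [abs_of_nonneg (hpos n t)]
  rw [h3.unique h5]
  refine intervalIntegral.integral_congr fun t _ => ?_
  rw [tsum_div_const]
  congr 1
  unfold S0
  rw [← (Equiv.neg ℤ).tsum_eq]
  refine tsum_congr fun j => ?_
  simp only [Equiv.neg_apply]
  push_cast
  congr 2
  ring

include he in
lemma Kf_lat (k : ℤ) : Kf e (2 * k * e) = 2 * e := by
  rw [Kf_eq he]
  have h : ∀ t : ℝ, S0 e (2 * e * t - 2 * (k : ℝ) * e) / S0 e (2 * e * t) = 1 := by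
    intro t
    have h1 := S0_add e (2 * e * t) (-k)
    push_cast at h1
    rw [show 2 * e * t - 2 * (k : ℝ) * e = 2 * e * t + 2 * (-(k : ℝ)) * e by ring, h1,
      div_self (S0_pos he _).ne']
  simp_rw [h]
  simp

include he in
lemma Kf_ge (x : ℝ) : 2 * e ≤ Kf e x := by
  rw [Kf_eq he]
  have h2e : (0 : ℝ) < 2 * e := by positivity
  have c1 : Continuous fun t : ℝ => S0 e (2 * e * t - x) := (S0_cont he).comp (by fun_prop)
  have c2 : Continuous fun t : ℝ => S0 e (2 * e * t) := (S0_cont he).comp (by fun_prop)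
  have cl1 : Continuous fun t : ℝ => Real.log (S0 e (2 * e * t - x)) :=
    c1.log fun t => (S0_pos he _).ne'
  have cl2 : Continuous fun t : ℝ => Real.log (S0 e (2 * e * t)) :=
    c2.log fun t => (S0_pos he _).ne'
  have h1 : (1 : ℝ) ≤ ∫ t in (0 : ℝ)..1, S0 e (2 * e * t - x) / S0 e (2 * e * t) := by
    have h2 : ∫ t in (0 : ℝ)..1, (1 + (Real.log (S0 e (2 * e * t - x))
        - Real.log (S0 e (2 * e * t)))) ≤ ∫ t in (0 : ℝ)..1, S0 e (2 * e * t - x)
          / S0 e (2 * e * t) := by
      refine intervalIntegral.integral_mono_on zero_le_one ?_ ?_ fun t _ => ?_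
      · exact (continuous_const.add (cl1.sub cl2)).intervalIntegrable _ _
      · exact (c1.div c2 fun t => (S0_pos he _).ne').intervalIntegrable _ _
      · have h3 := Real.log_le_sub_one_of_pos (div_pos (S0_pos he (2 * e * t - x))
          (S0_pos he (2 * e * t)))
        rw [Real.log_div (S0_pos he _).ne' (S0_pos he _).ne'] at h3
        linarith
    have h3 : ∫ t in (0 : ℝ)..1, (1 + (Real.log (S0 e (2 * e * t - x))
        - Real.log (S0 e (2 * e * t)))) = 1 := by
      have cl3 : Continuous fun t : ℝ => Real.log (S0 e (2 * e * t - x))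
        - Real.log (S0 e (2 * e * t)) := cl1.sub cl2
      rw [intervalIntegral.integral_add (continuous_const.intervalIntegrable _ _)
        (cl3.intervalIntegrable _ _), intervalIntegral.integral_sub
        (cl1.intervalIntegrable _ _) (cl2.intervalIntegrable _ _)]
      have h4 : ∫ t in (0 : ℝ)..1, Real.log (S0 e (2 * e * t - x))
          = ∫ t in (0 : ℝ)..1, Real.log (S0 e (2 * e * t)) := by
        have hper : Function.Periodic (fun s : ℝ => Real.log (S0 e (2 * e * s))) 1 := by
          intro s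
          simp only
          have h5 := S0_add e (2 * e * s) 1
          push_cast at h5
          rw [← h5]
          congr 2
          ring
        have h6 := hper.intervalIntegral_add_eq (-(x / (2 * e))) 0
        rw [zero_add] at h6
        rw [← h6]
        have h7 := intervalIntegral.integral_comp_add_right
          (fun s : ℝ => Real.log (S0 e (2 * e * s))) (a := 0) (b := 1) (-(x / (2 * e)))
        rw [show (-(x / (2 * e)) + 1 : ℝ) = 1 + -(x / (2 * e)) by ring]
        rw [zero_add] at h7
        rw [← h7]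
        refine intervalIntegral.integral_congr fun t _ => ?_
        congr 2
        field_simp
        ring
      rw [h4, sub_self, add_zero]
      simp
    linarith
  calc 2 * e = 2 * e * 1 := (mul_one _).symm
    _ ≤ _ := mul_le_mul_of_nonneg_left h1 h2e.le

end Pool.Agent.TH753.FF
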