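import Pool.Agent.TH753.FF11

/-!
# Lattices and their competitors
-/

open Filter Topology Set MeasureTheory

namespace Pool.Agent.TH753.FF

/-- the transform of a symmetric pair of points -/
noncomputable def gam (u v : ℝ) : ℝ := Real.cosh v / (1 + u ^ 2 * Real.sinh v ^ 2)
/-- its kernel -/
noncomputable def bu (u v : ℝ) : ℝ := u ^ 2 * Real.cosh v / (1 + u ^ 2 * Real.sinh v ^ 2)

lemma arg_pos (u v : ℝ) : 0 < 1 + u ^ 2 * Real.sinh v ^ 2 := lt_of_lt_of_le one_pos (one_le_arg u v)

lemma gam_eq (u v : ℝ) : gam u v = Real.cosh v - Real.sinh v ^ 2 * bu u v := by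
  unfold gam bu
  have := (arg_pos u v).ne'
  field_simp
  ring

lemma bu_eq (x v : ℝ) : bu (1 / Real.cosh x) v
    = 1 / Real.cosh x / 2 * (1 / Real.cosh (v - x) + 1 / Real.cosh (v + x)) := by
  unfold bu
  rw [arg_eq]
  have h1 := (Real.cosh_pos x).ne'
  have h2 := (Real.cosh_pos (v - x)).ne'
  have h3 := (Real.cosh_pos (v + x)).ne'
  have h4 : Real.cosh (v + x) + Real.cosh (v - x) = 2 * Real.cosh v * Real.cosh x := by
    rw [Real.cosh_add, Real.cosh_sub]; ring
  field_simp
  linear_combination (-1 : ℝ) * h4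

lemma cosh_split (x v : ℝ) : 1 / Real.cosh (v - x)
    = Real.cosh v * (1 / Real.cosh x) + Real.sinh v * (Real.tanh x * (1 / Real.cosh x))
      - Real.sinh v ^ 2 * (1 / Real.cosh x ^ 2 * (1 / Real.cosh (v - x))) := by
  have h1 := (Real.cosh_pos x).ne'
  have h2 := (Real.cosh_pos (v - x)).ne'
  rw [Real.tanh_eq_sinh_div_cosh]
  have h3 := cosh_mul_cosh v x
  have h4 : Real.cosh (v + x) = Real.cosh v * Real.cosh x + Real.sinh v * Real.sinh x :=
    Real.cosh_add v x
  rw [h4] at h3
  field_simp
  linear_combination (-1 : ℝ) * h3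

section

variable {e : ℝ} (he : 0 < e) (k : ℤ)

/-- the points of a symmetric lattice -/
noncomputable def xl (e : ℝ) (k j : ℤ) : ℝ := k * e + 2 * (j : ℝ) * e

lemma xl_neg (e : ℝ) (k j : ℤ) : xl e k (-k - j) = -xl e k j := by
  unfold xl
  push_cast
  ring

/-- the reflection of the index -/
def refl (k : ℤ) : ℤ ≃ ℤ := Equiv.subLeft (-k)

lemma refl_apply (k j : ℤ) : refl k j = -k - j := rfl

lemma SX_even (e v : ℝ) (k : ℤ) : SX (k * e) e (-v) = SX (k * e) e v := by
  unfold SX
  rw [← (refl k).tsum_eq]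
  refine tsum_congr fun j => ?_
  rw [refl_apply]
  have h := xl_neg e k j
  unfold xl at h
  rw [h, ← Real.cosh_neg]
  congr 2
  ring

lemma gX_even (e v : ℝ) (k : ℤ) : gX (k * e) e (-v) = gX (k * e) e v := by
  unfold gX
  rw [SX_even]

include he in
lemma summable_l1 : Summable fun j : ℤ => 1 / Real.cosh (xl e k j) := summable_cosh (k * e) he

include he in
lemma summable_l2 : Summable fun j : ℤ => 1 / Real.cosh (xl e k j) ^ 2 :=
  summable_cosh2 (k * e) he

/-- `∑ sech` -/
noncomputable def Zl (e : ℝ) (k : ℤ) : ℝ := ∑' j : ℤ, 1 / Real.cosh (xl e k j)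
/-- `∑ sech²` -/
noncomputable def Wl (e : ℝ) (k : ℤ) : ℝ := ∑' j : ℤ, 1 / Real.cosh (xl e k j) ^ 2

lemma SX_zero (e : ℝ) (k : ℤ) : SX (k * e) e 0 = Zl e k := by
  unfold SX Zl xl
  refine tsum_congr fun j => ?_
  rw [zero_sub, Real.cosh_neg]

include he in
lemma Zl_pos : 0 < Zl e k := by
  rw [← SX_zero]; exact SX_pos _ he 0

include he in
lemma Wl_pos : 0 < Wl e k :=
  (summable_l2 he k).tsum_pos (fun j => by positivity) 0
    (by have := Real.cosh_pos (xl e k 0); positivity)

include he in
lemma odd_sum : Summable (fun j : ℤ => Real.tanh (xl e k j) * (1 / Real.cosh (xl e k j))) ∧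
    ∑' j : ℤ, Real.tanh (xl e k j) * (1 / Real.cosh (xl e k j)) = 0 := by
  have h1 : Summable (fun j : ℤ => Real.tanh (xl e k j) * (1 / Real.cosh (xl e k j))) := by
    refine Summable.of_norm_bounded (summable_l1 he k) fun j => ?_
    rw [Real.norm_eq_abs, abs_mul, abs_of_pos (inv_cosh_pos _)]
    have h2 : |Real.tanh (xl e k j)| ≤ 1 := (Real.abs_tanh_lt_one _).le
    have h3 := (inv_cosh_pos (xl e k j)).le
    calc _ ≤ 1 * (1 / Real.cosh (xl e k j)) := mul_le_mul_of_nonneg_right h2 h3
      _ = _ := one_mul _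
  refine ⟨h1, ?_⟩
  have h2 := (refl k).tsum_eq (fun j : ℤ => Real.tanh (xl e k j) * (1 / Real.cosh (xl e k j)))
  have h3 : ∀ j, Real.tanh (xl e k (refl k j)) * (1 / Real.cosh (xl e k (refl k j)))
      = -(Real.tanh (xl e k j) * (1 / Real.cosh (xl e k j))) := by
    intro j
    rw [refl_apply, xl_neg, Real.tanh_neg, Real.cosh_neg]
    ring
  simp_rw [h3] at h2
  rw [tsum_neg] at h2
  linarith

lemma sech_mul_le (x v : ℝ) : 1 / Real.cosh x * (1 / Real.cosh (v - x)) ≤ 2 * (1 / Real.cosh v) := by
  have h1 := Real.cosh_pos x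
  have h2 := Real.cosh_pos (v - x)
  have h3 := Real.cosh_pos v
  have h4 : Real.cosh x * Real.cosh (v - x) = (Real.cosh v + Real.cosh (v - 2 * x)) / 2 := by
    have e1 : Real.cosh v = Real.cosh x * Real.cosh (v - x) + Real.sinh x * Real.sinh (v - x) := by
      rw [← Real.cosh_add]; congr 1; ring
    have e2 : Real.cosh (v - 2 * x)
        = Real.cosh (v - x) * Real.cosh x - Real.sinh (v - x) * Real.sinh x := by
      rw [← Real.cosh_sub]; congr 1; ring
    rw [e1, e2]; ring
  have h5 := Real.cosh_pos (v - 2 * x)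
  rw [one_div_mul_one_div, h4]
  rw [mul_one_div, div_le_div_iff₀ (by positivity) h3]
  linarith

/-- the kernel of the lattice -/
noncomputable def BX (e : ℝ) (k : ℤ) (v : ℝ) : ℝ :=
  (∑' j : ℤ, 1 / Real.cosh (xl e k j) ^ 2 * (1 / Real.cosh (v - xl e k j))) / Zl e k

include he in
lemma summable_BX (v : ℝ) : Summable fun j : ℤ =>
    1 / Real.cosh (xl e k j) ^ 2 * (1 / Real.cosh (v - xl e k j)) := by
  refine Summable.of_nonneg_of_le (fun j => by positivity) (fun j => ?_) (summable_l2 he k)
  exact mul_le_of_le_one_right (by positivity) (inv_cosh_le_one _)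

include he in
lemma BX_bounds (v : ℝ) : 0 ≤ BX e k v ∧ BX e k v ≤ 2 * (1 / Real.cosh v) := by
  constructor
  · exact div_nonneg (tsum_nonneg fun j => by positivity) (Zl_pos he k).le
  · unfold BX
    rw [div_le_iff₀ (Zl_pos he k)]
    unfold Zl
    rw [← tsum_mul_left]
    refine (summable_BX he k v).tsum_le_tsum (fun j => ?_) ((summable_l1 he k).mul_left _)
    have h1 := sech_mul_le (xl e k j) v
    have h2 := (inv_cosh_pos (xl e k j)).le
    calc 1 / Real.cosh (xl e k j) ^ 2 * (1 / Real.cosh (v - xl e k j))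
        = 1 / Real.cosh (xl e k j) * (1 / Real.cosh (v - xl e k j))
          * (1 / Real.cosh (xl e k j)) := by
          rw [sq, ← one_div_mul_one_div]; ring
      _ ≤ _ := mul_le_mul_of_nonneg_right h1 h2

include he in
/-- the transform of a symmetric lattice in terms of its kernel -/
lemma gX_eq (v : ℝ) : gX (k * e) e v = Real.cosh v - Real.sinh v ^ 2 * BX e k v := by
  obtain ⟨o1, o2⟩ := odd_sum he k
  have h1 : SX (k * e) e v = Real.cosh v * Zl e k
      - Real.sinh v ^ 2 * ∑' j : ℤ, 1 / Real.cosh (xl e k j) ^ 2 * (1 / Real.cosh (v - xl e k j)) := by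
    have e1 : SX (k * e) e v = ∑' j : ℤ, 1 / Real.cosh (v - xl e k j) := rfl
    rw [e1, tsum_congr fun j => cosh_split (xl e k j) v]
    rw [((((summable_l1 he k).mul_left _).add (o1.mul_left _))).tsum_sub
      ((summable_BX he k v).mul_left _), ((summable_l1 he k).mul_left _).tsum_add (o1.mul_left _),
      tsum_mul_left, tsum_mul_left, tsum_mul_left, o2]
    unfold Zl
    ring
  unfold gX
  rw [h1, SX_zero]
  unfold BX
  have := (Zl_pos he k).ne'
  field_simp

include he in
lemma gX_cont (a : ℝ) : Continuous (gX a e) := by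
  unfold gX
  refine Continuous.div_const ?_ _
  have h : SX a e = fun v => S0 e (v - a) := funext fun v => SX_eq a e v
  rw [h]
  exact (S0_cont he).comp (by fun_prop)

lemma inv_gX (a e v : ℝ) : 1 / gX a e v = SX a e 0 * (1 / S0 e (v - a)) := by
  unfold gX
  rw [SX_eq a e v, one_div_div]
  ring

/-- integrals of a shifted kernel -/
lemma integral_shift (a x e : ℝ) : ∫ v, 1 / gX a e v * (1 / Real.cosh (v - x))
    = SX a e 0 * Kf e (x - a) := by
  simp_rw [inv_gX]
  unfold Kf
  rw [← integral_sub_right_eq_self (fun v => 1 / Real.cosh (v - (x - a)) / S0 e v) a,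
    ← integral_const_mul]
  refine integral_congr_ae (Eventually.of_forall fun v => ?_)
  simp only
  rw [show v - a - (x - a) = v - x by ring]
  ring

include he in
lemma integrable_shift (a x : ℝ) : Integrable fun v => 1 / gX a e v * (1 / Real.cosh (v - x)) := by
  have h := ((Kf_integrable he (x - a)).comp_sub_right a).const_mul (SX a e 0)
  refine h.congr (Eventually.of_forall fun v => ?_)
  simp only
  rw [inv_gX, show v - a - (x - a) = v - x by ring]
  ring

/-- even functions -/
lemma integral_even (f : ℝ → ℝ) (hf : ∀ v, f (-v) = f v) : ∫ v, f v = 2 * ∫ v in Ioi 0, f v := by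
  rw [← integral_comp_abs]
  refine integral_congr_ae (Eventually.of_forall fun v => ?_)
  simp only
  rcases abs_cases v with ⟨h, _⟩ | ⟨h, _⟩
  · rw [h]
  · rw [h, hf]

lemma BX_even (e v : ℝ) (k : ℤ) : BX e k (-v) = BX e k v := by
  unfold BX
  congr 1
  rw [← (refl k).tsum_eq]
  refine tsum_congr fun j => ?_
  rw [refl_apply, xl_neg, Real.cosh_neg]
  congr 2
  rw [← Real.cosh_neg]
  congr 1
  ring

include he in
/-- the kernel of the lattice integrated against its inverse transform -/
lemma integral_BX : ∫ v in Ioi 0, 1 / gX (k * e) e v * BX e k v = e * Wl e k := by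
  have hZ := Zl_pos he k
  have h1 : ∫ v, 1 / gX (k * e) e v * BX e k v = 2 * e * Wl e k := by
    have h2 : ∀ v, 1 / gX (k * e) e v * BX e k v = ∑' j : ℤ, (1 / Real.cosh (xl e k j) ^ 2 / Zl e k)
        * (1 / gX (k * e) e v * (1 / Real.cosh (v - xl e k j))) := by
      intro v
      unfold BX
      rw [← tsum_div_const, ← tsum_mul_left]
      exact tsum_congr fun j => by ring
    simp_rw [h2]
    have h3 : ∀ j : ℤ, ∫ v, (1 / Real.cosh (xl e k j) ^ 2 / Zl e k)
        * (1 / gX (k * e) e v * (1 / Real.cosh (v - xl e k j)))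
        = 1 / Real.cosh (xl e k j) ^ 2 * (2 * e) := by
      intro j
      rw [integral_const_mul, integral_shift, SX_zero,
        show xl e k j - k * e = 2 * (j : ℝ) * e by unfold xl; ring, Kf_lat he]
      field_simp
    have h4 := hasSum_integral_of_summable_integral_norm (μ := volume)
      (F := fun (j : ℤ) v => (1 / Real.cosh (xl e k j) ^ 2 / Zl e k)
        * (1 / gX (k * e) e v * (1 / Real.cosh (v - xl e k j))))
      (fun j => (integrable_shift he (k * e) _).const_mul _) (by
        have h5 : ∀ j : ℤ, ∫ v, ‖(1 / Real.cosh (xl e k j) ^ 2 / Zl e k)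
            * (1 / gX (k * e) e v * (1 / Real.cosh (v - xl e k j)))‖
            = 1 / Real.cosh (xl e k j) ^ 2 * (2 * e) := by
          intro j
          rw [← h3 j]
          refine integral_congr_ae (Eventually.of_forall fun v => ?_)
          simp only [Real.norm_eq_abs]
          refine abs_of_nonneg ?_
          have := gX_pos (k * e) he v
          positivity
        simp_rw [h5]
        exact (summable_l2 he k).mul_right _)
    rw [← h4.tsum_eq]
    simp_rw [h3]
    rw [tsum_mul_right]
    unfold Wl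
    ring
  rw [integral_even _ (fun v => by rw [gX_even, BX_even])] at h1
  linarith

include he in
lemma integrable_bu (a x : ℝ) : Integrable fun v => 1 / gX a e v * bu (1 / Real.cosh x) v := by
  have h := ((integrable_shift he a x).add (integrable_shift he a (-x))).const_mul
    (1 / Real.cosh x / 2)
  refine h.congr (Eventually.of_forall fun v => ?_)
  simp only [Pi.add_apply]
  rw [bu_eq, sub_neg_eq_add]
  ring

include he in
/-- competitors -/
lemma integral_bu (x : ℝ) : 1 / Real.cosh x * (e * Zl e k)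
    ≤ ∫ v in Ioi 0, 1 / gX (k * e) e v * bu (1 / Real.cosh x) v := by
  have h1 : ∫ v, 1 / gX (k * e) e v * bu (1 / Real.cosh x) v
      = 1 / Real.cosh x / 2 * (Zl e k * Kf e (x - k * e) + Zl e k * Kf e (-x - k * e)) := by
    rw [← SX_zero, ← integral_shift, ← integral_shift,
      ← integral_add (integrable_shift he _ _) (integrable_shift he _ _), ← integral_const_mul]
    refine integral_congr_ae (Eventually.of_forall fun v => ?_)
    simp only
    rw [bu_eq, sub_neg_eq_add]
    ring
  rw [integral_even _ (fun v => by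
    rw [gX_even]
    unfold bu
    rw [Real.cosh_neg, Real.sinh_neg, neg_sq])] at h1
  have h2 := Kf_ge he (x - k * e)
  have h3 := Kf_ge he (-x - k * e)
  have h4 := Zl_pos he k
  have h5 : 1 / Real.cosh x / 2 * (Zl e k * (2 * e) + Zl e k * (2 * e))
      ≤ 1 / Real.cosh x / 2 * (Zl e k * Kf e (x - k * e) + Zl e k * Kf e (-x - k * e)) := by
    have h6 := (inv_cosh_pos x).le
    refine mul_le_mul_of_nonneg_left (add_le_add ?_ ?_) (by positivity)
    · exact mul_le_mul_of_nonneg_left h2 h4.le
    · exact mul_le_mul_of_nonneg_left h3 h4.le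
  rw [← h1] at h5
  linarith

end

end Pool.Agent.TH753.FF
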