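import Pool.Agent.TH753.FF12

/-!
# Comparison of a lattice with its competitors
-/

open Filter Topology Set MeasureTheory

namespace Pool.Agent.TH753.FF

/-- A convexity certificate. -/
theorem cert (g B g' B' : ℝ → ℝ) (hg : ∀ v, 0 < v → 0 < g v) (hg' : ∀ v, 0 < v → 0 < g' v)
    (eg : ∀ v, 0 < v → g v = Real.cosh v - Real.sinh v ^ 2 * B v)
    (eg' : ∀ v, 0 < v → g' v = Real.cosh v - Real.sinh v ^ 2 * B' v)
    (cg : ContinuousOn g (Ioi 0)) (cg' : ContinuousOn g' (Ioi 0))
    (i1 : IntegrableOn (fun v => 1 / g v * B v) (Ioi 0))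
    (i2 : IntegrableOn (fun v => 1 / g v * B' v) (Ioi 0))
    (i3 : IntegrableOn (fun v => Real.log (g v) / Real.sinh v ^ 2) (Ioi 0))
    (i4 : IntegrableOn (fun v => Real.log (g' v) / Real.sinh v ^ 2) (Ioi 0))
    (hle : ∫ v in Ioi 0, 1 / g v * B v ≤ ∫ v in Ioi 0, 1 / g v * B' v)
    (hne : ∃ v, 0 < v ∧ g v ≠ g' v) :
    ∫ v in Ioi 0, Real.log (g' v) / Real.sinh v ^ 2
      < ∫ v in Ioi 0, Real.log (g v) / Real.sinh v ^ 2 := by
  set D : ℝ → ℝ := fun v => (g' v / g v - 1 - Real.log (g' v / g v)) / Real.sinh v ^ 2 with hD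
  have hsp : ∀ v : ℝ, 0 < v → 0 < Real.sinh v := fun v hv => Real.sinh_pos_iff.mpr hv
  have hD0 : ∀ v, 0 < v → 0 ≤ D v := by
    intro v hv
    refine div_nonneg ?_ (sq_nonneg _)
    have := Real.log_le_sub_one_of_pos (div_pos (hg' v hv) (hg v hv))
    linarith
  have key : ∀ v, 0 < v → D v = (Real.log (g v) / Real.sinh v ^ 2
      - Real.log (g' v) / Real.sinh v ^ 2) - (1 / g v * B' v - 1 / g v * B v) := by
    intro v hv
    have h1 := (hg v hv).ne'
    have h2 := (hg' v hv).ne'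
    have h3 := (hsp v hv).ne'
    rw [hD]
    simp only
    rw [Real.log_div h2 h1]
    have h4 : g' v - g v = Real.sinh v ^ 2 * (B v - B' v) := by rw [eg v hv, eg' v hv]; ring
    have h5 : g' v / g v - 1 = Real.sinh v ^ 2 * (B v - B' v) / g v := by
      rw [← h4]; field_simp
    rw [h5]
    field_simp
    ring
  have i5 : IntegrableOn (fun v => (Real.log (g v) / Real.sinh v ^ 2
      - Real.log (g' v) / Real.sinh v ^ 2) - (1 / g v * B' v - 1 / g v * B v)) (Ioi 0) :=
    (i3.sub i4).sub (i2.sub i1)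
  have iD : IntegrableOn D (Ioi 0) :=
    i5.congr_fun (fun v hv => (key v hv).symm) measurableSet_Ioi
  have hint : ∫ v in Ioi 0, D v = ((∫ v in Ioi 0, Real.log (g v) / Real.sinh v ^ 2)
      - ∫ v in Ioi 0, Real.log (g' v) / Real.sinh v ^ 2)
      - ((∫ v in Ioi 0, 1 / g v * B' v) - ∫ v in Ioi 0, 1 / g v * B v) := by
    rw [setIntegral_congr_fun measurableSet_Ioi (fun v hv => key v hv)]
    have a1 : Integrable (fun v => Real.log (g v) / Real.sinh v ^ 2
      - Real.log (g' v) / Real.sinh v ^ 2) (volume.restrict (Ioi 0)) := i3.sub i4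
    have a2 : Integrable (fun v => 1 / g v * B' v - 1 / g v * B v) (volume.restrict (Ioi 0)) :=
      i2.sub i1
    rw [integral_sub a1 a2, integral_sub i3 i4, integral_sub i2 i1]
  have hpos : 0 < ∫ v in Ioi 0, D v := by
    rw [setIntegral_pos_iff_support_of_nonneg_ae
      ((ae_restrict_iff' measurableSet_Ioi).mpr (Eventually.of_forall fun v hv => hD0 v hv)) iD]
    obtain ⟨v0, hv0, hne0⟩ := hne
    have hDv : 0 < D v0 := by
      refine div_pos ?_ (pow_pos (hsp v0 hv0) 2)
      have h1 : g' v0 / g v0 ≠ 1 := by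
        intro h
        rw [div_eq_one_iff_eq (hg v0 hv0).ne'] at h
        exact hne0 h.symm
      have := Real.log_lt_sub_one_of_pos (div_pos (hg' v0 hv0) (hg v0 hv0)) h1
      linarith
    have cD : ContinuousOn D (Ioi 0) := by
      have c1 : ContinuousOn (fun v => g' v / g v) (Ioi 0) := cg'.div cg fun v hv => (hg v hv).ne'
      refine ContinuousOn.div ((c1.sub continuousOn_const).sub (c1.log fun v hv =>
        (div_pos (hg' v hv) (hg v hv)).ne')) (by fun_prop) fun v hv =>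
          pow_ne_zero 2 (hsp v hv).ne'
    have hnh : ∀ᶠ v in 𝓝 v0, 0 < D v :=
      ((cD.continuousAt (Ioi_mem_nhds hv0)).tendsto.eventually (lt_mem_nhds hDv))
    have hnh2 : ∀ᶠ v in 𝓝 v0, v ∈ Function.support D ∩ Ioi 0 := by
      filter_upwards [hnh, Ioi_mem_nhds hv0] with v h1 h2
      exact ⟨h1.ne', h2⟩
    exact Measure.measure_pos_of_mem_nhds volume hnh2
  linarith

/-! ### Entropies as integrals -/

/-- `h` in terms of the natural logarithm -/
noncomputable def hh (y : ℝ) : ℝ := (Real.negMulLog (1 / 2 - 1 / 2 * √(1 - y))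
  + Real.negMulLog (1 - (1 / 2 - 1 / 2 * √(1 - y)))) / Real.log 2

lemma hh_cont : Continuous hh := by
  unfold hh
  refine Continuous.div_const (Continuous.add ?_ ?_) _
  · exact Real.continuous_negMulLog.comp (by fun_prop)
  · exact Real.continuous_negMulLog.comp (by fun_prop)

lemma hh_cosh (x : ℝ) : hh (1 / Real.cosh x ^ 2) = se x := by
  have key : ∀ y : ℝ, 0 ≤ y → hh (1 / Real.cosh y ^ 2) = se (-y) := by
    intro y hy
    unfold hh se
    have h1 : √(1 - 1 / Real.cosh y ^ 2) = Real.tanh y := by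
      have h2 : 1 - 1 / Real.cosh y ^ 2 = Real.tanh y ^ 2 := by
        rw [Real.tanh_eq_sinh_div_cosh]
        have h3 := (Real.cosh_pos y).ne'
        have h4 := Real.cosh_sq y
        field_simp
        linarith
      rw [h2, Real.sqrt_sq]
      rw [Real.tanh_eq_sinh_div_cosh]
      exact div_nonneg (Real.sinh_nonneg_iff.mpr hy) (Real.cosh_pos y).le
    have h5 : (1 / 2 - 1 / 2 * Real.tanh y : ℝ) = sg (-y) := by
      unfold sg
      rw [Real.tanh_neg]; ring
    rw [h1, h5]
  rcases le_total 0 x with h0 | h0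
  · rw [key x h0, se_neg]
  · have := key (-x) (by linarith)
    rw [Real.cosh_neg, neg_neg] at this
    exact this

lemma exists_cosh {u : ℝ} (h0 : 0 < u) (h1 : u ≤ 1) : ∃ x, 1 / Real.cosh x = u := by
  have h2 : ∃ x ∈ Icc 0 (1 / u), Real.cosh x = 1 / u := by
    have h3 : 1 / u ∈ Icc (Real.cosh 0) (Real.cosh (1 / u)) := by
      constructor
      · rw [Real.cosh_zero, le_div_iff₀ h0]; linarith
      · have h4 := cosh_ge (1 / u)
        nlinarith [sq_nonneg (1 / u - 1)]
    exact intermediate_value_Icc (by positivity) Real.continuous_cosh.continuousOn h3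
  obtain ⟨x, -, hx⟩ := h2
  exact ⟨x, by rw [hx, one_div_one_div]⟩

lemma Lk_facts {u : ℝ} (h0 : 0 ≤ u) (h1 : u ≤ 1) : IntegrableOn (Lk u) (Ioi 0) ∧
    ∫ v in Ioi 0, Lk u v = 2 * Real.log 2 * hh (u ^ 2) := by
  have hlog : 0 < Real.log 2 := Real.log_pos (by norm_num)
  rcases eq_or_lt_of_le h0 with h | h
  · subst h
    have e1 : Lk 0 = fun _ => 0 := by
      funext v
      simp [Lk]
    have e2 : hh (0 ^ 2) = 0 := by
      unfold hh
      simp
    rw [e1, e2]
    simp
  · obtain ⟨x, hx⟩ := exists_cosh h h1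
    subst hx
    refine ⟨Lk_int x, ?_⟩
    rw [integral_Lk, div_pow, one_pow, hh_cosh, se_eq]
    field_simp

lemma integral_log_cosh : IntegrableOn (fun v => Real.log (Real.cosh v) / Real.sinh v ^ 2) (Ioi 0) ∧
    ∫ v in Ioi 0, Real.log (Real.cosh v) / Real.sinh v ^ 2 = Real.log 2 := by
  have h1 : ∀ v, Real.log (Real.cosh v) / Real.sinh v ^ 2 = 1 / 2 * Lk 1 v := by
    intro v
    unfold Lk
    rw [show 1 + 1 ^ 2 * Real.sinh v ^ 2 = Real.cosh v ^ 2 by rw [Real.cosh_sq]; ring,
      Real.log_pow]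
    push_cast
    ring
  simp_rw [h1]
  refine ⟨Lk_one_int.const_mul _, ?_⟩
  rw [integral_const_mul, integral_Lk_one]
  ring

/-- the competitor of `u` and `T` -/
noncomputable def gc (u T v : ℝ) : ℝ :=
  (1 + T * Real.sinh v ^ 2) / (Real.cosh v * (1 + u ^ 2 * Real.sinh v ^ 2))

lemma gc_pos {T : ℝ} (u : ℝ) (hT : 0 ≤ T) (v : ℝ) : 0 < gc u T v := by
  have h1 := arg_pos u v
  have h2 := Real.cosh_pos v
  unfold gc
  positivity

lemma gc_log {u T : ℝ} (h0 : 0 ≤ u) (h1 : u ≤ 1) (hT0 : 0 ≤ T) (hT1 : T ≤ 1) :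
    IntegrableOn (fun v => Real.log (gc u T v) / Real.sinh v ^ 2) (Ioi 0) ∧
    ∫ v in Ioi 0, Real.log (gc u T v) / Real.sinh v ^ 2
      = 2 * Real.log 2 * (hh T - hh (u ^ 2) - 1 / 2) := by
  obtain ⟨a1, a2⟩ := Lk_facts h0 h1
  obtain ⟨b1, b2⟩ := Lk_facts (Real.sqrt_nonneg T) (Real.sqrt_le_one.mpr hT1)
  obtain ⟨c1, c2⟩ := integral_log_cosh
  rw [Real.sq_sqrt hT0] at b2
  have e1 : ∀ v, Real.log (gc u T v) / Real.sinh v ^ 2
      = Lk (√T) v - Lk u v - Real.log (Real.cosh v) / Real.sinh v ^ 2 := by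
    intro v
    unfold gc Lk
    rw [Real.sq_sqrt hT0]
    have h2 := (arg_pos u v).ne'
    have h3 := (Real.cosh_pos v).ne'
    have h4 : 0 < 1 + T * Real.sinh v ^ 2 := by positivity
    rw [Real.log_div h4.ne' (mul_ne_zero h3 h2), Real.log_mul h3 h2]
    ring
  simp_rw [e1]
  refine ⟨(b1.sub a1).sub c1, ?_⟩
  have i1 : Integrable (fun v => Lk (√T) v - Lk u v) (volume.restrict (Ioi 0)) := b1.sub a1
  rw [integral_sub i1 c1, integral_sub b1 a1, a2, b2, c2]
  ring

/-- the competitor as a mixture -/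
lemma gc_mix {u T : ℝ} (w : ℝ) (hw : w * (1 - u ^ 2) = 1 - T) (v : ℝ) :
    gc u T v = w * gam 1 v + (1 - w) * gam u v := by
  unfold gc gam
  have h2 := (arg_pos u v).ne'
  have h3 := (Real.cosh_pos v).ne'
  have h4 : 1 + 1 ^ 2 * Real.sinh v ^ 2 = Real.cosh v ^ 2 := by rw [Real.cosh_sq]; ring
  have h5 := Real.cosh_sq v
  rw [h4]
  have hT : T = 1 - w * (1 - u ^ 2) := by linarith
  rw [hT]
  field_simp
  rw [h5]
  ring

lemma gc_ne {u T : ℝ} (hT : T ≤ 1) {v1 v2 v3 : ℝ} (h1 : 0 < v1) (h12 : v1 < v2) (h23 : v2 < v3)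
    (e1 : gc u T v1 = 1) (e2 : gc u T v2 = 1) (e3 : gc u T v3 = 1) : False := by
  have key : ∀ v, 0 < v → gc u T v = 1 →
      u ^ 2 * Real.cosh v ^ 2 + (u ^ 2 - T) * Real.cosh v + (1 - T) = 0 := by
    intro v hv h
    unfold gc at h
    have h2 := arg_pos u v
    have h3 := Real.cosh_pos v
    rw [div_eq_one_iff_eq (mul_pos h3 h2).ne'] at h
    have h4 : Real.sinh v ^ 2 = Real.cosh v ^ 2 - 1 := by rw [Real.cosh_sq]; ring
    rw [h4] at h
    have h5 : 1 < Real.cosh v := Real.one_lt_cosh.mpr hv.ne'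
    have h6 : (Real.cosh v - 1) * (u ^ 2 * Real.cosh v ^ 2 + (u ^ 2 - T) * Real.cosh v + (1 - T))
        = 0 := by linear_combination (-1 : ℝ) * h
    rcases mul_eq_zero.mp h6 with h7 | h7
    · linarith
    · exact h7
  have k1 := key v1 h1 e1
  have k2 := key v2 (h1.trans h12) e2
  have k3 := key v3 (h1.trans (h12.trans h23)) e3
  have hc : ∀ a b : ℝ, 0 < a → a < b → Real.cosh a < Real.cosh b := by
    intro a b ha hab
    rw [Real.cosh_lt_cosh, abs_of_pos ha, abs_of_pos (ha.trans hab)]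
    exact hab
  have c12 := hc v1 v2 h1 h12
  have c23 := hc v2 v3 (h1.trans h12) h23
  set y1 := Real.cosh v1
  set y2 := Real.cosh v2
  set y3 := Real.cosh v3
  have m1 : (y2 - y1) * (u ^ 2 * (y1 + y2) + (u ^ 2 - T)) = 0 := by linear_combination k2 - k1
  have m2 : (y3 - y2) * (u ^ 2 * (y2 + y3) + (u ^ 2 - T)) = 0 := by linear_combination k3 - k2
  have n1 : u ^ 2 * (y1 + y2) + (u ^ 2 - T) = 0 := by
    rcases mul_eq_zero.mp m1 with h | h
    · linarith
    · exact h
  have n2 : u ^ 2 * (y2 + y3) + (u ^ 2 - T) = 0 := by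
    rcases mul_eq_zero.mp m2 with h | h
    · linarith
    · exact h
  have n3 : u ^ 2 * (y3 - y1) = 0 := by linear_combination n2 - n1
  have n4 : u ^ 2 = 0 := by
    rcases mul_eq_zero.mp n3 with h | h
    · exact h
    · linarith
  rw [n4] at n1 k1
  have n5 : T = 0 := by linarith
  rw [n5] at k1
  linarith

section

variable {e : ℝ} (he : 0 < e) (k : ℤ)

include he in
lemma inv_gX_le (a v : ℝ) : 1 / gX a e v ≤ SX a e 0 * Real.cosh e := by
  rw [inv_gX]
  refine mul_le_mul_of_nonneg_left ?_ (SX_pos a he 0).le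
  rw [one_div, inv_le_comm₀ (S0_pos he _) (Real.cosh_pos e), ← one_div]
  exact S0_ge he _

include he in
lemma i1X : IntegrableOn (fun v => 1 / gX (k * e) e v * BX e k v) (Ioi 0) := by
  have hsp : ∀ v : ℝ, 0 < v → 0 < Real.sinh v := fun v hv => Real.sinh_pos_iff.mpr hv
  refine Integrable.mono' (g := fun v => SX (k * e) e 0 * Real.cosh e * (2 * (1 / Real.cosh v)))
    ?_ ?_ ?_
  · have h := (integrable_sech 0).const_mul 2
    simp only [sub_zero] at h
    exact (h.const_mul _).integrableOn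
  · have h1 : AEStronglyMeasurable (fun v => 1 / gX (k * e) e v
        * ((Real.cosh v - gX (k * e) e v) / Real.sinh v ^ 2)) (volume.restrict (Ioi 0)) := by
      refine ContinuousOn.aestronglyMeasurable ?_ measurableSet_Ioi
      refine ContinuousOn.mul ?_ ?_
      · exact (continuous_const.div (gX_cont he _) fun v => (gX_pos _ he v).ne').continuousOn
      · exact ContinuousOn.div (Real.continuous_cosh.sub (gX_cont he _)).continuousOn
          (by fun_prop) fun v hv => pow_ne_zero 2 (hsp v hv).ne'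
    refine h1.congr ?_
    refine (ae_restrict_iff' measurableSet_Ioi).mpr (Eventually.of_forall fun v hv => ?_)
    simp only
    have h2 := (hsp v hv).ne'
    rw [gX_eq he k v, show Real.cosh v - (Real.cosh v - Real.sinh v ^ 2 * BX e k v)
      = Real.sinh v ^ 2 * BX e k v by ring, mul_div_cancel_left₀ _ (pow_ne_zero 2 h2)]
  · refine Eventually.of_forall fun v => ?_
    obtain ⟨b1, b2⟩ := BX_bounds he k v
    have h3 := (gX_pos (k * e) he v)
    rw [Real.norm_eq_abs, abs_of_nonneg (by positivity)]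
    have h4 := (SX_pos (k * e) he 0).le
    have h5 := (Real.cosh_pos e).le
    exact mul_le_mul (inv_gX_le he _ v) b2 b1 (by positivity)

include he in
lemma log_gX_facts : IntegrableOn (fun v => Real.log (gX (k * e) e v) / Real.sinh v ^ 2) (Ioi 0) ∧
    ∫ v in Ioi 0, Real.log (gX (k * e) e v * gX (k * e) e (-v)) / Real.sinh v ^ 2
      = 2 * ∫ v in Ioi 0, Real.log (gX (k * e) e v) / Real.sinh v ^ 2 := by
  have e1 : ∀ v, Real.log (gX (k * e) e v * gX (k * e) e (-v)) / Real.sinh v ^ 2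
      = 2 * (Real.log (gX (k * e) e v) / Real.sinh v ^ 2) := by
    intro v
    rw [gX_even, Real.log_mul (gX_pos _ he v).ne' (gX_pos _ he v).ne']
    ring
  constructor
  · refine Integrable.mono' (g := fun v => 1 / 2 * Lk 1 v) (Lk_one_int.const_mul _) ?_ ?_
    · refine ContinuousOn.aestronglyMeasurable ?_ measurableSet_Ioi
      exact ContinuousOn.div ((gX_cont he _).continuousOn.log fun v _ => (gX_pos _ he v).ne')
        (by fun_prop) fun v hv => pow_ne_zero 2 (Real.sinh_pos_iff.mpr hv).ne'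
    · refine Eventually.of_forall fun v => ?_
      obtain ⟨b1, b2⟩ := gX_bounds (k * e) he v
      have h := abs_log_le b1 b2
      rw [e1, abs_mul, abs_of_pos two_pos] at h
      rw [Real.norm_eq_abs]
      linarith
  · simp_rw [e1]
    rw [integral_const_mul]

lemma gc_cont {T : ℝ} (u : ℝ) : Continuous (gc u T) := by
  unfold gc
  refine Continuous.div (by fun_prop) (by fun_prop) fun v => ?_
  exact mul_ne_zero (Real.cosh_pos v).ne' (arg_pos u v).ne'

include he in
lemma gX_period (n : ℤ) : gX (k * e) e (2 * n * e) = 1 := by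
  unfold gX
  rw [SX_eq, SX_eq, show 2 * (n : ℝ) * e - k * e = (0 - k * e) + 2 * n * e by ring, S0_add]
  exact div_self (S0_pos he _).ne'

include he in
lemma integrable_bu' (a : ℝ) {u : ℝ} (h0 : 0 ≤ u) (h1 : u ≤ 1) :
    Integrable fun v => 1 / gX a e v * bu u v := by
  rcases eq_or_lt_of_le h0 with h | h
  · subst h
    simp [bu]
  · obtain ⟨x, hx⟩ := exists_cosh h h1
    subst hx
    exact integrable_bu he a x

include he in
lemma integral_bu' {u : ℝ} (h0 : 0 ≤ u) (h1 : u ≤ 1) :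
    u * (e * Zl e k) ≤ ∫ v in Ioi 0, 1 / gX (k * e) e v * bu u v := by
  rcases eq_or_lt_of_le h0 with h | h
  · subst h
    simp [bu]
  · obtain ⟨x, hx⟩ := exists_cosh h h1
    subst hx
    exact integral_bu he k x

/-- weight of the competitor -/
lemma weight {δ u : ℝ} (hδ : 0 < δ) (h0 : 0 ≤ u) (h1 : u ≤ 1 - 2 * δ) :
    0 ≤ u ^ 2 + 2 * δ * u + 2 * δ ∧ u ^ 2 + 2 * δ * u + 2 * δ ≤ 1 ∧
    ∃ w : ℝ, 0 ≤ w ∧ w ≤ 1 ∧ w * (1 - u ^ 2) = 1 - (u ^ 2 + 2 * δ * u + 2 * δ) ∧
      w + (1 - w) * u = 1 - 2 * δ := by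
  have hu1 : u < 1 := by linarith
  have hT : 1 - (u ^ 2 + 2 * δ * u + 2 * δ) = (1 + u) * (1 - u - 2 * δ) := by ring
  have hT2 : 0 ≤ (1 + u) * (1 - u - 2 * δ) := mul_nonneg (by linarith) (by linarith)
  refine ⟨by positivity, by linarith, (1 - u - 2 * δ) / (1 - u), ?_, ?_, ?_, ?_⟩
  · exact div_nonneg (by linarith) (by linarith)
  · rw [div_le_one (by linarith)]; linarith
  · rw [hT]
    have : 1 - u ≠ 0 := by linarith
    field_simp
    ring
  · have : 1 - u ≠ 0 := by linarith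
    field_simp
    ring

include he in
/-- **Comparison of a symmetric lattice with a pair.** -/
theorem lattice_lt {δ u : ℝ} (hδ : 0 < δ)
    (hα : 1 - 2 * δ = Wl e k / Zl e k) (h0 : 0 ≤ u) (h1 : u ≤ 1 - 2 * δ) :
    1 / 2 + 1 / 2 * (∑' j : ℤ, (se (k * e + 2 * (j : ℝ) * e)
      - se (k * e + (2 * (j : ℝ) + 1) * e)))
      < 1 + hh (u ^ 2) - hh (u ^ 2 + 2 * δ * u + 2 * δ) := by
  have hlog : 0 < Real.log 2 := Real.log_pos (by norm_num)
  obtain ⟨hT0, hT1, w, hw0, hw1, hwT, haff⟩ := weight hδ h0 h1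
  set T := u ^ 2 + 2 * δ * u + 2 * δ with hT
  have hu1 : u ≤ 1 := by linarith
  obtain ⟨c1, c2⟩ := gc_log h0 hu1 hT0 hT1
  obtain ⟨d1, d2⟩ := log_gX_facts he k
  have hB : ∀ v, 1 / gX (k * e) e v * (w * bu 1 v + (1 - w) * bu u v)
      = w * (1 / gX (k * e) e v * bu 1 v) + (1 - w) * (1 / gX (k * e) e v * bu u v) := fun v => by
    ring
  have ib1 := (integrable_bu' he (k * e) zero_le_one le_rfl).const_mul w
  have ib2 := (integrable_bu' he (k * e) h0 hu1).const_mul (1 - w)
  have hc := cert (gX (k * e) e) (BX e k) (gc u T) (fun v => w * bu 1 v + (1 - w) * bu u v)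
    (fun v _ => gX_pos _ he v) (fun v _ => gc_pos u hT0 v) (fun v _ => gX_eq he k v)
    (fun v _ => by
      rw [gc_mix w hwT, gam_eq, gam_eq]
      ring)
    (gX_cont he _).continuousOn (gc_cont u).continuousOn (i1X he k)
    (by
      simp_rw [hB]
      exact (ib1.add ib2).integrableOn)
    d1 c1 (by
      simp_rw [hB]
      rw [integral_BX he k, integral_add ib1.integrableOn ib2.integrableOn, integral_const_mul,
        integral_const_mul]
      have g1 := integral_bu' he k zero_le_one (le_refl (1 : ℝ))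
      have g2 := integral_bu' he k h0 hu1
      have g3 := mul_le_mul_of_nonneg_left g1 hw0
      have g4 := mul_le_mul_of_nonneg_left g2 (show 0 ≤ 1 - w by linarith)
      have g5 : Wl e k = (1 - 2 * δ) * Zl e k := by
        rw [hα]
        have := (Zl_pos he k).ne'
        field_simp
      rw [g5]
      have g6 : e * ((1 - 2 * δ) * Zl e k) = w * (1 * (e * Zl e k))
          + (1 - w) * (u * (e * Zl e k)) := by
        rw [← haff]; ring
      linarith)
    (by
      by_contra hall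
      push Not at hall
      have hn : ∀ n : ℤ, 0 < n → gc u T (2 * n * e) = 1 := by
        intro n hn
        have hn' : (0 : ℝ) < n := by exact_mod_cast hn
        rw [← hall (2 * n * e) (by positivity)]
        exact gX_period he k n
      have e1 := hn 1 (by norm_num)
      have e2 := hn 2 (by norm_num)
      have e3 := hn 3 (by norm_num)
      push_cast at e1 e2 e3
      exact gc_ne hT1 (by positivity) (by nlinarith) (by nlinarith) e1 e2 e3)
  rw [c2] at hc
  rw [theta_integral (k * e) he, d2]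
  have h3 : ∀ Y : ℝ, 1 / 2 + 1 / 2 * (-(2 * Y) / (2 * Real.log 2))
      = 1 / 2 - Y / (2 * Real.log 2) := fun Y => by
    field_simp
    ring
  rw [h3]
  have h4 : hh T - hh (u ^ 2) - 1 / 2
      < (∫ v in Ioi 0, Real.log (gX (k * e) e v) / Real.sinh v ^ 2) / (2 * Real.log 2) := by
    rw [lt_div_iff₀ (by positivity)]
    linarith
  linarith

end

end Pool.Agent.TH753.FF
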