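import Pool.Agent.TH753.FF13

/-!
# Lattice sums for small and for large spacing
-/

open Filter Topology Set MeasureTheory

namespace Pool.Agent.TH753.FF

/-- telescoping sums over the integers -/
lemma tsum_telescope {φ : ℝ → ℝ} {lp lm : ℝ} (hp : Tendsto φ atTop (𝓝 lp))
    (hm : Tendsto φ atBot (𝓝 lm)) (b : ℝ) {e : ℝ} (he : 0 < e)
    (hs : Summable fun j : ℤ => φ (b + 2 * (j : ℝ) * e + e) - φ (b + 2 * (j : ℝ) * e - e)) :
    ∑' j : ℤ, (φ (b + 2 * (j : ℝ) * e + e) - φ (b + 2 * (j : ℝ) * e - e)) = lp - lm := by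
  have h1 := hs.hasSum.comp tendsto_Ico
  have h2 : ∀ M : ℕ, ∑ j ∈ Finset.Ico (-(M : ℤ)) M,
      (φ (b + 2 * (j : ℝ) * e + e) - φ (b + 2 * (j : ℝ) * e - e))
      = φ (b + 2 * (M : ℝ) * e - e) - φ (b - 2 * (M : ℝ) * e - e) := by
    intro M
    rw [← sum_fin_Ico (fun j : ℤ => φ (b + 2 * (j : ℝ) * e + e) - φ (b + 2 * (j : ℝ) * e - e))]
    rw [← Finset.sum_range (fun i : ℕ => φ (b + 2 * (((i : ℤ) - M : ℤ) : ℝ) * e + e)
      - φ (b + 2 * (((i : ℤ) - M : ℤ) : ℝ) * e - e))]
    have h3 : ∀ i : ℕ, φ (b + 2 * (((i : ℤ) - M : ℤ) : ℝ) * e + e)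
        - φ (b + 2 * (((i : ℤ) - M : ℤ) : ℝ) * e - e)
        = (fun n : ℕ => φ (b + 2 * ((n : ℝ) - M) * e - e)) (i + 1)
          - (fun n : ℕ => φ (b + 2 * ((n : ℝ) - M) * e - e)) i := by
      intro i
      simp only
      push_cast
      congr 2
      ring
    rw [Finset.sum_congr rfl fun i _ => h3 i,
      Finset.sum_range_sub (fun n : ℕ => φ (b + 2 * ((n : ℝ) - M) * e - e))]
    push_cast
    congr 2 <;> ring
  have h4 : Tendsto (fun M : ℕ => φ (b + 2 * (M : ℝ) * e - e) - φ (b - 2 * (M : ℝ) * e - e)) atTop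
      (𝓝 (lp - lm)) := by
    have hM : Tendsto (fun M : ℕ => 2 * (M : ℝ) * e) atTop atTop := by
      have := (tendsto_natCast_atTop_atTop (R := ℝ)).const_mul_atTop (show (0 : ℝ) < 2 * e by
        positivity)
      refine this.congr fun M => ?_
      ring
    refine (hp.comp ?_).sub (hm.comp ?_)
    · have := tendsto_atTop_add_const_right _ (b - e) hM
      refine this.congr fun M => ?_
      ring
    · have := tendsto_atBot_add_const_right _ (b - e) (tendsto_neg_atTop_atBot.comp hM)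
      refine this.congr fun M => ?_
      simp only [Function.comp_def]
      ring
  refine tendsto_nhds_unique h1 (h4.congr fun M => ?_)
  rw [← h2 M]
  rfl

/-- the Gudermann function -/
noncomputable def gd (x : ℝ) : ℝ := Real.arctan (Real.sinh x)

lemma gd_deriv (x : ℝ) : HasDerivAt gd (1 / Real.cosh x) x := by
  have h := (Real.hasDerivAt_sinh x).arctan
  refine h.congr_deriv ?_
  have h1 := (Real.cosh_pos x).ne'
  rw [show 1 + Real.sinh x ^ 2 = Real.cosh x ^ 2 by rw [Real.cosh_sq]; ring]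
  field_simp

lemma sinh_atTop : Tendsto Real.sinh atTop atTop := by
  refine tendsto_atTop_mono' _ ?_ tendsto_id
  filter_upwards [eventually_ge_atTop 0] with x hx
  exact Real.self_le_sinh_iff.mpr hx

lemma gd_atTop : Tendsto gd atTop (𝓝 (Real.pi / 2)) :=
  (Real.tendsto_arctan_atTop.mono_right nhdsWithin_le_nhds).comp sinh_atTop

lemma gd_neg (x : ℝ) : gd (-x) = -gd x := by
  unfold gd
  rw [Real.sinh_neg, Real.arctan_neg]

lemma gd_atBot : Tendsto gd atBot (𝓝 (-(Real.pi / 2))) := by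
  have h := (gd_atTop.comp tendsto_neg_atBot_atTop).neg
  refine h.congr fun x => ?_
  simp only [Function.comp_def]
  rw [gd_neg, neg_neg]

lemma tanh_deriv (x : ℝ) : HasDerivAt Real.tanh (1 / Real.cosh x ^ 2) x := by
  have h := (Real.hasDerivAt_sinh x).div (Real.hasDerivAt_cosh x) (Real.cosh_pos x).ne'
  have e1 : Real.tanh = Real.sinh / Real.cosh := by
    funext y
    rw [Real.tanh_eq_sinh_div_cosh]
    rfl
  rw [e1]
  refine h.congr_deriv ?_
  congr 1
  have := Real.cosh_sq x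
  nlinarith

lemma tanh_atTop : Tendsto Real.tanh atTop (𝓝 1) := by
  have h1 : ∀ x : ℝ, Real.tanh x = 1 - 2 / (1 + Real.exp (2 * x)) := by
    intro x
    rw [Real.tanh_eq_sinh_div_cosh, Real.sinh_eq, Real.cosh_eq]
    have h2 : Real.exp (2 * x) = Real.exp x * Real.exp x := by
      rw [← Real.exp_add]; congr 1; ring
    have h4 := Real.exp_pos x
    rw [h2, Real.exp_neg]
    have h5 : Real.exp x + (Real.exp x)⁻¹ ≠ 0 := by positivity
    have h6 : 1 + Real.exp x * Real.exp x ≠ 0 := by positivity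
    have h7 : (Real.exp x + (Real.exp x)⁻¹) / 2 = (1 + Real.exp x * Real.exp x)
        / (2 * Real.exp x) := by
      field_simp
      ring
    have h8 : (Real.exp x - (Real.exp x)⁻¹) / 2 = (Real.exp x * Real.exp x - 1)
        / (2 * Real.exp x) := by
      field_simp
    rw [h7, h8, div_div_div_cancel_right₀ (by positivity)]
    field_simp
    ring
  have h2 : Tendsto (fun x : ℝ => 1 - 2 / (1 + Real.exp (2 * x))) atTop (𝓝 (1 - 0)) := by
    refine Tendsto.const_sub 1 (Tendsto.const_div_atTop ?_ 2)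
    refine tendsto_atTop_add_const_left _ 1 (Real.tendsto_exp_atTop.comp ?_)
    exact tendsto_id.const_mul_atTop (by norm_num)
  rw [sub_zero] at h2
  exact h2.congr fun x => (h1 x).symm

lemma tanh_atBot : Tendsto Real.tanh atBot (𝓝 (-1)) := by
  have h := (tanh_atTop.comp tendsto_neg_atBot_atTop).neg
  refine h.congr fun x => ?_
  simp only [Function.comp_def]
  rw [Real.tanh_neg, neg_neg]

/-- comparison of values of `cosh` -/
lemma cosh_le_exp (x y : ℝ) : Real.cosh y ≤ Real.exp |y - x| * Real.cosh x := by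
  rw [Real.cosh_eq, Real.cosh_eq]
  have h1 : Real.exp y ≤ Real.exp |y - x| * Real.exp x := by
    rw [← Real.exp_add]
    apply Real.exp_le_exp.mpr
    have := le_abs_self (y - x)
    linarith
  have h2 : Real.exp (-y) ≤ Real.exp |y - x| * Real.exp (-x) := by
    rw [← Real.exp_add]
    apply Real.exp_le_exp.mpr
    have := neg_le_abs (y - x)
    linarith
  linarith

/-- mean value bounds -/
lemma mvt_bounds {φ : ℝ → ℝ} {p : ℕ} (hφ : ∀ x, HasDerivAt φ (1 / Real.cosh x ^ p) x) (x : ℝ)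
    {e : ℝ} (he : 0 < e) :
    2 * e * (Real.exp (-(p * e)) * (1 / Real.cosh x ^ p)) ≤ φ (x + e) - φ (x - e) ∧
    φ (x + e) - φ (x - e) ≤ 2 * e * (Real.exp (p * e) * (1 / Real.cosh x ^ p)) := by
  obtain ⟨z, hz, h1⟩ := exists_hasDerivAt_eq_slope φ (fun y => 1 / Real.cosh y ^ p)
    (show x - e < x + e by linarith)
    (fun y _ => (hφ y).continuousAt.continuousWithinAt) (fun y _ => hφ y)
  have h2 : φ (x + e) - φ (x - e) = 2 * e * (1 / Real.cosh z ^ p) := by
    rw [h1, show x + e - (x - e) = 2 * e by ring]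
    field_simp
  have h3 : |z - x| ≤ e := abs_le.mpr ⟨by linarith [hz.1], by linarith [hz.2]⟩
  have h4 := Real.cosh_pos x
  have h5 := Real.cosh_pos z
  have h6 : Real.cosh z ≤ Real.exp e * Real.cosh x := le_trans (cosh_le_exp x z)
    (mul_le_mul_of_nonneg_right (Real.exp_le_exp.mpr h3) h4.le)
  have h7 : Real.cosh x ≤ Real.exp e * Real.cosh z := by
    refine le_trans (cosh_le_exp z x) (mul_le_mul_of_nonneg_right (Real.exp_le_exp.mpr ?_) h5.le)
    rw [abs_sub_comm]; exact h3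
  have h8 : Real.exp (p * e) = Real.exp e ^ p := Real.exp_nat_mul e p
  have h9 : Real.exp (-(p * e)) = (Real.exp e ^ p)⁻¹ := by rw [Real.exp_neg, h8]
  have h10 : 0 < Real.exp e ^ p := by positivity
  rw [h2]
  constructor
  · refine mul_le_mul_of_nonneg_left ?_ (by positivity)
    rw [h9, ← one_div, one_div_mul_one_div, ← mul_pow]
    exact one_div_le_one_div_of_le (by positivity) (pow_le_pow_left₀ h5.le h6 p)
  · refine mul_le_mul_of_nonneg_left ?_ (by positivity)
    rw [h8, mul_one_div, div_le_div_iff₀ (by positivity) (by positivity), one_mul, ← mul_pow]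
    exact pow_le_pow_left₀ h4.le h7 p

/-- bounds for lattice sums -/
lemma sum_bounds {φ : ℝ → ℝ} {p : ℕ} (hφ : ∀ x, HasDerivAt φ (1 / Real.cosh x ^ p) x) {lp lm : ℝ}
    (hp : Tendsto φ atTop (𝓝 lp)) (hm : Tendsto φ atBot (𝓝 lm)) (b : ℝ) {e : ℝ} (he : 0 < e)
    (hs : Summable fun j : ℤ => 1 / Real.cosh (b + 2 * (j : ℝ) * e) ^ p) :
    2 * e * (Real.exp (-(p * e)) * ∑' j : ℤ, 1 / Real.cosh (b + 2 * (j : ℝ) * e) ^ p) ≤ lp - lm ∧
    lp - lm ≤ 2 * e * (Real.exp (p * e) * ∑' j : ℤ, 1 / Real.cosh (b + 2 * (j : ℝ) * e) ^ p) := by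
  have hb := fun j : ℤ => mvt_bounds hφ (b + 2 * (j : ℝ) * e) he
  have hs1 : Summable fun j : ℤ => 2 * e * (Real.exp (p * e)
      * (1 / Real.cosh (b + 2 * (j : ℝ) * e) ^ p)) := (hs.mul_left _).mul_left _
  have hs2 : Summable fun j : ℤ => 2 * e * (Real.exp (-(p * e))
      * (1 / Real.cosh (b + 2 * (j : ℝ) * e) ^ p)) := (hs.mul_left _).mul_left _
  have hs3 : Summable fun j : ℤ => φ (b + 2 * (j : ℝ) * e + e) - φ (b + 2 * (j : ℝ) * e - e) := by
    refine Summable.of_nonneg_of_le (fun j => le_trans ?_ (hb j).1) (fun j => (hb j).2) hs1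
    have := Real.cosh_pos (b + 2 * (j : ℝ) * e)
    positivity
  rw [← tsum_telescope hp hm b he hs3, ← tsum_mul_left, ← tsum_mul_left, ← tsum_mul_left,
    ← tsum_mul_left]
  exact ⟨hs2.tsum_le_tsum (fun j => (hb j).1) hs3, hs3.tsum_le_tsum (fun j => (hb j).2) hs1⟩

section

variable {e : ℝ} (he : 0 < e)

include he in
lemma sech_sum_bounds (b : ℝ) :
    2 * e * (Real.exp (-e) * ∑' j : ℤ, 1 / Real.cosh (b + 2 * (j : ℝ) * e)) ≤ Real.pi ∧
    Real.pi ≤ 2 * e * (Real.exp e * ∑' j : ℤ, 1 / Real.cosh (b + 2 * (j : ℝ) * e)) := by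
  have h := sum_bounds (φ := gd) (p := 1) (fun x => by simpa using gd_deriv x) gd_atTop gd_atBot b
    he (by simpa using summable_cosh b he)
  simp only [pow_one, Nat.cast_one, one_mul] at h
  rw [show Real.pi / 2 - -(Real.pi / 2) = Real.pi by ring] at h
  exact h

include he in
lemma sech2_sum_bounds (b : ℝ) :
    2 * e * (Real.exp (-(2 * e)) * ∑' j : ℤ, 1 / Real.cosh (b + 2 * (j : ℝ) * e) ^ 2) ≤ 2 ∧
    2 ≤ 2 * e * (Real.exp (2 * e) * ∑' j : ℤ, 1 / Real.cosh (b + 2 * (j : ℝ) * e) ^ 2) := by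
  have h := sum_bounds (φ := Real.tanh) (p := 2) (fun x => tanh_deriv x) tanh_atTop tanh_atBot b
    he (summable_cosh2 b he)
  rw [show (1 : ℝ) - -1 = 2 by norm_num] at h
  exact_mod_cast h

/-- the affinity of a lattice -/
noncomputable def al (k : ℤ) (e : ℝ) : ℝ := Wl e k / Zl e k

include he in
lemma al_bounds (k : ℤ) : 2 / Real.pi * Real.exp (-(3 * e)) ≤ al k e ∧
    al k e ≤ 2 / Real.pi * Real.exp (3 * e) := by
  have hZ := Zl_pos he k
  have hW := Wl_pos he k
  obtain ⟨z1, z2⟩ := sech_sum_bounds he (k * e)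
  obtain ⟨w1, w2⟩ := sech2_sum_bounds he (k * e)
  change 2 * e * (Real.exp (-e) * Zl e k) ≤ Real.pi at z1
  change Real.pi ≤ 2 * e * (Real.exp e * Zl e k) at z2
  change 2 * e * (Real.exp (-(2 * e)) * Wl e k) ≤ 2 at w1
  change 2 ≤ 2 * e * (Real.exp (2 * e) * Wl e k) at w2
  have hpi := Real.pi_pos
  have x1 : Real.exp (-e) * Real.exp e = 1 := by rw [← Real.exp_add]; simp
  have x2 : Real.exp (-(2 * e)) * Real.exp (2 * e) = 1 := by rw [← Real.exp_add]; simp
  have x3 : Real.exp (-(3 * e)) = Real.exp (-e) * Real.exp (-(2 * e)) := by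
    rw [← Real.exp_add]; congr 1; ring
  have x4 : Real.exp (3 * e) = Real.exp e * Real.exp (2 * e) := by
    rw [← Real.exp_add]; congr 1; ring
  have p1 := Real.exp_pos (-e)
  have p2 := Real.exp_pos (-(2 * e))
  have p3 := Real.exp_pos e
  have p4 := Real.exp_pos (2 * e)
  unfold al
  constructor
  · rw [x3, div_mul_eq_mul_div, div_le_div_iff₀ hpi hZ]
    -- 2 exp(-e) exp(-2e) Z ≤ W π
    have s1 : 2 * Real.exp (-(2 * e)) ≤ 2 * e * Wl e k := by
      have := mul_le_mul_of_nonneg_left w2 p2.le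
      calc 2 * Real.exp (-(2 * e)) = Real.exp (-(2 * e)) * 2 := by ring
        _ ≤ _ := this
        _ = 2 * e * ((Real.exp (-(2 * e)) * Real.exp (2 * e)) * Wl e k) := by ring
        _ = _ := by rw [x2, one_mul]
    calc 2 * (Real.exp (-e) * Real.exp (-(2 * e))) * Zl e k
        = (2 * Real.exp (-(2 * e))) * (Real.exp (-e) * Zl e k) := by ring
      _ ≤ (2 * e * Wl e k) * (Real.exp (-e) * Zl e k) :=
        mul_le_mul_of_nonneg_right s1 (by positivity)
      _ = Wl e k * (2 * e * (Real.exp (-e) * Zl e k)) := by ring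
      _ ≤ Wl e k * Real.pi := mul_le_mul_of_nonneg_left z1 hW.le
  · rw [x4, div_mul_eq_mul_div, div_le_div_iff₀ hZ hpi]
    have s1 : 2 * e * Wl e k ≤ 2 * Real.exp (2 * e) := by
      have := mul_le_mul_of_nonneg_left w1 p4.le
      calc 2 * e * Wl e k = 2 * e * ((Real.exp (-(2 * e)) * Real.exp (2 * e)) * Wl e k) := by
            rw [x2, one_mul]
        _ = Real.exp (2 * e) * (2 * e * (Real.exp (-(2 * e)) * Wl e k)) := by ring
        _ ≤ Real.exp (2 * e) * 2 := this
        _ = _ := by ring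
    calc Wl e k * Real.pi ≤ Wl e k * (2 * e * (Real.exp e * Zl e k)) :=
          mul_le_mul_of_nonneg_left z2 hW.le
      _ = (2 * e * Wl e k) * (Real.exp e * Zl e k) := by ring
      _ ≤ (2 * Real.exp (2 * e)) * (Real.exp e * Zl e k) :=
        mul_le_mul_of_nonneg_right s1 (by positivity)
      _ = 2 * (Real.exp e * Real.exp (2 * e)) * Zl e k := by ring

include he in
/-- large spacing, odd lattice -/
lemma al_one_le : al 1 e ≤ 1 / Real.cosh e := by
  unfold al
  rw [div_le_iff₀ (Zl_pos he 1)]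
  unfold Wl Zl
  rw [← tsum_mul_left]
  refine (summable_l2 he 1).tsum_le_tsum (fun j => ?_) ((summable_l1 he 1).mul_left _)
  have h1 : Real.cosh e ≤ Real.cosh (xl e 1 j) := by
    rw [Real.cosh_le_cosh, abs_of_pos he]
    unfold xl
    rw [show ((1 : ℤ) : ℝ) * e + 2 * (j : ℝ) * e = (1 + 2 * (j : ℝ)) * e by push_cast; ring,
      abs_mul, abs_of_pos he]
    have h2 : (1 : ℝ) ≤ |1 + 2 * (j : ℝ)| := by
      have h3 : (1 : ℤ) ≤ |1 + 2 * j| := Int.one_le_abs (by omega)
      exact_mod_cast h3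
    nlinarith
  have h2 := Real.cosh_pos (xl e 1 j)
  have h3 := Real.cosh_pos e
  rw [one_div_mul_one_div, sq]
  exact one_div_le_one_div_of_le (by positivity) (mul_le_mul_of_nonneg_right h1 h2.le)

/-- large spacing, even lattice -/
lemma al_zero_ge (h1 : 1 ≤ e) :
    1 / (1 + 2 * Real.exp (-e) * ∑' j : ℤ, Real.exp (-|0 + 2 * (j : ℝ) * (1 / 2)|)) ≤ al 0 e := by
  have he : 0 < e := by linarith
  set T := ∑' j : ℤ, Real.exp (-|0 + 2 * (j : ℝ) * (1 / 2)|) with hT
  have hsum := exp_neg_abs_summable 0 (show (0 : ℝ) < 1 / 2 by norm_num)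
  have hT0 : 0 ≤ T := tsum_nonneg fun j => (Real.exp_pos _).le
  have hZ := Zl_pos he 0
  have hW : 1 ≤ Wl e 0 := by
    have := (summable_l2 he 0).le_tsum 0 fun j _ => by positivity
    unfold Wl
    refine le_trans (le_of_eq ?_) this
    unfold xl
    simp
  have hZ2 : Zl e 0 ≤ 1 + 2 * Real.exp (-e) * T := by
    have hs := summable_l1 he 0
    have h2 : Zl e 0 = 1 / Real.cosh (xl e 0 0) + ∑' j : ℤ, if j = 0 then 0
        else 1 / Real.cosh (xl e 0 j) := by
      unfold Zl
      exact hs.tsum_eq_add_tsum_ite 0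
    have h3 : 1 / Real.cosh (xl e 0 0) = 1 := by unfold xl; simp
    rw [h2, h3, hT, ← tsum_mul_left]
    refine add_le_add le_rfl ?_
    have hb : ∀ j : ℤ, (if j = 0 then 0 else 1 / Real.cosh (xl e 0 j))
        ≤ 2 * Real.exp (-e) * Real.exp (-|0 + 2 * (j : ℝ) * (1 / 2)|) := by
      intro j
      split_ifs with hj
      · positivity
      · refine le_trans (inv_cosh_le _) ?_
        rw [mul_assoc, ← Real.exp_add]
        refine mul_le_mul_of_nonneg_left (Real.exp_le_exp.mpr ?_) (by norm_num)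
        have h4 : (1 : ℝ) ≤ |(j : ℝ)| := by exact_mod_cast Int.one_le_abs hj
        have h5 : |xl e 0 j| = 2 * |(j : ℝ)| * e := by
          unfold xl
          rw [Int.cast_zero, zero_mul, zero_add, abs_mul, abs_mul, abs_of_pos he]
          norm_num
        have h6 : |0 + 2 * (j : ℝ) * (1 / 2)| = |(j : ℝ)| := by
          congr 1; ring
        rw [h5, h6]
        nlinarith
    refine Summable.tsum_le_tsum hb ?_ (hsum.mul_left _)
    refine Summable.of_nonneg_of_le (fun j => ?_) hb (hsum.mul_left _)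
    split_ifs
    · exact le_rfl
    · exact (inv_cosh_pos _).le
  unfold al
  rw [div_le_div_iff₀ (by positivity) hZ, one_mul]
  have : Zl e 0 ≤ Wl e 0 * (1 + 2 * Real.exp (-e) * T) := by
    have h7 : (1 : ℝ) * (1 + 2 * Real.exp (-e) * T) ≤ Wl e 0 * (1 + 2 * Real.exp (-e) * T) :=
      mul_le_mul_of_nonneg_right hW (by positivity)
    linarith
  exact this

end

/-- continuity of the affinity -/
lemma al_cont (k : ℤ) : ContinuousOn (al k) (Ioi 0) := by
  intro e he
  have he' : (0 : ℝ) < e := he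
  have hmem : Ioi (e / 2) ∈ 𝓝 e := Ioi_mem_nhds (by linarith)
  have hb : ∀ (j : ℤ) (s : ℝ), s ∈ Ioi (e / 2) →
      1 / Real.cosh (xl s k j) ≤ 2 * Real.exp (-|k * (e / 2) + 2 * (j : ℝ) * (e / 2)|) := by
    intro j s hs
    refine le_trans (inv_cosh_le _) (mul_le_mul_of_nonneg_left (Real.exp_le_exp.mpr ?_)
      (by norm_num))
    have h1 : |xl s k j| = |(k : ℝ) + 2 * j| * s := by
      unfold xl
      rw [show (k : ℝ) * s + 2 * (j : ℝ) * s = ((k : ℝ) + 2 * j) * s by ring, abs_mul,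
        abs_of_pos (show (0 : ℝ) < s by have : e / 2 < s := hs; linarith)]
    have h2 : |(k : ℝ) * (e / 2) + 2 * (j : ℝ) * (e / 2)| = |(k : ℝ) + 2 * j| * (e / 2) := by
      rw [show (k : ℝ) * (e / 2) + 2 * (j : ℝ) * (e / 2) = ((k : ℝ) + 2 * j) * (e / 2) by ring,
        abs_mul, abs_of_pos (show (0 : ℝ) < e / 2 by linarith)]
    rw [h1, h2]
    have h3 : |(k : ℝ) + 2 * j| * (e / 2) ≤ |(k : ℝ) + 2 * j| * s :=
      mul_le_mul_of_nonneg_left (le_of_lt hs) (abs_nonneg _)
    linarith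
  have hsum : Summable fun j : ℤ => 2 * Real.exp (-|k * (e / 2) + 2 * (j : ℝ) * (e / 2)|) :=
    (exp_neg_abs_summable (k * (e / 2)) (show (0 : ℝ) < e / 2 by linarith)).mul_left 2
  have c1 : ContinuousOn (fun s => Zl s k) (Ioi (e / 2)) := by
    refine continuousOn_tsum (fun j => ?_) hsum fun j s hs => ?_
    · refine (Continuous.div continuous_const ?_ fun v => (Real.cosh_pos _).ne').continuousOn
      unfold xl
      fun_prop
    · rw [Real.norm_eq_abs, abs_of_pos (inv_cosh_pos _)]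
      exact hb j s hs
  have c2 : ContinuousOn (fun s => Wl s k) (Ioi (e / 2)) := by
    refine continuousOn_tsum (fun j => ?_) hsum fun j s hs => ?_
    · refine (Continuous.div continuous_const ?_ fun v =>
        pow_ne_zero 2 (Real.cosh_pos _).ne').continuousOn
      unfold xl
      fun_prop
    · have h4 := inv_cosh_pos (xl s k j)
      rw [Real.norm_eq_abs, abs_of_pos (by have := Real.cosh_pos (xl s k j); positivity), sq,
        ← one_div_mul_one_div]
      exact le_trans (mul_le_of_le_one_right h4.le (inv_cosh_le_one _)) (hb j s hs)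
  have h5 := (c2.continuousAt hmem).div (c1.continuousAt hmem) (Zl_pos he' k).ne'
  exact h5.continuousWithinAt

/-- every affinity below `2 / π` is attained by the odd lattice -/
theorem exists_one {y : ℝ} (h0 : 0 < y) (h1 : y < 2 / Real.pi) : ∃ e, 0 < e ∧ al 1 e = y := by
  have hpi := Real.pi_pos
  have hlow : ∃ e, 0 < e ∧ y ≤ al 1 e := by
    have t : Tendsto (fun e : ℝ => 2 / Real.pi * Real.exp (-(3 * e))) (𝓝[>] 0)
        (𝓝 (2 / Real.pi)) := by
      have c : Continuous fun e : ℝ => 2 / Real.pi * Real.exp (-(3 * e)) := by fun_prop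
      have := c.tendsto 0
      simp only [mul_zero, neg_zero, Real.exp_zero, mul_one] at this
      exact this.mono_left nhdsWithin_le_nhds
    obtain ⟨e, he1, he2⟩ := ((t.eventually (lt_mem_nhds h1)).and self_mem_nhdsWithin).exists
    exact ⟨e, he2, le_trans he1.le (al_bounds he2 1).1⟩
  have hhigh : ∃ e, 0 < e ∧ al 1 e ≤ y := by
    have hy1 : 0 < min y 1 := lt_min h0 one_pos
    obtain ⟨x, hx⟩ := exists_cosh hy1 (min_le_right _ _)
    refine ⟨|x| + 1, by positivity, le_trans (al_one_le (by positivity)) ?_⟩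
    have h2 : Real.cosh x ≤ Real.cosh (|x| + 1) := by
      rw [Real.cosh_le_cosh, abs_of_pos (show 0 < |x| + 1 by positivity)]
      linarith
    calc 1 / Real.cosh (|x| + 1) ≤ 1 / Real.cosh x := one_div_le_one_div_of_le (Real.cosh_pos _) h2
      _ = min y 1 := hx
      _ ≤ y := min_le_left _ _
  obtain ⟨e1, h11, h12⟩ := hlow
  obtain ⟨e2, h21, h22⟩ := hhigh
  obtain ⟨e, he, hv⟩ := (isPreconnected_Ioi (a := (0 : ℝ))).intermediate_value h21 h11 (al_cont 1)
    ⟨h22, h12⟩
  exact ⟨e, he, hv⟩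

/-- every affinity above `2 / π` is attained by the even lattice -/
theorem exists_zero {y : ℝ} (h0 : 2 / Real.pi < y) (h1 : y < 1) : ∃ e, 0 < e ∧ al 0 e = y := by
  have hpi := Real.pi_pos
  have hlow : ∃ e, 0 < e ∧ al 0 e ≤ y := by
    have t : Tendsto (fun e : ℝ => 2 / Real.pi * Real.exp (3 * e)) (𝓝[>] 0)
        (𝓝 (2 / Real.pi)) := by
      have c : Continuous fun e : ℝ => 2 / Real.pi * Real.exp (3 * e) := by fun_prop
      have := c.tendsto 0
      simp only [mul_zero, Real.exp_zero, mul_one] at this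
      exact this.mono_left nhdsWithin_le_nhds
    obtain ⟨e, he1, he2⟩ := ((t.eventually (gt_mem_nhds h0)).and self_mem_nhdsWithin).exists
    exact ⟨e, he2, le_trans (al_bounds he2 0).2 he1.le⟩
  have hhigh : ∃ e, 0 < e ∧ y ≤ al 0 e := by
    set T := ∑' j : ℤ, Real.exp (-|0 + 2 * (j : ℝ) * (1 / 2)|) with hT
    have hT0 : 0 ≤ T := tsum_nonneg fun j => (Real.exp_pos _).le
    have t : Tendsto (fun e : ℝ => 1 / (1 + 2 * Real.exp (-e) * T)) atTop
        (𝓝 (1 / (1 + 2 * 0 * T))) := by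
      exact tendsto_const_nhds.div
        (((Real.tendsto_exp_neg_atTop_nhds_zero.const_mul 2).mul_const T).const_add 1) (by simp)
    rw [show (1 : ℝ) / (1 + 2 * 0 * T) = 1 by simp] at t
    obtain ⟨e, he1, he2⟩ := ((t.eventually (lt_mem_nhds h1)).and (eventually_ge_atTop 1)).exists
    exact ⟨e, by linarith, le_trans he1.le (al_zero_ge he2)⟩
  obtain ⟨e1, h11, h12⟩ := hlow
  obtain ⟨e2, h21, h22⟩ := hhigh
  obtain ⟨e, he, hv⟩ := (isPreconnected_Ioi (a := (0 : ℝ))).intermediate_value h11 h21 (al_cont 0)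
    ⟨h12, h22⟩
  exact ⟨e, he, hv⟩

end Pool.Agent.TH753.FF
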