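import Pool.Agent.TH753.FF1

/-!
# Quasi-free states and their partial traces
-/

open Finset Matrix
open scoped Kronecker

namespace Pool.Agent.TH753.FF

open Pool.Agent.TH753.MB

/-! ### Product distributions -/

lemma sum_prod_pattern : ∀ {n : ℕ} (p : Fin n → Bool → ℝ),
    ∑ s : Fin n → Bool, ∏ i, p i (s i) = ∏ i, (p i true + p i false) := by
  intro n p
  have h := Finset.prod_univ_sum (fun _ : Fin n => (Finset.univ : Finset Bool)) (fun i b => p i b)
  simp only [Fintype.piFinset_univ] at h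
  rw [← h]
  refine Finset.prod_congr rfl fun i _ => ?_
  simp

lemma ent_prod_pattern : ∀ {n : ℕ} (p : Fin n → Bool → ℝ), (∀ i, p i true + p i false = 1) →
    ∑ s : Fin n → Bool, Real.negMulLog (∏ i, p i (s i))
      = ∑ i, (Real.negMulLog (p i true) + Real.negMulLog (p i false))
  | 0, p, _ => by simp
  | n + 1, p, hp => by
    have ih := ent_prod_pattern (fun i b => p i.succ b) (fun i => hp i.succ)
    rw [Fin.sum_univ_succ, ← ih]
    have e : ∑ s : Fin (n + 1) → Bool, Real.negMulLog (∏ i, p i (s i))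
        = ∑ x : Bool × (Fin n → Bool), Real.negMulLog (p 0 x.1 * ∏ i, p i.succ (x.2 i)) := by
      refine (Fintype.sum_equiv (Fin.consEquiv (fun _ : Fin (n + 1) => Bool)) _ _ fun x => ?_).symm
      rw [Fin.prod_univ_succ]
      rfl
    rw [e, Fintype.sum_prod_type]
    simp only [Real.negMulLog_mul, Finset.sum_add_distrib, Fintype.sum_bool]
    rw [← Finset.sum_mul, ← Finset.sum_mul, ← Finset.mul_sum, ← Finset.mul_sum,
      sum_prod_pattern (fun i b => p i.succ b)]
    have h1 : ∏ i : Fin n, (p i.succ true + p i.succ false) = 1 :=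
      Finset.prod_eq_one fun i _ => hp i.succ
    rw [h1]
    have h2 := hp 0
    linear_combination (∑ s : Fin n → Bool, Real.negMulLog (∏ i, p i.succ (s i))) * h2

variable {κ : Type} [Fintype κ] [DecidableEq κ] {n : ℕ}

namespace Car

variable (C : Car n κ)

lemma adj_adj (i : Fin n) : (C.a i)ᵀ * (C.a i)ᵀ = 0 := by
  have h := C.a_tr_tr i i
  rw [← two_smul ℝ] at h
  exact (smul_eq_zero.mp h).resolve_left two_ne_zero

lemma adj_num (i : Fin n) : (C.a i)ᵀ * C.num i = 0 := by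
  unfold num
  rw [← Matrix.mul_assoc, C.adj_adj, Matrix.zero_mul]

lemma num_adj_self (i : Fin n) : C.num i * (C.a i)ᵀ = (C.a i)ᵀ := by
  rw [C.num_adj, C.adj_num]; simp

lemma num_adj_ne {i j : Fin n} (h : i ≠ j) : C.num i * (C.a j)ᵀ = (C.a j)ᵀ * C.num i := by
  rw [C.num_adj, if_neg h]; simp

/-- one factor of the square root of the quasi-free state -/
noncomputable def tau (c : Fin n → ℝ) (i : Fin n) : Matrix κ κ ℝ :=
  √(1 - c i) • (1 - C.num i) + √(c i) • C.num i

lemma tau_adj_ne (c : Fin n → ℝ) {i j : Fin n} (h : i ≠ j) :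
    C.tau c i * (C.a j)ᵀ = (C.a j)ᵀ * C.tau c i := by
  unfold tau
  simp only [Matrix.add_mul, Matrix.mul_add, Matrix.smul_mul, Matrix.mul_smul, Matrix.sub_mul,
    Matrix.mul_sub, Matrix.one_mul, Matrix.mul_one, C.num_adj_ne h]

lemma tau_adj_self (c : Fin n → ℝ) (i : Fin n) (h1 : 0 < 1 - c i) :
    C.tau c i * (C.a i)ᵀ = (√(c i) / √(1 - c i)) • ((C.a i)ᵀ * C.tau c i) := by
  unfold tau
  simp only [Matrix.add_mul, Matrix.mul_add, Matrix.smul_mul, Matrix.mul_smul, Matrix.sub_mul,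
    Matrix.mul_sub, Matrix.one_mul, Matrix.mul_one, C.num_adj_self, C.adj_num]
  have : √(1 - c i) ≠ 0 := (Real.sqrt_pos.mpr h1).ne'
  rw [sub_self, smul_zero, zero_add, sub_zero, smul_zero, add_zero, smul_smul,
    div_mul_cancel₀ _ this]

/-- KMS ratio of the square root -/
noncomputable def rt (c : Fin n → ℝ) (i : Fin n) : ℝ := √(c i) / √(1 - c i)

lemma prod_adj (c : Fin n → ℝ) (h1 : ∀ i, 0 < 1 - c i) (j : Fin n) : ∀ L : List (Fin n), L.Nodup →
    (L.map (C.tau c)).prod * (C.a j)ᵀ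
      = (if j ∈ L then rt c j else 1) • ((C.a j)ᵀ * (L.map (C.tau c)).prod)
  | [], _ => by simp
  | i :: L, hL => by
    have hi : i ∉ L := (List.nodup_cons.mp hL).1
    have ih := prod_adj c h1 j L (List.nodup_cons.mp hL).2
    rw [List.map_cons, List.prod_cons, Matrix.mul_assoc, ih, Matrix.mul_smul, ← Matrix.mul_assoc]
    by_cases h : i = j
    · subst h
      rw [C.tau_adj_self c i (h1 i), if_neg hi, one_smul, if_pos List.mem_cons_self,
        Matrix.smul_mul, Matrix.mul_assoc]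
      rfl
    · rw [C.tau_adj_ne c h, Matrix.mul_assoc]
      congr 1
      simp [Ne.symm h]

lemma tau_vac (c : Fin n → ℝ) (i : Fin n) : C.tau c i *ᵥ C.vac = √(1 - c i) • C.vac := by
  have h : C.num i *ᵥ C.vac = 0 := by
    unfold num
    rw [← Matrix.mulVec_mulVec, C.ann, Matrix.mulVec_zero]
  unfold tau
  rw [Matrix.add_mulVec, Matrix.smul_mulVec, Matrix.smul_mulVec, Matrix.sub_mulVec,
    Matrix.one_mulVec, h, sub_zero, smul_zero, add_zero]

lemma prod_vac (c : Fin n → ℝ) : ∀ L : List (Fin n),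
    (L.map (C.tau c)).prod *ᵥ C.vac = (L.map fun i => √(1 - c i)).prod • C.vac
  | [] => by simp
  | i :: L => by
    rw [List.map_cons, List.prod_cons, ← Matrix.mulVec_mulVec, prod_vac c L, Matrix.mulVec_smul,
      C.tau_vac, List.map_cons, List.prod_cons, smul_smul, mul_comm]

/-- eigenvalues of the square root of the quasi-free state -/
noncomputable def lT (c : Fin n → ℝ) (x : κ) : ℝ :=
  ∏ i, if C.eqv x i then √(c i) else √(1 - c i)

/-- eigenvalues of the quasi-free state -/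
noncomputable def lR (c : Fin n → ℝ) (x : κ) : ℝ := ∏ i, if C.eqv x i then c i else 1 - c i

/-- square root of the quasi-free state with occupation probabilities `c` -/
noncomputable def T (c : Fin n → ℝ) : Matrix κ κ ℝ := mat C.u (C.lT c)

lemma lT_nonneg (c : Fin n → ℝ) (x : κ) : 0 ≤ C.lT c x :=
  Finset.prod_nonneg fun i _ => by split_ifs <;> exact Real.sqrt_nonneg _

lemma lT_sq (c : Fin n → ℝ) (h0 : ∀ i, 0 ≤ c i) (h1 : ∀ i, c i ≤ 1) (x : κ) :
    C.lT c x ^ 2 = C.lR c x := by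
  unfold lT lR
  rw [← Finset.prod_pow]
  refine Finset.prod_congr rfl fun i _ => ?_
  split_ifs
  · exact Real.sq_sqrt (h0 i)
  · exact Real.sq_sqrt (by linarith [h1 i])

lemma sum_lR (c : Fin n → ℝ) : ∑ x, C.lR c x = 1 := by
  unfold lR
  rw [← Equiv.sum_comp C.eqv.symm]
  simp only [Equiv.apply_symm_apply]
  have := sum_prod_pattern (n := n) (fun i b => if b then c i else 1 - c i)
  rw [this]
  exact Finset.prod_eq_one fun i _ => by simp

lemma ent_lR (c : Fin n → ℝ) : ∑ x, Real.negMulLog (C.lR c x)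
    = ∑ i, (Real.negMulLog (c i) + Real.negMulLog (1 - c i)) := by
  unfold lR
  rw [← Equiv.sum_comp C.eqv.symm]
  simp only [Equiv.apply_symm_apply]
  have := ent_prod_pattern (n := n) (fun i b => if b then c i else 1 - c i) (fun i => by simp)
  rw [this]
  simp

lemma T_eq_prod (c : Fin n → ℝ) (h1 : ∀ i, 0 < 1 - c i) :
    C.T c = ((List.finRange n).map (C.tau c)).prod := by
  have h := C.kms_diag ((List.finRange n).map (C.tau c)).prod (rt c)
    (((List.finRange n).map fun i => √(1 - c i)).prod) (C.prod_vac c _)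
    (fun j => by
      have := C.prod_adj c h1 j (List.finRange n) (List.nodup_finRange n)
      simpa using this)
  rw [h]
  unfold T
  congr 1
  funext x
  rw [← Fin.prod_univ_def, ← Finset.prod_mul_distrib]
  unfold lT
  refine Finset.prod_congr rfl fun i _ => ?_
  split_ifs
  · unfold rt
    have : √(1 - c i) ≠ 0 := (Real.sqrt_pos.mpr (h1 i)).ne'
    field_simp
  · rw [mul_one]

lemma T_adj (c : Fin n → ℝ) (h1 : ∀ i, 0 < 1 - c i) (j : Fin n) :
    C.T c * (C.a j)ᵀ = rt c j • ((C.a j)ᵀ * C.T c) := by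
  rw [C.T_eq_prod c h1]
  have := C.prod_adj c h1 j (List.finRange n) (List.nodup_finRange n)
  simpa using this

lemma T_tr (c : Fin n → ℝ) : (C.T c)ᵀ = C.T c := mat_isHermitian _ _

lemma rt_sq (c : Fin n → ℝ) (h0 : ∀ i, 0 ≤ c i) (h1 : ∀ i, 0 < 1 - c i) (j : Fin n) :
    rt c j * rt c j = c j / (1 - c j) := by
  unfold rt
  rw [div_mul_div_comm, Real.mul_self_sqrt (h0 j), Real.mul_self_sqrt (h1 j).le]

lemma rho_adj (c : Fin n → ℝ) (h0 : ∀ i, 0 ≤ c i) (h1 : ∀ i, 0 < 1 - c i) (j : Fin n) :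
    C.T c * C.T c * (C.a j)ᵀ = (c j / (1 - c j)) • ((C.a j)ᵀ * (C.T c * C.T c)) := by
  rw [Matrix.mul_assoc, C.T_adj c h1, Matrix.mul_smul, ← Matrix.mul_assoc, C.T_adj c h1,
    Matrix.smul_mul, smul_smul, rt_sq c h0 h1, Matrix.mul_assoc]

lemma rho_eq (c : Fin n → ℝ) (h0 : ∀ i, 0 ≤ c i) (h1 : ∀ i, c i ≤ 1) :
    C.T c * C.T c = mat C.u (C.lR c) := by
  unfold T
  rw [← sq, mat_sq C.u_on]
  congr 1
  funext x
  exact C.lT_sq c h0 h1 x

lemma rho_trace (c : Fin n → ℝ) (h0 : ∀ i, 0 ≤ c i) (h1 : ∀ i, c i ≤ 1) :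
    (C.T c * C.T c).trace = 1 := by
  rw [C.rho_eq c h0 h1, mat_trace C.u_on, C.sum_lR]

/-- two-point function -/
lemma two_point (c : Fin n → ℝ) (h0 : ∀ i, 0 ≤ c i) (h1 : ∀ i, 0 < 1 - c i) (i j : Fin n) :
    (C.T c * C.T c * ((C.a j)ᵀ * C.a i)).trace = if i = j then c j else 0 := by
  set ρ := C.T c * C.T c with hρ
  have e1 : (ρ * ((C.a j)ᵀ * C.a i)).trace
      = (c j / (1 - c j)) * (ρ * (C.a i * (C.a j)ᵀ)).trace := by
    rw [← Matrix.mul_assoc, C.rho_adj c h0 h1, Matrix.smul_mul, Matrix.trace_smul, smul_eq_mul,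
      Matrix.mul_assoc, Matrix.trace_mul_comm, Matrix.mul_assoc]
  have e2 : C.a i * (C.a j)ᵀ = (if i = j then 1 else 0) - (C.a j)ᵀ * C.a i :=
    eq_sub_of_add_eq (C.aat i j)
  have hne : (1 - c j) ≠ 0 := (h1 j).ne'
  have htr : ρ.trace = 1 := C.rho_trace c h0 (fun i => by linarith [h1 i])
  rw [e2, Matrix.mul_sub, Matrix.trace_sub] at e1
  by_cases h : i = j
  · rw [if_pos h] at e1 ⊢
    rw [Matrix.mul_one, htr] at e1
    field_simp at e1
    linarith
  · rw [if_neg h] at e1 ⊢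
    rw [Matrix.mul_zero, Matrix.trace_zero] at e1
    field_simp at e1
    linarith

/-- `tr (T b_i T b_jᵀ)` -/
lemma energy_ij (c : Fin n → ℝ) (h0 : ∀ i, 0 < c i) (h1 : ∀ i, 0 < 1 - c i) (i j : Fin n) :
    (C.T c * C.a i * (C.T c * (C.a j)ᵀ)).trace = if i = j then √(c j * (1 - c j)) else 0 := by
  have hr : 0 < rt c i := div_pos (Real.sqrt_pos.mpr (h0 i)) (Real.sqrt_pos.mpr (h1 i))
  have e1 : C.a i * C.T c = rt c i • (C.T c * C.a i) := by
    have := congrArg Matrix.transpose (C.T_adj c h1 i)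
    rw [Matrix.transpose_mul, Matrix.transpose_transpose, Matrix.transpose_smul,
      Matrix.transpose_mul, Matrix.transpose_transpose, C.T_tr] at this
    exact this
  have e2 : C.T c * C.a i = (rt c i)⁻¹ • (C.a i * C.T c) := by
    rw [e1, smul_smul, inv_mul_cancel₀ hr.ne', one_smul]
  rw [e2, Matrix.smul_mul, Matrix.trace_smul, smul_eq_mul]
  have e3 : (C.a i * C.T c * (C.T c * (C.a j)ᵀ)).trace
      = (C.T c * C.T c * ((C.a j)ᵀ * C.a i)).trace := by
    rw [Matrix.mul_assoc, Matrix.trace_mul_comm]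
    simp only [Matrix.mul_assoc]
  rw [e3, C.two_point c (fun i => (h0 i).le) h1]
  by_cases h : i = j
  · subst h
    rw [if_pos rfl, if_pos rfl]
    unfold rt
    have a1 := Real.sqrt_pos.mpr (h0 i)
    have a2 := Real.sqrt_pos.mpr (h1 i)
    rw [Real.sqrt_mul (h0 i).le]
    have a3 := Real.mul_self_sqrt (h0 i).le
    field_simp
    linear_combination -a3
  · rw [if_neg h, if_neg h, mul_zero]

end Car

/-! ### Partial trace over the first mode -/

/-- blocks -/
def blk (M : Matrix (Fin 2 × κ) (Fin 2 × κ) ℝ) (r s : Fin 2) : Matrix κ κ ℝ :=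
  Matrix.of fun x y => M (r, x) (s, y)

/-- partial trace -/
def pt (M : Matrix (Fin 2 × κ) (Fin 2 × κ) ℝ) : Matrix κ κ ℝ := blk M 0 0 + blk M 1 1

/-- signed partial trace -/
def zt (M : Matrix (Fin 2 × κ) (Fin 2 × κ) ℝ) : Matrix κ κ ℝ := blk M 0 0 - blk M 1 1

lemma blk_mul (M N : Matrix (Fin 2 × κ) (Fin 2 × κ) ℝ) (r s : Fin 2) :
    blk (M * N) r s = blk M r 0 * blk N 0 s + blk M r 1 * blk N 1 s := by
  ext x y
  simp only [blk, Matrix.of_apply, Matrix.mul_apply, Fintype.sum_prod_type, Fin.sum_univ_two,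
    Matrix.add_apply]

lemma blk_kron (A : Matrix (Fin 2) (Fin 2) ℝ) (B : Matrix κ κ ℝ) (r s : Fin 2) :
    blk (A ⊗ₖ B) r s = A r s • B := by
  ext x y
  simp [blk, Matrix.kroneckerMap_apply]

lemma blk_add (M N : Matrix (Fin 2 × κ) (Fin 2 × κ) ℝ) (r s : Fin 2) :
    blk (M + N) r s = blk M r s + blk N r s := rfl

lemma zt_add (M N : Matrix (Fin 2 × κ) (Fin 2 × κ) ℝ) : zt (M + N) = zt M + zt N := by
  unfold zt
  rw [blk_add, blk_add]; abel

lemma zt_smul (t : ℝ) (M : Matrix (Fin 2 × κ) (Fin 2 × κ) ℝ) : zt (t • M) = t • zt M := by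
  unfold zt blk
  ext x y
  simp [mul_sub]

lemma zt_sum {I : Type} (s : Finset I) (f : I → Matrix (Fin 2 × κ) (Fin 2 × κ) ℝ) :
    zt (∑ i ∈ s, f i) = ∑ i ∈ s, zt (f i) := by
  classical
  induction s using Finset.induction_on with
  | empty => simp [zt, blk]
  | insert a s ha ih => rw [Finset.sum_insert ha, Finset.sum_insert ha, zt_add, ih]

section PartialTrace

variable (C : Car n κ)

lemma succ_a0 : C.succ.a 0 = Fm ⊗ₖ (1 : Matrix κ κ ℝ) := rfl
lemma succ_as (k : Fin n) : C.succ.a k.succ = Zm ⊗ₖ C.a k := rfl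

lemma zt_r0 (M : Matrix (Fin 2 × κ) (Fin 2 × κ) ℝ) : zt (M * (C.succ.a 0)ᵀ) = blk M 0 1 := by
  unfold zt
  rw [succ_a0, kron_tr, blk_mul, blk_mul, blk_kron, blk_kron, blk_kron, blk_kron]
  simp [Fm]

lemma zt_l0 (M : Matrix (Fin 2 × κ) (Fin 2 × κ) ℝ) : zt ((C.succ.a 0)ᵀ * M) = -blk M 0 1 := by
  unfold zt
  rw [succ_a0, kron_tr, blk_mul, blk_mul, blk_kron, blk_kron, blk_kron, blk_kron]
  simp [Fm]

lemma zt_rs (M : Matrix (Fin 2 × κ) (Fin 2 × κ) ℝ) (k : Fin n) :
    zt (M * (C.succ.a k.succ)ᵀ) = pt M * (C.a k)ᵀ := by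
  unfold zt pt
  rw [succ_as, kron_tr, blk_mul, blk_mul, blk_kron, blk_kron, blk_kron, blk_kron]
  simp [Zm, Matrix.add_mul]

lemma zt_ls (M : Matrix (Fin 2 × κ) (Fin 2 × κ) ℝ) (k : Fin n) :
    zt ((C.succ.a k.succ)ᵀ * M) = (C.a k)ᵀ * pt M := by
  unfold zt pt
  rw [succ_as, kron_tr, blk_mul, blk_mul, blk_kron, blk_kron, blk_kron, blk_kron]
  simp [Zm, Matrix.mul_add]

/-- the partial trace of a state satisfying one-particle KMS relations satisfies them with the
Schur complement -/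
theorem pt_kms (M : Matrix (Fin 2 × κ) (Fin 2 × κ) ℝ) (A : Fin (n + 1) → Fin (n + 1) → ℝ)
    (hM : ∀ j, M * (C.succ.a j)ᵀ = ∑ l, A l j • ((C.succ.a l)ᵀ * M)) (h0 : 1 + A 0 0 ≠ 0)
    (α : Fin n → ℝ)
    (hα : ∀ k l : Fin n, A k.succ l.succ - A 0 l.succ * A k.succ 0 / (1 + A 0 0)
      = if k = l then α l else 0) (l : Fin n) :
    pt M * (C.a l)ᵀ = α l • ((C.a l)ᵀ * pt M) := by
  have e0 : blk M 0 1 = ∑ k : Fin n, (A k.succ 0 / (1 + A 0 0)) • ((C.a k)ᵀ * pt M) := by
    have h := congrArg zt (hM 0)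
    rw [zt_r0, zt_sum, Fin.sum_univ_succ, zt_smul, zt_l0] at h
    simp only [zt_smul, zt_ls] at h
    have h2 : (1 + A 0 0) • blk M 0 1 = ∑ k : Fin n, A k.succ 0 • ((C.a k)ᵀ * pt M) := by
      rw [add_smul, one_smul]
      nth_rewrite 1 [h]
      rw [smul_neg]
      abel
    have h3 := congrArg (fun N => (1 + A 0 0)⁻¹ • N) h2
    simp only [smul_smul, inv_mul_cancel₀ h0, one_smul, Finset.smul_sum] at h3
    rw [h3]
    refine Finset.sum_congr rfl fun k _ => ?_
    congr 1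
    rw [div_eq_inv_mul]
  have h := congrArg zt (hM l.succ)
  rw [zt_rs, zt_sum, Fin.sum_univ_succ, zt_smul, zt_l0] at h
  simp only [zt_smul, zt_ls] at h
  rw [h, e0, smul_neg, Finset.smul_sum, neg_add_eq_sub, ← Finset.sum_sub_distrib]
  simp only [smul_smul]
  have e1 : ∀ k : Fin n, A k.succ l.succ • ((C.a k)ᵀ * pt M)
      - (A 0 l.succ * (A k.succ 0 / (1 + A 0 0))) • ((C.a k)ᵀ * pt M)
      = (if k = l then α l else 0) • ((C.a k)ᵀ * pt M) := by
    intro k
    rw [← sub_smul, ← hα k l]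
    congr 1
    ring
  simp only [e1]
  rw [Finset.sum_eq_single l]
  · simp
  · intro b _ hb; simp [hb]
  · simp

lemma pt_tr (M : Matrix (Fin 2 × κ) (Fin 2 × κ) ℝ) (h : Mᵀ = M) : (pt M)ᵀ = pt M := by
  ext x y
  have h1 := congrFun (congrFun h (0, x)) (0, y)
  have h2 := congrFun (congrFun h (1, x)) (1, y)
  simp only [Matrix.transpose_apply] at h1 h2
  simp only [pt, blk, Matrix.transpose_apply, Matrix.add_apply, Matrix.of_apply, h1, h2]

lemma pt_trace (M : Matrix (Fin 2 × κ) (Fin 2 × κ) ℝ) : (pt M).trace = M.trace := by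
  unfold pt Matrix.trace
  simp only [Matrix.diag_apply, Matrix.add_apply, blk, Matrix.of_apply, Fintype.sum_prod_type,
    Fin.sum_univ_two, Finset.sum_add_distrib]

/-- The partial trace of a quasi-free state. -/
theorem pt_quasifree (O : Matrix (Fin (n + 1)) (Fin (n + 1)) ℝ) (hO : O * Oᵀ = 1)
    (c : Fin (n + 1) → ℝ) (lam : Fin n → ℝ) (h0 : ∀ i, 0 ≤ c i) (h1 : ∀ i, 0 < 1 - c i)
    (hl1 : ∀ k, 0 < 1 - lam k)
    (hA : ∀ k l : Fin n, (∑ i, O i k.succ * (c i / (1 - c i)) * O i l.succ)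
      - (∑ i, O i 0 * (c i / (1 - c i)) * O i l.succ)
        * (∑ i, O i k.succ * (c i / (1 - c i)) * O i 0)
        / (1 + ∑ i, O i 0 * (c i / (1 - c i)) * O i 0)
      = if k = l then lam l / (1 - lam l) else 0) :
    pt ((C.succ.rot O hO).T c * (C.succ.rot O hO).T c) = mat C.u (C.lR lam) := by
  set B := C.succ.rot O hO with hB
  set M := B.T c * B.T c with hM
  set A : Fin (n + 1) → Fin (n + 1) → ℝ := fun l j => ∑ i, O i l * (c i / (1 - c i)) * O i j with hAd
  have hOt : Oᵀ * O = 1 := mul_eq_one_comm.mp hO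
  have hBa : ∀ i, B.a i = ∑ j, O i j • C.succ.a j := fun i => rfl
  have hDa : ∀ j, C.succ.a j = ∑ i, O i j • B.a i := by
    intro j
    simp only [hBa, Finset.smul_sum, smul_smul]
    rw [Finset.sum_comm]
    have : ∀ k, ∑ i, (O i j * O i k) • C.succ.a k = (if j = k then (1 : ℝ) else 0) • C.succ.a k := by
      intro k
      rw [← Finset.sum_smul]
      congr 1
      have h := congrFun (congrFun hOt j) k
      rw [Matrix.mul_apply, Matrix.one_apply] at h
      simpa only [Matrix.transpose_apply] using h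
    simp only [this]
    simp
  have hkms : ∀ j, M * (C.succ.a j)ᵀ = ∑ l, A l j • ((C.succ.a l)ᵀ * M) := by
    intro j
    rw [hDa j, Matrix.transpose_sum, Finset.mul_sum]
    have e1 : ∀ i, M * (O i j • B.a i)ᵀ
        = ∑ l, (O i j * (c i / (1 - c i)) * O i l) • ((C.succ.a l)ᵀ * M) := by
      intro i
      rw [Matrix.transpose_smul, Matrix.mul_smul, hM, B.rho_adj c h0 h1, smul_smul, ← hM, hBa i,
        Matrix.transpose_sum, Finset.sum_mul, Finset.smul_sum]
      refine Finset.sum_congr rfl fun l _ => ?_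
      rw [Matrix.transpose_smul, Matrix.smul_mul, smul_smul]
    simp only [e1]
    rw [Finset.sum_comm]
    refine Finset.sum_congr rfl fun l _ => ?_
    rw [← Finset.sum_smul]
    congr 1
    refine Finset.sum_congr rfl fun i _ => ?_
    ring
  have hpos : 0 < 1 + A 0 0 := by
    have : 0 ≤ A 0 0 := Finset.sum_nonneg fun i _ => by
      have := mul_nonneg (mul_self_nonneg (O i 0)) (div_nonneg (h0 i) (h1 i).le)
      calc (0 : ℝ) ≤ O i 0 * O i 0 * (c i / (1 - c i)) := this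
        _ = _ := by ring
    linarith
  have hk := pt_kms C M A hkms hpos.ne' (fun l => lam l / (1 - lam l)) (by
    intro k l
    exact hA k l)
  have hsym : Mᵀ = M := by rw [hM, Matrix.transpose_mul, B.T_tr]
  have h := C.kms_symm (pt M) (pt_tr M hsym) _ hk
  set z := C.vac ⬝ᵥ (pt M *ᵥ C.vac) with hz
  have htr : (pt M).trace = 1 := by
    rw [pt_trace, hM]
    exact B.rho_trace c h0 (fun i => by linarith [h1 i])
  have hrat : ∀ k, (1 - lam k) * (lam k / (1 - lam k)) = lam k := fun k =>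
    mul_div_cancel₀ _ (hl1 k).ne'
  have hprod : ∀ x : κ, (∏ i, if C.eqv x i then lam i / (1 - lam i) else 1) * ∏ k, (1 - lam k)
      = C.lR lam x := by
    intro x
    rw [← Finset.prod_mul_distrib]
    unfold Car.lR
    refine Finset.prod_congr rfl fun i _ => ?_
    split_ifs
    · rw [mul_comm, hrat]
    · rw [one_mul]
  have hPpos : 0 < ∏ k, (1 - lam k) := Finset.prod_pos fun k _ => hl1 k
  have hzv : z = ∏ k, (1 - lam k) := by
    rw [h, mat_trace C.u_on, ← Finset.mul_sum] at htr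
    have h5 : (∑ x, ∏ i, if C.eqv x i then lam i / (1 - lam i) else 1) * ∏ k, (1 - lam k) = 1 := by
      rw [Finset.sum_mul]
      simp only [hprod]
      exact C.sum_lR lam
    have h6 : (∑ x, ∏ i, if C.eqv x i then lam i / (1 - lam i) else 1) ≠ 0 := by
      intro h0
      rw [h0, zero_mul] at h5
      exact zero_ne_one h5
    have : z * (∑ x, ∏ i, if C.eqv x i then lam i / (1 - lam i) else 1)
        = (∏ k, (1 - lam k)) * (∑ x, ∏ i, if C.eqv x i then lam i / (1 - lam i) else 1) := by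
      rw [htr, mul_comm, h5]
    exact mul_right_cancel₀ h6 this
  rw [h]
  congr 1
  funext x
  rw [hzv, mul_comm]
  exact hprod x

end PartialTrace

end Pool.Agent.TH753.FF
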