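import Pool.Agent.TH753.FF4

/-!
# Sites from interlacing sequences
-/

open Finset Matrix
open scoped Kronecker

namespace Pool.Agent.TH753.FF

open Pool.Agent.TH753.MB Pool.Agent.H390R2.LP Pool.Agent.H235R2.QLP

/-- a discrete measure on `(0,1)` together with the zeros of its Stieltjes transform -/
structure Inter (n : ℕ) where
  w : Fin (n + 1) → ℝ
  c : Fin (n + 1) → ℝ
  lam : Fin n → ℝ
  hw : ∀ i, 0 < w i
  hsum : ∑ i, w i = 1
  hc0 : ∀ i, 0 < c i
  hc1 : ∀ i, c i < 1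
  hl : Function.Injective lam
  hne : ∀ i k, c i ≠ lam k
  hsec : ∀ k, ∑ i, w i / (c i - lam k) = 0

namespace Inter

variable {n : ℕ} (D : Inter n)

lemma sub_ne (i : Fin (n + 1)) (k : Fin n) : D.c i - D.lam k ≠ 0 := sub_ne_zero.mpr (D.hne i k)

lemma hl1 (k : Fin n) : D.lam k < 1 := by
  by_contra h
  push Not at h
  have h1 : ∑ i, D.w i / (D.c i - D.lam k) < ∑ i : Fin (n + 1), (0 : ℝ) :=
    Finset.sum_lt_sum_of_nonempty ⟨0, Finset.mem_univ _⟩ fun i _ =>
      div_neg_of_pos_of_neg (D.hw i) (by linarith [D.hc1 i])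
  rw [D.hsec, Finset.sum_const_zero] at h1
  exact lt_irrefl _ h1

lemma hl0 (k : Fin n) : 0 < D.lam k := by
  by_contra h
  push Not at h
  have h1 : ∑ i : Fin (n + 1), (0 : ℝ) < ∑ i, D.w i / (D.c i - D.lam k) :=
    Finset.sum_lt_sum_of_nonempty ⟨0, Finset.mem_univ _⟩ fun i _ =>
      div_pos (D.hw i) (by linarith [D.hc0 i])
  rw [D.hsec, Finset.sum_const_zero] at h1
  exact lt_irrefl _ h1

/-- squared norms -/
noncomputable def N (k : Fin n) : ℝ := ∑ i, D.w i / (D.c i - D.lam k) ^ 2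

lemma N_pos (k : Fin n) : 0 < D.N k :=
  Finset.sum_pos (fun i _ => div_pos (D.hw i) (pow_pos' (D.sub_ne i k))) ⟨0, Finset.mem_univ _⟩
where
  pow_pos' {x : ℝ} (h : x ≠ 0) : 0 < x ^ 2 := by positivity

lemma pair (k l : Fin n) : ∑ i, D.w i / ((D.c i - D.lam k) * (D.c i - D.lam l))
    = if k = l then D.N k else 0 := by
  by_cases h : k = l
  · subst h
    rw [if_pos rfl]
    unfold N
    exact Finset.sum_congr rfl fun i _ => by rw [sq]
  · rw [if_neg h]
    have hkl : D.lam k - D.lam l ≠ 0 := sub_ne_zero.mpr fun e => h (D.hl e)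
    have e : ∀ i, D.w i / ((D.c i - D.lam k) * (D.c i - D.lam l))
        = (D.lam k - D.lam l)⁻¹ * (D.w i / (D.c i - D.lam k) - D.w i / (D.c i - D.lam l)) := by
      intro i
      have h1 := D.sub_ne i k
      have h2 := D.sub_ne i l
      field_simp
      ring
    simp_rw [e]
    rw [← Finset.mul_sum, Finset.sum_sub_distrib, D.hsec, D.hsec]
    simp

/-- the orthogonal matrix -/
noncomputable def O : Matrix (Fin (n + 1)) (Fin (n + 1)) ℝ :=
  Matrix.of fun i => Fin.cons (√(D.w i)) (fun k => √(D.w i) * ((D.c i - D.lam k)⁻¹ * (√(D.N k))⁻¹))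

lemma O_zero (i : Fin (n + 1)) : D.O i 0 = √(D.w i) := rfl
lemma O_succ (i : Fin (n + 1)) (k : Fin n) :
    D.O i k.succ = √(D.w i) * ((D.c i - D.lam k)⁻¹ * (√(D.N k))⁻¹) := rfl

lemma sq_w (i : Fin (n + 1)) : √(D.w i) * √(D.w i) = D.w i := Real.mul_self_sqrt (D.hw i).le
lemma sq_N (k : Fin n) : √(D.N k) * √(D.N k) = D.N k := Real.mul_self_sqrt (D.N_pos k).le
lemma sN_pos (k : Fin n) : 0 < √(D.N k) := Real.sqrt_pos.mpr (D.N_pos k)

lemma hO : D.O * D.Oᵀ = 1 := by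
  rw [mul_eq_one_comm]
  ext j l
  rw [Matrix.mul_apply, Matrix.one_apply]
  simp only [Matrix.transpose_apply]
  refine Fin.cases ?_ (fun k => ?_) j <;> refine Fin.cases ?_ (fun l => ?_) l
  · simp only [O_zero, D.sq_w, D.hsum, if_true]
  · rw [if_neg (Fin.succ_ne_zero l).symm]
    have e : ∀ i, D.O i 0 * D.O i l.succ = (√(D.N l))⁻¹ * (D.w i / (D.c i - D.lam l)) := by
      intro i
      rw [O_zero, O_succ, ← mul_assoc, D.sq_w]
      ring
    simp_rw [e]
    rw [← Finset.mul_sum, D.hsec, mul_zero]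
  · rw [if_neg (Fin.succ_ne_zero k)]
    have e : ∀ i, D.O i k.succ * D.O i 0 = (√(D.N k))⁻¹ * (D.w i / (D.c i - D.lam k)) := by
      intro i
      rw [mul_comm, O_zero, O_succ, ← mul_assoc, D.sq_w]
      ring
    simp_rw [e]
    rw [← Finset.mul_sum, D.hsec, mul_zero]
  · have e : ∀ i, D.O i k.succ * D.O i l.succ
        = ((√(D.N k))⁻¹ * (√(D.N l))⁻¹) * (D.w i / ((D.c i - D.lam k) * (D.c i - D.lam l))) := by
      intro i
      rw [O_succ, O_succ]
      have h1 := D.sub_ne i k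
      have h2 := D.sub_ne i l
      rw [div_eq_mul_inv, mul_inv]
      linear_combination (((D.c i - D.lam k)⁻¹ * (√(D.N k))⁻¹) * ((D.c i - D.lam l)⁻¹
        * (√(D.N l))⁻¹)) * D.sq_w i
    simp_rw [e]
    rw [← Finset.mul_sum, D.pair]
    by_cases h : k = l
    · subst h
      rw [if_pos rfl, if_pos rfl]
      have h3 := D.sN_pos k
      have h4 := D.sq_N k
      field_simp
      linarith
    · rw [if_neg h, mul_zero, if_neg (fun e => h (Fin.succ_inj.mp e))]

/-- `∑ w_i / (1 - c_i)` -/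
noncomputable def Q : ℝ := ∑ i, D.w i / (1 - D.c i)

lemma one_sub_ne (i : Fin (n + 1)) : 1 - D.c i ≠ 0 := by have := D.hc1 i; intro h; linarith
lemma one_sub_l (k : Fin n) : 1 - D.lam k ≠ 0 := by have := D.hl1 k; intro h; linarith

lemma Q_pos : 0 < D.Q :=
  Finset.sum_pos (fun i _ => div_pos (D.hw i) (by linarith [D.hc1 i])) ⟨0, Finset.mem_univ _⟩

lemma A00 : 1 + ∑ i, D.O i 0 * (D.c i / (1 - D.c i)) * D.O i 0 = D.Q := by
  have e : ∀ i, D.O i 0 * (D.c i / (1 - D.c i)) * D.O i 0 = D.w i / (1 - D.c i) - D.w i := by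
    intro i
    rw [O_zero]
    have h1 := D.one_sub_ne i
    have h2 := D.sq_w i
    field_simp
    rw [sq, h2]
    ring
  simp_rw [e]
  rw [Finset.sum_sub_distrib, D.hsum]
  unfold Q
  ring

lemma A0k (k : Fin n) : ∑ i, D.O i 0 * (D.c i / (1 - D.c i)) * D.O i k.succ
    = (√(D.N k))⁻¹ * ((1 - D.lam k)⁻¹ * D.Q) := by
  have e : ∀ i, D.O i 0 * (D.c i / (1 - D.c i)) * D.O i k.succ
      = (√(D.N k))⁻¹ * ((1 - D.lam k)⁻¹ * (D.w i / (1 - D.c i)
        + D.w i / (D.c i - D.lam k)) - D.w i / (D.c i - D.lam k)) := by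
    intro i
    rw [O_zero, O_succ]
    have h1 := D.one_sub_ne i
    have h2 := D.sq_w i
    have h3 := D.sub_ne i k
    have h4 := D.one_sub_l k
    have h5 := (D.sN_pos k).ne'
    field_simp
    rw [sq, h2]
    ring
  simp_rw [e]
  rw [← Finset.mul_sum, Finset.sum_sub_distrib, ← Finset.mul_sum, Finset.sum_add_distrib, D.hsec]
  unfold Q
  ring

lemma Ak0 (k : Fin n) : ∑ i, D.O i k.succ * (D.c i / (1 - D.c i)) * D.O i 0
    = (√(D.N k))⁻¹ * ((1 - D.lam k)⁻¹ * D.Q) := by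
  rw [← D.A0k k]
  exact Finset.sum_congr rfl fun i _ => by ring

lemma Akl (k l : Fin n) : ∑ i, D.O i k.succ * (D.c i / (1 - D.c i)) * D.O i l.succ
    = (√(D.N k))⁻¹ * (√(D.N l))⁻¹ * ((1 - D.lam k)⁻¹ * ((1 - D.lam l)⁻¹ * D.Q
      + if k = l then D.N k else 0) - if k = l then D.N k else 0) := by
  have e : ∀ i, D.O i k.succ * (D.c i / (1 - D.c i)) * D.O i l.succ
      = (√(D.N k))⁻¹ * (√(D.N l))⁻¹ * ((1 - D.lam k)⁻¹ * ((1 - D.lam l)⁻¹ * (D.w i / (1 - D.c i)
        + D.w i / (D.c i - D.lam l)) + D.w i / ((D.c i - D.lam k) * (D.c i - D.lam l)))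
        - D.w i / ((D.c i - D.lam k) * (D.c i - D.lam l))) := by
    intro i
    rw [O_succ, O_succ]
    have h1 := D.one_sub_ne i
    have h2 := D.sq_w i
    have h3 := D.sub_ne i k
    have h3' := D.sub_ne i l
    have h4 := D.one_sub_l k
    have h4' := D.one_sub_l l
    have h5 := (D.sN_pos k).ne'
    have h5' := (D.sN_pos l).ne'
    field_simp
    rw [sq, h2]
    ring
  simp_rw [e]
  rw [← Finset.mul_sum, Finset.sum_sub_distrib, ← Finset.mul_sum, Finset.sum_add_distrib,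
    ← Finset.mul_sum, Finset.sum_add_distrib, D.hsec, D.pair]
  unfold Q
  ring

lemma hA (k l : Fin n) : (∑ i, D.O i k.succ * (D.c i / (1 - D.c i)) * D.O i l.succ)
      - (∑ i, D.O i 0 * (D.c i / (1 - D.c i)) * D.O i l.succ)
        * (∑ i, D.O i k.succ * (D.c i / (1 - D.c i)) * D.O i 0)
        / (1 + ∑ i, D.O i 0 * (D.c i / (1 - D.c i)) * D.O i 0)
      = if k = l then D.lam l / (1 - D.lam l) else 0 := by
  rw [A00, A0k, Ak0, Akl]
  have hQ := D.Q_pos.ne'
  have h4 := D.one_sub_l k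
  have h4' := D.one_sub_l l
  have h5 := D.sN_pos k
  have h5' := D.sN_pos l
  by_cases h : k = l
  · subst h
    simp only [if_true]
    have h6 : √(D.N k) ^ 2 = D.N k := Real.sq_sqrt (D.N_pos k).le
    field_simp
    rw [h6]
    ring
  · simp only [if_neg h]
    field_simp
    ring

variable {κ : Type} [Fintype κ] [DecidableEq κ] (C : Car n κ)

/-- the rotated modes -/
noncomputable def rc : Car (n + 1) (Fin 2 × κ) := C.succ.rot D.O D.hO

/-- the state -/
noncomputable def tw : Tw κ where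
  u := (D.rc C).u
  l := (D.rc C).lT D.c
  w := C.u
  g := C.lR D.lam
  hu := (D.rc C).u_on
  hw := C.u_on
  hl := (D.rc C).lT_nonneg D.c
  hsum := by
    simp_rw [(D.rc C).lT_sq D.c (fun i => (D.hc0 i).le) (fun i => (D.hc1 i).le)]
    exact (D.rc C).sum_lR D.c
  hg := by
    have h := pt_quasifree C D.O D.hO D.c D.lam (fun i => (D.hc0 i).le)
      (fun i => by linarith [D.hc1 i]) (fun k => by linarith [D.hl1 k]) D.hA
    rw [← h]
    congr 1
    rw [← sq]
    unfold Car.T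
    exact (mat_sq (D.rc C).u_on _).symm

lemma F_eq : (Fm ⊗ₖ (1 : Matrix κ κ ℝ)) = ∑ i, D.O i 0 • (D.rc C).a i := by
  have hOt : D.Oᵀ * D.O = 1 := mul_eq_one_comm.mp D.hO
  have hBa : ∀ i, (D.rc C).a i = ∑ j, D.O i j • C.succ.a j := fun i => rfl
  simp only [hBa, Finset.smul_sum, smul_smul]
  rw [Finset.sum_comm]
  have : ∀ k, ∑ i, (D.O i 0 * D.O i k) • C.succ.a k
      = (if (0 : Fin (n + 1)) = k then (1 : ℝ) else 0) • C.succ.a k := by
    intro k
    rw [← Finset.sum_smul]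
    congr 1
    have h := congrFun (congrFun hOt 0) k
    rw [Matrix.mul_apply, Matrix.one_apply] at h
    simpa only [Matrix.transpose_apply] using h
  simp only [this]
  simp [succ_a0]

lemma J_tw : (D.tw C).J 0 + (D.tw C).J 1 = 4 * ∑ i, D.w i * √(D.c i * (1 - D.c i)) := by
  rw [Tw.J_sum, D.F_eq C]
  have hT : mat (D.tw C).u (D.tw C).l = (D.rc C).T D.c := rfl
  rw [hT]
  set B := D.rc C with hB
  have e1 : B.T D.c * (∑ i, D.O i 0 • B.a i) * (B.T D.c * (∑ i, D.O i 0 • B.a i)ᵀ)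
      = ∑ i, ∑ j, (D.O i 0 * D.O j 0) • (B.T D.c * B.a i * (B.T D.c * (B.a j)ᵀ)) := by
    rw [Matrix.transpose_sum, Finset.mul_sum, Finset.mul_sum, Finset.sum_mul_sum]
    refine Finset.sum_congr rfl fun i _ => Finset.sum_congr rfl fun j _ => ?_
    rw [Matrix.transpose_smul, Matrix.mul_smul, Matrix.mul_smul, Matrix.smul_mul, Matrix.mul_smul,
      smul_smul]
  rw [e1]
  simp only [Matrix.trace_sum, Matrix.trace_smul, smul_eq_mul]
  simp only [B.energy_ij D.c D.hc0 (fun i => by linarith [D.hc1 i])]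
  congr 1
  refine Finset.sum_congr rfl fun i _ => ?_
  simp only [mul_ite, mul_zero, Finset.sum_ite_eq, Finset.mem_univ, if_true]
  rw [O_zero, D.sq_w]

/-- The site of an interlacing pair. -/
theorem exists_site : ∃ (Ω : Type) (_ : Fintype Ω) (_ : DecidableEq Ω) (s : Site Ω G2),
    cc s = Real.log 2 + ∑ k, (Real.negMulLog (D.lam k) + Real.negMulLog (1 - D.lam k))
      - ∑ i, (Real.negMulLog (D.c i) + Real.negMulLog (1 - D.c i)) ∧
    s.E ff = 1 - 2 * ∑ i, D.w i * √(D.c i * (1 - D.c i)) := by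
  obtain ⟨κ, i1, i2, ⟨C⟩⟩ := exists_car n
  refine ⟨G2 × (Fin 2 × κ), inferInstance, inferInstance, (D.tw C).site, ?_, ?_⟩
  · unfold cc
    rw [Tw.cc_site]
    congr 1
    · congr 1
      exact C.ent_lR D.lam
    · rw [← (D.rc C).ent_lR D.c]
      refine Finset.sum_congr rfl fun x _ => ?_
      congr 1
      exact (D.rc C).lT_sq D.c (fun i => (D.hc0 i).le) (fun i => (D.hc1 i).le) x
  · rw [Tw.E_site, D.J_tw C]
    ring

/-- **The interlacing bound.** -/
theorem codes {δ ε : ℝ} (hδ : 0 < δ) (hE : 1 - 2 * δ ≤ ∑ i, D.w i * (2 * √(D.c i * (1 - D.c i))))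
    (hε : 0 < ε) : ∃ n0 : ℕ, ∀ m ≥ n0, ∀ C : Finset (Fin m → Bool),
      (∀ x ∈ C, ∀ y ∈ C, x ≠ y → δ * m ≤ hammingDist x y) →
      (C.card : ℝ) ≤ (2 : ℝ) ^ ((1 / 2
        + (∑ i, (Real.negMulLog (D.c i) + Real.negMulLog (1 - D.c i)) / Real.log 2
          - ∑ k, (Real.negMulLog (D.lam k) + Real.negMulLog (1 - D.lam k)) / Real.log 2) / 2 + ε)
            * m) := by
  obtain ⟨Ω, i1, i2, s, h1, h2⟩ := D.exists_site
  have h3 : s.E ff ≤ 2 * δ := by
    rw [h2]
    have e : ∑ i, D.w i * (2 * √(D.c i * (1 - D.c i)))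
        = 2 * ∑ i, D.w i * √(D.c i * (1 - D.c i)) := by
      rw [Finset.mul_sum]
      exact Finset.sum_congr rfl fun i _ => by ring
    rw [e] at hE
    linarith
  obtain ⟨n0, h0⟩ := code_bound2' s hδ h3 hε
  refine ⟨n0, fun m hm C hC => ?_⟩
  have h4 := h0 m hm C hC
  have e : 1 - cc s / (2 * Real.log 2) = 1 / 2
        + (∑ i, (Real.negMulLog (D.c i) + Real.negMulLog (1 - D.c i)) / Real.log 2
          - ∑ k, (Real.negMulLog (D.lam k) + Real.negMulLog (1 - D.lam k)) / Real.log 2) / 2 := by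
    rw [h1, ← Finset.sum_div, ← Finset.sum_div]
    have : Real.log 2 ≠ 0 := (Real.log_pos (by norm_num)).ne'
    field_simp
    ring
  rw [← e]
  exact h4

end Inter

end Pool.Agent.TH753.FF
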