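import Pool.Agent.TH753.FF5

/-!
# Interlacing weights, and equally spaced rapidities
-/

open Finset

namespace Pool.Agent.TH753.FF

open Pool.Agent.H235R2.QLP

section Lag

variable {n : ℕ} (c : Fin (n + 1) → ℝ) (lam : Fin n → ℝ)

/-- interlacing weights -/
noncomputable def iw (i : Fin (n + 1)) : ℝ :=
  (∏ k, (c i - lam k)) / ∏ j ∈ univ.erase i, (c i - c j)

lemma iw_sum (hc : Function.Injective c) : ∑ i, iw c lam i = 1 := by
  have hd : (Lagrange.nodal (univ : Finset (Fin n)) lam).degree
      < ((univ : Finset (Fin (n + 1))).card : WithBot ℕ) := by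
    rw [Lagrange.degree_nodal, Finset.card_univ, Finset.card_univ, Fintype.card_fin,
      Fintype.card_fin]
    exact_mod_cast Nat.lt_succ_self n
  have h := Lagrange.coeff_eq_sum (s := (univ : Finset (Fin (n + 1)))) (v := c) hc.injOn
    (P := Lagrange.nodal (univ : Finset (Fin n)) lam) hd
  have h1 : (Lagrange.nodal (univ : Finset (Fin n)) lam).coeff n = 1 := by
    have h2 := (Lagrange.nodal_monic (s := (univ : Finset (Fin n))) (v := lam)).coeff_natDegree
    rw [Lagrange.natDegree_nodal, Finset.card_univ, Fintype.card_fin] at h2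
    exact h2
  rw [Finset.card_univ, Fintype.card_fin, Nat.add_sub_cancel, h1] at h
  rw [h]
  refine Finset.sum_congr rfl fun i _ => ?_
  rw [Lagrange.eval_nodal]
  rfl

lemma iw_sec (hc : Function.Injective c) (hne : ∀ i k, c i ≠ lam k) (k : Fin n) :
    ∑ i, iw c lam i / (c i - lam k) = 0 := by
  have hn : 0 < n := k.pos
  have hcard : ((univ : Finset (Fin n)).erase k).card = n - 1 := by
    rw [Finset.card_erase_of_mem (Finset.mem_univ k), Finset.card_univ, Fintype.card_fin]
  have hd : (Lagrange.nodal ((univ : Finset (Fin n)).erase k) lam).degree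
      < ((univ : Finset (Fin (n + 1))).card : WithBot ℕ) := by
    rw [Lagrange.degree_nodal, hcard, Finset.card_univ, Fintype.card_fin]
    have : n - 1 < n + 1 := by omega
    exact_mod_cast this
  have h := Lagrange.coeff_eq_sum (s := (univ : Finset (Fin (n + 1)))) (v := c) hc.injOn
    (P := Lagrange.nodal ((univ : Finset (Fin n)).erase k) lam) hd
  have h1 : (Lagrange.nodal ((univ : Finset (Fin n)).erase k) lam).coeff n = 0 := by
    apply Polynomial.coeff_eq_zero_of_natDegree_lt
    rw [Lagrange.natDegree_nodal, hcard]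
    omega
  rw [Finset.card_univ, Fintype.card_fin, Nat.add_sub_cancel, h1] at h
  rw [h]
  refine Finset.sum_congr rfl fun i _ => ?_
  rw [Lagrange.eval_nodal]
  unfold iw
  rw [← Finset.mul_prod_erase univ (fun l => c i - lam l) (Finset.mem_univ k)]
  have : c i - lam k ≠ 0 := sub_ne_zero.mpr (hne i k)
  field_simp

/-- interlacing data from positive weights -/
noncomputable def interOf (hc : Function.Injective c) (hl : Function.Injective lam)
    (hne : ∀ i k, c i ≠ lam k) (hc0 : ∀ i, 0 < c i) (hc1 : ∀ i, c i < 1)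
    (hw : ∀ i, 0 < iw c lam i) : Inter n where
  w := iw c lam
  c := c
  lam := lam
  hw := hw
  hsum := iw_sum c lam hc
  hc0 := hc0
  hc1 := hc1
  hl := hl
  hne := hne
  hsec := iw_sec c lam hc hne

lemma prod_erase_eq {n : ℕ} (i : Fin (n + 1)) (g : Fin (n + 1) → ℝ) :
    ∏ j ∈ univ.erase i, g j = ∏ k : Fin n, g (i.succAbove k) := by
  rw [← Finset.compl_singleton, ← Fin.image_succAbove_univ,
    Finset.prod_image (fun a _ b _ h => Fin.succAbove_right_injective h)]

end Lag

/-! ### Rapidities -/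

/-- `(1 + tanh x) / 2` -/
noncomputable def sg (x : ℝ) : ℝ := (1 + Real.tanh x) / 2

lemma sg_eq (x : ℝ) : sg x = (Real.cosh x + Real.sinh x) / (2 * Real.cosh x) := by
  unfold sg
  rw [Real.tanh_eq_sinh_div_cosh]
  have := (Real.cosh_pos x).ne'
  field_simp

lemma sg_sub (x y : ℝ) : sg x - sg y = Real.sinh (x - y) / (2 * Real.cosh x * Real.cosh y) := by
  rw [sg_eq, sg_eq, Real.sinh_sub]
  have h1 := (Real.cosh_pos x).ne'
  have h2 := (Real.cosh_pos y).ne'
  field_simp
  ring

lemma one_sub_sg (x : ℝ) : 1 - sg x = (Real.cosh x - Real.sinh x) / (2 * Real.cosh x) := by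
  rw [sg_eq]
  have h1 := (Real.cosh_pos x).ne'
  field_simp
  ring

lemma sg_pos (x : ℝ) : 0 < sg x := by
  rw [sg_eq, Real.cosh_add_sinh]
  exact div_pos (Real.exp_pos _) (by have := Real.cosh_pos x; positivity)

lemma sg_lt_one (x : ℝ) : sg x < 1 := by
  have h : 0 < 1 - sg x := by
    rw [one_sub_sg, Real.cosh_sub_sinh]
    exact div_pos (Real.exp_pos _) (by have := Real.cosh_pos x; positivity)
  linarith

lemma sg_mul (x : ℝ) : sg x * (1 - sg x) = (1 / (2 * Real.cosh x)) ^ 2 := by
  rw [one_sub_sg, sg_eq]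
  have h1 := (Real.cosh_pos x).ne'
  have h2 := Real.cosh_sq x
  field_simp
  nlinarith

lemma sg_sqrt (x : ℝ) : 2 * √(sg x * (1 - sg x)) = 1 / Real.cosh x := by
  rw [sg_mul, Real.sqrt_sq (by have := Real.cosh_pos x; positivity)]
  have h1 := (Real.cosh_pos x).ne'
  field_simp

lemma sg_ne {x y : ℝ} (h : x ≠ y) : sg x ≠ sg y := by
  intro e
  have h1 : sg x - sg y = 0 := sub_eq_zero.mpr e
  rw [sg_sub, div_eq_zero_iff] at h1
  rcases h1 with h1 | h1
  · rw [Real.sinh_eq_zero] at h1
    exact h (by linarith)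
  · have h2 := Real.cosh_pos x
    have h3 := Real.cosh_pos y
    have : 0 < 2 * Real.cosh x * Real.cosh y := by positivity
    linarith

/-- ratio of consecutive hyperbolic sines -/
noncomputable def qr (e : ℝ) (r : ℕ) : ℝ := Real.sinh ((2 * r + 1) * e) / Real.sinh ((2 * r + 2) * e)

/-- products of ratios -/
noncomputable def qA (e : ℝ) (n : ℕ) : ℝ := ∏ r ∈ range n, qr e r

lemma qr_pos {e : ℝ} (he : 0 < e) (r : ℕ) : 0 < qr e r :=
  div_pos (Real.sinh_pos_iff.mpr (by positivity)) (Real.sinh_pos_iff.mpr (by positivity))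

lemma qA_pos {e : ℝ} (he : 0 < e) (n : ℕ) : 0 < qA e n := Finset.prod_pos fun r _ => qr_pos he r

lemma prod_split (e : ℝ) (n i : ℕ) (hi : i ≤ n) :
    ∏ k ∈ range n, (if k < i then qr e (i - 1 - k) else qr e (k - i)) = qA e i * qA e (n - i) := by
  obtain ⟨m, rfl⟩ := Nat.exists_eq_add_of_le hi
  rw [Finset.prod_range_add, Nat.add_sub_cancel_left]
  congr 1
  · unfold qA
    rw [← Finset.prod_range_reflect (fun r => qr e r) i]
    refine Finset.prod_congr rfl fun k hk => ?_
    rw [if_pos (Finset.mem_range.mp hk)]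
  · unfold qA
    refine Finset.prod_congr rfl fun k _ => ?_
    rw [if_neg (by omega), Nat.add_sub_cancel_left]

/-- the points `a + 2 (i - M) e` -/
noncomputable def px (a e : ℝ) (M : ℕ) (i : ℕ) : ℝ := a + 2 * ((i : ℝ) - M) * e
/-- the points `a + (2 (i - M) + 1) e` -/
noncomputable def py (a e : ℝ) (M : ℕ) (k : ℕ) : ℝ := a + (2 * ((k : ℝ) - M) + 1) * e

section Data

variable (a : ℝ) {e : ℝ} (he : 0 < e) (M n : ℕ)

/-- `c` -/
noncomputable def tc (a e : ℝ) (M n : ℕ) (i : Fin (n + 1)) : ℝ := sg (px a e M i)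
/-- `λ` -/
noncomputable def tl (a e : ℝ) (M n : ℕ) (k : Fin n) : ℝ := sg (py a e M k)

/-- the constant in front -/
noncomputable def tK (a e : ℝ) (M n : ℕ) : ℝ :=
  (∏ j : Fin (n + 1), Real.cosh (px a e M j)) / ∏ k : Fin n, Real.cosh (py a e M k)

lemma tK_pos (a e : ℝ) (M n : ℕ) : 0 < tK a e M n :=
  div_pos (Finset.prod_pos fun _ _ => Real.cosh_pos _) (Finset.prod_pos fun _ _ => Real.cosh_pos _)

include he in
lemma px_ne {i j : ℕ} (h : i ≠ j) : px a e M i ≠ px a e M j := by
  unfold px
  intro h1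
  have h2 : ((i : ℝ) - j) * e = 0 := by linarith
  rcases mul_eq_zero.mp h2 with h3 | h3
  · exact h (by exact_mod_cast sub_eq_zero.mp h3)
  · exact he.ne' h3

include he in
lemma py_ne {i j : ℕ} (h : i ≠ j) : py a e M i ≠ py a e M j := by
  unfold py
  intro h1
  have h2 : ((i : ℝ) - j) * e = 0 := by linarith
  rcases mul_eq_zero.mp h2 with h3 | h3
  · exact h (by exact_mod_cast sub_eq_zero.mp h3)
  · exact he.ne' h3

include he in
lemma pxy_ne (i k : ℕ) : px a e M i ≠ py a e M k := by
  unfold px py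
  intro h1
  have h2 : (2 * ((i : ℝ) - k) - 1) * e = 0 := by linarith
  rcases mul_eq_zero.mp h2 with h3 | h3
  · have h4 : (2 * (i : ℤ) - 2 * (k : ℤ) - 1 : ℤ) = 0 := by
      have : ((2 * (i : ℤ) - 2 * (k : ℤ) - 1 : ℤ) : ℝ) = 0 := by push_cast; linarith
      exact_mod_cast this
    omega
  · exact he.ne' h3

include he in
lemma ratio (i : Fin (n + 1)) (k : Fin n) :
    (tc a e M n i - tl a e M n k) / (tc a e M n i - tc a e M n (i.succAbove k))
      = (if (k : ℕ) < i then qr e (i - 1 - k) else qr e (k - i))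
        * (Real.cosh (px a e M (i.succAbove k : Fin (n + 1))) / Real.cosh (py a e M k)) := by
  unfold tc tl
  rw [sg_sub, sg_sub]
  have h1 := (Real.cosh_pos (px a e M i)).ne'
  have h2 := (Real.cosh_pos (py a e M k)).ne'
  have h3 := (Real.cosh_pos (px a e M (i.succAbove k : Fin (n + 1)))).ne'
  have key : Real.sinh (px a e M i - py a e M k)
      / Real.sinh (px a e M i - px a e M (i.succAbove k : Fin (n + 1)))
      = if (k : ℕ) < i then qr e (i - 1 - k) else qr e (k - i) := by
    by_cases hk : (k : ℕ) < i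
    · rw [if_pos hk, Fin.succAbove_of_castSucc_lt _ _ (by simpa [Fin.lt_def] using hk)]
      obtain ⟨r, hr⟩ := Nat.exists_eq_add_of_lt hk
      have hr' : ((i : ℕ) : ℝ) = k + r + 1 := by exact_mod_cast hr
      have e1 : (i : ℕ) - 1 - k = r := by omega
      rw [e1]
      unfold qr px py
      rw [Fin.val_castSucc, hr']
      congr 2
      · ring
      · ring
    · rw [if_neg hk, Fin.succAbove_of_le_castSucc _ _ (by simpa [Fin.le_def] using hk)]
      obtain ⟨r, hr⟩ := Nat.exists_eq_add_of_le (not_lt.mp hk)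
      have hr' : ((k : ℕ) : ℝ) = i + r := by exact_mod_cast hr
      have e1 : (k : ℕ) - i = r := by omega
      rw [e1]
      unfold qr px py
      rw [Fin.val_succ]
      push_cast
      rw [hr']
      rw [show a + 2 * ((i : ℕ) - (M : ℝ)) * e - (a + (2 * ((i : ℕ) + (r : ℝ) - M) + 1) * e)
          = -((2 * (r : ℝ) + 1) * e) by ring,
        show a + 2 * ((i : ℕ) - (M : ℝ)) * e - (a + 2 * ((i : ℕ) + (r : ℝ) + 1 - M) * e)
          = -((2 * (r : ℝ) + 2) * e) by ring, Real.sinh_neg, Real.sinh_neg, neg_div_neg_eq]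
  rw [← key]
  have h4 : Real.sinh (px a e M i - px a e M (i.succAbove k : Fin (n + 1))) ≠ 0 := by
    rw [Ne, Real.sinh_eq_zero, sub_eq_zero]
    refine px_ne a he M ?_
    intro h
    exact Fin.succAbove_ne i k (Fin.ext h.symm)
  field_simp

include he in
lemma iw_theta (i : Fin (n + 1)) : iw (tc a e M n) (tl a e M n) i
    = tK a e M n * (qA e i * qA e (n - i) / Real.cosh (px a e M i)) := by
  unfold iw
  rw [prod_erase_eq, ← Finset.prod_div_distrib]
  simp_rw [ratio a he M n i]
  rw [Finset.prod_mul_distrib, Finset.prod_div_distrib]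
  have h1 : ∏ k : Fin n, (if (k : ℕ) < i then qr e (i - 1 - k) else qr e (k - i))
      = qA e i * qA e (n - i) := by
    rw [← prod_split e n i (Nat.lt_succ_iff.mp i.2), Finset.prod_range]
  rw [h1]
  have h2 := Fin.prod_univ_succAbove (fun j : Fin (n + 1) => Real.cosh (px a e M j)) i
  unfold tK
  rw [h2]
  have h3 := (Real.cosh_pos (px a e M i)).ne'
  have h4 : (∏ k : Fin n, Real.cosh (py a e M k)) ≠ 0 :=
    (Finset.prod_pos fun _ _ => Real.cosh_pos _).ne'
  field_simp

/-- interlacing data of equally spaced rapidities -/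
noncomputable def thetaData : Inter n :=
  interOf (tc a e M n) (tl a e M n)
    (fun i j h => by
      by_contra hij
      exact sg_ne (px_ne a he M (fun h' => hij (Fin.ext h'))) h)
    (fun i j h => by
      by_contra hij
      exact sg_ne (py_ne a he M (fun h' => hij (Fin.ext h'))) h)
    (fun i k => sg_ne (pxy_ne a he M i k))
    (fun i => sg_pos _) (fun i => sg_lt_one _)
    (fun i => by
      rw [iw_theta a he M n i]
      exact mul_pos (tK_pos a e M n) (div_pos (mul_pos (qA_pos he _) (qA_pos he _))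
        (Real.cosh_pos _)))

end Data

end Pool.Agent.TH753.FF
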