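import Pool.Agent.TH753.FF6

/-!
# Infinitely many equally spaced rapidities
-/

open Finset Filter Topology

namespace Pool.Agent.TH753.FF

open Pool.Agent.H390R2.LP Pool.Agent.H235R2.QLP

/-- A limit of sites gives a bound. -/
theorem code_closure {δ K : ℝ} (hδ : 0 < δ)
    (h : ∀ η : ℝ, 0 < η → ∃ (Ω : Type) (_ : Fintype Ω) (_ : DecidableEq Ω) (s : Site Ω G2),
      s.E ff ≤ 2 * δ + η ∧ K - η ≤ cc s) {ε : ℝ} (hε : 0 < ε) :
    ∃ n0 : ℕ, ∀ n ≥ n0, ∀ C : Finset (Fin n → Bool),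
      (∀ x ∈ C, ∀ y ∈ C, x ≠ y → δ * n ≤ hammingDist x y) →
      (C.card : ℝ) ≤ (2 : ℝ) ^ ((1 - K / (2 * Real.log 2) + ε) * n) := by
  have hlog : 0 < Real.log 2 := Real.log_pos (by norm_num)
  have hden : 0 < 1 + |K| / (2 * δ) := by positivity
  set η : ℝ := ε * Real.log 2 / (1 + |K| / (2 * δ)) with hη
  have hη0 : 0 < η := by positivity
  have hη1 : η * (1 + |K| / (2 * δ)) = ε * Real.log 2 := by
    rw [hη]; field_simp
  obtain ⟨Ω, i1, i2, s, hE, hc⟩ := h η hη0
  set t : ℝ := η / (2 * δ + η) with ht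
  have hd : 0 < 2 * δ + η := by positivity
  have ht0 : 0 < t := by positivity
  have ht1 : t ≤ 1 := by
    rw [ht, div_le_one hd]; linarith
  have ht2 : t ≤ η / (2 * δ) := by
    rw [ht]
    exact div_le_div_of_nonneg_left hη0.le (by positivity) (by linarith)
  have ht3 : (1 - t) * (2 * δ + η) = 2 * δ := by
    rw [ht]; field_simp; ring
  set s' := mix s (triv ((0, 0) : G2)) (1 - t) (by linarith) (by linarith) with hs'
  have hE' : s'.E ff ≤ 2 * δ := by
    rw [hs', E_mix, E_triv, mul_zero, add_zero, ← ht3]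
    exact mul_le_mul_of_nonneg_left hE (by linarith)
  have hcc : cc s' = (1 - t) * cc s := by
    rw [hs', cc_mix, cc_triv, mul_zero, add_zero]
  obtain ⟨n0, hn0⟩ := code_bound2' s' hδ hE' (ε := ε / 2) (by linarith)
  refine ⟨n0, fun n hn C hC => le_trans (hn0 n hn C hC) ?_⟩
  apply Real.rpow_le_rpow_of_exponent_le (by norm_num)
  refine mul_le_mul_of_nonneg_right ?_ (Nat.cast_nonneg n)
  have h1 : K - ε * Real.log 2 ≤ cc s' := by
    rw [hcc]
    have h2 : (1 - t) * (K - η) ≤ (1 - t) * cc s := mul_le_mul_of_nonneg_left hc (by linarith)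
    have h3 : t * K ≤ η / (2 * δ) * |K| := by
      calc t * K ≤ t * |K| := mul_le_mul_of_nonneg_left (le_abs_self K) ht0.le
        _ ≤ _ := mul_le_mul_of_nonneg_right ht2 (abs_nonneg K)
    have h4 : 0 ≤ t * η := by positivity
    have h5 : η * (|K| / (2 * δ)) = η / (2 * δ) * |K| := by ring
    nlinarith
  have h6 : K / (2 * Real.log 2) - ε / 2 ≤ cc s' / (2 * Real.log 2) := by
    have h7 : K / (2 * Real.log 2) - ε / 2 = (K - ε * Real.log 2) / (2 * Real.log 2) := by
      field_simp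
    rw [h7]
    exact div_le_div_of_nonneg_right h1 (by positivity)
  linarith

/-! ### The normalised products -/

/-- normalised products -/
noncomputable def qB (e : ℝ) (n : ℕ) : ℝ := qA e n * Real.exp (n * e)

lemma qB_zero (e : ℝ) : qB e 0 = 1 := by simp [qB, qA]

lemma qB_succ (e : ℝ) (n : ℕ) : qB e (n + 1) = qB e n * (qr e n * Real.exp e) := by
  unfold qB qA
  rw [Finset.prod_range_succ]
  push_cast
  rw [add_mul, Real.exp_add, one_mul]
  ring

lemma qr_le {e : ℝ} (he : 0 < e) (n : ℕ) : qr e n * Real.exp e ≤ 1 := by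
  unfold qr
  have h1 : 0 < Real.sinh ((2 * n + 2) * e) := Real.sinh_pos_iff.mpr (by positivity)
  rw [div_mul_eq_mul_div, div_le_one h1, Real.sinh_eq, Real.sinh_eq]
  have h2 : Real.exp ((2 * n + 1) * e) * Real.exp e = Real.exp ((2 * n + 2) * e) := by
    rw [← Real.exp_add]; congr 1; ring
  have h3 : Real.exp (-((2 * n + 1) * e)) * Real.exp e = Real.exp (-(2 * n * e)) := by
    rw [← Real.exp_add]; congr 1; ring
  have h4 : Real.exp (-((2 * n + 2) * e)) ≤ Real.exp (-(2 * n * e)) :=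
    Real.exp_le_exp.mpr (by nlinarith)
  nlinarith

lemma le_qr {e : ℝ} (he : 0 < e) (n : ℕ) :
    1 - Real.exp (-((4 * n + 2) * e)) ≤ qr e n * Real.exp e := by
  unfold qr
  have h1 : 0 < Real.sinh ((2 * n + 2) * e) := Real.sinh_pos_iff.mpr (by positivity)
  rw [div_mul_eq_mul_div, le_div_iff₀ h1, Real.sinh_eq, Real.sinh_eq]
  have h2 : Real.exp ((2 * n + 1) * e) * Real.exp e = Real.exp ((2 * n + 2) * e) := by
    rw [← Real.exp_add]; congr 1; ring
  have h3 : Real.exp (-((2 * n + 1) * e)) * Real.exp e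
      = Real.exp ((2 * n + 2) * e) * Real.exp (-((4 * n + 2) * e)) := by
    rw [← Real.exp_add, ← Real.exp_add]; congr 1; ring
  have h4 : Real.exp (-((4 * n + 2) * e)) ≤ 1 := Real.exp_le_one_iff.mpr (by
    have : 0 ≤ (4 * (n : ℝ) + 2) * e := by positivity
    linarith)
  have h5 := Real.exp_pos (-((2 * n + 2) * e))
  have h6 : 0 ≤ (1 - Real.exp (-((4 * n + 2) * e))) * Real.exp (-((2 * n + 2) * e)) :=
    mul_nonneg (by linarith) h5.le
  nlinarith

lemma qB_pos {e : ℝ} (he : 0 < e) (n : ℕ) : 0 < qB e n := mul_pos (qA_pos he n) (Real.exp_pos _)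

lemma qB_anti {e : ℝ} (he : 0 < e) : Antitone (qB e) := by
  refine antitone_nat_of_succ_le fun n => ?_
  rw [qB_succ]
  have := mul_le_mul_of_nonneg_left (qr_le he n) (qB_pos he n).le
  linarith

lemma qB_le_one {e : ℝ} (he : 0 < e) (n : ℕ) : qB e n ≤ 1 := by
  rw [← qB_zero e]
  exact qB_anti he (Nat.zero_le n)

lemma exp_le_one_sub {x y : ℝ} (hx0 : 0 ≤ x) (hxy : x ≤ y) (hy : y < 1) :
    Real.exp (-(x / (1 - y))) ≤ 1 - x := by
  have h1 : 0 < 1 - x := by linarith
  have h2 : 0 < 1 - y := by linarith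
  rw [← Real.le_log_iff_exp_le h1]
  have h3 := Real.one_sub_inv_le_log_of_pos h1
  have h4 : 1 - (1 - x)⁻¹ = -(x / (1 - x)) := by field_simp; ring
  have h5 : x / (1 - x) ≤ x / (1 - y) := div_le_div_of_nonneg_left hx0 h2 (by linarith)
  linarith

lemma le_qB {e : ℝ} (he : 0 < e) (n : ℕ) :
    Real.exp (-((∑ r ∈ range n, Real.exp (-(2 * e)) ^ r) / (1 - Real.exp (-(2 * e))))) ≤ qB e n := by
  have hu : Real.exp (-(2 * e)) < 1 := Real.exp_lt_one_iff.mpr (by linarith)
  induction n with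
  | zero => simp [qB_zero]
  | succ n ih =>
    rw [Finset.sum_range_succ, add_div, neg_add, Real.exp_add, qB_succ]
    refine mul_le_mul ih ?_ (Real.exp_pos _).le (qB_pos he n).le
    refine le_trans ?_ (le_qr he n)
    have h1 : Real.exp (-((4 * n + 2) * e)) ≤ Real.exp (-(2 * e)) ^ n := by
      rw [← Real.exp_nat_mul]
      apply Real.exp_le_exp.mpr
      have : 0 ≤ (n : ℝ) * e := by positivity
      nlinarith
    have h2 : Real.exp (-((4 * n + 2) * e)) ≤ Real.exp (-(2 * e)) := by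
      apply Real.exp_le_exp.mpr
      have : 0 ≤ (n : ℝ) * e := by positivity
      nlinarith
    refine le_trans ?_ (exp_le_one_sub (Real.exp_pos _).le h2 hu)
    apply Real.exp_le_exp.mpr
    have : Real.exp (-((4 * n + 2) * e)) / (1 - Real.exp (-(2 * e)))
        ≤ Real.exp (-(2 * e)) ^ n / (1 - Real.exp (-(2 * e))) :=
      div_le_div_of_nonneg_right h1 (by linarith)
    linarith

lemma exists_lim {e : ℝ} (he : 0 < e) : ∃ L : ℝ, 0 < L ∧ Tendsto (qB e) atTop (𝓝 L) := by
  have hu : Real.exp (-(2 * e)) < 1 := Real.exp_lt_one_iff.mpr (by linarith)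
  have h1 : Tendsto (qB e) atTop (𝓝 (⨅ n, qB e n)) :=
    tendsto_atTop_ciInf (qB_anti he) ⟨0, by rintro x ⟨n, rfl⟩; exact (qB_pos he n).le⟩
  refine ⟨_, ?_, h1⟩
  refine lt_of_lt_of_le (Real.exp_pos (-((∑' r : ℕ, Real.exp (-(2 * e)) ^ r)
    / (1 - Real.exp (-(2 * e)))))) (ge_of_tendsto' h1 fun n => le_trans ?_ (le_qB he n))
  apply Real.exp_le_exp.mpr
  have h2 : ∑ r ∈ range n, Real.exp (-(2 * e)) ^ r ≤ ∑' r : ℕ, Real.exp (-(2 * e)) ^ r :=
    (summable_geometric_of_lt_one (Real.exp_pos _).le hu).sum_le_tsum _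
      (fun r _ => by positivity)
  have h3 : (∑ r ∈ range n, Real.exp (-(2 * e)) ^ r) / (1 - Real.exp (-(2 * e)))
      ≤ (∑' r : ℕ, Real.exp (-(2 * e)) ^ r) / (1 - Real.exp (-(2 * e))) :=
    div_le_div_of_nonneg_right h2 (by linarith)
  linarith

/-! ### Sums over the integers -/

lemma sum_fin_Icc (F : ℤ → ℝ) (M : ℕ) :
    ∑ i : Fin (2 * M + 1), F ((i : ℕ) - M) = ∑ j ∈ Icc (-(M : ℤ)) M, F j := by
  rw [← Finset.sum_range (fun i => F ((i : ℤ) - M))]
  refine Finset.sum_nbij' (fun i => (i : ℤ) - M) (fun j => (j + M).toNat) ?_ ?_ ?_ ?_ ?_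
  · intro i hi
    rw [Finset.mem_range] at hi
    rw [Finset.mem_Icc]
    omega
  · intro j hj
    rw [Finset.mem_Icc] at hj
    rw [Finset.mem_range]
    omega
  · intro i hi
    simp
  · intro j hj
    rw [Finset.mem_Icc] at hj
    have : ((j + M).toNat : ℤ) = j + M := Int.toNat_of_nonneg (by omega)
    rw [this]; ring
  · intro i _; rfl

lemma sum_fin_Ico (F : ℤ → ℝ) (M : ℕ) :
    ∑ i : Fin (2 * M), F ((i : ℕ) - M) = ∑ j ∈ Ico (-(M : ℤ)) M, F j := by
  rw [← Finset.sum_range (fun i => F ((i : ℤ) - M))]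
  refine Finset.sum_nbij' (fun i => (i : ℤ) - M) (fun j => (j + M).toNat) ?_ ?_ ?_ ?_ ?_
  · intro i hi
    rw [Finset.mem_range] at hi
    rw [Finset.mem_Ico]
    omega
  · intro j hj
    rw [Finset.mem_Ico] at hj
    rw [Finset.mem_range]
    omega
  · intro i hi
    simp
  · intro j hj
    rw [Finset.mem_Ico] at hj
    have : ((j + M).toNat : ℤ) = j + M := Int.toNat_of_nonneg (by omega)
    rw [this]; ring
  · intro i _; rfl

lemma tendsto_Icc : Tendsto (fun M : ℕ => Icc (-(M : ℤ)) M) atTop atTop := by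
  refine tendsto_atTop_finset_of_monotone (fun a b hab => ?_) fun j => ⟨j.natAbs, ?_⟩
  · apply Finset.Icc_subset_Icc <;> omega
  · rw [Finset.mem_Icc]; omega

lemma tendsto_Ico : Tendsto (fun M : ℕ => Ico (-(M : ℤ)) M) atTop atTop := by
  refine tendsto_atTop_finset_of_monotone (fun a b hab => ?_) fun j => ⟨j.natAbs + 1, ?_⟩
  · apply Finset.Ico_subset_Ico <;> omega
  · rw [Finset.mem_Ico]; omega

/-- dominated convergence -/
lemma tendsto_weighted {e L : ℝ} (he : 0 < e) (hL : Tendsto (qB e) atTop (𝓝 L)) (g : ℤ → ℝ)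
    (hg0 : ∀ j, 0 ≤ g j) (hg : Summable g) :
    Tendsto (fun M : ℕ => ∑ i : Fin (2 * M + 1), g ((i : ℕ) - M) * (qB e i * qB e (2 * M - i)))
      atTop (𝓝 ((∑' j, g j) * (L * L))) := by
  have h1 : ∀ M : ℕ, ∑ i : Fin (2 * M + 1), g ((i : ℕ) - M) * (qB e i * qB e (2 * M - i))
      = ∑' j : ℤ, if j ∈ Icc (-(M : ℤ)) M then
        g j * (qB e (j + M).toNat * qB e (M - j).toNat) else 0 := by
    intro M
    rw [tsum_eq_sum (s := Icc (-(M : ℤ)) M) (fun j hj => if_neg hj)]
    rw [← sum_fin_Icc]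
    refine Finset.sum_congr rfl fun i _ => ?_
    have hi := i.2
    have e1 : (((i : ℕ) : ℤ) - M + M).toNat = i := by simp
    have e2 : ((M : ℤ) - (((i : ℕ) : ℤ) - M)).toNat = 2 * M - i := by omega
    rw [if_pos (by rw [Finset.mem_Icc]; omega), e1, e2]
  simp_rw [h1]
  rw [← tsum_mul_right]
  refine tendsto_tsum_of_dominated_convergence hg ?_ ?_
  · intro j
    have h2 : Tendsto (fun M : ℕ => (j + M).toNat) atTop atTop := by
      refine tendsto_atTop.mpr fun b => ?_
      filter_upwards [eventually_ge_atTop (b + j.natAbs)] with M hM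
      omega
    have h3 : Tendsto (fun M : ℕ => ((M : ℤ) - j).toNat) atTop atTop := by
      refine tendsto_atTop.mpr fun b => ?_
      filter_upwards [eventually_ge_atTop (b + j.natAbs)] with M hM
      omega
    have h4 : Tendsto (fun M : ℕ => g j * (qB e (j + M).toNat * qB e ((M : ℤ) - j).toNat)) atTop
        (𝓝 (g j * (L * L))) := ((hL.comp h2).mul (hL.comp h3)).const_mul _
    refine h4.congr' ?_
    filter_upwards [eventually_ge_atTop j.natAbs] with M hM
    rw [if_pos (by rw [Finset.mem_Icc]; omega)]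
  · refine Eventually.of_forall fun M j => ?_
    split_ifs
    · rw [Real.norm_eq_abs, abs_of_nonneg (mul_nonneg (hg0 j)
        (mul_nonneg (qB_pos he _).le (qB_pos he _).le))]
      have h5 : qB e (j + M).toNat * qB e ((M : ℤ) - j).toNat ≤ 1 :=
        mul_le_one₀ (qB_le_one he _) (qB_pos he _).le (qB_le_one he _)
      have := mul_le_mul_of_nonneg_left h5 (hg0 j)
      linarith
    · rw [norm_zero]; exact hg0 j

/-! ### Summability -/

lemma exp_neg_abs_summable (a : ℝ) {e : ℝ} (he : 0 < e) :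
    Summable fun j : ℤ => Real.exp (-|a + 2 * (j : ℝ) * e|) := by
  have hu : Real.exp (-(2 * e)) < 1 := Real.exp_lt_one_iff.mpr (by linarith)
  have h0 : Summable fun n : ℕ => Real.exp |a| * Real.exp (-(2 * e)) ^ n :=
    (summable_geometric_of_lt_one (Real.exp_pos _).le hu).mul_left _
  have key : ∀ (j : ℤ) (n : ℕ), |(j : ℝ)| = n →
      Real.exp (-|a + 2 * (j : ℝ) * e|) ≤ Real.exp |a| * Real.exp (-(2 * e)) ^ n := by
    intro j n hj
    rw [← Real.exp_nat_mul, ← Real.exp_add]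
    apply Real.exp_le_exp.mpr
    have h1 : |2 * (j : ℝ) * e| = 2 * n * e := by
      rw [abs_mul, abs_mul, hj, abs_of_pos he]
      norm_num
    have h2 : |2 * (j : ℝ) * e| ≤ |a + 2 * (j : ℝ) * e| + |a| := by
      have := abs_sub (a + 2 * (j : ℝ) * e) a
      rwa [add_sub_cancel_left] at this
    rw [h1] at h2
    linarith
  refine Summable.of_nat_of_neg ?_ ?_
  · refine Summable.of_nonneg_of_le (fun n => (Real.exp_pos _).le) (fun n => ?_) h0
    exact key n n (by simp)
  · refine Summable.of_nonneg_of_le (fun n => (Real.exp_pos _).le) (fun n => ?_) h0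
    exact key (-(n : ℤ)) n (by simp)

lemma inv_cosh_le (x : ℝ) : 1 / Real.cosh x ≤ 2 * Real.exp (-|x|) := by
  rw [div_le_iff₀ (Real.cosh_pos x), Real.cosh_eq]
  rcases abs_cases x with ⟨h, _⟩ | ⟨h, _⟩
  · rw [h]
    have h1 : Real.exp (-x) * Real.exp x = 1 := by rw [← Real.exp_add]; simp
    nlinarith [Real.exp_pos (-x)]
  · rw [h, neg_neg]
    have h1 : Real.exp (-x) * Real.exp x = 1 := by rw [← Real.exp_add]; simp
    nlinarith [Real.exp_pos x]

lemma inv_cosh_pos (x : ℝ) : 0 < 1 / Real.cosh x := div_pos one_pos (Real.cosh_pos x)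

lemma inv_cosh_le_one (x : ℝ) : 1 / Real.cosh x ≤ 1 := by
  rw [div_le_one (Real.cosh_pos x)]; exact Real.one_le_cosh x

/-- the entropy of rapidity `x`, in bits -/
noncomputable def se (x : ℝ) : ℝ :=
  (Real.negMulLog (sg x) + Real.negMulLog (1 - sg x)) / Real.log 2

lemma negMulLog_le_two_sqrt {p : ℝ} (hp : 0 < p) : Real.negMulLog p ≤ 2 * √p := by
  have h1 : 0 < √p := Real.sqrt_pos.mpr hp
  have h2 : Real.log p = 2 * Real.log (√p) := by
    rw [← Real.log_rpow h1]
    congr 1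
    rw [Real.rpow_two, Real.sq_sqrt hp.le]
  have h3 := Real.one_sub_inv_le_log_of_pos h1
  unfold Real.negMulLog
  rw [h2]
  have h4 : -Real.log (√p) ≤ (√p)⁻¹ := by linarith
  have h5 : p * (√p)⁻¹ = √p := by
    have := Real.mul_self_sqrt hp.le
    field_simp
    linarith
  have h6 := mul_le_mul_of_nonneg_left h4 hp.le
  rw [h5] at h6
  linarith

lemma negMulLog_one_sub_le {p : ℝ} (hp : p < 1) : Real.negMulLog (1 - p) ≤ p := by
  have h1 : 0 < 1 - p := by linarith
  have h3 := Real.one_sub_inv_le_log_of_pos h1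
  unfold Real.negMulLog
  have h6 := mul_le_mul_of_nonneg_left h3 h1.le
  have h7 : (1 - p) * (1 - (1 - p)⁻¹) = -p := by field_simp; ring
  rw [h7] at h6
  linarith

lemma ent_le {p : ℝ} (h0 : 0 < p) (h1 : p < 1) :
    Real.negMulLog p + Real.negMulLog (1 - p) ≤ 3 * √p := by
  have h2 := negMulLog_le_two_sqrt h0
  have h3 := negMulLog_one_sub_le h1
  have h4 : p ≤ √p := by
    refine Real.le_sqrt_of_sq_le ?_
    nlinarith
  linarith

lemma one_sub_sg_eq (x : ℝ) : 1 - sg x = sg (-x) := by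
  unfold sg
  rw [Real.tanh_neg]; ring

lemma se_neg (x : ℝ) : se (-x) = se x := by
  unfold se
  rw [← one_sub_sg_eq, sub_sub_cancel, add_comm]

lemma se_nonneg (x : ℝ) : 0 ≤ se x := by
  unfold se
  have h1 := Real.negMulLog_nonneg (sg_pos x).le (sg_lt_one x).le
  have h2 := Real.negMulLog_nonneg (x := 1 - sg x) (by linarith [sg_lt_one x])
    (by linarith [sg_pos x])
  have : 0 < Real.log 2 := Real.log_pos (by norm_num)
  positivity

lemma sg_le_exp (x : ℝ) : sg x ≤ Real.exp (2 * x) := by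
  rw [sg_eq, Real.cosh_add_sinh, Real.cosh_eq]
  have h1 := Real.exp_pos x
  have h2 := Real.exp_pos (-x)
  rw [div_le_iff₀ (by positivity)]
  have h3 : Real.exp (2 * x) = Real.exp x * Real.exp x := by rw [← Real.exp_add]; congr 1; ring
  have h4 : Real.exp x * Real.exp (-x) = 1 := by rw [← Real.exp_add]; simp
  rw [h3]
  have h5 : 2 * ((Real.exp x + Real.exp (-x)) / 2) = Real.exp x + Real.exp (-x) := by ring
  rw [h5, mul_add, mul_assoc (Real.exp x) (Real.exp x) (Real.exp (-x)), h4]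
  have : 0 < Real.exp x * Real.exp x * Real.exp x := by positivity
  nlinarith

lemma se_le (x : ℝ) : se x ≤ 3 / Real.log 2 * Real.exp (-|x|) := by
  have hlog : 0 < Real.log 2 := Real.log_pos (by norm_num)
  have key : ∀ x : ℝ, x ≤ 0 → se x ≤ 3 / Real.log 2 * Real.exp x := by
    intro x _
    unfold se
    rw [div_mul_eq_mul_div]
    refine div_le_div_of_nonneg_right ?_ hlog.le
    refine le_trans (ent_le (sg_pos x) (sg_lt_one x)) ?_
    have h1 : √(sg x) ≤ Real.exp x := by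
      rw [Real.sqrt_le_left (Real.exp_pos x).le]
      refine le_trans (sg_le_exp x) (le_of_eq ?_)
      rw [← Real.exp_nat_mul]
      norm_num
    linarith
  rcases le_total x 0 with h | h
  · rw [abs_of_nonpos h, neg_neg]; exact key x h
  · rw [abs_of_nonneg h, ← se_neg]; exact key (-x) (by linarith)

lemma summable_cosh (a : ℝ) {e : ℝ} (he : 0 < e) :
    Summable fun j : ℤ => 1 / Real.cosh (a + 2 * (j : ℝ) * e) :=
  Summable.of_nonneg_of_le (fun _ => (inv_cosh_pos _).le) (fun _ => inv_cosh_le _)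
    ((exp_neg_abs_summable a he).mul_left 2)

lemma summable_cosh2 (a : ℝ) {e : ℝ} (he : 0 < e) :
    Summable fun j : ℤ => 1 / Real.cosh (a + 2 * (j : ℝ) * e) ^ 2 := by
  refine Summable.of_nonneg_of_le (fun _ => by positivity) (fun j => ?_) (summable_cosh a he)
  have h1 := inv_cosh_le_one (a + 2 * (j : ℝ) * e)
  have h2 := (inv_cosh_pos (a + 2 * (j : ℝ) * e)).le
  calc 1 / Real.cosh (a + 2 * (j : ℝ) * e) ^ 2
      = 1 / Real.cosh (a + 2 * (j : ℝ) * e) * (1 / Real.cosh (a + 2 * (j : ℝ) * e)) := by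
        rw [sq, one_div_mul_one_div]
    _ ≤ _ := mul_le_of_le_one_right h2 h1

lemma summable_se (a : ℝ) {e : ℝ} (he : 0 < e) :
    Summable fun j : ℤ => se (a + 2 * (j : ℝ) * e) :=
  Summable.of_nonneg_of_le (fun _ => se_nonneg _) (fun _ => se_le _)
    ((exp_neg_abs_summable a he).mul_left _)

end Pool.Agent.TH753.FF
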