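import Pool.Agent.TH753.FF7

/-!
# The bound given by a full lattice of rapidities
-/

open Finset Filter Topology

namespace Pool.Agent.TH753.FF

open Pool.Agent.H390R2.LP Pool.Agent.H235R2.QLP

section

variable (a : ℝ) {e : ℝ} (he : 0 < e)

/-- weighted sums -/
noncomputable def Zs (a e : ℝ) (M : ℕ) (g : ℤ → ℝ) : ℝ :=
  ∑ i : Fin (2 * M + 1), g ((i : ℕ) - M) * (qB e i * qB e (2 * M - i))

/-- `1 / cosh` at the lattice points -/
noncomputable def g1 (a e : ℝ) (j : ℤ) : ℝ := 1 / Real.cosh (a + 2 * (j : ℝ) * e)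
/-- `1 / cosh ^ 2` at the lattice points -/
noncomputable def g2 (a e : ℝ) (j : ℤ) : ℝ := 1 / Real.cosh (a + 2 * (j : ℝ) * e) ^ 2

lemma qA_qA (M : ℕ) (i : Fin (2 * M + 1)) : qA e i * qA e (2 * M - i)
    = Real.exp (-(2 * M * e)) * (qB e i * qB e (2 * M - i)) := by
  unfold qB
  have h1 : Real.exp (-(2 * M * e)) * (Real.exp ((i : ℕ) * e) * Real.exp ((2 * M - i : ℕ) * e))
      = 1 := by
    rw [← Real.exp_add, ← Real.exp_add, Real.exp_eq_one_iff]
    have h2 : ((2 * M - (i : ℕ) : ℕ) : ℝ) = 2 * M - (i : ℕ) := by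
      rw [Nat.cast_sub (Nat.lt_succ_iff.mp i.2)]
      push_cast
      ring
    rw [h2]
    ring
  calc qA e i * qA e (2 * M - i) = qA e i * qA e (2 * M - i) * 1 := by ring
    _ = _ := by rw [← h1]; ring

include he in
lemma w_eq (M : ℕ) (i : Fin (2 * M + 1)) : (thetaData a he M (2 * M)).w i
    = (tK a e M (2 * M) * Real.exp (-(2 * M * e)))
      * (g1 a e ((i : ℕ) - M) * (qB e i * qB e (2 * M - i))) := by
  have h : (thetaData a he M (2 * M)).w i = iw (tc a e M (2 * M)) (tl a e M (2 * M)) i := rfl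
  rw [h, iw_theta a he, qA_qA]
  unfold g1 px
  push_cast
  ring

include he in
lemma const_eq (M : ℕ) : (tK a e M (2 * M) * Real.exp (-(2 * M * e))) * Zs a e M (g1 a e) = 1 := by
  have h := (thetaData a he M (2 * M)).hsum
  simp_rw [w_eq a he] at h
  rw [← Finset.mul_sum] at h
  exact h

include he in
lemma aff_eq (M : ℕ) : ∑ i, (thetaData a he M (2 * M)).w i
      * (2 * √((thetaData a he M (2 * M)).c i * (1 - (thetaData a he M (2 * M)).c i)))
    = Zs a e M (g2 a e) / Zs a e M (g1 a e) := by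
  have h1 : ∀ i, (thetaData a he M (2 * M)).w i
      * (2 * √((thetaData a he M (2 * M)).c i * (1 - (thetaData a he M (2 * M)).c i)))
      = (tK a e M (2 * M) * Real.exp (-(2 * M * e)))
        * (g2 a e ((i : ℕ) - M) * (qB e i * qB e (2 * M - i))) := by
    intro i
    have h2 : (thetaData a he M (2 * M)).c i = sg (px a e M i) := rfl
    rw [h2, sg_sqrt, w_eq a he]
    unfold g1 g2 px
    push_cast
    rw [sq, ← one_div_mul_one_div]
    ring
  simp_rw [h1]
  rw [← Finset.mul_sum]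
  have h3 := const_eq a he M
  have h4 : Zs a e M (g1 a e) ≠ 0 := by
    intro h0
    rw [h0, mul_zero] at h3
    exact zero_ne_one h3
  rw [eq_div_iff h4]
  change (tK a e M (2 * M) * Real.exp (-(2 * M * e))) * Zs a e M (g2 a e) * Zs a e M (g1 a e) = _
  linear_combination (Zs a e M (g2 a e)) * h3

include he in
lemma tendsto_aff : Tendsto (fun M : ℕ => Zs a e M (g2 a e) / Zs a e M (g1 a e)) atTop
    (𝓝 ((∑' j, g2 a e j) / ∑' j, g1 a e j)) := by
  obtain ⟨L, hL0, hL⟩ := exists_lim he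
  have h1 := tendsto_weighted he hL (g1 a e) (fun j => (inv_cosh_pos _).le) (summable_cosh a he)
  have h2 := tendsto_weighted he hL (g2 a e) (fun j => by unfold g2; positivity)
    (summable_cosh2 a he)
  have h3 : 0 < ∑' j, g1 a e j :=
    (summable_cosh a he).tsum_pos (fun j => (inv_cosh_pos _).le) 0 (inv_cosh_pos _)
  have h4 := h2.div h1 (by positivity)
  have h5 : (∑' j, g2 a e j) * (L * L) / ((∑' j, g1 a e j) * (L * L))
      = (∑' j, g2 a e j) / ∑' j, g1 a e j := by
    have : L ≠ 0 := hL0.ne'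
    field_simp
  rw [h5] at h4
  exact h4

include he in
lemma tendsto_x : Tendsto (fun M : ℕ => ∑ i : Fin (2 * M + 1), se (px a e M i)) atTop
    (𝓝 (∑' j : ℤ, se (a + 2 * (j : ℝ) * e))) := by
  have h := (summable_se a he).hasSum.comp tendsto_Icc
  refine h.congr fun M => ?_
  simp only [Function.comp_def]
  rw [← sum_fin_Icc (fun j : ℤ => se (a + 2 * (j : ℝ) * e))]
  refine Finset.sum_congr rfl fun i _ => ?_
  unfold px
  push_cast
  rfl

include he in
lemma tendsto_y : Tendsto (fun M : ℕ => ∑ k : Fin (2 * M), se (py a e M k)) atTop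
    (𝓝 (∑' j : ℤ, se (a + (2 * (j : ℝ) + 1) * e))) := by
  have e1 : ∀ j : ℤ, a + (2 * (j : ℝ) + 1) * e = (a + e) + 2 * (j : ℝ) * e := fun j => by ring
  simp_rw [e1]
  have h := (summable_se (a + e) he).hasSum.comp tendsto_Ico
  refine h.congr fun M => ?_
  simp only [Function.comp_def]
  rw [← sum_fin_Ico (fun j : ℤ => se (a + e + 2 * (j : ℝ) * e))]
  refine Finset.sum_congr rfl fun i _ => ?_
  unfold py
  push_cast
  congr 1
  ring

lemma summable_se' (a : ℝ) {e : ℝ} (he : 0 < e) :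
    Summable fun j : ℤ => se (a + (2 * (j : ℝ) + 1) * e) := by
  have e1 : ∀ j : ℤ, a + (2 * (j : ℝ) + 1) * e = (a + e) + 2 * (j : ℝ) * e := fun j => by ring
  simp_rw [e1]
  exact summable_se (a + e) he

/-- **The lattice bound.** -/
theorem theta_codes {δ ε : ℝ} (hδ : 0 < δ)
    (hD : 1 - 2 * δ ≤ (∑' j : ℤ, 1 / Real.cosh (a + 2 * (j : ℝ) * e) ^ 2)
      / ∑' j : ℤ, 1 / Real.cosh (a + 2 * (j : ℝ) * e)) (he : 0 < e) (hε : 0 < ε) :
    ∃ n0 : ℕ, ∀ n ≥ n0, ∀ C : Finset (Fin n → Bool),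
      (∀ x ∈ C, ∀ y ∈ C, x ≠ y → δ * n ≤ hammingDist x y) →
      (C.card : ℝ) ≤ (2 : ℝ) ^ ((1 / 2 + 1 / 2 * (∑' j : ℤ, (se (a + 2 * (j : ℝ) * e)
        - se (a + (2 * (j : ℝ) + 1) * e))) + ε) * n) := by
  have hlog : 0 < Real.log 2 := Real.log_pos (by norm_num)
  set S : ℝ := ∑' j : ℤ, (se (a + 2 * (j : ℝ) * e) - se (a + (2 * (j : ℝ) + 1) * e)) with hS
  have hS2 : S = (∑' j : ℤ, se (a + 2 * (j : ℝ) * e)) - ∑' j : ℤ, se (a + (2 * (j : ℝ) + 1) * e) :=
    (summable_se a he).tsum_sub (summable_se' a he)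
  have key := code_closure (δ := δ) (K := Real.log 2 * (1 - S)) hδ (fun η hη => by
    have t1 := tendsto_aff a he
    have t2 := (((tendsto_x a he).sub (tendsto_y a he)).const_sub 1).const_mul (Real.log 2)
    rw [← hS2] at t2
    have u1 : ∀ᶠ M : ℕ in atTop, (∑' j, g2 a e j) / (∑' j, g1 a e j) - η
        < Zs a e M (g2 a e) / Zs a e M (g1 a e) := t1.eventually (lt_mem_nhds (by linarith))
    have u2 := t2.eventually (lt_mem_nhds (show Real.log 2 * (1 - S) - η < Real.log 2 * (1 - S) by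
      linarith))
    obtain ⟨M, h1, h2⟩ := (u1.and u2).exists
    obtain ⟨Ω, i1, i2, s, h3, h4⟩ := (thetaData a he M (2 * M)).exists_site
    refine ⟨Ω, i1, i2, s, ?_, ?_⟩
    · rw [h4]
      have h5 : 2 * ∑ i, (thetaData a he M (2 * M)).w i
          * √((thetaData a he M (2 * M)).c i * (1 - (thetaData a he M (2 * M)).c i))
          = Zs a e M (g2 a e) / Zs a e M (g1 a e) := by
        rw [← aff_eq a he M, Finset.mul_sum]
        exact Finset.sum_congr rfl fun i _ => by ring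
      rw [h5]
      have h6 : 1 - 2 * δ ≤ (∑' j, g2 a e j) / ∑' j, g1 a e j := hD
      linarith
    · rw [h3]
      have hlc : ∀ i, (thetaData a he M (2 * M)).c i = sg (px a e M i) := fun i => rfl
      have hll : ∀ k, (thetaData a he M (2 * M)).lam k = sg (py a e M k) := fun i => rfl
      have h5 : ∀ x : ℝ, Real.negMulLog (sg x) + Real.negMulLog (1 - sg x)
          = Real.log 2 * se x := by
        intro x
        unfold se
        field_simp
      simp_rw [hlc, hll, h5]
      rw [← Finset.mul_sum, ← Finset.mul_sum]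
      refine le_trans h2.le (le_of_eq ?_)
      ring) hε
  obtain ⟨n0, h0⟩ := key
  refine ⟨n0, fun n hn C hC => ?_⟩
  have h7 := h0 n hn C hC
  have e : 1 - Real.log 2 * (1 - S) / (2 * Real.log 2) + ε = 1 / 2 + 1 / 2 * S + ε := by
    field_simp
    ring
  rw [e] at h7
  exact h7

end

end Pool.Agent.TH753.FF
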