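import Pool.Agent.TH753.FF8
import Mathlib.MeasureTheory.Integral.IntegralEqImproper

/-!
# An integral formula for the entropy
-/

open Filter Topology Set MeasureTheory

namespace Pool.Agent.TH753.FF

/-- the kernel -/
noncomputable def Lk (u v : ℝ) : ℝ := Real.log (1 + u ^ 2 * Real.sinh v ^ 2) / Real.sinh v ^ 2

lemma one_le_arg (u v : ℝ) : 1 ≤ 1 + u ^ 2 * Real.sinh v ^ 2 := by
  have : 0 ≤ u ^ 2 * Real.sinh v ^ 2 := by positivity
  linarith

lemma Lk_nonneg (u v : ℝ) : 0 ≤ Lk u v :=
  div_nonneg (Real.log_nonneg (one_le_arg u v)) (sq_nonneg _)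

/-- the entropy of rapidity `x` in nats -/
noncomputable def En (x : ℝ) : ℝ := Real.negMulLog (sg x) + Real.negMulLog (1 - sg x)

lemma se_eq (x : ℝ) : se x = En x / Real.log 2 := rfl

lemma En_eq (x : ℝ) : En x = Real.log (2 * Real.cosh x) - x * Real.tanh x := by
  have hc := Real.cosh_pos x
  have h1 : sg x = Real.exp x / (2 * Real.cosh x) := by rw [sg_eq, Real.cosh_add_sinh]
  have h2 : 1 - sg x = Real.exp (-x) / (2 * Real.cosh x) := by rw [one_sub_sg, Real.cosh_sub_sinh]
  have l1 : Real.log (sg x) = x - Real.log (2 * Real.cosh x) := by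
    rw [h1, Real.log_div (Real.exp_pos _).ne' (by positivity), Real.log_exp]
  have l2 : Real.log (1 - sg x) = -x - Real.log (2 * Real.cosh x) := by
    rw [h2, Real.log_div (Real.exp_pos _).ne' (by positivity), Real.log_exp]
  unfold En Real.negMulLog
  rw [l1, l2]
  unfold sg
  ring

/-- the factorisation -/
lemma arg_eq (x v : ℝ) : 1 + (1 / Real.cosh x) ^ 2 * Real.sinh v ^ 2
    = Real.cosh (v + x) * Real.cosh (v - x) / Real.cosh x ^ 2 := by
  have hc := (Real.cosh_pos x).ne'
  rw [Real.cosh_add, Real.cosh_sub]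
  have h1 := Real.cosh_sq x
  have h2 := Real.cosh_sq v
  field_simp
  nlinarith

lemma log_arg (x v : ℝ) : Real.log (1 + (1 / Real.cosh x) ^ 2 * Real.sinh v ^ 2)
    = Real.log (Real.cosh (v + x)) + Real.log (Real.cosh (v - x)) - 2 * Real.log (Real.cosh x) := by
  have h1 := (Real.cosh_pos x).ne'
  have h2 := (Real.cosh_pos (v + x)).ne'
  have h3 := (Real.cosh_pos (v - x)).ne'
  rw [arg_eq, Real.log_div (mul_ne_zero h2 h3) (pow_ne_zero 2 h1), Real.log_mul h2 h3,
    Real.log_pow]
  push_cast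
  ring

/-- the primitive -/
noncomputable def Ak (x v : ℝ) : ℝ :=
  -(Real.cosh v / Real.sinh v * Real.log (1 + (1 / Real.cosh x) ^ 2 * Real.sinh v ^ 2)) + 2 * v
    - Real.tanh x * (Real.log (Real.cosh (v + x)) - Real.log (Real.cosh (v - x)))

lemma Ak_zero (x : ℝ) : Ak x 0 = 0 := by
  unfold Ak
  simp

lemma Ak_deriv (x : ℝ) {v : ℝ} (hv : 0 < v) : HasDerivAt (Ak x) (Lk (1 / Real.cosh x) v) v := by
  have hs : Real.sinh v ≠ 0 := (Real.sinh_pos_iff.mpr hv).ne'
  set u := 1 / Real.cosh x with hu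
  have hpos : 0 < 1 + u ^ 2 * Real.sinh v ^ 2 := lt_of_lt_of_le one_pos (one_le_arg u v)
  have d1 : HasDerivAt (fun v => Real.cosh v / Real.sinh v)
      ((Real.sinh v * Real.sinh v - Real.cosh v * Real.cosh v) / Real.sinh v ^ 2) v :=
    (Real.hasDerivAt_cosh v).div (Real.hasDerivAt_sinh v) hs
  have d2 : HasDerivAt (fun v => 1 + u ^ 2 * Real.sinh v ^ 2)
      (u ^ 2 * (2 * Real.sinh v * Real.cosh v)) v := by
    have := (((Real.hasDerivAt_sinh v).pow 2).const_mul (u ^ 2)).const_add 1
    refine this.congr_deriv ?_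
    norm_num
  have d3 := d2.log hpos.ne'
  have d4 := (d1.mul d3).neg.add ((hasDerivAt_id v).const_mul 2)
  have d5 : HasDerivAt (fun v => Real.log (Real.cosh (v + x)))
      (Real.sinh (v + x) / Real.cosh (v + x)) v := by
    have h1 : HasDerivAt (fun v => Real.cosh (v + x)) (Real.sinh (v + x)) v :=
      ((hasDerivAt_id v).add_const x).cosh.congr_deriv (by simp)
    exact h1.log (Real.cosh_pos _).ne'
  have d6 : HasDerivAt (fun v => Real.log (Real.cosh (v - x)))
      (Real.sinh (v - x) / Real.cosh (v - x)) v := by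
    have h1 : HasDerivAt (fun v => Real.cosh (v - x)) (Real.sinh (v - x)) v :=
      ((hasDerivAt_id v).sub_const x).cosh.congr_deriv (by simp)
    exact h1.log (Real.cosh_pos _).ne'
  have d7 := d4.sub ((d5.sub d6).const_mul (Real.tanh x))
  have d8 : HasDerivAt (Ak x)
      (-((Real.sinh v * Real.sinh v - Real.cosh v * Real.cosh v) / Real.sinh v ^ 2
      * Real.log (1 + u ^ 2 * Real.sinh v ^ 2) + Real.cosh v / Real.sinh v
        * (u ^ 2 * (2 * Real.sinh v * Real.cosh v) / (1 + u ^ 2 * Real.sinh v ^ 2))) + 2 * 1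
      - Real.tanh x * (Real.sinh (v + x) / Real.cosh (v + x)
        - Real.sinh (v - x) / Real.cosh (v - x))) v := d7
  refine d8.congr_deriv ?_
  · unfold Lk
    have hcv := Real.cosh_sq v
    have hcx := Real.cosh_sq x
    have e1 : (Real.sinh v * Real.sinh v - Real.cosh v * Real.cosh v) / Real.sinh v ^ 2
        = -(1 / Real.sinh v ^ 2) := by
      rw [show Real.sinh v * Real.sinh v - Real.cosh v * Real.cosh v = -1 by nlinarith]
      ring
    have e2 : Real.cosh v / Real.sinh v
        * (u ^ 2 * (2 * Real.sinh v * Real.cosh v) / (1 + u ^ 2 * Real.sinh v ^ 2))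
        = 2 - 2 * (1 - u ^ 2) / (1 + u ^ 2 * Real.sinh v ^ 2) := by
      have : (Real.cosh v) ^ 2 = Real.sinh v ^ 2 + 1 := hcv
      field_simp
      rw [this]
      ring
    have e3 : Real.sinh (v + x) / Real.cosh (v + x) - Real.sinh (v - x) / Real.cosh (v - x)
        = 2 * Real.sinh x * Real.cosh x / (Real.cosh (v + x) * Real.cosh (v - x)) := by
      have h2 := (Real.cosh_pos (v + x)).ne'
      have h3 := (Real.cosh_pos (v - x)).ne'
      rw [div_sub_div _ _ h2 h3]
      congr 1
      rw [Real.sinh_add, Real.cosh_sub, Real.cosh_add, Real.sinh_sub]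
      linear_combination (2 * Real.sinh x * Real.cosh x) * hcv
    have e4 : 1 + u ^ 2 * Real.sinh v ^ 2
        = Real.cosh (v + x) * Real.cosh (v - x) / Real.cosh x ^ 2 := arg_eq x v
    have e5 : 2 * (1 - u ^ 2) / (1 + u ^ 2 * Real.sinh v ^ 2)
        = Real.tanh x * (2 * Real.sinh x * Real.cosh x
          / (Real.cosh (v + x) * Real.cosh (v - x))) := by
      rw [e4, hu, Real.tanh_eq_sinh_div_cosh]
      have h1 := (Real.cosh_pos x).ne'
      have h2 := (Real.cosh_pos (v + x)).ne'
      have h3 := (Real.cosh_pos (v - x)).ne'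
      field_simp
      nlinarith
    rw [e1, e2, e3, e5]
    ring

lemma Ak_cont (x : ℝ) : ContinuousWithinAt (Ak x) (Ici 0) 0 := by
  rw [ContinuousWithinAt, Ak_zero]
  have h1 : Tendsto (fun v => Real.cosh v / Real.sinh v
      * Real.log (1 + (1 / Real.cosh x) ^ 2 * Real.sinh v ^ 2)) (𝓝[Ici 0] 0) (𝓝 0) := by
    refine squeeze_zero' (g := fun v => (1 / Real.cosh x) ^ 2 * (Real.cosh v * Real.sinh v))
      ?_ ?_ ?_
    · filter_upwards [self_mem_nhdsWithin] with v hv
      exact mul_nonneg (div_nonneg (Real.cosh_pos v).le (Real.sinh_nonneg_iff.mpr hv))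
        (Real.log_nonneg (one_le_arg _ v))
    · filter_upwards [self_mem_nhdsWithin] with v hv
      rcases eq_or_lt_of_le (show (0 : ℝ) ≤ v from hv) with h | h
      · subst h; simp
      · have hs : 0 < Real.sinh v := Real.sinh_pos_iff.mpr h
        have h2 : Real.log (1 + (1 / Real.cosh x) ^ 2 * Real.sinh v ^ 2)
            ≤ (1 / Real.cosh x) ^ 2 * Real.sinh v ^ 2 := by
          have := Real.log_le_sub_one_of_pos (lt_of_lt_of_le one_pos
            (one_le_arg (1 / Real.cosh x) v))
          linarith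
        have h3 := mul_le_mul_of_nonneg_left h2 (div_nonneg (Real.cosh_pos v).le hs.le)
        refine le_trans h3 (le_of_eq ?_)
        field_simp
    · have h3 : Continuous fun v : ℝ => (1 / Real.cosh x) ^ 2 * (Real.cosh v * Real.sinh v) := by
        fun_prop
      have h4 := h3.tendsto 0
      simp only [Real.cosh_zero, Real.sinh_zero, mul_zero] at h4
      exact h4.mono_left nhdsWithin_le_nhds
  have h2 : Tendsto (fun v => 2 * v
      - Real.tanh x * (Real.log (Real.cosh (v + x)) - Real.log (Real.cosh (v - x))))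
      (𝓝[Ici 0] 0) (𝓝 0) := by
    have h3 : Continuous fun v : ℝ => 2 * v
      - Real.tanh x * (Real.log (Real.cosh (v + x)) - Real.log (Real.cosh (v - x))) := by
      refine (continuous_const.mul continuous_id).sub (continuous_const.mul (Continuous.sub ?_ ?_))
      · exact Continuous.log (by fun_prop) fun v => (Real.cosh_pos _).ne'
      · exact Continuous.log (by fun_prop) fun v => (Real.cosh_pos _).ne'
    have h4 := h3.tendsto 0
    simp only [mul_zero, zero_add, zero_sub, Real.cosh_neg, sub_self] at h4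
    exact h4.mono_left nhdsWithin_le_nhds
  have h5 := h1.neg.add h2
  simp only [neg_zero, add_zero] at h5
  refine h5.congr fun v => ?_
  unfold Ak
  ring

/-- `log cosh v - v` -/
noncomputable def rho (v : ℝ) : ℝ := Real.log (Real.cosh v) - v

lemma rho_tendsto : Tendsto rho atTop (𝓝 (-Real.log 2)) := by
  have h1 : ∀ v, rho v = Real.log ((1 + Real.exp (-(2 * v))) / 2) := by
    intro v
    unfold rho
    have h2 : Real.cosh v = Real.exp v * ((1 + Real.exp (-(2 * v))) / 2) := by
      rw [Real.cosh_eq]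
      have : Real.exp (-v) = Real.exp v * Real.exp (-(2 * v)) := by
        rw [← Real.exp_add]; congr 1; ring
      rw [this]; ring
    have h3 : 0 < (1 + Real.exp (-(2 * v))) / 2 := by positivity
    rw [h2, Real.log_mul (Real.exp_pos v).ne' h3.ne', Real.log_exp]
    ring
  have h4 : Tendsto (fun v : ℝ => (1 + Real.exp (-(2 * v))) / 2) atTop (𝓝 ((1 + 0) / 2)) := by
    refine (Tendsto.const_add 1 ?_).div_const 2
    refine Real.tendsto_exp_neg_atTop_nhds_zero.comp ?_
    exact tendsto_id.const_mul_atTop (by norm_num)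
  have h5 := (Real.continuousAt_log (show ((1 + 0) / 2 : ℝ) ≠ 0 by norm_num)).tendsto.comp h4
  have h6 : Real.log ((1 + 0) / 2) = -Real.log 2 := by
    rw [show ((1 + 0) / 2 : ℝ) = 2⁻¹ by norm_num, Real.log_inv]
  rw [h6] at h5
  refine h5.congr fun v => ?_
  rw [h1]
  rfl

lemma coth_tendsto : Tendsto (fun v => Real.cosh v / Real.sinh v) atTop (𝓝 1) ∧
    Tendsto (fun v => v * (Real.cosh v / Real.sinh v - 1)) atTop (𝓝 0) := by
  have h1 : ∀ v : ℝ, 0 < v → Real.cosh v / Real.sinh v - 1 = Real.exp (-v) / Real.sinh v := by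
    intro v hv
    have hs : Real.sinh v ≠ 0 := (Real.sinh_pos_iff.mpr hv).ne'
    rw [← Real.cosh_sub_sinh]
    field_simp
  have h2 : Tendsto (fun v => v * (Real.cosh v / Real.sinh v - 1)) atTop (𝓝 0) := by
    refine squeeze_zero' (g := fun v => Real.exp (-v)) ?_ ?_ Real.tendsto_exp_neg_atTop_nhds_zero
    · filter_upwards [eventually_gt_atTop 0] with v hv
      rw [h1 v hv]
      exact mul_nonneg hv.le (div_nonneg (Real.exp_pos _).le (Real.sinh_pos_iff.mpr hv).le)
    · filter_upwards [eventually_gt_atTop 0] with v hv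
      rw [h1 v hv, mul_div_assoc', div_le_iff₀ (Real.sinh_pos_iff.mpr hv), mul_comm]
      exact mul_le_mul_of_nonneg_left (Real.self_le_sinh_iff.mpr hv.le) (Real.exp_pos _).le
  refine ⟨?_, h2⟩
  have h3 : Tendsto (fun v => Real.cosh v / Real.sinh v - 1) atTop (𝓝 0) := by
    refine squeeze_zero' (g := fun v => v * (Real.cosh v / Real.sinh v - 1)) ?_ ?_ h2
    · filter_upwards [eventually_gt_atTop 0] with v hv
      rw [h1 v hv]
      exact div_nonneg (Real.exp_pos _).le (Real.sinh_pos_iff.mpr hv).le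
    · filter_upwards [eventually_ge_atTop 1] with v hv
      have h4 : 0 ≤ Real.cosh v / Real.sinh v - 1 := by
        rw [h1 v (by linarith)]
        exact div_nonneg (Real.exp_pos _).le (Real.sinh_pos_iff.mpr (by linarith)).le
      nlinarith
  have h5 := h3.add_const 1
  simpa using h5

lemma Ak_tendsto (x : ℝ) : Tendsto (Ak x) atTop (𝓝 (2 * En x)) := by
  obtain ⟨c1, c2⟩ := coth_tendsto
  have r1 : Tendsto (fun v => rho (v + x)) atTop (𝓝 (-Real.log 2)) :=
    rho_tendsto.comp (tendsto_atTop_add_const_right _ x tendsto_id)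
  have r2 : Tendsto (fun v => rho (v - x)) atTop (𝓝 (-Real.log 2)) :=
    rho_tendsto.comp (tendsto_atTop_add_const_right _ (-x) tendsto_id)
  have key : ∀ v, Ak x v = -(2 * (v * (Real.cosh v / Real.sinh v - 1)))
      - Real.cosh v / Real.sinh v * (rho (v + x) + rho (v - x) - 2 * Real.log (Real.cosh x))
      - Real.tanh x * (2 * x + (rho (v + x) - rho (v - x))) := by
    intro v
    unfold Ak
    rw [log_arg]
    unfold rho
    ring
  have t := ((c2.const_mul 2).neg.sub (c1.mul ((r1.add r2).sub_const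
    (2 * Real.log (Real.cosh x))))).sub (((r1.sub r2).const_add (2 * x)).const_mul (Real.tanh x))
  have e : -(2 * (0 : ℝ)) - 1 * (-Real.log 2 + -Real.log 2 - 2 * Real.log (Real.cosh x))
      - Real.tanh x * (2 * x + (-Real.log 2 - -Real.log 2)) = 2 * En x := by
    rw [En_eq, Real.log_mul (by norm_num) (Real.cosh_pos x).ne']
    ring
  rw [e] at t
  exact t.congr fun v => (key v).symm

/-- integrability -/
lemma Lk_int (x : ℝ) : IntegrableOn (Lk (1 / Real.cosh x)) (Ioi 0) :=
  integrableOn_Ioi_deriv_of_nonneg (Ak_cont x) (fun _ hv => Ak_deriv x hv)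
    (fun _ _ => Lk_nonneg _ _) (Ak_tendsto x)

/-- **The entropy as an integral.** -/
lemma integral_Lk (x : ℝ) : ∫ v in Ioi 0, Lk (1 / Real.cosh x) v = 2 * En x := by
  rw [integral_Ioi_of_hasDerivAt_of_nonneg (Ak_cont x) (fun _ hv => Ak_deriv x hv)
    (fun _ _ => Lk_nonneg _ _) (Ak_tendsto x), Ak_zero, sub_zero]

end Pool.Agent.TH753.FF
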