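import Pool.Agent.H235R2.QLP.Final

/-!
# Matrices and spectral data
-/

open Finset Matrix

namespace Pool.Agent.TH753.MB

open Pool.Agent.H390R2.LP Pool.Agent.H235R2.QLP

variable {ι : Type} [Fintype ι] [DecidableEq ι]

/-- orthonormality of a family indexed by the coordinates -/
def ON (u : ι → ι → ℝ) : Prop := ∀ a b, ∑ ω, u a ω * u b ω = if a = b then 1 else 0

/-- the matrix with eigenvectors `u` and eigenvalues `l` -/
noncomputable def mat (u : ι → ι → ℝ) (l : ι → ℝ) : Matrix ι ι ℝ :=
  Matrix.of fun i j => ∑ a, l a * u a i * u a j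

lemma mat_eq (u : ι → ι → ℝ) (l : ι → ℝ) :
    mat u l = (Matrix.of u)ᵀ * (Matrix.diagonal l * Matrix.of u) := by
  ext i j
  simp only [mat, Matrix.of_apply]
  rw [Matrix.mul_apply]
  refine Finset.sum_congr rfl fun a _ => ?_
  rw [Matrix.diagonal_mul]
  simp only [Matrix.transpose_apply, Matrix.of_apply]
  ring

lemma on_mul {u : ι → ι → ℝ} (h : ON u) : (Matrix.of u) * (Matrix.of u)ᵀ = 1 := by
  ext a b
  simp only [Matrix.mul_apply, Matrix.transpose_apply, Matrix.of_apply, Matrix.one_apply]
  exact h a b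

lemma mat_isHermitian (u : ι → ι → ℝ) (l : ι → ℝ) : (mat u l).IsHermitian := by
  ext i j
  simp only [mat, Matrix.conjTranspose_apply, Matrix.of_apply, star_trivial]
  exact Finset.sum_congr rfl fun a _ => by ring

lemma mat_posSemidef (u : ι → ι → ℝ) (l : ι → ℝ) (hl : ∀ a, 0 ≤ l a) : (mat u l).PosSemidef := by
  rw [mat_eq, ← Matrix.mul_assoc]
  have h := (Matrix.PosSemidef.diagonal (n := ι) (R := ℝ) (d := l) (fun a => hl a)).conjTranspose_mul_mul_same (Matrix.of u)
  simpa [Matrix.conjTranspose_eq_transpose_of_trivial] using h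

/-- the eigenvalues of `mat u l` are the numbers `l a` -/
lemma sum_eigenvalues {u : ι → ι → ℝ} (h : ON u) (l : ι → ℝ) (M : Matrix ι ι ℝ) (hM : M.IsHermitian)
    (he : M = mat u l) (f : ℝ → ℝ) : ∑ i, f (hM.eigenvalues i) = ∑ a, f (l a) := by
  have h1 : M.charpoly = ∏ a, (Polynomial.X - Polynomial.C (l a)) := by
    rw [he, mat_eq, Matrix.charpoly_mul_comm, Matrix.mul_assoc, on_mul h, Matrix.mul_one,
      Matrix.charpoly_diagonal]
  have h2 : M.charpoly.roots = Multiset.map l Finset.univ.val := by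
    rw [h1, Polynomial.roots_prod]
    · simp
    · simp [Finset.prod_ne_zero_iff, Polynomial.X_sub_C_ne_zero]
  have h3 := hM.roots_charpoly_eq_eigenvalues
  rw [h2] at h3
  have h4 : Multiset.map l Finset.univ.val = Multiset.map hM.eigenvalues Finset.univ.val := by
    rw [h3]
    rfl
  have h5 : ∑ a, f (l a) = (Multiset.map f (Multiset.map l Finset.univ.val)).sum := by
    rw [Multiset.map_map]; rfl
  have h6 : ∑ i, f (hM.eigenvalues i)
      = (Multiset.map f (Multiset.map hM.eigenvalues Finset.univ.val)).sum := by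
    rw [Multiset.map_map]; rfl
  rw [h5, h6, h4]

/-- the spectral theorem in coordinates -/
lemma exists_spec (M : Matrix ι ι ℝ) (hM : M.IsHermitian) :
    ∃ u : ι → ι → ℝ, ON u ∧ M = mat u hM.eigenvalues := by
  set U : Matrix ι ι ℝ := (hM.eigenvectorUnitary : Matrix ι ι ℝ) with hU
  refine ⟨fun a ω => U ω a, ?_, ?_⟩
  · have h1 : star U * U = 1 := by
      rw [hU]; exact Unitary.coe_star_mul_self _
    intro a b
    have h2 := congrFun (congrFun h1 a) b
    rw [Matrix.mul_apply, Matrix.one_apply] at h2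
    rw [← h2]
    refine Finset.sum_congr rfl fun ω _ => ?_
    rw [Matrix.star_apply, star_trivial]
  · have h3 := hM.spectral_theorem
    rw [Unitary.conjStarAlgAut_apply] at h3
    have h4 : M = U * Matrix.diagonal hM.eigenvalues * star U := by
      rw [hU]
      exact h3
    ext i j
    have h5 := congrFun (congrFun h4 i) j
    rw [h5, Matrix.mul_apply]
    simp only [mat, Matrix.of_apply]
    refine Finset.sum_congr rfl fun a _ => ?_
    rw [Matrix.mul_diagonal, Matrix.star_apply, star_trivial]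
    ring

lemma mat_trace {u : ι → ι → ℝ} (h : ON u) (l : ι → ℝ) : (mat u l).trace = ∑ a, l a := by
  unfold Matrix.trace mat
  simp only [Matrix.diag_apply, Matrix.of_apply]
  rw [Finset.sum_comm]
  refine Finset.sum_congr rfl fun a _ => ?_
  have := h a a
  rw [if_pos rfl] at this
  simp_rw [mul_assoc]
  rw [← Finset.mul_sum, this, mul_one]

lemma mat_mul_trace (u v : ι → ι → ℝ) (l m : ι → ℝ) :
    (mat u l * mat v m).trace = ∑ a, ∑ b, l a * m b * (∑ ω, u a ω * v b ω) ^ 2 := by
  unfold Matrix.trace mat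
  simp only [Matrix.diag_apply, Matrix.mul_apply, Matrix.of_apply]
  calc ∑ i, ∑ j, (∑ a, l a * u a i * u a j) * ∑ b, m b * v b j * v b i
      = ∑ i, ∑ j, ∑ a, ∑ b, (l a * m b) * ((u a i * v b i) * (u a j * v b j)) := by
        refine Finset.sum_congr rfl fun i _ => Finset.sum_congr rfl fun j _ => ?_
        rw [Finset.sum_mul_sum]
        refine Finset.sum_congr rfl fun a _ => Finset.sum_congr rfl fun b _ => ?_
        ring
    _ = ∑ a, ∑ b, ∑ i, ∑ j, (l a * m b) * ((u a i * v b i) * (u a j * v b j)) := by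
        have e1 : ∀ i, ∑ j, ∑ a, ∑ b, (l a * m b) * ((u a i * v b i) * (u a j * v b j))
            = ∑ a, ∑ b, ∑ j, (l a * m b) * ((u a i * v b i) * (u a j * v b j)) := by
          intro i
          rw [Finset.sum_comm]
          refine Finset.sum_congr rfl fun a _ => ?_
          rw [Finset.sum_comm]
        simp_rw [e1]
        rw [Finset.sum_comm]
        refine Finset.sum_congr rfl fun a _ => ?_
        rw [Finset.sum_comm]
    _ = _ := by
        refine Finset.sum_congr rfl fun a _ => Finset.sum_congr rfl fun b _ => ?_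
        rw [sq, Finset.sum_mul_sum, Finset.mul_sum]
        refine Finset.sum_congr rfl fun i _ => ?_
        rw [Finset.mul_sum]

lemma mat_sq {u : ι → ι → ℝ} (h : ON u) (l : ι → ℝ) : mat u l ^ 2 = mat u (fun a => l a ^ 2) := by
  rw [sq, mat_eq, mat_eq]
  have e := on_mul h
  calc (Matrix.of u)ᵀ * (Matrix.diagonal l * Matrix.of u) * ((Matrix.of u)ᵀ * (Matrix.diagonal l * Matrix.of u))
      = (Matrix.of u)ᵀ * (Matrix.diagonal l * (Matrix.of u * (Matrix.of u)ᵀ) * Matrix.diagonal l * Matrix.of u) := by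
        simp only [Matrix.mul_assoc]
    _ = _ := by
        rw [e, Matrix.mul_one, Matrix.diagonal_mul_diagonal]
        congr 3
        ext a
        ring_nf

end Pool.Agent.TH753.MB
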