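import Pool.Agent.TH753.MB2

/-!
# Code bound, and the pair of matrices of a site
-/

open Finset Matrix

namespace Pool.Agent.TH753.MB

open Pool.Agent.H390R2.LP Pool.Agent.H235R2.QLP

/-- The bound on binary codes given by a site of energy at most `δ`. -/
theorem code_bound {Ω : Type} [Fintype Ω] [DecidableEq Ω] (s : Site Ω (Fin 2)) {δ ε : ℝ}
    (hδ : 0 < δ) (hE : EH s ≤ δ) (hε : 0 < ε) : ∃ n0 : ℕ, ∀ n ≥ n0, ∀ C : Finset (Fin n → Bool),
      (∀ x ∈ C, ∀ y ∈ C, x ≠ y → δ * n ≤ hammingDist x y) →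
      (C.card : ℝ) ≤ (2 : ℝ) ^ ((1 - cc s / Real.log 2 + ε) * n) := by
  have hlog : 0 < Real.log 2 := Real.log_pos (by norm_num)
  set t : ℝ := min (1 / 2) (ε * Real.log 2 / (2 * (|cc s| + 1))) with ht
  have hden : 0 < 2 * (|cc s| + 1) := by positivity
  have ht0 : 0 < t := lt_min (by norm_num) (by positivity)
  have ht1 : t ≤ 1 / 2 := min_le_left _ _
  have ht2 : t * (|cc s| + 1) ≤ ε * Real.log 2 / 2 := by
    have h1 : t ≤ ε * Real.log 2 / (2 * (|cc s| + 1)) := min_le_right _ _
    rw [le_div_iff₀ hden] at h1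
    linarith
  set s' := mix s (triv (0 : Fin 2)) (1 - t) (by linarith) (by linarith) with hs'
  have hE' : EH s' < δ := by
    rw [hs', EH_mix, EH_triv, mul_zero, add_zero]
    have : (1 - t) * EH s ≤ (1 - t) * δ := mul_le_mul_of_nonneg_left hE (by linarith)
    nlinarith
  have hcc : cc s' = (1 - t) * cc s := by
    rw [hs', cc_mix, cc_triv, mul_zero, add_zero]
  obtain ⟨n0, hn0⟩ := card_le_of_iid iid (by norm_num : 0 < 2) s' hE'
    (η := ε * Real.log 2 / 2) (by positivity)
  refine ⟨n0, fun n hn C hC => ?_⟩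
  have e : Bool ≃ Fin 2 := (finTwoEquiv).symm
  have hinj : Function.Injective (fun (x : Fin n → Bool) (k : Fin n) => e (x k)) := by
    intro x y hxy
    funext k
    exact e.injective (congrFun hxy k)
  have h2 := hn0 n hn (C.map ⟨fun x k => e (x k), hinj⟩) (by
    intro x hx y hy hxy
    simp only [Finset.mem_map, Function.Embedding.coeFn_mk] at hx hy
    obtain ⟨a, ha, rfl⟩ := hx
    obtain ⟨b, hb, rfl⟩ := hy
    have hab : a ≠ b := fun h => hxy (by rw [h])
    have h3 : hammingDist (fun k => e (a k)) (fun k => e (b k)) = hammingDist a b :=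
      hammingDist_comp (fun _ => e) (fun _ => e.injective)
    rw [h3]
    exact hC a ha b hb hab)
  rw [Finset.card_map] at h2
  refine le_trans h2 ?_
  push_cast
  rw [Real.rpow_def_of_pos (by norm_num : (0 : ℝ) < 2),
    ← Real.exp_log (show (0 : ℝ) < (2 : ℝ) ^ n by positivity), ← Real.exp_add, Real.log_pow]
  apply Real.exp_le_exp.mpr
  rw [hcc]
  have h5 : Real.log 2 * ((1 - cc s / Real.log 2 + ε) * n)
      = (Real.log 2 - cc s + ε * Real.log 2) * n := by
    field_simp
  rw [h5]
  have h6 : t * cc s ≤ ε * Real.log 2 / 2 := by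
    have : cc s ≤ |cc s| + 1 := by linarith [le_abs_self (cc s)]
    exact le_trans (mul_le_mul_of_nonneg_left this ht0.le) ht2
  have hn : (0 : ℝ) ≤ n := Nat.cast_nonneg n
  have h7 : ↑n * Real.log 2 + -(↑n * ((1 - t) * cc s - ε * Real.log 2 / 2))
      = (Real.log 2 - cc s + (t * cc s + ε * Real.log 2 / 2)) * n := by ring
  rw [h7]
  exact mul_le_mul_of_nonneg_right (by linarith) hn

variable {ι : Type} [Fintype ι] [DecidableEq ι]

/-- sum of `-x log x` over the eigenvalues -/
noncomputable def ent (M : Matrix ι ι ℝ) (h : M.IsHermitian) : ℝ :=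
  ∑ i, Real.negMulLog (h.eigenvalues i)

lemma ent_mat {u : ι → ι → ℝ} (hu : ON u) (l : ι → ℝ) (M : Matrix ι ι ℝ) (h : M.IsHermitian)
    (he : M = mat u l) : ent M h = ∑ a, Real.negMulLog (l a) :=
  sum_eigenvalues hu l M h he Real.negMulLog

/-- from matrices to spectral data -/
theorem exists_pair (P Q : Matrix ι ι ℝ) (hP : P.PosSemidef) (hQ : Q.PosSemidef)
    (htr : (P ^ 2 + Q ^ 2).trace = 1) (h1 : (P ^ 2).IsHermitian) (h2 : (Q ^ 2).IsHermitian)
    (h3 : (P ^ 2 + Q ^ 2).IsHermitian) :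
    ∃ d : Pair ι, cc d.site = Real.log 2 - (ent _ h1 + ent _ h2 - ent _ h3) ∧
      EH d.site = 1 / 2 - (P * Q).trace := by
  obtain ⟨u, hu, hPu⟩ := exists_spec P hP.isHermitian
  obtain ⟨v, hv, hQv⟩ := exists_spec Q hQ.isHermitian
  obtain ⟨w, hw, hMw⟩ := exists_spec _ h3
  have hP2 : P ^ 2 = mat u (fun a => hP.isHermitian.eigenvalues a ^ 2) := by
    conv_lhs => rw [hPu]
    exact mat_sq hu _
  have hQ2 : Q ^ 2 = mat v (fun a => hQ.isHermitian.eigenvalues a ^ 2) := by
    conv_lhs => rw [hQv]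
    exact mat_sq hv _
  refine ⟨⟨u, v, w, hP.isHermitian.eigenvalues, hQ.isHermitian.eigenvalues, h3.eigenvalues,
    hu, hv, hw, hP.eigenvalues_nonneg, hQ.eigenvalues_nonneg, ?_, ?_⟩, ?_, ?_⟩
  · rw [Matrix.trace_add, hP2, hQ2, mat_trace hu, mat_trace hv] at htr
    exact htr
  · rw [← hP2, ← hQ2]
    exact hMw
  · rw [Pair.cc_site, ent_mat hu _ _ h1 hP2, ent_mat hv _ _ h2 hQ2, ent_mat hw _ _ h3 hMw]
  · rw [Pair.EH_site]
    congr 1
    rw [← hPu, ← hQv]

section ofSite

variable (s : Site ι (Fin 2))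

/-- twisted eigenvectors -/
noncomputable def zu (a ω : ι) : ℝ := sg (s.pos ω) * s.u a ω

lemma zu_on : ON (zu s) := by
  intro a b
  rw [← s.u_orth a b]
  refine Finset.sum_congr rfl fun ω _ => ?_
  unfold zu
  linear_combination (s.u a ω * s.u b ω) * sg_mul_self (s.pos ω)

lemma sg_mul (x y : Fin 2) : 1 + sg x * sg y = if x = y then 2 else 0 := by
  rcases fin2_cases x with rfl | rfl <;> rcases fin2_cases y with rfl | rfl <;>
    simp [sg] <;> norm_num

/-- the dephased state -/
lemma dephase : mat s.u (fun a => s.lam a / 2) + mat (zu s) (fun a => s.lam a / 2) = mat s.w s.g := by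
  set W : Matrix ι ι ℝ := Matrix.of s.w with hW
  have hWW : W * Wᵀ = 1 := on_mul s.w_orth
  have hWW' : Wᵀ * W = 1 := mul_eq_one_comm.mp hWW
  set M := mat s.u (fun a => s.lam a / 2) + mat (zu s) (fun a => s.lam a / 2) with hM
  have hMij : ∀ i j, M i j = if s.pos i = s.pos j then ∑ a, s.lam a * s.u a i * s.u a j else 0 := by
    intro i j
    have e1 : M i j = ∑ a, (s.lam a / 2) * s.u a i * s.u a j * (1 + sg (s.pos i) * sg (s.pos j)) := by
      rw [hM]
      simp only [Matrix.add_apply, mat, Matrix.of_apply, zu]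
      rw [← Finset.sum_add_distrib]
      exact Finset.sum_congr rfl fun a _ => by ring
    rw [e1, ← Finset.sum_mul, sg_mul]
    split_ifs with h
    · rw [Finset.sum_mul]
      exact Finset.sum_congr rfl fun a _ => by ring
    · rw [mul_zero]
  have key : W * M * Wᵀ = Matrix.diagonal s.g := by
    ext c c'
    have e2 : (W * M * Wᵀ) c c' = ∑ i, ∑ j, s.w c i * M i j * s.w c' j := by
      rw [Matrix.mul_apply]
      simp only [Matrix.mul_apply, Matrix.transpose_apply, hW, Matrix.of_apply]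
      rw [Finset.sum_comm]
      refine Finset.sum_congr rfl fun j _ => ?_
      rw [Finset.sum_mul]
    rw [e2]
    by_cases hl : s.lab c = s.lab c'
    · have e3 : ∀ i j, s.w c i * M i j * s.w c' j
          = s.w c i * (∑ a, s.lam a * s.u a i * s.u a j) * s.w c' j := by
        intro i j
        by_cases hi : s.pos i = s.lab c
        · by_cases hj : s.pos j = s.lab c'
          · rw [hMij, if_pos (by rw [hi, hj, hl])]
          · rw [s.w_supp c' j hj]; ring
        · rw [s.w_supp c i hi]; ring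
      simp_rw [e3]
      have e4 := mat_form s.u s.lam (s.w c) (s.w c')
      simp only [mat, Matrix.of_apply] at e4
      rw [e4]
      have := s.w_diag c c' hl
      rw [this]
      by_cases h : c = c'
      · subst h; simp
      · simp [h]
    · have hne : c ≠ c' := fun h => hl (by rw [h])
      rw [Matrix.diagonal_apply_ne _ hne]
      refine Finset.sum_eq_zero fun i _ => Finset.sum_eq_zero fun j _ => ?_
      by_cases hi : s.pos i = s.lab c
      · by_cases hj : s.pos j = s.lab c'
        · rw [hMij, if_neg (by rw [hi, hj]; exact hl)]; ring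
        · rw [s.w_supp c' j hj]; ring
      · rw [s.w_supp c i hi]; ring
  calc M = (Wᵀ * W) * M * (Wᵀ * W) := by rw [hWW']; simp
    _ = Wᵀ * (W * M * Wᵀ) * W := by simp only [Matrix.mul_assoc]
    _ = Wᵀ * Matrix.diagonal s.g * W := by rw [key]
    _ = mat s.w s.g := by rw [mat_eq, hW]; simp only [Matrix.mul_assoc]

/-- Every site is given by a pair of positive semidefinite matrices. -/
theorem pair_of_site : ∃ P Q : Matrix ι ι ℝ, P.PosSemidef ∧ Q.PosSemidef ∧
    (P ^ 2 + Q ^ 2).trace = 1 ∧ (P * Q).trace = 1 / 2 - EH s ∧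
    ∀ (h1 : (P ^ 2).IsHermitian) (h2 : (Q ^ 2).IsHermitian) (h3 : (P ^ 2 + Q ^ 2).IsHermitian),
      ent _ h1 + ent _ h2 - ent _ h3 = Real.log 2 - cc s := by
  set r : ι → ℝ := fun a => √(s.lam a / 2) with hr
  have hr0 : ∀ a, 0 ≤ r a := fun a => Real.sqrt_nonneg _
  have hr2 : ∀ a, r a ^ 2 = s.lam a / 2 := fun a => Real.sq_sqrt (by
    have := s.lam_nonneg a
    positivity)
  have hP2 : mat s.u r ^ 2 = mat s.u (fun a => s.lam a / 2) := by
    rw [mat_sq s.u_orth]
    congr 1
    funext a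
    exact hr2 a
  have hQ2 : mat (zu s) r ^ 2 = mat (zu s) (fun a => s.lam a / 2) := by
    rw [mat_sq (zu_on s)]
    congr 1
    funext a
    exact hr2 a
  refine ⟨mat s.u r, mat (zu s) r, mat_posSemidef _ _ hr0, mat_posSemidef _ _ hr0, ?_, ?_, ?_⟩
  · rw [hP2, hQ2, Matrix.trace_add, mat_trace s.u_orth, mat_trace (zu_on s)]
    rw [← Finset.sum_add_distrib, ← s.lam_sum]
    exact Finset.sum_congr rfl fun a _ => by ring
  · rw [mat_mul_trace]
    unfold EH G
    rw [Fin.sum_univ_two, ← Finset.sum_add_distrib]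
    have e1 : ∀ a b, r a * r b = 1 / 2 * √(s.lam a * s.lam b) := by
      intro a b
      rw [hr]
      simp only
      have h4 : s.lam a / 2 * (s.lam b / 2) = (1 / 2) ^ 2 * (s.lam a * s.lam b) := by ring
      rw [← Real.sqrt_mul (by have := s.lam_nonneg a; positivity), h4,
        Real.sqrt_mul (by positivity), Real.sqrt_sq (by norm_num)]
    have e2 : ∀ a b, ∑ ω, s.u a ω * zu s b ω
        = (∑ ω, if s.pos ω = 0 then s.u a ω * s.u b ω else 0)
          - (∑ ω, if s.pos ω = 1 then s.u a ω * s.u b ω else 0) := by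
      intro a b
      rw [← Finset.sum_sub_distrib]
      refine Finset.sum_congr rfl fun ω _ => ?_
      unfold zu
      rcases fin2_cases (s.pos ω) with h | h <;> simp [h, sg]
    have e3 : ∀ a b, (∑ ω, if s.pos ω = 0 then s.u a ω * s.u b ω else 0)
          + (∑ ω, if s.pos ω = 1 then s.u a ω * s.u b ω else 0) = if a = b then 1 else 0 := by
      intro a b
      rw [← s.u_orth a b, ← Finset.sum_add_distrib]
      refine Finset.sum_congr rfl fun ω _ => ?_
      rcases fin2_cases (s.pos ω) with h | h <;> simp [h]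
    have e4 : ∑ a, ∑ b, r a * r b * (∑ ω, s.u a ω * zu s b ω) ^ 2
        = ∑ a, (∑ b, √(s.lam a * s.lam b) * (∑ ω, if s.pos ω = 0 then s.u a ω * s.u b ω else 0) ^ 2
          + ∑ b, √(s.lam a * s.lam b) * (∑ ω, if s.pos ω = 1 then s.u a ω * s.u b ω else 0) ^ 2)
          - ∑ a, s.lam a / 2 := by
      rw [← Finset.sum_sub_distrib]
      refine Finset.sum_congr rfl fun a _ => ?_
      have e5 : s.lam a / 2 = ∑ b, 1 / 2 * √(s.lam a * s.lam b) * (if a = b then 1 else 0) := by
        simp [Real.sqrt_mul_self (s.lam_nonneg a)]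
        ring
      rw [e5, ← Finset.sum_add_distrib, ← Finset.sum_sub_distrib]
      refine Finset.sum_congr rfl fun b _ => ?_
      rw [e1, e2]
      have e6 := e3 a b
      have e7 : (if a = b then (1 : ℝ) else 0) ^ 2 = if a = b then 1 else 0 := by
        split_ifs <;> norm_num
      rw [← e7, ← e6]
      ring
    rw [e4, ← Finset.sum_div, s.lam_sum]
    rw [Finset.sum_add_distrib]
    ring
  · intro h1 h2 h3
    rw [ent_mat s.u_orth _ _ h1 hP2, ent_mat (zu_on s) _ _ h2 hQ2,
      ent_mat s.w_orth s.g _ h3 (by rw [hP2, hQ2]; exact dephase s)]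
    have e8 : ∑ a, Real.negMulLog (s.lam a / 2) = Real.negMulLog (1 / 2)
        + (1 / 2) * ∑ a, Real.negMulLog (s.lam a) := by
      rw [← negMulLog_sum (1 / 2) s.lam s.lam_sum]
      exact Finset.sum_congr rfl fun x _ => by congr 1; ring
    have e9 : Real.negMulLog (1 / 2) = 1 / 2 * Real.log 2 := by
      unfold Real.negMulLog
      rw [one_div, Real.log_inv]; ring
    rw [e8, e9]
    unfold cc Site.h Site.S
    ring

end ofSite

end Pool.Agent.TH753.MB
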