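import Mathlib

/-!
Linear symplectic maps of `ℝ²ⁿ`: transitivity on hyperbolic pairs by transvections.
-/

set_option autoImplicit false

open MeasureTheory Set

namespace Pool.Agent.TH753.VT

/-- phase space -/
abbrev Ph (n : ℕ) : Type := (Fin n → ℝ) × (Fin n → ℝ)

/-- the symplectic form -/
def om {n : ℕ} (v w : Ph n) : ℝ := ∑ i, (v.1 i * w.2 i - v.2 i * w.1 i)

variable {n : ℕ}

theorem om_add_left (u v w : Ph n) : om (u + v) w = om u w + om v w := by
  unfold om
  rw [← Finset.sum_add_distrib]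
  exact Finset.sum_congr rfl fun i _ => by simp only [Prod.fst_add, Prod.snd_add, Pi.add_apply]; ring

theorem om_smul_left (c : ℝ) (v w : Ph n) : om (c • v) w = c * om v w := by
  unfold om
  rw [Finset.mul_sum]
  exact Finset.sum_congr rfl fun i _ => by
    simp only [Prod.smul_fst, Prod.smul_snd, Pi.smul_apply, smul_eq_mul]; ring

theorem om_swap (v w : Ph n) : om v w = -om w v := by
  unfold om
  rw [← Finset.sum_neg_distrib]
  exact Finset.sum_congr rfl fun i _ => by ring

theorem om_self (v : Ph n) : om v v = 0 := by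
  have := om_swap v v
  linarith

theorem om_add_right (u v w : Ph n) : om u (v + w) = om u v + om u w := by
  rw [om_swap, om_add_left, om_swap u v, om_swap u w]; ring

theorem om_smul_right (c : ℝ) (v w : Ph n) : om v (c • w) = c * om v w := by
  rw [om_swap, om_smul_left, om_swap v w]; ring

theorem om_neg_left (v w : Ph n) : om (-v) w = -om v w := by
  have := om_smul_left (-1) v w
  rwa [neg_one_smul, neg_one_mul] at this

theorem om_neg_right (v w : Ph n) : om v (-w) = -om v w := by
  rw [om_swap, om_neg_left, om_swap v w]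

theorem om_sub_left (u v w : Ph n) : om (u - v) w = om u w - om v w := by
  rw [sub_eq_add_neg, om_add_left, om_neg_left]; ring

theorem om_sub_right (u v w : Ph n) : om u (v - w) = om u v - om u w := by
  rw [sub_eq_add_neg, om_add_right, om_neg_right]; ring

/-- nondegeneracy -/
theorem om_nondeg {u : Ph n} (h : ∀ w, om u w = 0) : u = 0 := by
  have h1 : ∀ k, u.1 k = 0 := by
    intro k
    have := h (0, Pi.single k 1)
    simpa [om, Pi.single_apply] using this
  have h2 : ∀ k, u.2 k = 0 := by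
    intro k
    have := h (Pi.single k 1, 0)
    simpa [om, Pi.single_apply] using this
  exact Prod.ext (funext h1) (funext h2)

/-- linear symplectic maps -/
def Symp (T : Ph n →ₗ[ℝ] Ph n) : Prop := ∀ v w, om (T v) (T w) = om v w

theorem Symp.inj {T : Ph n →ₗ[ℝ] Ph n} (h : Symp T) : Function.Injective T := by
  rw [← LinearMap.ker_eq_bot, LinearMap.ker_eq_bot']
  intro u hu
  refine om_nondeg fun w => ?_
  rw [← h u w, hu]
  simp [om]

theorem Symp.comp {T S : Ph n →ₗ[ℝ] Ph n} (hT : Symp T) (hS : Symp S) : Symp (T ∘ₗ S) :=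
  fun v w => by rw [LinearMap.comp_apply, LinearMap.comp_apply, hT, hS]

theorem Symp.id : Symp (LinearMap.id : Ph n →ₗ[ℝ] Ph n) := fun _ _ => rfl

/-- the transvection `z ↦ z + c ω(w, z) w` -/
def trv (c : ℝ) (w : Ph n) : Ph n →ₗ[ℝ] Ph n where
  toFun z := z + (c * om w z) • w
  map_add' x y := by rw [om_add_right]; module
  map_smul' a x := by rw [om_smul_right, RingHom.id_apply]; module

theorem trv_apply (c : ℝ) (w z : Ph n) : trv c w z = z + (c * om w z) • w := rfl

theorem trv_symp (c : ℝ) (w : Ph n) : Symp (trv c w) := by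
  intro u v
  simp only [trv_apply, om_add_left, om_add_right, om_smul_left, om_smul_right, om_self]
  rw [om_swap u w]
  ring

/-- a transvection taking `u` to `v` when `ω(u,v) ≠ 0` -/
theorem trv_maps {u v : Ph n} (h : om u v ≠ 0) : trv (1 / om v u) (v - u) u = v := by
  have h' : om v u ≠ 0 := by rw [om_swap]; exact neg_ne_zero.2 h
  rw [trv_apply, om_sub_left, om_self, sub_zero, one_div, inv_mul_cancel₀ h', one_smul]
  abel

theorem trv_fix {w z : Ph n} (c : ℝ) (h : om w z = 0) : trv c w z = z := by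
  rw [trv_apply, h, mul_zero, zero_smul, add_zero]

/-- transitivity on nonzero vectors -/
theorem exists_symp_one {u v : Ph n} (hu : u ≠ 0) (hv : v ≠ 0) :
    ∃ T : Ph n →ₗ[ℝ] Ph n, Symp T ∧ T u = v := by
  by_cases h : om u v = 0
  · -- choose `w` with `ω(u,w) ≠ 0`, `ω(w,v) ≠ 0`
    obtain ⟨w, hw1, hw2⟩ : ∃ w, om u w ≠ 0 ∧ om w v ≠ 0 := by
      obtain ⟨a, ha⟩ : ∃ a, om u a ≠ 0 := by
        by_contra hcon
        push Not at hcon
        exact hu (om_nondeg hcon)
      obtain ⟨b, hb⟩ : ∃ b, om v b ≠ 0 := by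
        by_contra hcon
        push Not at hcon
        exact hv (om_nondeg hcon)
      have hb' : om b v ≠ 0 := by rw [om_swap]; exact neg_ne_zero.2 hb
      by_cases h1 : om a v = 0
      · by_cases h2 : om u b = 0
        · refine ⟨a + b, ?_, ?_⟩
          · rw [om_add_right, h2, add_zero]; exact ha
          · rw [om_add_left, h1, zero_add]; exact hb'
        · exact ⟨b, h2, hb'⟩
      · exact ⟨a, ha, h1⟩
    exact ⟨trv (1 / om v w) (v - w) ∘ₗ trv (1 / om w u) (w - u),
      (trv_symp _ _).comp (trv_symp _ _), by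
        rw [LinearMap.comp_apply, trv_maps hw1, trv_maps hw2]⟩
  · exact ⟨_, trv_symp _ _, trv_maps h⟩

/-- transitivity on hyperbolic pairs -/
theorem exists_symp_pair {u v u' v' : Ph n} (h : om u v = 1) (h' : om u' v' = 1) :
    ∃ T : Ph n →ₗ[ℝ] Ph n, Symp T ∧ T u = u' ∧ T v = v' := by
  have hu : u ≠ 0 := by
    rintro rfl
    simp [om] at h
  have hu' : u' ≠ 0 := by
    rintro rfl
    simp [om] at h'
  obtain ⟨S, hS, hSu⟩ := exists_symp_one hu hu'
  have hb : om u' (S v) = 1 := by rw [← hSu, hS, h]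
  -- now move `S v` to `v'` fixing `u'`
  have key : ∀ a b : Ph n, om u' a = 1 → om u' b = 1 → om a b ≠ 0 →
      ∃ T : Ph n →ₗ[ℝ] Ph n, Symp T ∧ T u' = u' ∧ T a = b := by
    intro a b ha hb hab
    refine ⟨_, trv_symp _ _, trv_fix _ ?_, trv_maps hab⟩
    rw [om_swap, om_sub_right, ha, hb]; ring
  obtain ⟨T, hT, hT1, hT2⟩ : ∃ T : Ph n →ₗ[ℝ] Ph n, Symp T ∧ T u' = u' ∧ T (S v) = v' := by
    by_cases hz : om (S v) v' = 0
    · obtain ⟨T1, h1, h2, h3⟩ := key (S v) (u' + S v) hb
        (by rw [om_add_right, om_self, hb, zero_add])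
        (by rw [om_add_right, om_self, add_zero, om_swap, hb]; norm_num)
      obtain ⟨T2, g1, g2, g3⟩ := key (u' + S v) v'
        (by rw [om_add_right, om_self, hb, zero_add]) h'
        (by rw [om_add_left, h', hz]; norm_num)
      exact ⟨T2 ∘ₗ T1, g1.comp h1, by rw [LinearMap.comp_apply, h2, g2],
        by rw [LinearMap.comp_apply, h3, g3]⟩
    · exact key _ _ hb h' hz
  exact ⟨T ∘ₗ S, hT.comp hS, by rw [LinearMap.comp_apply, hSu, hT1],
    by rw [LinearMap.comp_apply, hT2]⟩

end Pool.Agent.TH753.VT
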