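import Pool.Agent.H912R3.Pair
import Pool.Agent.TH753.VT1

/-!
From the volume product bound to a hyperbolic pair of functionals on a symmetric body.
-/

set_option autoImplicit false

open MeasureTheory Set
open scoped Matrix

namespace Pool.Agent.TH753.VT

open Pool.Agent.H912R3 H712MA.GB

variable {n : ℕ}

/-- coordinates -/
def emb (z : Ph n) : Fin (n + n) → ℝ := Fin.append z.1 z.2

/-- inverse coordinates -/
def unemb (w : Fin (n + n) → ℝ) : Ph n := (fun i => w (Fin.castAdd n i), fun i => w (Fin.natAdd n i))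

theorem unemb_emb (z : Ph n) : unemb (emb z) = z := by
  refine Prod.ext ?_ ?_ <;> funext i <;> simp only [unemb, emb, Fin.append_left, Fin.append_right]

theorem emb_unemb (w : Fin (n + n) → ℝ) : emb (unemb w) = w := by
  funext i
  refine Fin.addCases (fun i => ?_) (fun i => ?_) i <;>
    simp only [unemb, emb, Fin.append_left, Fin.append_right]

theorem emb_dot (z w : Ph n) : emb z ⬝ᵥ emb w = z.1 ⬝ᵥ w.1 + z.2 ⬝ᵥ w.2 := by
  unfold dotProduct
  rw [Fin.sum_univ_add]
  simp only [emb, Fin.append_left, Fin.append_right]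

theorem emb_eq (z : Ph n) : emb z =
    (MeasurableEquiv.piCongrLeft (fun _ => ℝ) finSumFinEquiv)
      ((MeasurableEquiv.sumPiEquivProdPi (fun _ : Fin n ⊕ Fin n => ℝ)).symm z) := by
  funext i
  refine Fin.addCases (fun i => ?_) (fun i => ?_) i
  · have : Fin.castAdd n i = finSumFinEquiv (Sum.inl i) := by simp
    rw [this, MeasurableEquiv.coe_piCongrLeft, Equiv.piCongrLeft_apply_apply]
    simp [emb, MeasurableEquiv.sumPiEquivProdPi, Equiv.sumPiEquivProdPi]
  · have : Fin.natAdd n i = finSumFinEquiv (Sum.inr i) := by simp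
    rw [this, MeasurableEquiv.coe_piCongrLeft, Equiv.piCongrLeft_apply_apply, ← this]
    simp only [emb, Fin.append_right, MeasurableEquiv.sumPiEquivProdPi, Equiv.sumPiEquivProdPi]
    rfl

theorem emb_mp : MeasurePreserving (emb : Ph n → Fin (n + n) → ℝ) volume volume := by
  have h1 := volume_measurePreserving_piCongrLeft (fun _ : Fin (n + n) => ℝ)
    (finSumFinEquiv : Fin n ⊕ Fin n ≃ Fin (n + n))
  have h2 := volume_measurePreserving_sumPiEquivProdPi_symm (fun _ : Fin n ⊕ Fin n => ℝ)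
  have h3 := h1.comp h2
  have h4 : (emb : Ph n → Fin (n + n) → ℝ) = _ := funext emb_eq
  rw [h4]
  exact h3

theorem emb_cont : Continuous (emb : Ph n → Fin (n + n) → ℝ) := by
  refine continuous_pi fun i => ?_
  refine Fin.addCases (fun i => ?_) (fun i => ?_) i
  · simp only [emb, Fin.append_left]; fun_prop
  · simp only [emb, Fin.append_right]; fun_prop

theorem unemb_cont : Continuous (unemb : (Fin (n + n) → ℝ) → Ph n) := by
  unfold unemb
  fun_prop

theorem emb_image (K : Set (Ph n)) : emb '' K = unemb ⁻¹' K := by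
  ext w
  constructor
  · rintro ⟨z, hz, rfl⟩
    show unemb (emb z) ∈ K
    rwa [unemb_emb]
  · intro hw
    exact ⟨unemb w, hw, emb_unemb w⟩

theorem vol_emb {K : Set (Ph n)} (hK : IsCompact K) : volume (emb '' K) = volume K := by
  have h1 : IsCompact (emb '' K) := hK.image emb_cont
  rw [← emb_mp.measure_preimage h1.measurableSet.nullMeasurableSet]
  congr 1
  ext z
  constructor
  · rintro ⟨w, hw, hwz⟩
    have : w = z := by rw [← unemb_emb w, hwz, unemb_emb]
    rwa [← this]
  · intro hz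
    exact ⟨z, hz, rfl⟩

/-- symmetric convex body in phase space -/
structure SB (K : Set (Ph n)) : Prop where
  comp : IsCompact K
  conv : Convex ℝ K
  int : (interior K).Nonempty
  symm : ∀ x ∈ K, -x ∈ K

theorem emb_add (z w : Ph n) : emb (z + w) = emb z + emb w := by
  funext i
  refine Fin.addCases (fun i => ?_) (fun i => ?_) i <;>
    simp only [emb, Fin.append_left, Fin.append_right, Pi.add_apply, Prod.fst_add, Prod.snd_add]

theorem emb_smul (c : ℝ) (z : Ph n) : emb (c • z) = c • emb z := by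
  funext i
  refine Fin.addCases (fun i => ?_) (fun i => ?_) i <;>
    simp only [emb, Fin.append_left, Fin.append_right, Pi.smul_apply, Prod.smul_fst, Prod.smul_snd]

/-- coordinates as a linear map -/
def embL : Ph n →ₗ[ℝ] (Fin (n + n) → ℝ) where
  toFun := emb
  map_add' := emb_add
  map_smul' := emb_smul

theorem SB.emb {K : Set (Ph n)} (h : SB K) : SBody (VT.emb '' K) := by
  refine ⟨h.comp.image emb_cont, ?_, ?_, ?_⟩
  · exact h.conv.linear_image embL
  · obtain ⟨x, hx⟩ := h.int
    refine ⟨VT.emb x, ?_⟩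
    have h1 : IsOpen (VT.emb '' interior K) := by
      rw [emb_image]
      exact isOpen_interior.preimage unemb_cont
    exact interior_maximal (image_mono interior_subset) h1 ⟨x, hx, rfl⟩
  · rintro _ ⟨x, hx, rfl⟩
    refine ⟨-x, h.symm x hx, ?_⟩
    have := emb_smul (-1) x
    rwa [neg_one_smul, neg_one_smul] at this

/-- the complex structure `(q, p) ↦ (-p, q)` -/
def JJ (z : Ph n) : Ph n := (-z.2, z.1)

theorem JJ_mp : MeasurePreserving (JJ : Ph n → Ph n) volume volume := by
  have h1 : MeasurePreserving (Prod.map (fun x : Fin n → ℝ => -x) (fun x : Fin n → ℝ => x))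
      (volume : Measure (Ph n)) volume :=
    (Measure.measurePreserving_neg (volume : Measure (Fin n → ℝ))).prod
      (MeasurePreserving.id (volume : Measure (Fin n → ℝ)))
  have h2 : MeasurePreserving (Prod.swap : Ph n → Ph n) volume volume :=
    Measure.measurePreserving_swap
  exact h1.comp h2

theorem JJ_cont : Continuous (JJ : Ph n → Ph n) := by
  unfold JJ
  fun_prop

/-- inverse of `JJ` -/
def JI (z : Ph n) : Ph n := (z.2, -z.1)

theorem JI_JJ (z : Ph n) : JI (JJ z) = z := by
  refine Prod.ext ?_ ?_ <;> simp [JI, JJ]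

theorem JJ_JI (z : Ph n) : JJ (JI z) = z := by
  refine Prod.ext ?_ ?_ <;> simp [JI, JJ]

theorem JI_cont : Continuous (JI : Ph n → Ph n) := by
  unfold JI
  fun_prop

/-- `JJ` as a linear map -/
def JL : Ph n →ₗ[ℝ] Ph n where
  toFun := JJ
  map_add' x y := by
    refine Prod.ext ?_ ?_
    · simp only [JJ, Prod.snd_add, Prod.fst_add]; abel
    · simp only [JJ, Prod.snd_add, Prod.fst_add]
  map_smul' c x := by
    refine Prod.ext ?_ ?_ <;> simp [JJ]

theorem JJ_image (K : Set (Ph n)) : JJ '' K = JI ⁻¹' K := by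
  ext w
  constructor
  · rintro ⟨z, hz, rfl⟩
    show JI (JJ z) ∈ K
    rwa [JI_JJ]
  · intro hw
    exact ⟨JI w, hw, JJ_JI w⟩

theorem SB.JJ {K : Set (Ph n)} (h : SB K) : SB (VT.JJ '' K) := by
  refine ⟨h.comp.image JJ_cont, ?_, ?_, ?_⟩
  · exact h.conv.linear_image JL
  · obtain ⟨x, hx⟩ := h.int
    refine ⟨VT.JJ x, ?_⟩
    have h1 : IsOpen (VT.JJ '' interior K) := by
      rw [JJ_image]
      exact isOpen_interior.preimage JI_cont
    exact interior_maximal (image_mono interior_subset) h1 ⟨x, hx, rfl⟩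
  · rintro _ ⟨x, hx, rfl⟩
    refine ⟨-x, h.symm x hx, ?_⟩
    refine Prod.ext ?_ ?_ <;> simp [VT.JJ]

theorem vol_JJ {K : Set (Ph n)} (hK : IsCompact K) : volume (JJ '' K) = volume K := by
  have h1 : IsCompact (JJ '' K) := hK.image JJ_cont
  rw [← JJ_mp.measure_preimage h1.measurableSet.nullMeasurableSet]
  congr 1
  ext z
  constructor
  · rintro ⟨w, hw, hwz⟩
    have : w = z := by rw [← JI_JJ w, hwz, JI_JJ]
    rwa [← this]
  · intro hz
    exact ⟨z, hz, rfl⟩

/-- a pair of vectors `u, v` with `ω(u,v) = 1`, `|ω(u,·)| ≤ α < s` and `|ω(v,·)| ≤ 1` on `K` -/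
theorem exists_hyp {K : Set (Ph n)} (hK : SB K) {s : ℝ} (hs : 0 < s)
    (hv : ((n + n).factorial : ℝ) * ((volume K).toReal * (volume K).toReal) < (4 * s) ^ (n + n)) :
    ∃ (u v : Ph n) (α : ℝ), om u v = 1 ∧ 0 < α ∧ α < s ∧ (∀ z ∈ K, |om u z| ≤ α) ∧
      ∀ z ∈ K, |om v z| ≤ 1 := by
  obtain ⟨x, ξ, α, hxi, hxB, hα, hαs, hξA⟩ := exists_pair hK.emb hK.JJ.emb hs (by
    rw [vol_emb hK.comp, vol_emb hK.JJ.comp, vol_JJ hK.comp]
    exact hv)
  -- `ξ` and `x` as vectors of phase space
  set X := unemb x with hX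
  set Y := unemb ξ with hY
  have hx : x = emb X := (emb_unemb x).symm
  have hy : ξ = emb Y := (emb_unemb ξ).symm
  refine ⟨(Y.2, -Y.1), X, α, ?_, hα, hαs, ?_, ?_⟩
  · rw [hx, hy, emb_dot] at hxi
    rw [← hxi]
    unfold om dotProduct
    rw [← Finset.sum_add_distrib]
    exact Finset.sum_congr rfl fun i _ => by
      simp only [Pi.neg_apply]; ring
  · intro z hz
    have h1 := hξA (emb z) ⟨z, hz, rfl⟩
    rw [hy, emb_dot] at h1
    have h2 : om ((Y.2, -Y.1) : Ph n) z = Y.1 ⬝ᵥ z.1 + Y.2 ⬝ᵥ z.2 := by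
      unfold om dotProduct
      rw [← Finset.sum_add_distrib]
      exact Finset.sum_congr rfl fun i _ => by simp only [Pi.neg_apply]; ring
    rw [h2]; exact h1
  · intro z hz
    have h1 := hxB (emb (JJ z)) ⟨JJ z, ⟨z, hz, rfl⟩, rfl⟩
    rw [hx, emb_dot] at h1
    have h2 : om X z = -(X.1 ⬝ᵥ (JJ z).1 + X.2 ⬝ᵥ (JJ z).2) := by
      unfold om dotProduct
      rw [← Finset.sum_add_distrib, ← Finset.sum_neg_distrib]
      exact Finset.sum_congr rfl fun i _ => by simp only [Pi.neg_apply, JJ]; ring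
    rw [h2, abs_neg]; exact h1

end Pool.Agent.TH753.VT
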